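import Mathlib

set_option autoImplicit false

namespace Pool.Agent.Helper9.AP3

/-- distinct `{0,1,2}`-sums -/
def D {k : ℕ} (b : Fin k → ℕ) : Prop :=
  ∀ δ δ' : Fin k → ℕ, (∀ i, δ i ≤ 2) → (∀ i, δ' i ≤ 2) →
    ∑ i, δ i * b i = ∑ i, δ' i * b i → δ = δ'

def mask : List ℕ → ℕ
  | [] => 1
  | b :: L => Nat.lor (Nat.lor (mask L) (Nat.shiftLeft (mask L) b))
      (Nat.shiftLeft (mask L) (2 * b))

def chk : List ℕ → Bool
  | [] => true
  | b :: L => (Nat.beq (Nat.land (mask L) (Nat.shiftLeft (mask L) b)) 0 &&
      Nat.beq (Nat.land (mask L) (Nat.shiftLeft (mask L) (2 * b))) 0) && chk L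

theorem testBit_shift (S a n : ℕ) :
    (Nat.shiftLeft S a).testBit n = true ↔ ∃ m, S.testBit m = true ∧ n = m + a := by
  have h : Nat.shiftLeft S a = S <<< a := rfl
  rw [h, Nat.testBit_shiftLeft]
  constructor
  · intro h
    simp only [ge_iff_le, Bool.and_eq_true, decide_eq_true_eq] at h
    exact ⟨n - a, h.2, by omega⟩
  · rintro ⟨m, hm, rfl⟩
    simp [hm]

theorem land_ne_zero {S T n : ℕ} (h1 : S.testBit n = true) (h2 : T.testBit n = true) :
    Nat.land S T ≠ 0 := by
  intro h
  have h' : (S &&& T) = 0 := h
  have : (S &&& T).testBit n = true := by rw [Nat.testBit_and, h1, h2]; rfl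
  rw [h'] at this
  simp at this

theorem exists_of_land_ne_zero {S T : ℕ} (h : Nat.land S T ≠ 0) :
    ∃ n, S.testBit n = true ∧ T.testBit n = true := by
  have h' : (S &&& T) ≠ 0 := h
  obtain ⟨n, hn⟩ := Nat.exists_testBit_of_ne_zero h'
  rw [Nat.testBit_and, Bool.and_eq_true] at hn
  exact ⟨n, hn⟩

theorem mem_mask (L : List ℕ) : ∀ n, (mask L).testBit n = true ↔
    ∃ δ : Fin L.length → ℕ, (∀ i, δ i ≤ 2) ∧ ∑ i, δ i * L.get i = n := by
  induction L with
  | nil =>
    intro n
    simp only [mask, List.length_nil, Finset.univ_eq_empty, Finset.sum_empty]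
    constructor
    · intro h
      refine ⟨fun _ => 0, fun i => by simp, ?_⟩
      exact (Nat.testBit_one_eq_true_iff_self_eq_zero.1 h).symm
    · rintro ⟨_, _, h⟩
      subst h
      rfl
  | cons a L ih =>
    intro n
    have e1 : (mask (a :: L)).testBit n =
        (((mask L).testBit n || (Nat.shiftLeft (mask L) a).testBit n) ||
          (Nat.shiftLeft (mask L) (2 * a)).testBit n) := by
      show ((mask L ||| Nat.shiftLeft (mask L) a) ||| Nat.shiftLeft (mask L) (2 * a)).testBit n = _
      rw [Nat.testBit_or, Nat.testBit_or]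
    rw [e1, Bool.or_eq_true, Bool.or_eq_true, testBit_shift, testBit_shift]
    have key : ∀ (c m : ℕ), c ≤ 2 → (mask L).testBit m = true →
        ∃ δ : Fin (a :: L).length → ℕ, (∀ i, δ i ≤ 2) ∧ ∑ i, δ i * (a :: L).get i = m + c * a := by
      intro c m hc hm
      obtain ⟨δ, hδ, hs⟩ := (ih m).1 hm
      refine ⟨Fin.cons c δ, ?_, ?_⟩
      · intro i
        refine Fin.cases ?_ (fun j => ?_) i
        · simpa using hc
        · simpa using hδ j
      · show ∑ i : Fin (L.length + 1), _ = _
        rw [Fin.sum_univ_succ]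
        have : ∑ i : Fin L.length, (Fin.cons c δ : Fin (L.length + 1) → ℕ) i.succ *
            (a :: L).get i.succ = ∑ i, δ i * L.get i := by
          refine Finset.sum_congr rfl fun i _ => ?_
          rw [Fin.cons_succ]
          rfl
        rw [this, hs]
        simp
        ring
    constructor
    · rintro ((h | ⟨m, hm, rfl⟩) | ⟨m, hm, rfl⟩)
      · obtain ⟨δ, h1, h2⟩ := key 0 n (by norm_num) h
        exact ⟨δ, h1, by rw [h2]; ring⟩
      · obtain ⟨δ, h1, h2⟩ := key 1 m (by norm_num) hm
        exact ⟨δ, h1, by rw [h2]; ring⟩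
      · obtain ⟨δ, h1, h2⟩ := key 2 m (by norm_num) hm
        exact ⟨δ, h1, by rw [h2]⟩
    · rintro ⟨δ, hδ, hs⟩
      have hs' : δ 0 * a + ∑ i : Fin L.length, δ i.succ * L.get i = n := by
        rw [← hs]
        show _ = ∑ i : Fin (L.length + 1), _
        rw [Fin.sum_univ_succ]
        rfl
      have hm : (mask L).testBit (∑ i : Fin L.length, δ i.succ * L.get i) = true :=
        (ih _).2 ⟨fun i => δ i.succ, fun i => hδ _, rfl⟩
      have h0 : δ 0 ≤ 2 := hδ 0
      have h0' : δ 0 = 0 ∨ δ 0 = 1 ∨ δ 0 = 2 := by omega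
      rcases h0' with h | h | h
      · left; left
        rw [h, zero_mul, zero_add] at hs'
        rw [← hs']; exact hm
      · left; right
        exact ⟨_, hm, by rw [← hs', h]; ring⟩
      · right
        exact ⟨_, hm, by rw [← hs', h]; ring⟩

theorem sum_cons (a : ℕ) (L : List ℕ) (δ : Fin (a :: L).length → ℕ) :
    ∑ i, δ i * (a :: L).get i = δ 0 * a + ∑ i : Fin L.length, δ i.succ * L.get i := by
  show ∑ i : Fin (L.length + 1), _ = _
  rw [Fin.sum_univ_succ]
  rfl

theorem chk_iff (L : List ℕ) : chk L = true ↔ D L.get := by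
  induction L with
  | nil =>
    simp only [chk, true_iff]
    intro δ δ' _ _ _
    funext i
    exact i.elim0
  | cons a L ih =>
    simp only [chk, Bool.and_eq_true, Nat.beq_eq]
    rw [ih]
    constructor
    · rintro ⟨⟨h1, h2⟩, hD⟩
      -- main asymmetric statement
      have key : ∀ δ δ' : Fin (a :: L).length → ℕ, (∀ i, δ i ≤ 2) → (∀ i, δ' i ≤ 2) →
          ∑ i, δ i * (a :: L).get i = ∑ i, δ' i * (a :: L).get i → δ 0 ≤ δ' 0 → δ = δ' := by
        intro δ δ' hδ hδ' hs hle
        rw [sum_cons, sum_cons] at hs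
        have hm : (mask L).testBit (∑ i : Fin L.length, δ i.succ * L.get i) = true :=
          (mem_mask L _).2 ⟨fun i => δ i.succ, fun i => hδ _, rfl⟩
        have hm' : (mask L).testBit (∑ i : Fin L.length, δ' i.succ * L.get i) = true :=
          (mem_mask L _).2 ⟨fun i => δ' i.succ, fun i => hδ' _, rfl⟩
        have h0 : δ' 0 ≤ 2 := hδ' 0
        have hcases : δ' 0 = δ 0 ∨ δ' 0 = δ 0 + 1 ∨ δ' 0 = δ 0 + 2 := by omega
        rcases hcases with h | h | h
        · rw [h] at hs
          have hs2 := Nat.add_left_cancel hs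
          have := hD (fun i => δ i.succ) (fun i => δ' i.succ) (fun i => hδ _) (fun i => hδ' _) hs2
          funext i
          revert i
          intro i
          refine Fin.cases ?_ (fun j => ?_) i
          · exact h.symm
          · exact congrFun this j
        · exfalso
          refine land_ne_zero hm ?_ h1
          rw [testBit_shift]
          refine ⟨_, hm', ?_⟩
          rw [h] at hs
          nlinarith
        · exfalso
          refine land_ne_zero hm ?_ h2
          rw [testBit_shift]
          refine ⟨_, hm', ?_⟩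
          rw [h] at hs
          nlinarith
      intro δ δ' hδ hδ' hs
      rcases le_total (δ 0) (δ' 0) with h | h
      · exact key δ δ' hδ hδ' hs h
      · exact (key δ' δ hδ' hδ hs.symm h).symm
    · intro hD
      have key : ∀ c : ℕ, 0 < c → c ≤ 2 →
          Nat.land (mask L) (Nat.shiftLeft (mask L) (c * a)) = 0 := by
        intro c hc hc2
        by_contra hne
        obtain ⟨n, hn1, hn2⟩ := exists_of_land_ne_zero hne
        rw [testBit_shift] at hn2
        obtain ⟨m, hm, rfl⟩ := hn2
        obtain ⟨δ, hδ, hs⟩ := (mem_mask L _).1 hn1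
        obtain ⟨δ', hδ', hs'⟩ := (mem_mask L _).1 hm
        have := hD (Fin.cons 0 δ : Fin (L.length + 1) → ℕ) (Fin.cons c δ' : Fin (L.length + 1) → ℕ)
          (by
            intro i
            refine Fin.cases ?_ (fun j => ?_) i
            · simp
            · simpa using hδ j)
          (by
            intro i
            refine Fin.cases ?_ (fun j => ?_) i
            · simpa using hc2
            · simpa using hδ' j)
          (by
            rw [sum_cons, sum_cons]
            show 0 * a + ∑ i : Fin L.length, δ i * L.get i = c * a + ∑ i : Fin L.length, δ' i * L.get i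
            rw [hs, hs']; ring)
        have h0 := congrFun this 0
        simp at h0
        omega
      refine ⟨⟨?_, ?_⟩, ?_⟩
      · simpa using key 1 (by norm_num) (by norm_num)
      · exact key 2 (by norm_num) (by norm_num)
      · intro δ δ' hδ hδ' hs
        have := hD (Fin.cons 0 δ : Fin (L.length + 1) → ℕ) (Fin.cons 0 δ' : Fin (L.length + 1) → ℕ)
          (by
            intro i
            refine Fin.cases ?_ (fun j => ?_) i
            · simp
            · simpa using hδ j)
          (by
            intro i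
            refine Fin.cases ?_ (fun j => ?_) i
            · simp
            · simpa using hδ' j)
          (by
            rw [sum_cons, sum_cons]
            show 0 * a + ∑ i : Fin L.length, δ i * L.get i = 0 * a + ∑ i : Fin L.length, δ' i * L.get i
            rw [hs])
        funext i
        simpa using congrFun this i.succ

/-- tripling -/
theorem D_triple {k : ℕ} (b : Fin k → ℕ) (h : D b) :
    D (Fin.cons 1 (fun i => 3 * b i) : Fin (k + 1) → ℕ) := by
  intro δ δ' hδ hδ' hs
  rw [Fin.sum_univ_succ, Fin.sum_univ_succ] at hs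
  simp only [Fin.cons_zero, Fin.cons_succ, mul_one] at hs
  have e : ∀ ε : Fin (k + 1) → ℕ, ∑ i : Fin k, ε i.succ * (3 * b i) =
      3 * ∑ i : Fin k, ε i.succ * b i := by
    intro ε
    rw [Finset.mul_sum]
    exact Finset.sum_congr rfl fun i _ => by ring
  rw [e, e] at hs
  have h1 := hδ 0
  have h2 := hδ' 0
  have h3 : δ 0 = δ' 0 := by omega
  have h4 : ∑ i : Fin k, δ i.succ * b i = ∑ i : Fin k, δ' i.succ * b i := by omega
  have h5 := h (fun i => δ i.succ) (fun i => δ' i.succ) (fun i => hδ _) (fun i => hδ' _) h4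
  funext i
  refine Fin.cases ?_ (fun j => ?_) i
  · exact h3
  · exact congrFun h5 j

def base14 : List ℕ := [896001 - 301361, 896001 - 102263, 896001 - 34709, 896001 - 11785,
  896001 - 4041, 896001 - 1387, 896001 - 477, 896001 - 169, 896001 - 60, 896001 - 22,
  896001 - 8, 896001 - 3, 896001 - 1, 896001]

theorem chk_base14 : chk base14 = true := by decide +kernel

end Pool.Agent.Helper9.AP3
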