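import Mathlib
import Pool.Agent.Helper9.AP3

set_option autoImplicit false

namespace Pool.Agent.Helper9.AP3

/-- nonempty subset sums -/
def Sig {k : ℕ} (b : Fin k → ℕ) : Set ℕ := {s | ∃ T : Finset (Fin k), T.Nonempty ∧ ∑ i ∈ T, b i = s}

def HasAP (S : Set ℕ) : Prop := ∃ x d : ℕ, 0 < d ∧ x ∈ S ∧ x + d ∈ S ∧ x + 2 * d ∈ S

theorem not_hasAP_of_D {k : ℕ} (b : Fin k → ℕ) (hD : D b) : ¬ HasAP (Sig b) := by
  classical
  rintro ⟨x, d, hd, ⟨T1, _, h1⟩, ⟨T2, _, h2⟩, ⟨T3, _, h3⟩⟩
  have hsum : ∀ T : Finset (Fin k), ∑ i, (if i ∈ T then 1 else 0) * b i = ∑ i ∈ T, b i := by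
    intro T
    simp [Finset.sum_ite_mem]
  have := hD (fun i => (if i ∈ T1 then 1 else 0) + (if i ∈ T3 then 1 else 0))
    (fun i => 2 * (if i ∈ T2 then 1 else 0))
    (by intro i; split_ifs <;> omega) (by intro i; split_ifs <;> omega)
    (by
      simp only [add_mul, Finset.sum_add_distrib, mul_assoc, ← Finset.mul_sum, hsum]
      omega)
  have h12 : T1 = T2 := by
    ext i
    have := congrFun this i
    by_cases a1 : i ∈ T1 <;> by_cases a2 : i ∈ T2 <;> by_cases a3 : i ∈ T3 <;>
      simp [a1, a2, a3] at this ⊢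
  rw [h12, h2] at h1
  omega

theorem D_of_not_hasAP {k : ℕ} (b : Fin k → ℕ) (hmono : StrictMono b) (hpos : ∀ i, 0 < b i)
    (hAP : ¬ HasAP (Sig b)) : D b := by
  classical
  by_contra hD
  unfold D at hD
  push Not at hD
  obtain ⟨δ, δ', hδ, hδ', hs, hne⟩ := hD
  apply hAP
  -- positive sums
  have hsumpos : ∀ T : Finset (Fin k), T.Nonempty → 0 < ∑ i ∈ T, b i := by
    intro T hT
    exact Finset.sum_pos (fun i _ => hpos i) hT
  -- general AP producer: sets X Y Z
  have mk : ∀ X Y Z : Finset (Fin k), X.Nonempty → Y.Nonempty → Z.Nonempty →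
      ∑ i ∈ X, b i + ∑ i ∈ Z, b i = 2 * ∑ i ∈ Y, b i → ∑ i ∈ X, b i ≠ ∑ i ∈ Z, b i →
      HasAP (Sig b) := by
    intro X Y Z hX hY hZ hsum hXZ
    rcases lt_or_gt_of_ne hXZ with h | h
    · refine ⟨∑ i ∈ X, b i, ∑ i ∈ Y, b i - ∑ i ∈ X, b i, by omega, ⟨X, hX, rfl⟩, ⟨Y, hY, by omega⟩,
        ⟨Z, hZ, by omega⟩⟩
    · refine ⟨∑ i ∈ Z, b i, ∑ i ∈ Y, b i - ∑ i ∈ Z, b i, by omega, ⟨Z, hZ, rfl⟩, ⟨Y, hY, by omega⟩,
        ⟨X, hX, by omega⟩⟩
  -- the core statement about relations
  have core : ∀ P2 P1 N1 N2 : Finset (Fin k), Disjoint P2 P1 → Disjoint P2 N1 → Disjoint P1 N1 →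
      Disjoint P1 N2 → Disjoint N1 N2 →
      2 * ∑ i ∈ P2, b i + ∑ i ∈ P1, b i = ∑ i ∈ N1, b i + 2 * ∑ i ∈ N2, b i →
      (P1 ∪ N1).Nonempty → HasAP (Sig b) := by
    intro P2 P1 N1 N2 d1 d2 d3 d4 d5 hrel hO
    have hunion : ∑ i ∈ P1 ∪ N1, b i = ∑ i ∈ P1, b i + ∑ i ∈ N1, b i := Finset.sum_union d3
    have hY : ∑ i ∈ N1 ∪ N2, b i = ∑ i ∈ N1, b i + ∑ i ∈ N2, b i := Finset.sum_union d5
    have hYne : 0 < ∑ i ∈ N1 ∪ N2, b i → (N1 ∪ N2).Nonempty := by
      intro h
      by_contra hcon
      rw [Finset.not_nonempty_iff_eq_empty] at hcon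
      rw [hcon] at h
      simp at h
    have hOpos := hsumpos _ hO
    by_cases hP2 : P2.Nonempty
    · have hP2pos := hsumpos _ hP2
      have hX : ∑ i ∈ P2 ∪ (P1 ∪ N1), b i = ∑ i ∈ P2, b i + ∑ i ∈ P1 ∪ N1, b i :=
        Finset.sum_union (Finset.disjoint_union_right.2 ⟨d1, d2⟩)
      exact mk (P2 ∪ (P1 ∪ N1)) (N1 ∪ N2) P2 (hP2.mono Finset.subset_union_left)
        (hYne (by omega)) hP2 (by omega) (by omega)
    · rw [Finset.not_nonempty_iff_eq_empty] at hP2
      subst hP2
      rw [Finset.sum_empty, mul_zero, zero_add] at hrel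
      have hj := Finset.min'_mem _ hO
      set j := (P1 ∪ N1).min' hO with hjdef
      by_cases hcard : ((P1 ∪ N1).erase j).Nonempty
      · have he : ∑ i ∈ (P1 ∪ N1).erase j, b i + b j = ∑ i ∈ P1 ∪ N1, b i :=
          Finset.sum_erase_add _ _ hj
        obtain ⟨i, hi⟩ := hcard
        have hij : j < i := by
          refine lt_of_le_of_ne (Finset.min'_le _ _ (Finset.mem_of_mem_erase hi)) ?_
          exact (Finset.ne_of_mem_erase hi).symm
        have hbi : b j < b i := hmono hij
        have hle : b i ≤ ∑ i ∈ (P1 ∪ N1).erase j, b i :=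
          Finset.single_le_sum (f := b) (fun _ _ => Nat.zero_le _) hi
        refine mk ((P1 ∪ N1).erase j) (N1 ∪ N2) {j} ⟨i, hi⟩ (hYne (by omega))
          (Finset.singleton_nonempty j) ?_ ?_
        · rw [Finset.sum_singleton]; omega
        · rw [Finset.sum_singleton]; omega
      · rw [Finset.not_nonempty_iff_eq_empty] at hcard
        have hOeq : P1 ∪ N1 = {j} := by
          rw [Finset.eq_singleton_iff_unique_mem]
          refine ⟨hj, fun x hx => ?_⟩
          by_contra hne'
          have : x ∈ (P1 ∪ N1).erase j := Finset.mem_erase.2 ⟨hne', hx⟩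
          rw [hcard] at this
          simp at this
        have hsumO : ∑ i ∈ P1, b i + ∑ i ∈ N1, b i = b j := by
          rw [← hunion, hOeq, Finset.sum_singleton]
        by_cases hjP : j ∈ P1
        · have hP1 : P1 = {j} := by
            apply Finset.Subset.antisymm
            · rw [← hOeq]; exact Finset.subset_union_left
            · simpa using hjP
          rw [hP1, Finset.sum_singleton] at hsumO hrel
          have hjN : j ∉ N2 := by
            intro h
            exact (Finset.disjoint_left.1 d4) hjP h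
          have hN2 : N2.Nonempty := by
            by_contra hcon
            rw [Finset.not_nonempty_iff_eq_empty] at hcon
            rw [hcon, Finset.sum_empty] at hrel
            have := hpos j
            omega
          have hN2pos := hsumpos _ hN2
          refine ⟨∑ i ∈ N2, b i, ∑ i ∈ N2, b i, hN2pos, ⟨N2, hN2, rfl⟩, ⟨{j}, by simp, ?_⟩,
            ⟨insert j N2, by simp, ?_⟩⟩
          · rw [Finset.sum_singleton]; omega
          · rw [Finset.sum_insert hjN]; omega
        · exfalso
          have hjN : j ∈ N1 := by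
            rcases Finset.mem_union.1 hj with h | h
            · exact absurd h hjP
            · exact h
          have hle : b j ≤ ∑ i ∈ N1, b i :=
            Finset.single_le_sum (f := b) (fun _ _ => Nat.zero_le _) hjN
          have := hpos j
          omega
  have hpt : ∀ i, δ i + ((if δ' i = δ i + 1 then 1 else 0) + 2 * (if δ' i = δ i + 2 then 1 else 0)) =
      δ' i + ((if δ i = δ' i + 1 then 1 else 0) + 2 * (if δ i = δ' i + 2 then 1 else 0)) := by
    intro i
    have h1 := hδ i
    have h2 := hδ' i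
    split_ifs <;> omega
  have hS : ∀ p : Fin k → Prop, [DecidablePred p] →
      ∑ i, (if p i then 1 else 0) * b i = ∑ i ∈ Finset.univ.filter p, b i := by
    intro p _
    rw [Finset.sum_filter]
    refine Finset.sum_congr rfl fun i _ => ?_
    split_ifs <;> simp
  have htot := Finset.sum_congr (rfl : (Finset.univ : Finset (Fin k)) = Finset.univ)
    (fun i _ => congrArg (· * b i) (hpt i))
  simp only [add_mul, Finset.sum_add_distrib, mul_assoc, ← Finset.mul_sum, hS, hs] at htot
  have hrel := Nat.add_left_cancel htot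
  by_cases hO : ((Finset.univ.filter fun i => δ i = δ' i + 1) ∪
      (Finset.univ.filter fun i => δ' i = δ i + 1)).Nonempty
  · refine core (Finset.univ.filter fun i => δ i = δ' i + 2)
      (Finset.univ.filter fun i => δ i = δ' i + 1)
      (Finset.univ.filter fun i => δ' i = δ i + 1) (Finset.univ.filter fun i => δ' i = δ i + 2)
      ?_ ?_ ?_ ?_ ?_ (by omega) hO
    all_goals
      rw [Finset.disjoint_filter]
      intro i _ h1 h2
      omega
  · rw [Finset.not_nonempty_iff_eq_empty, Finset.union_eq_empty] at hO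
    rw [hO.1, hO.2] at hrel
    simp only [Finset.sum_empty, zero_add] at hrel
    refine core ∅ (Finset.univ.filter fun i => δ i = δ' i + 2)
      (Finset.univ.filter fun i => δ' i = δ i + 2) ∅ (by simp) (by simp) ?_ (by simp) (by simp)
      (by simp; omega) ?_
    · rw [Finset.disjoint_filter]
      intro i _ h1 h2
      omega
    · obtain ⟨i, hi⟩ := Function.ne_iff.1 hne
      have n1 : ¬ (δ i = δ' i + 1) := by
        intro h
        have : i ∈ (Finset.univ.filter fun i => δ i = δ' i + 1) := by simp [h]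
        rw [hO.1] at this
        simp at this
      have n2 : ¬ (δ' i = δ i + 1) := by
        intro h
        have : i ∈ (Finset.univ.filter fun i => δ' i = δ i + 1) := by simp [h]
        rw [hO.2] at this
        simp at this
      have h1 := hδ i
      have h2 := hδ' i
      refine ⟨i, ?_⟩
      simp only [Finset.mem_union, Finset.mem_filter, Finset.mem_univ, true_and]
      omega

end Pool.Agent.Helper9.AP3
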