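import Mathlib
import Pool.Agent.Helper9.AP3

set_option autoImplicit false

namespace Pool.Agent.Helper9.AP3

theorem sum_Icc_sq (m : ℕ) : 3 * ∑ x ∈ Finset.Icc (-(m : ℤ)) m, x ^ 2 = m * (m + 1) * (2 * m + 1) := by
  induction m with
  | zero => simp
  | succ m ih =>
    have h : Finset.Icc (-((m + 1 : ℕ) : ℤ)) ((m + 1 : ℕ) : ℤ) =
        insert ((m : ℤ) + 1) (insert (-((m : ℤ) + 1)) (Finset.Icc (-(m : ℤ)) m)) := by
      ext x
      simp only [Finset.mem_Icc, Finset.mem_insert]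
      push_cast
      omega
    rw [h, Finset.sum_insert, Finset.sum_insert]
    · rw [mul_add, mul_add, ih]
      push_cast
      ring
    · simp only [Finset.mem_Icc]
      omega
    · simp only [Finset.mem_Icc, Finset.mem_insert]
      omega

theorem sum_sq_lower (S : Finset ℤ) (m : ℕ) (hS : S.card = 2 * m + 1) :
    (m : ℤ) * (m + 1) * (2 * m + 1) ≤ 3 * ∑ x ∈ S, x ^ 2 := by
  rw [← sum_Icc_sq]
  set I := Finset.Icc (-(m : ℤ)) m with hI
  have hcardI : I.card = 2 * m + 1 := by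
    rw [hI, Int.card_Icc]
    omega
  have h1 : ∑ x ∈ S \ I, x ^ 2 + ∑ x ∈ S ∩ I, x ^ 2 = ∑ x ∈ S, x ^ 2 := by
    rw [← Finset.sdiff_inter_self_left S I]
    exact Finset.sum_sdiff (Finset.inter_subset_left)
  have h2 : ∑ x ∈ I \ S, x ^ 2 + ∑ x ∈ I ∩ S, x ^ 2 = ∑ x ∈ I, x ^ 2 := by
    rw [← Finset.sdiff_inter_self_left I S]
    exact Finset.sum_sdiff (Finset.inter_subset_left)
  have h3 : (S \ I).card = (I \ S).card := Finset.card_sdiff_comm (by rw [hS, hcardI])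
  have h4 : ((S \ I).card : ℤ) * (m : ℤ) ^ 2 ≤ ∑ x ∈ S \ I, x ^ 2 := by
    rw [← nsmul_eq_mul]
    apply Finset.card_nsmul_le_sum
    intro x hx
    rw [Finset.mem_sdiff, hI, Finset.mem_Icc] at hx
    have : (m : ℤ) < |x| := by
      by_contra hcon
      push Not at hcon
      exact hx.2 (abs_le.1 hcon)
    rw [← sq_abs x]
    gcongr
  have h5 : ∑ x ∈ I \ S, x ^ 2 ≤ ((I \ S).card : ℤ) * (m : ℤ) ^ 2 := by
    rw [← nsmul_eq_mul]
    apply Finset.sum_le_card_nsmul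
    intro x hx
    rw [Finset.mem_sdiff, hI, Finset.mem_Icc] at hx
    have : |x| ≤ m := abs_le.2 hx.1
    rw [← sq_abs x]
    gcongr
  rw [h3] at h4
  rw [Finset.inter_comm] at h1
  linarith

theorem second_moment (k : ℕ) : ∀ (b : Fin k → ℤ) (c : ℤ),
    3 * ∑ e : Fin k → Fin 3, (c + ∑ i, (((e i : ℕ) : ℤ) - 1) * b i) ^ 2 =
      3 ^ (k + 1) * c ^ 2 + 2 * 3 ^ k * ∑ i, b i ^ 2 := by
  induction k with
  | zero => intro b c; simp
  | succ k ih =>
    intro b c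
    rw [← (Fin.consEquiv (fun _ => Fin 3)).sum_comp, Fintype.sum_prod_type]
    have h : ∀ a : Fin 3, 3 * ∑ e : Fin k → Fin 3,
        (c + ∑ i, ((((Fin.consEquiv (fun _ => Fin 3)) (a, e) i : ℕ) : ℤ) - 1) * b i) ^ 2 =
        3 ^ (k + 1) * (c + (((a : ℕ) : ℤ) - 1) * b 0) ^ 2 + 2 * 3 ^ k * ∑ i : Fin k, b i.succ ^ 2 := by
      intro a
      rw [← ih]
      congr 1
      refine Finset.sum_congr rfl fun e _ => ?_
      rw [Fin.sum_univ_succ, ← add_assoc]
      rfl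
    rw [Finset.mul_sum, Fin.sum_univ_three, h, h, h, Fin.sum_univ_succ (f := fun i => b i ^ 2)]
    simp only [Fin.val_zero, Fin.val_one, Fin.val_two]
    push_cast
    ring

theorem variance_bound {k : ℕ} (b : Fin k → ℕ) (hD : D b) : 9 ^ k ≤ 1 + 8 * ∑ i, b i ^ 2 := by
  classical
  set F : (Fin k → Fin 3) → ℤ := fun e => 0 + ∑ i, (((e i : ℕ) : ℤ) - 1) * (b i : ℤ) with hF
  have hinj : Function.Injective F := by
    intro e e' h
    simp only [hF, zero_add, sub_mul, Finset.sum_sub_distrib, one_mul] at h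
    have h2 : ∑ i, ((e i : ℕ) : ℤ) * (b i : ℤ) = ∑ i, ((e' i : ℕ) : ℤ) * (b i : ℤ) := by linarith
    have h3 : ∑ i, (e i : ℕ) * b i = ∑ i, (e' i : ℕ) * b i := by exact_mod_cast h2
    have h4 := hD (fun i => (e i : ℕ)) (fun i => (e' i : ℕ)) (fun i => by have := (e i).2; omega)
      (fun i => by have := (e' i).2; omega) h3
    funext i
    exact Fin.ext (congrFun h4 i)
  obtain ⟨m, hm⟩ : ∃ m, 3 ^ k = 2 * m + 1 := by
    have : Odd (3 ^ k) := Odd.pow (by decide)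
    exact this
  have hcard : (Finset.univ.image F).card = 2 * m + 1 := by
    rw [Finset.card_image_of_injective _ hinj, Finset.card_univ]
    simp [← hm]
  have h1 := sum_sq_lower _ m hcard
  rw [Finset.sum_image (fun x _ y _ h => hinj h)] at h1
  have h2 := second_moment k (fun i => (b i : ℤ)) 0
  rw [h2] at h1
  have hm' : (3 : ℤ) ^ k = 2 * m + 1 := by exact_mod_cast hm
  have hsq : (9 : ℤ) ^ k = (2 * m + 1) ^ 2 := by
    rw [← hm', ← pow_mul, mul_comm, pow_mul]; norm_num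
  rw [hm'] at h1
  have h3 : (m : ℤ) * (m + 1) ≤ 2 * ∑ i, (b i : ℤ) ^ 2 := by
    have h4 : (0 : ℤ) < 2 * m + 1 := by positivity
    nlinarith
  have h5 : (9 : ℤ) ^ k ≤ 1 + 8 * ∑ i, (b i : ℤ) ^ 2 := by
    rw [hsq]; nlinarith
  exact_mod_cast h5

end Pool.Agent.Helper9.AP3
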