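import Mathlib

set_option autoImplicit false

namespace Pool.Agent.Helper9.Agree7

def perms : ℕ → List (List ℕ)
  | 0 => [[]]
  | k + 1 => (perms k).flatMap fun l =>
      ((List.range 7).filter fun x => !(l.elem x)).map fun x => x :: l

theorem mem_perms (k : ℕ) : ∀ l : List ℕ, l ∈ perms k ↔ l.length = k ∧ l.Nodup ∧ ∀ x ∈ l, x < 7 := by
  induction k with
  | zero =>
    intro l
    simp only [perms, List.mem_singleton]
    constructor
    · rintro rfl; simp
    · rintro ⟨h, _⟩; exact List.length_eq_zero_iff.1 h
  | succ k ih =>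
    intro l
    simp only [perms, List.mem_flatMap, List.mem_map, List.mem_filter, List.mem_range]
    constructor
    · rintro ⟨l', hl', x, ⟨hx, hxl⟩, rfl⟩
      obtain ⟨h1, h2, h3⟩ := (ih l').1 hl'
      have hx' : x ∉ l' := by simpa using hxl
      refine ⟨by simp [h1], List.nodup_cons.2 ⟨hx', h2⟩, ?_⟩
      intro y hy
      rcases List.mem_cons.1 hy with rfl | hy
      · exact hx
      · exact h3 y hy
    · rintro ⟨h1, h2, h3⟩
      cases l with
      | nil => simp at h1
      | cons x l' =>
        rw [List.nodup_cons] at h2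
        refine ⟨l', (ih l').2 ⟨by simpa using h1, h2.2, fun y hy => h3 y (List.mem_cons_of_mem _ hy)⟩,
          x, ⟨h3 x (List.mem_cons_self), by simpa using h2.1⟩, rfl⟩

theorem nodup_perms (k : ℕ) : (perms k).Nodup := by
  induction k with
  | zero => simp [perms]
  | succ k ih =>
    simp only [perms]
    rw [List.nodup_flatMap]
    constructor
    · intro l _
      apply List.Nodup.map
      · intro x y h
        exact (List.cons.inj h).1
      · exact List.Nodup.filter _ (List.nodup_range)
    · refine List.Pairwise.imp ?_ ih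
      intro l l' hne
      intro z hz hz'
      simp only [List.mem_map] at hz hz'
      obtain ⟨x, _, rfl⟩ := hz
      obtain ⟨y, _, h⟩ := hz'
      exact hne (List.cons.inj h).2.symm

def b (x y : ℕ) : ℕ := if x < y then 1 else 0

def agl : List ℕ → ℕ
  | [x0, x1, x2, x3, x4, x5, x6] =>
    b x0 x4 + (b x0 x5 + (b x0 x6 + (b x1 x3 + (b x1 x4 + (b x1 x6 + (b x2 x3 + (b x2 x5 +
      (b x2 x6 + b x4 x6))))))))
  | _ => 0

theorem c4 : ((perms 7).filter fun l => Nat.beq (agl l) 4).length = 792 := by decide +kernel
theorem c5 : ((perms 7).filter fun l => Nat.beq (agl l) 5).length = 764 := by decide +kernel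
theorem c6 : ((perms 7).filter fun l => Nat.beq (agl l) 6).length = 792 := by decide +kernel

end Pool.Agent.Helper9.Agree7
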