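import Mathlib
import Pool.Agent.Helper9.Agree7

set_option autoImplicit false

namespace Pool.Agent.Helper9.Agree7

def relL : List (Fin 7 × Fin 7) :=
  [(0,4),(0,5),(0,6),(1,3),(1,4),(1,6),(2,3),(2,5),(2,6),(4,6)]

def rel (x y : Fin 7) : Bool := relL.elem (x, y)

def P7 : Type := Fin 7

instance : Fintype P7 := inferInstanceAs (Fintype (Fin 7))

def mk (x : Fin 7) : P7 := x
def un (x : P7) : Fin 7 := x

instance : PartialOrder P7 where
  le x y := un x = un y ∨ rel (un x) (un y) = true
  le_refl x := Or.inl rfl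
  le_trans := by
    show ∀ x y z : Fin 7, (x = y ∨ rel x y = true) → (y = z ∨ rel y z = true) →
      (x = z ∨ rel x z = true)
    decide
  le_antisymm := by
    show ∀ x y : Fin 7, (x = y ∨ rel x y = true) → (y = x ∨ rel y x = true) → x = y
    decide

theorem lt_iff (x y : P7) : x < y ↔ (un x, un y) ∈ relL := by
  have h : ∀ x y : Fin 7, ((x = y ∨ rel x y = true) ∧ ¬ (y = x ∨ rel y x = true)) ↔
      (x, y) ∈ relL := by decide
  exact h x y

theorem card7 : Fintype.card P7 = 7 := rfl

noncomputable def L (σ : P7 ≃ Fin (Fintype.card P7)) : List ℕ :=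
  [(σ (mk 0)).val, (σ (mk 1)).val, (σ (mk 2)).val, (σ (mk 3)).val, (σ (mk 4)).val,
    (σ (mk 5)).val, (σ (mk 6)).val]

theorem L_eq (σ : P7 ≃ Fin (Fintype.card P7)) :
    L σ = List.ofFn (fun i : Fin 7 => (σ (mk i)).val) := by
  simp [L, List.ofFn_succ]

open Classical in
theorem agree_eq (σ : P7 ≃ Fin (Fintype.card P7)) :
    (Finset.univ.filter (fun p : P7 × P7 => p.1 < p.2 ∧ σ p.1 < σ p.2)).card = agl (L σ) := by
  have hset : (Finset.univ.filter (fun p : P7 × P7 => p.1 < p.2 ∧ σ p.1 < σ p.2)).card =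
      ((relL.toFinset : Finset (Fin 7 × Fin 7)).filter
        (fun p => (σ (mk p.1)).val < (σ (mk p.2)).val)).card := by
    refine Finset.card_bij' (fun p _ => (un p.1, un p.2)) (fun p _ => (mk p.1, mk p.2))
      ?_ ?_ ?_ ?_
    · intro p hp
      rw [Finset.mem_filter] at hp
      rw [Finset.mem_filter, List.mem_toFinset]
      exact ⟨(lt_iff p.1 p.2).1 hp.2.1, hp.2.2⟩
    · intro p hp
      rw [Finset.mem_filter, List.mem_toFinset] at hp
      rw [Finset.mem_filter]
      exact ⟨Finset.mem_univ _, (lt_iff _ _).2 hp.1, hp.2⟩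
    · intro p _
      rfl
    · intro p _
      rfl
  have hb : ∀ x y : Fin 7, (if (σ (mk x)).val < (σ (mk y)).val then 1 else 0 : ℕ) =
      b (σ (mk x)).val (σ (mk y)).val := by
    intro x y
    by_cases h : (σ (mk x)).val < (σ (mk y)).val
    · rw [b, if_pos h]
    · rw [b, if_neg h]
  rw [hset, Finset.card_filter, List.sum_toFinset _ (by decide)]
  simp only [relL, List.map_cons, List.map_nil, List.sum_cons, List.sum_nil, add_zero, hb]
  rfl

open Classical in
theorem a_eq (i : ℕ) :
    (Finset.univ.filter (fun σ : P7 ≃ Fin (Fintype.card P7) =>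
      (Finset.univ.filter (fun p : P7 × P7 => p.1 < p.2 ∧ σ p.1 < σ p.2)).card = i)).card =
    ((perms 7).filter fun l => Nat.beq (agl l) i).length := by
  rw [← List.toFinset_card_of_nodup ((nodup_perms 7).filter _)]
  refine Finset.card_bij (fun σ _ => L σ) ?_ ?_ ?_
  · intro σ hσ
    rw [Finset.mem_filter] at hσ
    rw [List.mem_toFinset, List.mem_filter, mem_perms]
    refine ⟨⟨rfl, ?_, ?_⟩, ?_⟩
    · rw [L_eq, List.nodup_ofFn]
      intro x y h
      exact σ.injective (Fin.ext h)
    · intro x hx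
      rw [L_eq, List.mem_ofFn] at hx
      obtain ⟨j, rfl⟩ := hx
      exact (σ (mk j)).2
    · rw [Nat.beq_eq]
      rw [← agree_eq]
      exact hσ.2
  · intro σ _ τ _ h
    rw [L_eq, L_eq] at h
    have h2 := List.ofFn_injective h
    apply Equiv.ext
    intro x
    exact Fin.ext (congrFun h2 x)
  · intro l hl
    rw [List.mem_toFinset, List.mem_filter, mem_perms] at hl
    obtain ⟨⟨h1, h2, h3⟩, h4⟩ := hl
    let f : P7 → Fin (Fintype.card P7) := fun x =>
      ⟨l.get ⟨(un x).val, by rw [h1]; exact (un x).2⟩, h3 _ (List.get_mem _ _)⟩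
    have hinj : Function.Injective f := by
      intro x y h
      have h5 := congrArg Fin.val h
      have h6 := List.nodup_iff_injective_get.1 h2 h5
      have h7 := congrArg Fin.val h6
      exact Fin.ext h7
    have hbij : Function.Bijective f :=
      (Fintype.bijective_iff_injective_and_card f).2 ⟨hinj, by simp⟩
    have hL : L (Equiv.ofBijective f hbij) = l := by
      rw [L_eq]
      apply List.ext_get
      · rw [List.length_ofFn, h1]
      · intro k hk1 hk2
        rw [List.get_ofFn]
        rfl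
    refine ⟨Equiv.ofBijective f hbij, ?_, hL⟩
    rw [Finset.mem_filter]
    refine ⟨Finset.mem_univ _, ?_⟩
    rw [agree_eq, hL]
    exact Nat.eq_of_beq_eq_true h4

open Classical in
theorem kcard : (Finset.univ.filter (fun p : P7 × P7 => p.1 < p.2)).card = 10 := by
  have hset : (Finset.univ.filter (fun p : P7 × P7 => p.1 < p.2)).card =
      (relL.toFinset : Finset (Fin 7 × Fin 7)).card := by
    refine Finset.card_bij' (fun p _ => (un p.1, un p.2)) (fun p _ => (mk p.1, mk p.2))
      ?_ ?_ ?_ ?_
    · intro p hp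
      rw [Finset.mem_filter] at hp
      rw [List.mem_toFinset]
      exact (lt_iff p.1 p.2).1 hp.2
    · intro p hp
      rw [List.mem_toFinset] at hp
      rw [Finset.mem_filter]
      exact ⟨Finset.mem_univ _, (lt_iff _ _).2 hp⟩
    · intro p _
      rfl
    · intro p _
      rfl
  rw [hset, List.toFinset_card_of_nodup (by decide)]
  rfl

open Classical in
theorem main : ¬ (∀ (α : Type) [Fintype α] [PartialOrder α] (a : ℕ → ℕ),
      (∀ i : ℕ, a i =
        (Finset.univ.filter (fun σ : α ≃ Fin (Fintype.card α) =>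
          (Finset.univ.filter (fun p : α × α => p.1 < p.2 ∧ σ p.1 < σ p.2)).card = i)).card) →
      ∃ m : ℕ,
        (∀ i j : ℕ, i ≤ j → j ≤ m → a i ≤ a j) ∧
        (∀ i j : ℕ, m ≤ i → i ≤ j →
          j ≤ (Finset.univ.filter (fun p : α × α => p.1 < p.2)).card → a j ≤ a i)) := by
  intro h
  obtain ⟨m, h1, h2⟩ := h P7 (fun i => ((perms 7).filter fun l => Nat.beq (agl l) i).length)
    (fun i => (a_eq i).symm)
  rcases le_total 5 m with hm | hm
  · have h3 := h1 4 5 (by norm_num) hm
    simp only [c4, c5] at h3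
    omega
  · have h3 := h2 5 6 hm (by norm_num) (by rw [kcard]; norm_num)
    simp only [c5, c6] at h3
    omega

end Pool.Agent.Helper9.Agree7
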