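import Mathlib

set_option autoImplicit false

namespace Pool.Agent.Helper9.BasicSeq

open Filter Topology

variable {𝕜 : Type*} [RCLike 𝕜]

section
variable {Y : Type*} [NormedAddCommGroup Y] [NormedSpace 𝕜 Y]

/-- Grunblum criterion, existence and uniqueness of expansions -/
theorem grunblum (y : ℕ → Y) (hne : ∀ n, y n ≠ 0) (K : ℝ) (hK1 : 1 ≤ K)
    (hK : ∀ (a : ℕ → 𝕜) (m n : ℕ), m ≤ n →
      ‖∑ i ∈ Finset.range m, a i • y i‖ ≤ K * ‖∑ i ∈ Finset.range n, a i • y i‖)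
    (v : Y) (hv : v ∈ (Submodule.span 𝕜 (Set.range y)).topologicalClosure) :
    ∃! α : ℕ → 𝕜, Tendsto (fun N => ∑ i ∈ Finset.range N, α i • y i) atTop (𝓝 v) := by
  have hypos : ∀ i, 0 < ‖y i‖ := fun i => norm_pos_iff.2 (hne i)
  -- coefficient bound
  have hcoef : ∀ (a : ℕ → 𝕜) (i n : ℕ), i < n →
      ‖a i‖ * ‖y i‖ ≤ 2 * K * ‖∑ j ∈ Finset.range n, a j • y j‖ := by
    intro a i n hin
    have h1 := hK a i n hin.le
    have h2 := hK a (i + 1) n hin
    have h3 : a i • y i = ∑ j ∈ Finset.range (i + 1), a j • y j - ∑ j ∈ Finset.range i, a j • y j := by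
      rw [Finset.sum_range_succ]; abel
    rw [← norm_smul, h3]
    refine (norm_sub_le _ _).trans ?_
    linarith
  -- uniqueness
  have huniq : ∀ α β : ℕ → 𝕜, Tendsto (fun N => ∑ i ∈ Finset.range N, α i • y i) atTop (𝓝 v) →
      Tendsto (fun N => ∑ i ∈ Finset.range N, β i • y i) atTop (𝓝 v) → α = β := by
    intro α β hα hβ
    have hd : Tendsto (fun N => ∑ i ∈ Finset.range N, (α i - β i) • y i) atTop (𝓝 0) := by
      have := hα.sub hβ
      rw [sub_self] at this
      refine this.congr fun N => ?_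
      rw [← Finset.sum_sub_distrib]
      exact Finset.sum_congr rfl fun i _ => (sub_smul _ _ _).symm
    funext i
    have hlim : Tendsto (fun n => 2 * K * ‖∑ j ∈ Finset.range n, (α j - β j) • y j‖) atTop
        (𝓝 (2 * K * ‖(0 : Y)‖)) := (hd.norm).const_mul _
    have hle : ‖α i - β i‖ * ‖y i‖ ≤ 2 * K * ‖(0 : Y)‖ := by
      refine ge_of_tendsto hlim ?_
      filter_upwards [eventually_gt_atTop i] with n hn
      exact hcoef (fun j => α j - β j) i n hn
    rw [norm_zero, mul_zero] at hle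
    have h0 : ‖α i - β i‖ = 0 := by
      have := hypos i
      have h1 := norm_nonneg (α i - β i)
      by_contra hcon
      have : 0 < ‖α i - β i‖ := lt_of_le_of_ne h1 (Ne.symm hcon)
      have := mul_pos this (hypos i)
      linarith
    exact sub_eq_zero.1 (norm_eq_zero.1 h0)
  -- existence
  have hv' : v ∈ closure (Submodule.span 𝕜 (Set.range y) : Set Y) := hv
  rw [mem_closure_iff_seq_limit] at hv'
  obtain ⟨w, hw, hwlim⟩ := hv'
  have hrep : ∀ k, ∃ (c : ℕ → 𝕜) (M : ℕ), ∀ N, M ≤ N → ∑ i ∈ Finset.range N, c i • y i = w k := by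
    intro k
    obtain ⟨c, hc⟩ := (Finsupp.mem_span_range_iff_exists_finsupp).1 (hw k)
    refine ⟨c, c.support.sup id + 1, fun N hN => ?_⟩
    rw [← hc, Finsupp.sum]
    symm
    apply Finset.sum_subset
    · intro i hi
      have : i ≤ c.support.sup id := Finset.le_sup (f := id) hi
      rw [Finset.mem_range]; omega
    · intro i _ hi
      rw [Finsupp.notMem_support_iff.1 hi, zero_smul]
  choose c M hcM using hrep
  have hdiff : ∀ k l N, ‖∑ i ∈ Finset.range N, c k i • y i - ∑ i ∈ Finset.range N, c l i • y i‖ ≤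
      K * ‖w k - w l‖ := by
    intro k l N
    have h1 := hK (fun i => c k i - c l i) N (max N (max (M k) (M l))) (le_max_left _ _)
    simp only [sub_smul, Finset.sum_sub_distrib] at h1
    rw [hcM k (max N (max (M k) (M l))) (by simp), hcM l (max N (max (M k) (M l))) (by simp)] at h1
    exact h1
  have hdiffc : ∀ k l i, ‖c k i - c l i‖ * ‖y i‖ ≤ 2 * K * ‖w k - w l‖ := by
    intro k l i
    have h1 := hcoef (fun i => c k i - c l i) i (max (i + 1) (max (M k) (M l)))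
      (lt_of_lt_of_le (Nat.lt_succ_self i) (le_max_left _ _))
    simp only [sub_smul, Finset.sum_sub_distrib] at h1
    rw [hcM k (max (i + 1) (max (M k) (M l))) (by simp),
      hcM l (max (i + 1) (max (M k) (M l))) (by simp)] at h1
    exact h1
  have hcauchy : ∀ i, ∃ a : 𝕜, Tendsto (fun k => c k i) atTop (𝓝 a) := by
    intro i
    apply cauchySeq_tendsto_of_complete
    rw [Metric.cauchySeq_iff]
    intro ε hε
    have hw2 := hwlim.cauchySeq
    rw [Metric.cauchySeq_iff] at hw2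
    obtain ⟨N, hN⟩ := hw2 (ε * ‖y i‖ / (2 * K)) (by have := hypos i; positivity)
    refine ⟨N, fun m hm n hn => ?_⟩
    have h1 := hN m hm n hn
    rw [dist_eq_norm] at h1 ⊢
    have h2 := hdiffc m n i
    have h3 : 2 * K * ‖w m - w n‖ < ε * ‖y i‖ := by
      rw [lt_div_iff₀ (by positivity)] at h1
      linarith
    exact lt_of_mul_lt_mul_right (lt_of_le_of_lt h2 h3) (hypos i).le
  choose α hα using hcauchy
  have hSN : ∀ N, Tendsto (fun k => ∑ i ∈ Finset.range N, c k i • y i) atTop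
      (𝓝 (∑ i ∈ Finset.range N, α i • y i)) := fun N =>
    tendsto_finsetSum _ fun i _ => (hα i).smul_const _
  have hbound : ∀ k N, ‖∑ i ∈ Finset.range N, c k i • y i - ∑ i ∈ Finset.range N, α i • y i‖ ≤
      K * ‖w k - v‖ := by
    intro k N
    have h1 : Tendsto (fun l => ‖∑ i ∈ Finset.range N, c k i • y i -
        ∑ i ∈ Finset.range N, c l i • y i‖) atTop
        (𝓝 ‖∑ i ∈ Finset.range N, c k i • y i - ∑ i ∈ Finset.range N, α i • y i‖) :=
      (tendsto_const_nhds.sub (hSN N)).norm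
    have h2 : Tendsto (fun l => K * ‖w k - w l‖) atTop (𝓝 (K * ‖w k - v‖)) :=
      ((tendsto_const_nhds.sub hwlim).norm).const_mul _
    exact le_of_tendsto_of_tendsto' h1 h2 fun l => hdiff k l N
  have hconv : Tendsto (fun N => ∑ i ∈ Finset.range N, α i • y i) atTop (𝓝 v) := by
    rw [Metric.tendsto_atTop]
    intro ε hε
    rw [Metric.tendsto_atTop] at hwlim
    obtain ⟨k0, hk0⟩ := hwlim (ε / (K + 1)) (by positivity)
    have hk := hk0 k0 le_rfl
    rw [dist_eq_norm, lt_div_iff₀ (by positivity)] at hk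
    refine ⟨M k0, fun N hN => ?_⟩
    have h1 := hbound k0 N
    rw [hcM k0 N hN] at h1
    rw [dist_eq_norm]
    have h2 : ∑ i ∈ Finset.range N, α i • y i - v =
      (w k0 - v) - (w k0 - ∑ i ∈ Finset.range N, α i • y i) := by abel
    rw [h2]
    refine (norm_sub_le _ _).trans_lt ?_
    nlinarith
  exact ⟨α, hconv, fun β hβ => huniq β α hβ hconv⟩

/-- Mazur step -/
theorem step (P : Submodule 𝕜 Y) (hP : ¬ FiniteDimensional 𝕜 P) (F : Submodule 𝕜 Y)
    [FiniteDimensional 𝕜 F] (g : Y) (η : ℝ) (hη : 0 < η) (hη1 : η < 1) :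
    ∃ h ∈ P, g + h ≠ 0 ∧ ∀ x ∈ F, ∀ t : 𝕜, (1 - η) * ‖x‖ ≤ ‖x + t • (g + h)‖ := by
  classical
  have : ProperSpace F := FiniteDimensional.proper 𝕜 F
  obtain ⟨s, hs1, hs2, hs3⟩ := (isCompact_sphere (0 : F) 1).finite_cover_balls (half_pos hη)
  have hΦ : ∀ x : F, ∃ Φ : StrongDual 𝕜 Y, ‖Φ‖ ≤ 1 ∧ Φ (x : Y) = ‖(x : Y)‖ := fun x =>
    exists_dual_vector'' 𝕜 (x : Y)
  choose Φ hΦ1 hΦ2 using hΦ
  have hsf : Finite s := hs2.to_subtype
  -- a nonzero vector of `P` killed by all functionals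
  have hh0 : ∃ h0 : P, h0 ≠ 0 ∧ ∀ x ∈ s, Φ x (h0 : Y) = 0 := by
    by_contra hcon
    push Not at hcon
    apply hP
    let Λ : P →ₗ[𝕜] (s → 𝕜) := LinearMap.pi fun x => (Φ x.1).toLinearMap ∘ₗ P.subtype
    have hinj : Function.Injective Λ := by
      rw [← LinearMap.ker_eq_bot, Submodule.eq_bot_iff]
      intro p hp
      by_contra hne
      obtain ⟨x, hx, hx'⟩ := hcon p hne
      exact hx' (congrFun hp ⟨x, hx⟩)
    exact Module.Finite.of_injective Λ hinj
  obtain ⟨h0, hh0, hker⟩ := hh0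
  have hh0pos : 0 < ‖(h0 : Y)‖ := norm_pos_iff.2 (fun h => hh0 (Subtype.ext h))
  set r : ℝ := (‖g‖ + 4 * ‖g‖ / η + 1) / ‖(h0 : Y)‖ with hr
  have hrpos : 0 ≤ r := by positivity
  set h : Y := (r : 𝕜) • (h0 : Y) with hh
  have hhn : ‖h‖ = ‖g‖ + 4 * ‖g‖ / η + 1 := by
    rw [hh, norm_smul, RCLike.norm_ofReal, abs_of_nonneg hrpos, hr]
    field_simp
  have hfn : 4 * ‖g‖ / η + 1 ≤ ‖g + h‖ := by
    have := norm_sub_norm_le h (-g)
    rw [norm_neg, sub_neg_eq_add, add_comm h g] at this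
    linarith
  have hfpos : 0 < ‖g + h‖ := by
    have : 0 ≤ 4 * ‖g‖ / η := by positivity
    linarith
  have hgf : ‖g‖ ≤ η / 4 * ‖g + h‖ := by
    have h1 : 4 * ‖g‖ / η ≤ ‖g + h‖ := by linarith
    rw [div_le_iff₀ hη] at h1
    linarith
  refine ⟨h, P.smul_mem _ h0.2, norm_pos_iff.1 hfpos, ?_⟩
  intro x hx t
  by_cases hx0 : x = 0
  · rw [hx0, norm_zero, mul_zero]; positivity
  have hxpos : 0 < ‖x‖ := norm_pos_iff.2 hx0
  rcases le_or_gt (2 * ‖x‖) (‖t‖ * ‖g + h‖) with hc | hc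
  · have h1 := norm_sub_norm_le (t • (g + h)) (-x)
    rw [norm_neg, sub_neg_eq_add, norm_smul, add_comm (t • (g + h)) x] at h1
    nlinarith
  · -- use a functional
    let u : F := ((‖x‖⁻¹ : ℝ) : 𝕜) • ⟨x, hx⟩
    have hu : u ∈ Metric.sphere (0 : F) 1 := by
      rw [mem_sphere_zero_iff_norm]
      show ‖((‖x‖⁻¹ : ℝ) : 𝕜) • (⟨x, hx⟩ : F)‖ = 1
      rw [norm_smul, RCLike.norm_ofReal, abs_of_nonneg (by positivity)]
      show ‖x‖⁻¹ * ‖x‖ = 1
      field_simp
    obtain ⟨z, hz, hzu⟩ := Set.mem_iUnion₂.1 (hs3 hu)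
    rw [Metric.mem_ball, dist_eq_norm] at hzu
    have hz1 : ‖(z : Y)‖ = 1 := by
      have := hs1 hz
      rw [mem_sphere_zero_iff_norm] at this
      exact this
    have hxu : x = (‖x‖ : 𝕜) • (u : Y) := by
      show x = (‖x‖ : 𝕜) • (((‖x‖⁻¹ : ℝ) : 𝕜) • x)
      rw [smul_smul, ← RCLike.ofReal_mul, mul_inv_cancel₀ hxpos.ne', RCLike.ofReal_one, one_smul]
    have e : x - (‖x‖ : 𝕜) • (z : Y) = (‖x‖ : 𝕜) • ((u : Y) - (z : Y)) := by
      rw [smul_sub, ← hxu]
    have hdist : ‖x - (‖x‖ : 𝕜) • (z : Y)‖ ≤ ‖x‖ * (η / 2) := by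
      rw [e, norm_smul, RCLike.norm_ofReal, abs_of_nonneg (norm_nonneg _)]
      have : ‖(u : Y) - (z : Y)‖ ≤ η / 2 := hzu.le
      gcongr
    have hA : ∀ w : Y, ‖Φ z w‖ ≤ ‖w‖ := by
      intro w
      have h1 := (Φ z).le_opNorm w
      have h2 := hΦ1 z
      have h3 := norm_nonneg w
      nlinarith
    have hAz : ‖Φ z ((‖x‖ : 𝕜) • (z : Y))‖ = ‖x‖ := by
      rw [map_smul, hΦ2, hz1, smul_eq_mul, RCLike.ofReal_one, mul_one, RCLike.norm_ofReal,
        abs_of_nonneg (norm_nonneg _)]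
    have hAx : ‖x‖ - ‖x‖ * (η / 2) ≤ ‖Φ z x‖ := by
      have h1 := hA (x - (‖x‖ : 𝕜) • (z : Y))
      rw [map_sub] at h1
      have h2 := norm_sub_norm_le (Φ z ((‖x‖ : 𝕜) • (z : Y))) (Φ z x)
      rw [hAz, norm_sub_rev] at h2
      linarith
    have hAf : Φ z (x + t • (g + h)) = Φ z x + t * Φ z g := by
      have h1 : Φ z h = 0 := by
        rw [hh, map_smul, hker z hz, smul_zero]
      rw [map_add, map_smul, map_add, h1, add_zero, smul_eq_mul]
    have h1 := hA (x + t • (g + h))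
    rw [hAf] at h1
    have h2 := norm_sub_norm_le (Φ z x) (-(t * Φ z g))
    rw [norm_neg, sub_neg_eq_add, norm_mul] at h2
    have h3 := hA g
    have h4 : ‖t‖ * ‖Φ z g‖ ≤ ‖t‖ * (η / 4 * ‖g + h‖) := by
      gcongr
      exact h3.trans hgf
    have h5 : ‖t‖ * (η / 4 * ‖g + h‖) ≤ η / 2 * ‖x‖ := by
      nlinarith
    nlinarith

/-- image of expansions under a map with a left inverse -/
theorem lift_basic {Z : Type*} [NormedAddCommGroup Z] [NormedSpace 𝕜 Z] (L : Y →L[𝕜] Z)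
    (R : Z →L[𝕜] Y) (hRL : ∀ y, R (L y) = y) (y : ℕ → Y)
    (hy : ∀ v ∈ (Submodule.span 𝕜 (Set.range y)).topologicalClosure,
      ∃! α : ℕ → 𝕜, Tendsto (fun N => ∑ i ∈ Finset.range N, α i • y i) atTop (𝓝 v))
    (v : Z) (hv : v ∈ (Submodule.span 𝕜 (Set.range fun n => L (y n))).topologicalClosure) :
    ∃! α : ℕ → 𝕜, Tendsto (fun N => ∑ i ∈ Finset.range N, α i • L (y i)) atTop (𝓝 v) := by
  have h1 : R v ∈ (Submodule.span 𝕜 (Set.range y)).topologicalClosure := by
    have hle : (Submodule.span 𝕜 (Set.range fun n => L (y n))).topologicalClosure ≤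
        (Submodule.span 𝕜 (Set.range y)).topologicalClosure.comap (R : Z →ₗ[𝕜] Y) := by
      apply Submodule.topologicalClosure_minimal
      · rw [Submodule.span_le]
        rintro _ ⟨n, rfl⟩
        show R (L (y n)) ∈ (Submodule.span 𝕜 (Set.range y)).topologicalClosure
        rw [hRL]
        exact Submodule.le_topologicalClosure _ (Submodule.subset_span ⟨n, rfl⟩)
      · exact (Submodule.isClosed_topologicalClosure _).preimage R.continuous
    exact hle hv
  have h2 : L (R v) = v := by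
    have hle : (Submodule.span 𝕜 (Set.range fun n => L (y n))).topologicalClosure ≤
        LinearMap.ker (((L.comp R) - ContinuousLinearMap.id 𝕜 Z : Z →L[𝕜] Z) : Z →ₗ[𝕜] Z) := by
      apply Submodule.topologicalClosure_minimal
      · rw [Submodule.span_le]
        rintro _ ⟨n, rfl⟩
        show L (R (L (y n))) - L (y n) = 0
        rw [hRL, sub_self]
      · exact ((L.comp R) - ContinuousLinearMap.id 𝕜 Z).isClosed_ker
    have h3 : L (R v) - v = 0 := hle hv
    exact sub_eq_zero.1 h3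
  obtain ⟨α, hα, huniq⟩ := hy (R v) h1
  refine ⟨α, ?_, fun β hβ => ?_⟩
  · have := (L.continuous.tendsto (R v)).comp hα
    rw [h2] at this
    refine this.congr fun N => ?_
    simp [map_sum]
  · apply huniq
    have := (R.continuous.tendsto v).comp hβ
    refine this.congr fun N => ?_
    simp [map_sum, hRL]

end

section Dual
variable {E : Type*} [NormedAddCommGroup E] [NormedSpace 𝕜 E]

/-- the annihilator -/
def ann (G : Submodule 𝕜 E) : Submodule 𝕜 (StrongDual 𝕜 E) where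
  carrier := {f | ∀ x ∈ G, f x = 0}
  add_mem' := fun {a b} ha hb x hx => by
    show a x + b x = 0
    rw [ha x hx, hb x hx, add_zero]
  zero_mem' := fun x hx => rfl
  smul_mem' := fun c f hf x hx => by
    show c • f x = 0
    rw [hf x hx, smul_zero]

/-- restriction -/
noncomputable def res (G : Submodule 𝕜 E) : StrongDual 𝕜 E →L[𝕜] StrongDual 𝕜 G :=
  (ContinuousLinearMap.compL 𝕜 G E 𝕜).flip G.subtypeL

theorem res_apply (G : Submodule 𝕜 E) (f : StrongDual 𝕜 E) : res G f = f.comp G.subtypeL := rfl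

theorem res_eq_iff (G : Submodule 𝕜 E) (f g : StrongDual 𝕜 E) :
    res G f = res G g ↔ f - g ∈ ann G := by
  constructor
  · intro h x hx
    have := DFunLike.congr_fun h ⟨x, hx⟩
    show f x - g x = 0
    rw [sub_eq_zero]
    exact this
  · intro h
    ext x
    have := h x.1 x.2
    exact sub_eq_zero.1 this

theorem exists_res (G : Submodule 𝕜 E) (φ : StrongDual 𝕜 G) :
    ∃ f : StrongDual 𝕜 E, res G f = φ ∧ ‖f‖ = ‖φ‖ := by
  obtain ⟨f, h1, h2⟩ := exists_extension_norm_eq G φ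
  refine ⟨f, ?_, h2⟩
  ext x
  exact h1 x

/-- linear lifting when the annihilator is finite dimensional -/
theorem exists_lift (G : Submodule 𝕜 E) (hfd : FiniteDimensional 𝕜 (ann G)) :
    ∃ L : StrongDual 𝕜 G →L[𝕜] StrongDual 𝕜 E, ∀ φ, res G (L φ) = φ := by
  obtain ⟨proj, hproj⟩ := Submodule.ClosedComplemented.of_finiteDimensional (ann G)
  choose ext hext hnorm using exists_res G
  let q : StrongDual 𝕜 E →L[𝕜] StrongDual 𝕜 E :=
    ContinuousLinearMap.id 𝕜 _ - (ann G).subtypeL.comp proj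
  have hq0 : ∀ f ∈ ann G, q f = 0 := by
    intro f hf
    have h := hproj ⟨f, hf⟩
    show f - (proj f : StrongDual 𝕜 E) = 0
    rw [h, sub_self]
  have hq : ∀ f g, res G f = res G g → q f = q g := by
    intro f g h
    have h1 := hq0 _ ((res_eq_iff G f g).1 h)
    rw [map_sub, sub_eq_zero] at h1
    exact h1
  have hres : ∀ f, res G (q f) = res G f := by
    intro f
    rw [res_eq_iff]
    have : q f - f = -(proj f : StrongDual 𝕜 E) := by
      show f - (proj f : StrongDual 𝕜 E) - f = _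
      abel
    rw [this]
    exact (ann G).neg_mem (proj f).2
  refine ⟨LinearMap.mkContinuous
    { toFun := fun φ => q (ext φ)
      map_add' := fun φ ψ => by
        rw [← map_add]
        apply hq
        rw [map_add, hext, hext, hext]
      map_smul' := fun c φ => by
        rw [RingHom.id_apply, ← map_smul]
        apply hq
        rw [map_smul, hext, hext] } ‖q‖ (fun φ => by
      show ‖q (ext φ)‖ ≤ ‖q‖ * ‖φ‖
      rw [← hnorm φ]
      exact q.le_opNorm _), fun φ => ?_⟩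
  show res G (q (ext φ)) = φ
  rw [hres, hext]

/-- the main construction when the annihilator is infinite dimensional: *every* sequence of
functionals on `G` has a basic sequence of extensions -/
theorem infinite_case (G : Submodule 𝕜 E) (hinf : ¬ FiniteDimensional 𝕜 (ann G))
    (φ : ℕ → StrongDual 𝕜 G) :
    ∃ f : ℕ → StrongDual 𝕜 E, (∀ n, f n ≠ 0) ∧
      (∀ v ∈ (Submodule.span 𝕜 (Set.range f)).topologicalClosure,
        ∃! α : ℕ → 𝕜, Tendsto (fun N => ∑ i ∈ Finset.range N, α i • f i) atTop (𝓝 v)) ∧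
      ∀ n, res G (f n) = φ n := by
  choose ext hext _hnorm using exists_res G
  -- step function
  have hstep : ∀ (n : ℕ) (F : {F : Submodule 𝕜 (StrongDual 𝕜 E) // FiniteDimensional 𝕜 F}),
      ∃ h ∈ ann G, ext (φ n) + h ≠ 0 ∧ ∀ x ∈ F.1, ∀ t : 𝕜,
        (1 - 1 / ((n : ℝ) + 2) ^ 2) * ‖x‖ ≤ ‖x + t • (ext (φ n) + h)‖ := by
    intro n F
    have := F.2
    refine step (ann G) hinf F.1 (ext (φ n)) _ (by positivity) ?_
    rw [div_lt_one (by positivity)]
    have : (0 : ℝ) ≤ n := Nat.cast_nonneg n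
    nlinarith
  choose H hH1 hH2 hH3 using hstep
  let S : ℕ → {F : Submodule 𝕜 (StrongDual 𝕜 E) // FiniteDimensional 𝕜 F} := fun n =>
    Nat.rec ⟨⊥, inferInstance⟩ (fun n F => ⟨F.1 ⊔ Submodule.span 𝕜 {ext (φ n) + H n F},
      by have := F.2; infer_instance⟩) n
  have hS : ∀ n, (S (n + 1)).1 = (S n).1 ⊔ Submodule.span 𝕜 {ext (φ n) + H n (S n)} := fun n => rfl
  let f : ℕ → StrongDual 𝕜 E := fun n => ext (φ n) + H n (S n)
  have hmem : ∀ (a : ℕ → 𝕜) n, ∑ i ∈ Finset.range n, a i • f i ∈ (S n).1 := by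
    intro a n
    induction n with
    | zero => simp
    | succ n ih =>
      rw [Finset.sum_range_succ, hS]
      exact Submodule.add_mem_sup ih (Submodule.smul_mem _ _ (Submodule.mem_span_singleton_self _))
  have hle1 : ∀ (a : ℕ → 𝕜) (n : ℕ),
      (1 - 1 / ((n : ℝ) + 2) ^ 2) * ‖∑ i ∈ Finset.range n, a i • f i‖ ≤
      ‖∑ i ∈ Finset.range (n + 1), a i • f i‖ := by
    intro a n
    rw [Finset.sum_range_succ]
    exact hH3 n (S n) _ (hmem a n) (a n)
  let w : ℕ → ℝ := fun n => ((n : ℝ) + 2) / ((n : ℝ) + 1)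
  have hw1 : ∀ n, 1 ≤ w n := by
    intro n
    show 1 ≤ ((n : ℝ) + 2) / ((n : ℝ) + 1)
    rw [le_div_iff₀ (by positivity)]
    linarith
  have hw2 : ∀ n, w n ≤ 2 := by
    intro n
    show ((n : ℝ) + 2) / ((n : ℝ) + 1) ≤ 2
    rw [div_le_iff₀ (by positivity)]
    have : (0 : ℝ) ≤ n := Nat.cast_nonneg n
    linarith
  have hw3 : ∀ n, w (n + 1) = w n * (1 - 1 / ((n : ℝ) + 2) ^ 2) := by
    intro n
    show (((n + 1 : ℕ) : ℝ) + 2) / (((n + 1 : ℕ) : ℝ) + 1) =
      ((n : ℝ) + 2) / ((n : ℝ) + 1) * (1 - 1 / ((n : ℝ) + 2) ^ 2)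
    have h1 : ((n : ℝ) + 1) ≠ 0 := by positivity
    have h2 : ((n : ℝ) + 2) ≠ 0 := by positivity
    have h3 : (((n + 1 : ℕ) : ℝ) + 1) ≠ 0 := by positivity
    push_cast at h3 ⊢
    field_simp
    ring
  have hle2 : ∀ (a : ℕ → 𝕜) (m k : ℕ), w (m + k) * ‖∑ i ∈ Finset.range m, a i • f i‖ ≤
      w m * ‖∑ i ∈ Finset.range (m + k), a i • f i‖ := by
    intro a m k
    induction k with
    | zero => simp
    | succ k ih =>
      have h1 := hle1 a (m + k)
      rw [← add_assoc, hw3]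
      have h2 : (0 : ℝ) ≤ 1 - 1 / (((m + k : ℕ) : ℝ) + 2) ^ 2 := by
        rw [sub_nonneg, div_le_one (by positivity)]
        have : (0 : ℝ) ≤ ((m + k : ℕ) : ℝ) := Nat.cast_nonneg _
        nlinarith
      have h3 : 0 ≤ w m := le_trans zero_le_one (hw1 m)
      calc w (m + k) * (1 - 1 / (((m + k : ℕ) : ℝ) + 2) ^ 2) * ‖∑ i ∈ Finset.range m, a i • f i‖
          = (1 - 1 / (((m + k : ℕ) : ℝ) + 2) ^ 2) *
            (w (m + k) * ‖∑ i ∈ Finset.range m, a i • f i‖) := by ring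
        _ ≤ (1 - 1 / (((m + k : ℕ) : ℝ) + 2) ^ 2) *
            (w m * ‖∑ i ∈ Finset.range (m + k), a i • f i‖) := by gcongr
        _ = w m * ((1 - 1 / (((m + k : ℕ) : ℝ) + 2) ^ 2) *
            ‖∑ i ∈ Finset.range (m + k), a i • f i‖) := by ring
        _ ≤ w m * ‖∑ i ∈ Finset.range (m + k + 1), a i • f i‖ := by gcongr
  have hK : ∀ (a : ℕ → 𝕜) (m n : ℕ), m ≤ n →
      ‖∑ i ∈ Finset.range m, a i • f i‖ ≤ 2 * ‖∑ i ∈ Finset.range n, a i • f i‖ := by
    intro a m n hmn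
    obtain ⟨k, rfl⟩ := Nat.exists_eq_add_of_le hmn
    have h1 := hle2 a m k
    have h2 := hw1 (m + k)
    have h3 := hw2 m
    have h4 := norm_nonneg (∑ i ∈ Finset.range m, a i • f i)
    have h5 := norm_nonneg (∑ i ∈ Finset.range (m + k), a i • f i)
    nlinarith
  refine ⟨f, fun n => hH2 n (S n), grunblum f (fun n => hH2 n (S n)) 2 (by norm_num) hK, ?_⟩
  intro n
  have h1 : res G (ext (φ n) + H n (S n)) = res G (ext (φ n)) :=
    (res_eq_iff G _ _).2 (by rw [add_sub_cancel_left]; exact hH1 n (S n))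
  show res G (ext (φ n) + H n (S n)) = φ n
  rw [h1, hext]

end Dual

end Pool.Agent.Helper9.BasicSeq
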