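import Mathlib

set_option autoImplicit false

namespace Pool.Agent.Helper9.CG

open Filter Topology

section Basic
variable {X : Type} [TopologicalSpace X] [CompactSpace X]

open Classical in
noncomputable def ind {B : Type} (h : LocallyConstant X B) (b : B) : LocallyConstant X ℤ :=
  h.map (fun b' => if b' = b then (1 : ℤ) else 0)

lemma ind_eq {B : Type} (h : LocallyConstant X B) (b : B) (x : X) (e : h x = b) :
    ind h b x = 1 := by
  unfold ind
  simp only [LocallyConstant.map_apply, Function.comp]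
  exact if_pos e

lemma ind_ne {B : Type} (h : LocallyConstant X B) (b : B) (x : X) (e : h x ≠ b) :
    ind h b x = 0 := by
  unfold ind
  simp only [LocallyConstant.map_apply, Function.comp]
  exact if_neg e

lemma lc_sum {ι : Type} (s : Finset ι) (f : ι → LocallyConstant X ℤ) (x : X) :
    (∑ i ∈ s, f i) x = ∑ i ∈ s, f i x := by
  have := map_sum (LocallyConstant.coeFnAddMonoidHom : LocallyConstant X ℤ →+ (X → ℤ)) f s
  exact (congrFun this x).trans (Finset.sum_apply _ _ _)

noncomputable def rg {B : Type} (h : LocallyConstant X B) : Finset B := h.range_finite.toFinset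

lemma mem_rg {B : Type} (h : LocallyConstant X B) (x : X) : h x ∈ rg h := by
  unfold rg; simp

lemma mem_rg' {B : Type} (h : LocallyConstant X B) {b : B} (hb : b ∈ rg h) : ∃ x, h x = b := by
  unfold rg at hb; simpa using hb

variable {G : Type} [AddCommGroup G]

noncomputable def It (μ : LocallyConstant X ℤ →ₗ[ℤ] ℤ) (h : LocallyConstant X G) : G :=
  ∑ a ∈ rg h, μ (ind h a) • a

lemma It_map (μ : LocallyConstant X ℤ →ₗ[ℤ] ℤ) {B : Type} (h : LocallyConstant X B) (φ : B → G) :
    It μ (h.map φ) = ∑ b ∈ rg h, μ (ind h b) • φ b := by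
  classical
  unfold It
  have key : ∀ a : G, ind (h.map φ) a = ∑ b ∈ (rg h).filter (fun b => φ b = a), ind h b := by
    intro a
    ext x
    rw [lc_sum]
    by_cases hx : φ (h x) = a
    · rw [ind_eq _ _ _ (show (h.map φ) x = a from hx), Finset.sum_eq_single (h x)]
      · rw [ind_eq _ _ _ rfl]
      · intro b _ hb
        exact ind_ne _ _ _ (fun e => hb e.symm)
      · intro hn
        exact absurd (Finset.mem_filter.2 ⟨mem_rg h x, hx⟩) hn
    · rw [ind_ne _ _ _ (show (h.map φ) x ≠ a from hx)]
      symm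
      apply Finset.sum_eq_zero
      intro b hb
      apply ind_ne
      intro e
      exact hx (e ▸ (Finset.mem_filter.1 hb).2)
  have h2 : ∀ a : G, μ (ind (h.map φ) a) • a
      = ∑ b ∈ (rg h).filter (fun b => φ b = a), μ (ind h b) • φ b := by
    intro a
    rw [key, map_sum, Finset.sum_smul]
    apply Finset.sum_congr rfl
    intro b hb
    rw [(Finset.mem_filter.1 hb).2]
  simp_rw [h2]
  apply Finset.sum_fiberwise_of_maps_to
  intro b hb
  obtain ⟨x, rfl⟩ := mem_rg' h hb
  exact mem_rg (h.map φ) x

lemma It_sub_mem (μ : LocallyConstant X ℤ →ₗ[ℤ] ℤ) (h h' : LocallyConstant X G)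
    (V : AddSubgroup G) (hV : ∀ x, h x - h' x ∈ V) : It μ h - It μ h' ∈ V := by
  let p : LocallyConstant X (G × G) := ⟨fun x => (h x, h' x), h.isLocallyConstant.prodMk h'.isLocallyConstant⟩
  have e1 : h = p.map Prod.fst := by ext x; rfl
  have e2 : h' = p.map Prod.snd := by ext x; rfl
  rw [e1, e2, It_map, It_map, ← Finset.sum_sub_distrib]
  apply V.sum_mem
  intro b hb
  obtain ⟨x, rfl⟩ := mem_rg' p hb
  rw [← smul_sub]
  exact V.zsmul_mem (hV x) _

end Basic


section Grp

variable {G : Type} [AddCommGroup G] [UniformSpace G] [IsUniformAddGroup G] [T2Space G]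
  [CompleteSpace G]

/-- For a functional on the locally constant functions of the compact set `K`, the integral of
the inclusion `K → G`. -/
lemma exists_int (hG : ∀ s ∈ nhds (0 : G), ∃ U : AddSubgroup G, IsOpen (U : Set G) ∧ (U : Set G) ⊆ s)
    (K : Set G) [CompactSpace K] :
    ∃ r : OpenAddSubgroup G → LocallyConstant K G, (∀ V (x : K), (x : G) - r V x ∈ V) ∧
      ∃ f : (LocallyConstant K ℤ →ₗ[ℤ] ℤ) → G, ∀ μ V, f μ - It μ (r V) ∈ V := by
  have hr : ∀ V : OpenAddSubgroup G, ∃ r : LocallyConstant K G, ∀ x : K, (x : G) - r x ∈ V := by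
    intro V
    let q : K → G ⧸ V.toAddSubgroup := fun x => QuotientAddGroup.mk (x : G)
    have hq : IsLocallyConstant q := by
      have : DiscreteTopology (G ⧸ V.toAddSubgroup) :=
        QuotientAddGroup.discreteTopology V.isOpen
      rw [IsLocallyConstant.iff_continuous]
      exact continuous_quotient_mk'.comp continuous_subtype_val
    refine ⟨⟨fun x => Quotient.out (q x), hq.comp _⟩, fun x => ?_⟩
    have h1 : (QuotientAddGroup.mk (Quotient.out (q x)) : G ⧸ V.toAddSubgroup) = q x :=
      Quotient.out_eq' _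
    have h2 := (QuotientAddGroup.eq (s := V.toAddSubgroup)).1 h1
    show (x : G) - Quotient.out (q x) ∈ V.toAddSubgroup
    rwa [sub_eq_neg_add]
  choose r hr using hr
  refine ⟨r, hr, ?_⟩
  have hf : ∀ μ : (LocallyConstant K ℤ →ₗ[ℤ] ℤ), ∃ y : G, ∀ V, y - It μ (r V) ∈ V := by
    intro μ
    let u : (OpenAddSubgroup G)ᵒᵈ → G := fun V => It μ (r (OrderDual.ofDual V))
    have hu : ∀ V W : OpenAddSubgroup G, W ≤ V → It μ (r W) - It μ (r V) ∈ V := by
      intro V W hWV
      apply It_sub_mem μ _ _ V.toAddSubgroup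
      intro x
      have h1 := hr V x
      have h2 : (x : G) - r W x ∈ V := hWV (hr W x)
      have h3 := V.toAddSubgroup.sub_mem h1 h2
      have h4 : (x : G) - r V x - ((x : G) - r W x) = r W x - r V x := by abel
      rw [h4] at h3
      exact h3
    have hcs : CauchySeq u := by
      rw [cauchySeq_iff_tendsto, uniformity_eq_comap_nhds_zero, tendsto_comap_iff]
      intro s hs
      obtain ⟨U, hU, hUs⟩ := hG s hs
      let V0 : OpenAddSubgroup G := ⟨U, hU⟩
      rw [Filter.mem_map]
      filter_upwards [Filter.Ici_mem_atTop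
        ((OrderDual.toDual V0, OrderDual.toDual V0) : (OpenAddSubgroup G)ᵒᵈ × (OpenAddSubgroup G)ᵒᵈ)]
        with W hW
      have h1 := hu V0 (OrderDual.ofDual W.1) hW.1
      have h2 := hu V0 (OrderDual.ofDual W.2) hW.2
      apply hUs
      have h3 := U.sub_mem h2 h1
      have h4 : It μ (r (OrderDual.ofDual W.2)) - It μ (r V0)
        - (It μ (r (OrderDual.ofDual W.1)) - It μ (r V0)) = u W.2 - u W.1 := by
        show _ = It μ (r (OrderDual.ofDual W.2)) - It μ (r (OrderDual.ofDual W.1))
        abel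
      rw [h4] at h3
      exact h3
    obtain ⟨y, hy⟩ := cauchySeq_tendsto_of_complete hcs
    refine ⟨y, fun V => ?_⟩
    have hcl : IsClosed {z : G | z - It μ (r V) ∈ V} := by
      have := V.isClosed
      exact this.preimage (f := fun z : G => z - It μ (r V)) (by fun_prop)
    exact hcl.mem_of_tendsto hy (by
      filter_upwards [Filter.Ici_mem_atTop (OrderDual.toDual V)] with W hW
      exact hu V (OrderDual.ofDual W) hW)
  choose f hf using hf
  exact ⟨f, hf⟩

lemma exists_family (hG : ∀ s ∈ nhds (0 : G), ∃ U : AddSubgroup G, IsOpen (U : Set G) ∧ (U : Set G) ⊆ s)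
    (K : Set G) [CompactSpace K] :
    ∃ (I : Type) (g : I → G) (c : K → I → ℤ), Tendsto g cofinite (𝓝 0) ∧
      ∀ x : K, HasSum (fun i => c x i • g i) (x : G) := by
  classical
  have hna : NonarchimedeanAddGroup G := ⟨fun s hs => by
    obtain ⟨U, hU, hUs⟩ := hG s hs
    exact ⟨⟨U, hU⟩, hUs⟩⟩
  have htd : TotallyDisconnectedSpace K := inferInstance
  have hfree : Module.Free ℤ (LocallyConstant K ℤ) :=
    LocallyConstant.freeOfProfinite (Profinite.of K)
  let b := Module.Free.chooseBasis ℤ (LocallyConstant K ℤ)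
  obtain ⟨r, hr, f, hf⟩ := exists_int hG K
  -- finite set of relevant indices
  let Fs : OpenAddSubgroup G → Finset (Module.Free.ChooseBasisIndex ℤ (LocallyConstant K ℤ)) :=
    fun V => (rg (r V)).biUnion (fun a => (b.repr (ind (r V) a)).support)
  refine ⟨Module.Free.ChooseBasisIndex ℤ (LocallyConstant K ℤ), fun i => f (b.coord i),
    fun x i => (b i) x, ?_, ?_⟩
  · intro s hs
    obtain ⟨U, hU, hUs⟩ := hG s hs
    let V : OpenAddSubgroup G := ⟨U, hU⟩
    rw [Filter.mem_map, Filter.mem_cofinite]
    apply (Fs V).finite_toSet.subset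
    intro i hi
    by_contra hn
    apply hi
    apply hUs
    have h0 : It (b.coord i) (r V) = 0 := by
      unfold It
      apply Finset.sum_eq_zero
      intro a ha
      have : b.coord i (ind (r V) a) = 0 := by
        rw [Module.Basis.coord_apply]
        by_contra hne
        exact hn (Finset.mem_coe.2 (Finset.mem_biUnion.2 ⟨a, ha, Finsupp.mem_support_iff.2 hne⟩))
      rw [this, zero_smul]
    have h1 := hf (b.coord i) V
    rw [h0, sub_zero] at h1
    exact h1
  · intro x
    rw [HasSum, ← tendsto_sub_nhds_zero_iff]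
    intro s hs
    obtain ⟨U, hU, hUs⟩ := hG s hs
    let V : OpenAddSubgroup G := ⟨U, hU⟩
    rw [Filter.mem_map]
    filter_upwards [Filter.Ici_mem_atTop (Fs V)] with F hF
    apply hUs
    have hF' : Fs V ⊆ F := hF
    have h1 : ∑ i ∈ F, (b i) x • It (b.coord i) (r V) = r V x := by
      unfold It
      simp_rw [Finset.smul_sum, smul_smul]
      rw [Finset.sum_comm]
      simp_rw [← Finset.sum_smul]
      have h2 : ∀ a ∈ rg (r V), ∑ i ∈ F, (b i) x * b.coord i (ind (r V) a) = ind (r V) a x := by
        intro a ha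
        have h3 := b.linearCombination_repr (ind (r V) a)
        rw [Finsupp.linearCombination_apply, Finsupp.sum_of_support_subset (s := F)] at h3
        · have h4 := DFunLike.congr_fun h3 x
          rw [lc_sum] at h4
          rw [← h4]
          apply Finset.sum_congr rfl
          intro i _
          rw [Module.Basis.coord_apply, LocallyConstant.smul_apply, smul_eq_mul, mul_comm]
        · exact (Finset.subset_biUnion_of_mem (fun a => (b.repr (ind (r V) a)).support) ha).trans hF'
        · intro i _; rw [zero_smul]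
      rw [Finset.sum_congr rfl (fun a ha => by rw [h2 a ha]), Finset.sum_eq_single (r V x)]
      · rw [ind_eq _ _ _ rfl, one_smul]
      · intro a _ ha
        rw [ind_ne _ _ _ (fun e => ha e.symm), zero_smul]
      · intro hn
        exact absurd (mem_rg (r V) x) hn
    have h5 : (∑ i ∈ F, (b i) x • f (b.coord i)) - x
        = ∑ i ∈ F, (b i) x • (f (b.coord i) - It (b.coord i) (r V)) - ((x : G) - r V x) := by
      simp_rw [smul_sub]
      rw [Finset.sum_sub_distrib, h1]
      abel
    show (∑ i ∈ F, (b i) x • f (b.coord i)) - x ∈ U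
    rw [h5]
    exact U.sub_mem (U.sum_mem (fun i _ => U.zsmul_mem (hf (b.coord i) V) _)) (hr V x)

lemma summ (hG : ∀ s ∈ nhds (0 : G), ∃ U : AddSubgroup G, IsOpen (U : Set G) ∧ (U : Set G) ⊆ s)
    {I : Type} (g : I → G) (hg : Tendsto g cofinite (𝓝 0)) (n : I → ℤ) :
    Summable (fun i => n i • g i) := by
  have hna : NonarchimedeanAddGroup G := ⟨fun s hs => by
    obtain ⟨U, hU, hUs⟩ := hG s hs
    exact ⟨⟨U, hU⟩, hUs⟩⟩
  apply NonarchimedeanAddGroup.summable_of_tendsto_cofinite_zero
  intro s hs
  obtain ⟨U, hU, hUs⟩ := hG s hs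
  have h1 := hg (hU.mem_nhds U.zero_mem)
  rw [Filter.mem_map] at h1 ⊢
  filter_upwards [h1] with i hi
  exact hUs (U.zsmul_mem hi _)

lemma tsum_mem (hG : ∀ s ∈ nhds (0 : G), ∃ U : AddSubgroup G, IsOpen (U : Set G) ∧ (U : Set G) ⊆ s)
    {I : Type} (g : I → G) (hg : Tendsto g cofinite (𝓝 0)) (n : I → ℤ) (U : AddSubgroup G)
    (hU : IsOpen (U : Set G)) (h : ∀ i, n i • g i ∈ U) : ∑' i, n i • g i ∈ U := by
  have hcl : IsClosed (U : Set G) := U.isClosed_of_isOpen hU
  exact hcl.mem_of_tendsto (summ hG g hg n).hasSum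
    (Filter.Eventually.of_forall (fun F => U.sum_mem (fun i _ => h i)))

lemma f_cont (hG : ∀ s ∈ nhds (0 : G), ∃ U : AddSubgroup G, IsOpen (U : Set G) ∧ (U : Set G) ⊆ s)
    (g : ℕ → G) (hg : Tendsto g cofinite (𝓝 0)) :
    Continuous (fun n : ℕ → ℤ => ∑' i, n i • g i) := by
  rw [continuous_iff_continuousAt]
  intro n0
  rw [ContinuousAt, ← tendsto_sub_nhds_zero_iff]
  intro s hs
  obtain ⟨U, hU, hUs⟩ := hG s hs
  have h1 := hg (hU.mem_nhds U.zero_mem)
  rw [Filter.mem_map, Filter.mem_cofinite] at h1
  rw [Filter.mem_map, nhds_pi, Filter.mem_pi']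
  refine ⟨h1.toFinset, fun i => {n0 i}, fun i => ?_, ?_⟩
  · simp
  · intro n hn
    apply hUs
    show (∑' i, n i • g i) - ∑' i, n0 i • g i ∈ U
    rw [← (summ hG g hg n).tsum_sub (summ hG g hg n0)]
    have : ∀ i, n i • g i - n0 i • g i = (n i - n0 i) • g i := fun i => (sub_smul _ _ _).symm
    simp_rw [this]
    apply tsum_mem hG g hg (fun i => n i - n0 i) U hU
    intro i
    by_cases hi : g i ∈ U
    · exact U.zsmul_mem hi _
    · have h2 : n i = n0 i := by
        have := hn i (by simpa using hi)
        simpa using this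
      rw [h2, sub_self, zero_smul]
      exact U.zero_mem

lemma finite_support (hG : ∀ s ∈ nhds (0 : G), ∃ U : AddSubgroup G, IsOpen (U : Set G) ∧ (U : Set G) ⊆ s)
    {I : Type} (g : I → G) (hg : Tendsto g cofinite (𝓝 0))
    (C : ℕ → Set G) (hC : ∀ m, IsCompact (C m)) (hcov : ⋃ m, C m = Set.univ)
    (hcf : ∀ H : AddSubgroup G, IsCompact (H : Set G) → H = ⊥) : {i | g i ≠ 0}.Finite := by
  classical
  by_contra hinf
  have hinf' : {i | g i ≠ 0}.Infinite := hinf
  let e := hinf'.natEmbedding
  let h : ℕ → G := fun k => g (e k)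
  have hh0 : ∀ k, h k ≠ 0 := fun k => (e k).2
  have hh : Tendsto h cofinite (𝓝 0) :=
    hg.comp ((Subtype.val_injective.comp e.injective).tendsto_cofinite)
  have hcont := f_cont hG h hh
  obtain ⟨m, n0, hn0⟩ := nonempty_interior_of_iUnion_of_closed
    (f := fun m => (fun n : ℕ → ℤ => ∑' i, n i • h i) ⁻¹' (C m))
    (fun m => (hC m).isClosed.preimage hcont)
    (by rw [← Set.preimage_iUnion, hcov, Set.preimage_univ])
  rw [mem_interior_iff_mem_nhds, nhds_pi, Filter.mem_pi'] at hn0
  obtain ⟨I0, t, ht, hsub⟩ := hn0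
  obtain ⟨k0, hk0⟩ := Infinite.exists_notMem_finset I0
  have h1 : ∀ z : ℤ, (∑' i, n0 i • h i) + z • h k0 ∈ C m := by
    intro z
    have h2 : n0 + Pi.single k0 z ∈ Set.pi (↑I0) t := by
      intro i hi
      have : i ≠ k0 := fun e => hk0 (e ▸ hi)
      rw [Pi.add_apply, Pi.single_eq_of_ne this, add_zero]
      exact mem_of_mem_nhds (ht i)
    have h3 := hsub h2
    have h4 : (∑' i, (n0 + Pi.single k0 z : ℕ → ℤ) i • h i) = (∑' i, n0 i • h i) + z • h k0 := by
      have h5 : ∀ i, (n0 + Pi.single k0 z : ℕ → ℤ) i • h i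
          = n0 i • h i + (Pi.single k0 z : ℕ → ℤ) i • h i := by
        intro i; rw [Pi.add_apply, add_smul]
      simp_rw [h5]
      rw [(summ hG h hh n0).tsum_add (summ hG h hh (Pi.single k0 z))]
      congr 1
      rw [tsum_eq_single k0]
      · rw [Pi.single_eq_same]
      · intro i hi
        rw [Pi.single_eq_of_ne hi, zero_smul]
    rw [← h4]
    exact h3
  -- closure of the cyclic group is compact
  have hcomp : IsCompact (closure ((AddSubgroup.zmultiples (h k0) : AddSubgroup G) : Set G)) := by
    have hK : IsCompact ((fun y => y - (∑' i, n0 i • h i)) '' (C m)) :=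
      (hC m).image (by fun_prop)
    apply hK.of_isClosed_subset isClosed_closure
    apply closure_minimal _ hK.isClosed
    rintro y ⟨z, rfl⟩
    exact ⟨_, h1 z, by simp⟩
  have hbot := hcf (AddSubgroup.zmultiples (h k0)).topologicalClosure
    (by rw [AddSubgroup.topologicalClosure_coe]; exact hcomp)
  have hmem : h k0 ∈ (AddSubgroup.zmultiples (h k0)).topologicalClosure :=
    AddSubgroup.le_topologicalClosure _ (AddSubgroup.mem_zmultiples _)
  rw [hbot] at hmem
  exact hh0 k0 (by simpa using hmem)

open Pointwise in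
lemma sigma_compact (K : Set G) (hK : IsCompact K) (hgen : AddSubgroup.closure K = ⊤) :
    ∃ C : ℕ → Set G, (∀ m, IsCompact (C m)) ∧ ⋃ m, C m = Set.univ := by
  let C : ℕ → Set G := fun m => Nat.rec (K ∪ {0}) (fun _ S => (S + S) ∪ (-S)) m
  have hCs : ∀ m, C (m + 1) = (C m + C m) ∪ (-(C m)) := fun m => rfl
  have h0 : ∀ m, (0 : G) ∈ C m := by
    intro m
    induction m with
    | zero => exact Or.inr rfl
    | succ m ih =>
      rw [hCs]; left; exact ⟨0, ih, 0, ih, by simp⟩
  have hmono : Monotone C := by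
    apply monotone_nat_of_le_succ
    intro m x hx
    rw [hCs]; left
    exact ⟨x, hx, 0, h0 m, by simp⟩
  refine ⟨C, ?_, ?_⟩
  · intro m
    induction m with
    | zero => exact hK.union isCompact_singleton
    | succ m ih => rw [hCs]; exact (ih.add ih).union ih.neg
  · rw [Set.eq_univ_iff_forall]
    intro x
    have hx : x ∈ AddSubgroup.closure K := by rw [hgen]; trivial
    rw [Set.mem_iUnion]
    induction hx using AddSubgroup.closure_induction with
    | mem x hx => exact ⟨0, Or.inl hx⟩
    | zero => exact ⟨0, h0 0⟩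
    | add x y _ _ hx hy =>
      obtain ⟨m, hm⟩ := hx
      obtain ⟨n, hn⟩ := hy
      refine ⟨max m n + 1, ?_⟩
      rw [hCs]; left
      exact ⟨x, hmono (le_max_left m n) hm, y, hmono (le_max_right m n) hn, rfl⟩
    | neg x _ hx =>
      obtain ⟨m, hm⟩ := hx
      refine ⟨m + 1, ?_⟩
      rw [hCs]; right
      simpa using hm

theorem main (hG : ∀ s ∈ nhds (0 : G), ∃ U : AddSubgroup G, IsOpen (U : Set G) ∧ (U : Set G) ⊆ s)
    (hcg : ∃ K : Set G, IsCompact K ∧ AddSubgroup.closure K = ⊤)
    (hcf : ∀ H : AddSubgroup G, IsCompact (H : Set G) → H = ⊥) :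
    DiscreteTopology G ∧ ∃ n : ℕ, Nonempty (G ≃+ (Fin n → ℤ)) := by
  obtain ⟨K, hK, hgen⟩ := hcg
  have hKc : CompactSpace K := isCompact_iff_compactSpace.1 hK
  obtain ⟨C, hC, hcov⟩ := sigma_compact K hK hgen
  obtain ⟨I, g, c, hg, hsum⟩ := exists_family hG K
  have hfin := finite_support hG g hg C hC hcov hcf
  -- finitely generated
  have hfg : (⊤ : AddSubgroup G) = AddSubgroup.closure (g '' {i | g i ≠ 0}) := by
    symm
    rw [eq_top_iff, ← hgen, AddSubgroup.closure_le]
    intro x hx
    have h1 := hsum ⟨x, hx⟩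
    have h2 : HasSum (fun i => c ⟨x, hx⟩ i • g i) (∑ i ∈ hfin.toFinset, c ⟨x, hx⟩ i • g i) := by
      apply hasSum_sum_of_ne_finset_zero
      intro i hi
      have : g i = 0 := by
        by_contra hne
        exact hi (by simpa using hne)
      rw [this, smul_zero]
    have h3 := h1.unique h2
    change x = _ at h3
    rw [h3]
    apply AddSubgroup.sum_mem
    intro i hi
    apply AddSubgroup.zsmul_mem
    apply AddSubgroup.subset_closure
    exact ⟨i, by simpa using hi, rfl⟩
  have hFG : AddGroup.FG G := by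
    rw [AddGroup.fg_iff]
    exact ⟨g '' {i | g i ≠ 0}, hfg.symm, hfin.image g⟩
  have hMF : Module.Finite ℤ G := Module.Finite.iff_addGroup_fg.2 hFG
  -- countable
  have hctb : Countable G := by
    obtain ⟨n, f, hf⟩ := Module.Finite.exists_fin' ℤ G
    exact hf.countable
  have hsub : ∀ U : AddSubgroup G, U.FG := by
    intro U
    have h1 := IsNoetherian.noetherian (AddSubgroup.toIntSubmodule U)
    rwa [Submodule.fg_iff_addSubgroup_fg, AddSubgroup.toIntSubmodule_toAddSubgroup] at h1
  have hctS : Countable (AddSubgroup G) := by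
    classical
    apply Function.Surjective.countable (f := fun s : Finset G => AddSubgroup.closure (s : Set G))
    intro U
    exact hsub U
  have hcgen : (𝓝 (0 : G)).IsCountablyGenerated := by
    have hb : (𝓝 (0 : G)).HasCountableBasis (fun U : AddSubgroup G => IsOpen (U : Set G))
        (fun U => (U : Set G)) := by
      refine ⟨⟨fun t => ⟨fun ht => hG t ht, fun ⟨U, hU, hUt⟩ =>
        Filter.mem_of_superset (hU.mem_nhds U.zero_mem) hUt⟩⟩, Set.to_countable _⟩
    exact hb.isCountablyGenerated
  have hdisc : DiscreteTopology G := by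
    have hucg : (uniformity G).IsCountablyGenerated :=
      IsUniformAddGroup.uniformity_countably_generated
    obtain ⟨x, hx⟩ := nonempty_interior_of_iUnion_of_closed
      (f := fun x : G => ({x} : Set G)) (fun x => isClosed_singleton)
      (by ext x; simp)
    have hopen : IsOpen ({x} : Set G) := by
      obtain ⟨y, hy⟩ := hx
      have hyx : y ∈ ({x} : Set G) := interior_subset hy
      rw [Set.mem_singleton_iff] at hyx
      rw [hyx] at hy
      rw [isOpen_iff_mem_nhds]
      intro z hz
      rw [Set.mem_singleton_iff] at hz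
      rw [hz]
      exact mem_interior_iff_mem_nhds.1 hy
    apply discreteTopology_of_isOpen_singleton_zero
    have := hopen.preimage (f := fun z : G => z + x) (by fun_prop)
    convert this using 1
    ext z
    simp
  refine ⟨hdisc, ?_⟩
  have htf : Module.IsTorsionFree ℤ G := by
    rw [Module.isTorsionFree_int_iff_isAddTorsionFree, isAddTorsionFree_iff_not_isOfFinAddOrder]
    intro x hx hfo
    have hfi : (AddSubgroup.zmultiples x : Set G).Finite := finite_zmultiples.2 hfo
    have := hcf _ hfi.isCompact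
    rw [AddSubgroup.zmultiples_eq_bot] at this
    exact hx this
  have hfr : Module.Free ℤ G := inferInstance
  exact ⟨_, ⟨(Module.finBasis ℤ G).equivFun.toAddEquiv⟩⟩

end Grp

end Pool.Agent.Helper9.CG
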