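import Mathlib

set_option autoImplicit false

namespace Pool.Agent.Helper9.Dyson

open MeasureTheory intervalIntegral

variable {E : Type} [NormedAddCommGroup E] [NormedSpace ℂ E] [CompleteSpace E]

/-- The Dyson iterates for `Y' = z N Y`, `Y x₀ = e`. -/
noncomputable def Y (N : ℝ → E →L[ℂ] E) (x₀ : ℝ) (e : E) : ℕ → ℝ → E
  | 0 => fun _ => e
  | (n + 1) => fun x => ∫ t in x₀..x, N t (Y N x₀ e n t)

variable {N : ℝ → E →L[ℂ] E}

lemma Y_hasDeriv (hN : Continuous N) (x₀ : ℝ) (e : E) (n : ℕ) (hc : Continuous (Y N x₀ e n))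
    (x : ℝ) : HasDerivAt (Y N x₀ e (n + 1)) (N x (Y N x₀ e n x)) x := by
  have h : Continuous (fun t => N t (Y N x₀ e n t)) := hN.clm_apply hc
  exact intervalIntegral.integral_hasDerivAt_right (h.intervalIntegrable _ _)
    h.aestronglyMeasurable.stronglyMeasurableAtFilter h.continuousAt

lemma Y_cont (hN : Continuous N) (x₀ : ℝ) (e : E) (n : ℕ) : Continuous (Y N x₀ e n) := by
  induction n with
  | zero => exact continuous_const
  | succ n ih =>
    rw [continuous_iff_continuousAt]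
    exact fun x => (Y_hasDeriv hN x₀ e n ih x).continuousAt

lemma Y_bound (hN : Continuous N) {K : ℝ} (hK : ∀ t, ‖N t‖ ≤ K) (x₀ : ℝ) (e : E) (n : ℕ) :
    ∀ x, ‖Y N x₀ e n x‖ ≤ ‖e‖ * ((K * |x - x₀|) ^ n / n.factorial) := by
  have hK0 : 0 ≤ K := (norm_nonneg _).trans (hK 0)
  induction n with
  | zero => intro x; simp [Y]
  | succ n ih =>
    intro x
    have h1 : ‖Y N x₀ e (n + 1) x‖ ≤
        |∫ t in x₀..x, ‖N t (Y N x₀ e n t)‖| :=
      intervalIntegral.norm_integral_le_abs_integral_norm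
    have hcont : Continuous (fun t => ‖N t (Y N x₀ e n t)‖) :=
      (hN.clm_apply (Y_cont hN x₀ e n)).norm
    have h2 : |∫ t in x₀..x, ‖N t (Y N x₀ e n t)‖|
        = ∫ t in Set.uIoc x₀ x, ‖N t (Y N x₀ e n t)‖ := by
      rw [intervalIntegral.abs_integral_eq_abs_integral_uIoc, abs_of_nonneg]
      exact setIntegral_nonneg measurableSet_uIoc (fun t _ => norm_nonneg _)
    have h3 : ∫ t in Set.uIoc x₀ x, ‖N t (Y N x₀ e n t)‖ ≤
        ∫ t in Set.uIoc x₀ x, (K * ‖e‖ * K ^ n / n.factorial) * |t - x₀| ^ n := by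
      apply setIntegral_mono_on
      · exact (hcont.intervalIntegrable x₀ x).def'
      · have : Continuous (fun t : ℝ => (K * ‖e‖ * K ^ n / n.factorial) * |t - x₀| ^ n) := by
          fun_prop
        exact (this.intervalIntegrable x₀ x).def'
      · exact measurableSet_uIoc
      · intro t _
        calc ‖N t (Y N x₀ e n t)‖ ≤ ‖N t‖ * ‖Y N x₀ e n t‖ := ContinuousLinearMap.le_opNorm _ _
          _ ≤ K * (‖e‖ * ((K * |t - x₀|) ^ n / n.factorial)) :=
              mul_le_mul (hK t) (ih t) (norm_nonneg _) hK0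
          _ = (K * ‖e‖ * K ^ n / n.factorial) * |t - x₀| ^ n := by
              rw [mul_pow]; ring
    rw [MeasureTheory.integral_const_mul, integral_pow_abs_sub_uIoc] at h3
    calc ‖Y N x₀ e (n + 1) x‖ ≤ _ := h1
      _ = _ := h2
      _ ≤ _ := h3
      _ = ‖e‖ * ((K * |x - x₀|) ^ (n + 1) / (n + 1).factorial) := by
        rw [Nat.factorial_succ, mul_pow]
        push_cast
        have hn : ((n : ℝ) + 1) ≠ 0 := by positivity
        have hf : ((n.factorial : ℝ)) ≠ 0 := by positivity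
        field_simp
        ring

/-- The solution as a power series in `z`. -/
noncomputable def sol (N : ℝ → E →L[ℂ] E) (x₀ : ℝ) (e : E) (z : ℂ) (x : ℝ) : E :=
  ∑' n : ℕ, z ^ n • Y N x₀ e n x

lemma term_bound (hN : Continuous N) {K : ℝ} (hK : ∀ t, ‖N t‖ ≤ K) (x₀ : ℝ) (e : E)
    {z : ℂ} {x L R : ℝ} (hx : |x - x₀| ≤ L) (hz : ‖z‖ ≤ R) (n : ℕ) :
    ‖z ^ n • Y N x₀ e n x‖ ≤ ‖e‖ * ((R * (K * L)) ^ n / n.factorial) := by
  have hK0 : 0 ≤ K := (norm_nonneg _).trans (hK 0)
  have hR0 : 0 ≤ R := (norm_nonneg _).trans hz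
  have hL0 : 0 ≤ L := (abs_nonneg _).trans hx
  rw [norm_smul, norm_pow]
  calc ‖z‖ ^ n * ‖Y N x₀ e n x‖ ≤ R ^ n * (‖e‖ * ((K * L) ^ n / n.factorial)) := by
        apply mul_le_mul (pow_le_pow_left₀ (norm_nonneg _) hz n) _ (norm_nonneg _)
          (pow_nonneg hR0 n)
        refine (Y_bound hN hK x₀ e n x).trans ?_
        apply mul_le_mul_of_nonneg_left _ (norm_nonneg _)
        apply div_le_div_of_nonneg_right _ (by positivity)
        exact pow_le_pow_left₀ (by positivity) (mul_le_mul_of_nonneg_left hx hK0) n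
    _ = _ := by rw [mul_pow]; ring

lemma summable_bound (e : E) (r : ℝ) : Summable (fun n : ℕ => ‖e‖ * (r ^ n / n.factorial)) :=
  (Real.summable_pow_div_factorial r).mul_left _

lemma summable_sol (hN : Continuous N) {K : ℝ} (hK : ∀ t, ‖N t‖ ≤ K) (x₀ : ℝ) (e : E)
    (z : ℂ) (x : ℝ) : Summable (fun n : ℕ => z ^ n • Y N x₀ e n x) :=
  Summable.of_norm_bounded (summable_bound e (‖z‖ * (K * |x - x₀|)))
    (fun n => term_bound hN hK x₀ e le_rfl le_rfl n)

lemma sol_hasDeriv (hN : Continuous N) {K : ℝ} (hK : ∀ t, ‖N t‖ ≤ K) (x₀ : ℝ) (e : E)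
    (z : ℂ) (x : ℝ) : HasDerivAt (sol N x₀ e z) (z • N x (sol N x₀ e z x)) x := by
  have hK0 : 0 ≤ K := (norm_nonneg _).trans (hK 0)
  obtain ⟨L, hL⟩ : ∃ L, L = |x - x₀| + 1 := ⟨_, rfl⟩
  -- derivative terms
  let g' : ℕ → ℝ → E := fun n y => match n with
    | 0 => 0
    | (m + 1) => z ^ (m + 1) • N y (Y N x₀ e m y)
  let u : ℕ → ℝ := fun n => match n with
    | 0 => 0
    | (m + 1) => ‖z‖ * (K * (‖e‖ * ((‖z‖ * (K * L)) ^ m / m.factorial)))
  have hu : Summable u := by
    rw [← summable_nat_add_iff 1]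
    exact ((summable_bound e (‖z‖ * (K * L))).mul_left K).mul_left ‖z‖
  have hder : ∀ (n : ℕ) (y : ℝ), y ∈ Metric.ball x₀ L →
      HasDerivAt (fun y => z ^ n • Y N x₀ e n y) (g' n y) y := by
    intro n y _
    cases n with
    | zero =>
      show HasDerivAt (fun _ : ℝ => z ^ 0 • e) 0 y
      exact hasDerivAt_const _ _
    | succ m => exact (Y_hasDeriv hN x₀ e m (Y_cont hN x₀ e m) y).const_smul (z ^ (m + 1))
  have hbd : ∀ (n : ℕ) (y : ℝ), y ∈ Metric.ball x₀ L → ‖g' n y‖ ≤ u n := by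
    intro n y hy
    cases n with
    | zero => simp [g', u]
    | succ m =>
      rw [Metric.mem_ball, Real.dist_eq] at hy
      have h1 := term_bound hN hK x₀ e (z := z) hy.le le_rfl m
      show ‖z ^ (m + 1) • N y (Y N x₀ e m y)‖ ≤ ‖z‖ * (K * (‖e‖ * ((‖z‖ * (K * L)) ^ m / m.factorial)))
      have h2 : z ^ (m + 1) • N y (Y N x₀ e m y) = z • N y (z ^ m • Y N x₀ e m y) := by
        rw [map_smul, smul_smul, pow_succ, mul_comm]
      rw [h2, norm_smul]
      apply mul_le_mul_of_nonneg_left _ (norm_nonneg _)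
      exact (ContinuousLinearMap.le_opNorm _ _).trans
        (mul_le_mul (hK y) h1 (norm_nonneg _) hK0)
  have hx : x ∈ Metric.ball x₀ L := by
    rw [Metric.mem_ball, Real.dist_eq, hL]; linarith
  have hx0 : x₀ ∈ Metric.ball x₀ L := by
    rw [Metric.mem_ball, dist_self, hL]; positivity
  have hmain := hasDerivAt_tsum_of_isPreconnected hu Metric.isOpen_ball
    (convex_ball x₀ L).isPreconnected hder hbd hx0
    (summable_sol hN hK x₀ e z x₀) hx
  have hsum : ∑' n, g' n x = z • N x (sol N x₀ e z x) := by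
    have hs : Summable (fun n => g' n x) :=
      Summable.of_norm_bounded hu (fun n => hbd n x hx)
    rw [hs.tsum_eq_zero_add]
    show (0 : E) + ∑' m : ℕ, z ^ (m + 1) • N x (Y N x₀ e m x) = _
    rw [zero_add]
    unfold sol
    rw [ContinuousLinearMap.map_tsum _ (summable_sol hN hK x₀ e z x)]
    rw [← tsum_const_smul'']
    apply tsum_congr
    intro m
    rw [map_smul, smul_smul, pow_succ, mul_comm]
  rw [hsum] at hmain
  exact hmain

lemma sol_init (x₀ : ℝ) (e : E) (z : ℂ) : sol N x₀ e z x₀ = e := by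
  unfold sol
  rw [tsum_eq_single 0]
  · simp [Y]
  · intro n hn
    obtain ⟨m, rfl⟩ := Nat.exists_eq_succ_of_ne_zero hn
    simp [Y]

/-- Expansion in `z`. -/
lemma sol_expand (hN : Continuous N) {K : ℝ} (hK : ∀ t, ‖N t‖ ≤ K) (x₀ : ℝ) (e : E) (x : ℝ) :
    ∃ R : ℂ → E, Differentiable ℂ R ∧
      ∀ z, sol N x₀ e z x = e + z • (∫ t in x₀..x, N t e) + z ^ 2 • R z := by
  have hK0 : 0 ≤ K := (norm_nonneg _).trans (hK 0)
  have hsumm : ∀ z : ℂ, Summable (fun n : ℕ => z ^ n • Y N x₀ e (n + 2) x) := by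
    intro z
    by_cases hz : z = 0
    · subst hz
      apply summable_of_ne_finset_zero (s := {0})
      intro n hn
      have : n ≠ 0 := by simpa using hn
      rw [zero_pow this, zero_smul]
    · have h1 := (summable_nat_add_iff 2).2 (summable_sol hN hK x₀ e z x)
      have h2 := h1.const_smul ((z ^ 2)⁻¹)
      refine h2.congr (fun n => ?_)
      rw [smul_smul]
      congr 1
      field_simp
      ring
  refine ⟨fun z => ∑' n : ℕ, z ^ n • Y N x₀ e (n + 2) x, ?_, ?_⟩
  · intro z
    -- differentiability on a ball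
    have hU : IsOpen (Metric.ball (0 : ℂ) (‖z‖ + 1)) := Metric.isOpen_ball
    let r : ℝ := (‖z‖ + 1) * (K * |x - x₀|)
    let C : ℝ := (K * |x - x₀|) ^ 2 * ‖e‖
    have hdiff : DifferentiableOn ℂ (fun w : ℂ => ∑' n : ℕ, w ^ n • Y N x₀ e (n + 2) x)
        (Metric.ball (0 : ℂ) (‖z‖ + 1)) := by
      apply Complex.differentiableOn_tsum_of_summable_norm
        (u := fun n : ℕ => C * (r ^ n / n.factorial))
      · exact (Real.summable_pow_div_factorial r).mul_left C
      · intro n
        exact ((differentiable_id.pow n).smul_const _).differentiableOn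
      · exact hU
      · intro n w hw
        have hw' : ‖w‖ ≤ ‖z‖ + 1 := by
          have := Metric.mem_ball.1 hw
          rw [dist_zero_right] at this
          exact this.le
        rw [norm_smul, norm_pow]
        have hb := Y_bound hN hK x₀ e (n + 2) x
        have hfac : ((n.factorial : ℝ)) ≤ ((n + 2).factorial : ℝ) := by
          exact_mod_cast Nat.factorial_le (by omega)
        calc ‖w‖ ^ n * ‖Y N x₀ e (n + 2) x‖
            ≤ (‖z‖ + 1) ^ n * (‖e‖ * ((K * |x - x₀|) ^ (n + 2) / (n + 2).factorial)) := by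
              apply mul_le_mul (pow_le_pow_left₀ (norm_nonneg _) hw' n) hb (norm_nonneg _)
              positivity
          _ ≤ (‖z‖ + 1) ^ n * (‖e‖ * ((K * |x - x₀|) ^ (n + 2) / n.factorial)) := by
              apply mul_le_mul_of_nonneg_left _ (by positivity)
              apply mul_le_mul_of_nonneg_left _ (norm_nonneg _)
              apply div_le_div_of_nonneg_left (by positivity) (by positivity) hfac
          _ = C * (r ^ n / n.factorial) := by
              simp only [C, r]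
              rw [mul_pow (‖z‖ + 1), pow_add]
              ring
    have hz : z ∈ Metric.ball (0 : ℂ) (‖z‖ + 1) := by
      rw [Metric.mem_ball, dist_zero_right]; linarith
    exact (hdiff z hz).differentiableAt (hU.mem_nhds hz)
  · intro z
    unfold sol
    have hs := summable_sol hN hK x₀ e z x
    rw [hs.tsum_eq_zero_add, ((summable_nat_add_iff 1).2 hs).tsum_eq_zero_add]
    have h0 : z ^ 0 • Y N x₀ e 0 x = e := by simp [Y]
    have h1 : z ^ (0 + 1) • Y N x₀ e (0 + 1) x = z • (∫ t in x₀..x, N t e) := by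
      simp [Y]
    rw [h0, h1, ← add_assoc]
    congr 1
    rw [← tsum_const_smul'']
    apply tsum_congr
    intro n
    rw [smul_smul]
    congr 1
    ring

end Pool.Agent.Helper9.Dyson
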