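import Mathlib

set_option autoImplicit false

namespace Pool.Agent.Helper9.GaborAbs

open Filter Topology InnerProductSpace


section
variable {J : Type*} {K : Type*} [NormedAddCommGroup K] [InnerProductSpace ℂ K] [CompleteSpace K]
  (e : HilbertBasis J ℂ K)

/-- continuous linear maps agreeing on the basis are equal -/
lemma ext_basis {H : Type*} [NormedAddCommGroup H] [NormedSpace ℂ H] {f g : K →L[ℂ] H}
    (h : ∀ i, f (e i) = g (e i)) : f = g := by
  refine ContinuousLinearMap.ext_on (s := Set.range e) ?_ ?_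
  · have := e.dense_span
    rw [Submodule.dense_iff_topologicalClosure_eq_top]
    exact this
  · rintro _ ⟨i, rfl⟩
    exact h i

/-- an isometry with prescribed orthonormal values on the basis -/
lemma exists_isometry (v : J → K) (hv : Orthonormal ℂ v) :
    ∃ S : K →ₗᵢ[ℂ] K, ∀ i, S (e i) = v i := by
  classical
  refine ⟨hv.orthogonalFamily.linearIsometry.comp e.repr.toLinearIsometry, fun i => ?_⟩
  simp only [LinearIsometry.coe_comp, LinearIsometryEquiv.coe_toLinearIsometry, Function.comp,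
    e.repr_self, OrthogonalFamily.linearIsometry_apply_single]
  simp

/-- an isometry permuting the basis up to phases -/
lemma exists_perm_isometry (ρ : J → J) (hρ : Function.Injective ρ) (u : J → ℂ) (hu : ∀ i, ‖u i‖ = 1) :
    ∃ S : K →ₗᵢ[ℂ] K, ∀ i, S (e i) = u i • e (ρ i) := by
  classical
  refine exists_isometry e (fun i => u i • e (ρ i)) ?_
  rw [orthonormal_iff_ite]
  intro i j
  rw [inner_smul_left, inner_smul_right, (orthonormal_iff_ite.1 e.orthonormal)]
  by_cases hij : i = j
  · subst hij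
    simp only [if_true, mul_one]
    rw [← Complex.normSq_eq_conj_mul_self, Complex.normSq_eq_norm_sq, hu]
    simp
  · rw [if_neg (fun h => hij (hρ h)), if_neg hij]
    simp

/-- Parseval -/
lemma parseval (x : K) : HasSum (fun i => ‖(inner ℂ (e i) (x))‖ ^ 2) (‖x‖ ^ 2) := by
  have h := e.hasSum_inner_mul_inner x x
  have e1 : (inner ℂ x x : ℂ) = ((‖x‖ ^ 2 : ℝ) : ℂ) := by
    rw [inner_self_eq_norm_sq_to_K]; simp
  have h3 : (fun i => (inner ℂ (x) (e i)) * (inner ℂ (e i) (x))) = fun i => ((‖(inner ℂ (e i) (x))‖ ^ 2 : ℝ) : ℂ) := by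
    funext i
    rw [← inner_conj_symm x (e i), ← Complex.normSq_eq_conj_mul_self, Complex.normSq_eq_norm_sq]
  rw [e1, h3] at h
  exact_mod_cast h

/-- zero if all coefficients vanish -/
lemma eq_zero_of_coeff (x : K) (h : ∀ i, (inner ℂ (e i) (x)) = 0) : x = 0 := by
  have h1 := parseval e x
  have h2 : (fun i => ‖(inner ℂ (e i) (x))‖ ^ 2) = fun _ => (0 : ℝ) := by
    funext i; rw [h i]; simp
  rw [h2] at h1
  have := h1.unique hasSum_zero
  rw [← norm_eq_zero]
  exact pow_eq_zero_iff (two_ne_zero) |>.1 this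

/-- wandering vector -/
lemma exists_wandering (N : Submodule ℂ K) (hN : IsClosed (N : Set K)) (S : K →ₗᵢ[ℂ] K)
    (hS : ∀ x ∈ N, S x ∈ N) (m : K) (hm : m ∈ N) (hm' : ∀ x ∈ N, S x ≠ m) :
    ∃ w ∈ N, ‖w‖ = 1 ∧ ∀ x ∈ N, (inner ℂ (S x) (w)) = 0 := by
  set M : Submodule ℂ K := N.map S.toLinearMap with hM
  have hNc : IsComplete (N : Set K) := hN.isComplete
  have hMc : IsComplete (M : Set K) := by
    rw [hM]
    exact (LinearIsometry.isComplete_map_iff S).2 hNc
  have : CompleteSpace M := completeSpace_coe_iff_isComplete.2 hMc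
  set w0 := m - M.starProjection m with hw0
  have hpM : M.starProjection m ∈ M := M.starProjection_apply_mem m
  have hMN : M ≤ N := by
    rintro _ ⟨x, hx, rfl⟩
    exact hS x hx
  have hw0N : w0 ∈ N := N.sub_mem hm (hMN hpM)
  have hw0ne : w0 ≠ 0 := by
    intro h
    rw [hw0, sub_eq_zero] at h
    rw [← h] at hpM
    obtain ⟨x, hx, hxm⟩ := hpM
    exact hm' x hx hxm
  have hw0orth : ∀ x ∈ N, (inner ℂ (S x) (w0)) = 0 := by
    intro x hx
    have h1 := Submodule.sub_starProjection_mem_orthogonal (K := M) m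
    exact (Submodule.mem_orthogonal _ _).1 h1 (S x) ⟨x, hx, rfl⟩
  have hnpos : 0 < ‖w0‖ := norm_pos_iff.2 hw0ne
  refine ⟨((‖w0‖⁻¹ : ℝ) : ℂ) • w0, N.smul_mem _ hw0N, ?_, ?_⟩
  · rw [norm_smul, Complex.norm_real, Real.norm_eq_abs, abs_of_pos (inv_pos.2 hnpos)]
    exact inv_mul_cancel₀ hnpos.ne'
  · intro x hx
    rw [inner_smul_right, hw0orth x hx, mul_zero]

/-- the iterates of the wandering vector are orthonormal -/
lemma wandering_orthonormal (N : Submodule ℂ K) (S : K →ₗᵢ[ℂ] K)
    (hS : ∀ x ∈ N, S x ∈ N) (w : K) (hw : w ∈ N) (hw1 : ‖w‖ = 1) (hw2 : ∀ x ∈ N, (inner ℂ (S x) (w)) = 0) :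
    (∀ j : ℕ, (S^[j]) w ∈ N) ∧ Orthonormal ℂ (fun j : ℕ => (S^[j]) w) := by
  have hmem : ∀ j : ℕ, (S^[j]) w ∈ N := by
    intro j
    induction j with
    | zero => simpa using hw
    | succ j ih => rw [Function.iterate_succ_apply']; exact hS _ ih
  have hiso : ∀ (j : ℕ) (x y : K), (inner ℂ ((S^[j]) x) ((S^[j]) y)) = (inner ℂ (x) (y)) := by
    intro j
    induction j with
    | zero => intro x y; rfl
    | succ j ih => intro x y; rw [Function.iterate_succ_apply', Function.iterate_succ_apply',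
        S.inner_map_map, ih]
  have hlt : ∀ i d : ℕ, (inner ℂ ((S^[i + (d+1)]) w) ((S^[i]) w)) = 0 := by
    intro i d
    rw [Function.iterate_add_apply, hiso, Function.iterate_succ_apply']
    exact hw2 _ (hmem d)
  refine ⟨hmem, ?_, ?_⟩
  · intro j
    show ‖(S^[j]) w‖ = 1
    induction j with
    | zero => exact hw1
    | succ j ih => rw [Function.iterate_succ_apply', S.norm_map, ih]
  · intro i j hij
    rcases lt_or_gt_of_ne hij with h | h
    · obtain ⟨d, rfl⟩ : ∃ d, j = i + (d+1) := ⟨j - i - 1, by omega⟩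
      show (inner ℂ ((S^[i]) w) ((S^[i + (d+1)]) w)) = 0
      rw [← inner_conj_symm, hlt, map_zero]
    · obtain ⟨d, rfl⟩ : ∃ d, i = j + (d+1) := ⟨i - j - 1, by omega⟩
      exact hlt j d

/-- Bessel bound on the norm of `D (e k)`. -/
lemma norm_D_le {H : Type*} [NormedAddCommGroup H] [NormedSpace ℂ H] (D : K →L[ℂ] H)
    (N : Submodule ℂ K) (hNcl : IsClosed (N : Set K)) (hN : ∀ x ∈ N, D x = 0)
    (v : ℕ → K) (hv : Orthonormal ℂ v) (hvN : ∀ j, v j ∈ N) (x : K) (s : Finset ℕ) :
    ‖D x‖ ^ 2 ≤ ‖D‖ ^ 2 * (‖x‖ ^ 2 - ∑ j ∈ s, ‖(inner ℂ (v j) (x))‖ ^ 2) := by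
  have : CompleteSpace N := completeSpace_coe_iff_isComplete.2 hNcl.isComplete
  have h1 : D x = D (Nᗮ.starProjection x) := by
    have h2 := Submodule.starProjection_add_starProjection_orthogonal (K := N) x
    have h3 := hN _ (N.starProjection_apply_mem x)
    calc D x = D (N.starProjection x + Nᗮ.starProjection x) := by rw [h2]
      _ = D (Nᗮ.starProjection x) := by rw [map_add, h3, zero_add]
  have h4 := Submodule.norm_sq_eq_add_norm_sq_starProjection x N
  have h5 : ∑ j ∈ s, ‖(inner ℂ (v j) (x))‖ ^ 2 ≤ ‖N.starProjection x‖ ^ 2 := by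
    refine le_trans (le_of_eq ?_) (hv.sum_inner_products_le (x := N.starProjection x) (s := s))
    refine Finset.sum_congr rfl fun j _ => ?_
    have h6 : (inner ℂ (v j) (x - N.starProjection x)) = 0 :=
      (Submodule.mem_orthogonal _ _).1 (Submodule.sub_starProjection_mem_orthogonal (K := N) x) _ (hvN j)
    rw [inner_sub_right, sub_eq_zero] at h6
    rw [h6]
  rw [h1]
  have h7 := D.le_opNorm (Nᗮ.starProjection x)
  have h8 : ‖D (Nᗮ.starProjection x)‖ ^ 2 ≤ (‖D‖ * ‖Nᗮ.starProjection x‖) ^ 2 :=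
    pow_le_pow_left₀ (norm_nonneg _) h7 2
  refine h8.trans ?_
  rw [mul_pow]
  refine mul_le_mul_of_nonneg_left ?_ (sq_nonneg _)
  linarith

/-- The isometry commutes with the projection onto `N` if `S N = N`. -/
lemma proj_comm (N : Submodule ℂ K) [N.HasOrthogonalProjection] (S : K →ₗᵢ[ℂ] K)
    (hS : ∀ x ∈ N, S x ∈ N) (hS' : ∀ x ∈ N, ∃ y ∈ N, S y = x) (x : K) :
    N.starProjection (S x) = S (N.starProjection x) := by
  refine Submodule.eq_starProjection_of_mem_of_inner_eq_zero
    (hS _ (N.starProjection_apply_mem x)) ?_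
  intro y hy
  obtain ⟨z, hz, rfl⟩ := hS' y hy
  rw [← map_sub, S.inner_map_map]
  have := (Submodule.mem_orthogonal' _ _).1 (Submodule.sub_starProjection_mem_orthogonal (K := N) x) z hz
  exact this

end

/-- Combinatorial core: a bijection `ℤ → ℤ²` cannot intertwine. -/
theorem no_bijection (σ : ℤ ≃ ℤ × ℤ) (c : ℤ → ℝ) (a : ℤ × ℤ → ℝ)
    (hca : ∀ j k : ℤ, c (j - k) = a (σ j - σ k))
    (hfin : ∀ r : ℝ, 0 < r → {d : ℤ | c d = r}.Finite) (hc0 : ∀ d, 0 ≤ c d)
    (hd : ∃ d : ℤ, d ≠ 0 ∧ c d ≠ 0) : False := by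
  obtain ⟨d0, hd0, hcd0⟩ := hd
  set l0 : ℤ × ℤ := σ d0 - σ 0 with hl0
  have hl0ne : l0 ≠ 0 := by
    intro h
    rw [hl0, sub_eq_zero] at h
    exact hd0 (σ.injective h)
  have hal0 : a l0 ≠ 0 := by
    rw [hl0, ← hca, sub_zero]; exact hcd0
  -- a functional vanishing on `l0`
  let ell : ℤ × ℤ → ℤ := fun x => l0.1 * x.2 - l0.2 * x.1
  have hell_sub : ∀ x y, ell (x - y) = ell x - ell y := by
    intro x y; simp [ell]; ring
  have hpos : 0 < l0.1 ^ 2 + l0.2 ^ 2 := by
    rcases eq_or_ne l0.1 0 with h1 | h1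
    · rcases eq_or_ne l0.2 0 with h2 | h2
      · exact absurd (Prod.ext h1 h2) hl0ne
      · positivity
    · positivity
  -- there is another direction
  have hl1 : ∃ l1 : ℤ × ℤ, a l1 ≠ 0 ∧ ell l1 ≠ 0 := by
    by_contra hcon
    push Not at hcon
    have hper : Function.Periodic (fun j => ell (σ j)) d0 := by
      intro j
      have h1 : a (σ (j + d0) - σ j) ≠ 0 := by
        rw [← hca]
        have : j + d0 - j = d0 := by ring
        rw [this]; exact hcd0
      have h2 := hcon _ h1
      rw [hell_sub] at h2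
      show ell (σ (j + d0)) = ell (σ j)
      linarith
    -- range is finite
    have hrange : (Set.range fun j => ell (σ j)).Finite := by
      refine Set.Finite.subset ((Set.finite_Icc (-|d0|) |d0|).image (fun j => ell (σ j))) ?_
      rintro _ ⟨j, rfl⟩
      refine ⟨j % d0, ?_, ?_⟩
      · have h1 := Int.emod_nonneg j hd0
        have h2 := Int.emod_lt_abs j hd0
        exact ⟨by have := abs_nonneg d0; linarith, h2.le⟩
      · have h3 : j = j % d0 + (j / d0) * d0 := by
          have := Int.emod_add_mul_ediv j d0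
          linarith [mul_comm d0 (j / d0)]
        have h4 := hper.int_mul (j / d0) (j % d0)
        show ell (σ (j % d0)) = ell (σ j)
        have h5 : ell (σ (j % d0 + (j / d0) * d0)) = ell (σ (j % d0)) := by
          simpa using h4
        rw [← h5, ← h3]
    -- but it is infinite
    have hinj : Function.Injective (fun m : ℕ => ell ((m : ℤ) * (-l0.2), (m : ℤ) * l0.1)) := by
      intro m m' h
      simp only [ell] at h
      have h1 : (m : ℤ) * (l0.1 ^ 2 + l0.2 ^ 2) = (m' : ℤ) * (l0.1 ^ 2 + l0.2 ^ 2) := by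
        linarith [h]
      have h2 := mul_right_cancel₀ hpos.ne' h1
      exact_mod_cast h2
    have hinf := Set.infinite_range_of_injective hinj
    apply hinf
    refine hrange.subset ?_
    rintro _ ⟨m, rfl⟩
    exact ⟨σ.symm ((m : ℤ) * (-l0.2), (m : ℤ) * l0.1), by simp⟩
  obtain ⟨l1, hal1, hl1⟩ := hl1
  -- bounded displacement
  have hbd : ∀ l : ℤ × ℤ, a l ≠ 0 → ∃ R : ℕ, ∀ x, |σ.symm (x + l) - σ.symm x| ≤ R := by
    intro l hl
    have h0 : 0 < a l := by
      have h1 : a l = c (σ.symm l - σ.symm 0) := by rw [hca]; simp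
      have h2 := hc0 (σ.symm l - σ.symm 0)
      rw [← h1] at h2
      exact lt_of_le_of_ne h2 (Ne.symm hl)
    have hf := hfin _ h0
    obtain ⟨R, hR⟩ := (hf.image (fun d : ℤ => d.natAbs)).bddAbove
    refine ⟨R, fun x => ?_⟩
    have h1 : c (σ.symm (x + l) - σ.symm x) = a l := by rw [hca]; simp
    have h2 := hR ⟨_, h1, rfl⟩
    rw [Int.abs_eq_natAbs]
    exact_mod_cast h2
  obtain ⟨R0, hR0⟩ := hbd l0 hal0
  obtain ⟨R1, hR1⟩ := hbd l1 hal1
  set R := R0 + R1 with hR
  have hstep : ∀ m n : ℕ, |σ.symm (m • l0 + n • l1) - σ.symm 0| ≤ ((m + n) * R : ℕ) := by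
    intro m n
    induction m with
    | zero =>
      induction n with
      | zero => simp
      | succ n ih =>
        have h1 : (0 : ℕ) • l0 + (n+1) • l1 = ((0 : ℕ) • l0 + n • l1) + l1 := by
          rw [succ_nsmul]; abel
        have h2 := hR1 ((0 : ℕ) • l0 + n • l1)
        rw [h1]
        have h3 := abs_sub_le (σ.symm ((0 : ℕ) • l0 + n • l1 + l1)) (σ.symm ((0 : ℕ) • l0 + n • l1)) (σ.symm 0)
        push_cast at ih ⊢
        have h4 : (0:ℤ) ≤ R0 := Int.natCast_nonneg _
        nlinarith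
    | succ m ih =>
      have h1 : (m+1) • l0 + n • l1 = (m • l0 + n • l1) + l0 := by
        rw [succ_nsmul]; abel
      have h2 := hR0 (m • l0 + n • l1)
      rw [h1]
      have h3 := abs_sub_le (σ.symm (m • l0 + n • l1 + l0)) (σ.symm (m • l0 + n • l1)) (σ.symm 0)
      push_cast at ih ⊢
      have h4 : (0:ℤ) ≤ R1 := Int.natCast_nonneg _
      nlinarith
  -- counting
  set M : ℕ := 4 * R + 2 with hM
  let F : Fin M × Fin M → ℤ := fun p => σ.symm ((p.1 : ℕ) • l0 + (p.2 : ℕ) • l1) - σ.symm 0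
  have hFinj : Function.Injective F := by
    rintro ⟨m, n⟩ ⟨m', n'⟩ h
    have h1 : σ.symm ((m : ℕ) • l0 + (n : ℕ) • l1) = σ.symm ((m' : ℕ) • l0 + (n' : ℕ) • l1) := by
      have : F (m, n) = F (m', n') := h
      simp only [F] at this
      linarith
    have h2 := σ.symm.injective h1
    have h3 := congrArg Prod.fst h2
    have h4 := congrArg Prod.snd h2
    simp only [Prod.fst_add, Prod.snd_add, Prod.smul_fst, Prod.smul_snd] at h3 h4
    simp only [nsmul_eq_mul] at h3 h4
    simp only [ell] at hl1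
    have h5 : ((n : ℕ) : ℤ) = ((n' : ℕ) : ℤ) := by
      have : (((n : ℕ) : ℤ) - ((n' : ℕ) : ℤ)) * (l0.1 * l1.2 - l0.2 * l1.1) = 0 := by
        linear_combination l0.1 * h4 - l0.2 * h3
      rcases mul_eq_zero.1 this with h | h
      · linarith
      · exact absurd h hl1
    have h6 : ((m : ℕ) : ℤ) = ((m' : ℕ) : ℤ) := by
      rw [h5] at h3 h4
      have h7 : (((m : ℕ) : ℤ) - ((m' : ℕ) : ℤ)) * l0.1 = 0 := by linear_combination h3
      have h8 : (((m : ℕ) : ℤ) - ((m' : ℕ) : ℤ)) * l0.2 = 0 := by linear_combination h4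
      rcases mul_eq_zero.1 h7 with h | h
      · linarith
      · rcases mul_eq_zero.1 h8 with h' | h'
        · linarith
        · exact absurd (Prod.ext h h') hl0ne
    exact Prod.ext (Fin.ext (by exact_mod_cast h6)) (Fin.ext (by exact_mod_cast h5))
  have hFmem : ∀ p, F p ∈ Finset.Icc (-(2 * M * R : ℤ)) (2 * M * R) := by
    rintro ⟨m, n⟩
    have h1 := hstep m n
    have h2 : (((m : ℕ) + (n : ℕ)) * R : ℕ) ≤ 2 * M * R := by
      have := m.2
      have := n.2
      exact Nat.mul_le_mul_right R (by omega)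
    have h3 : |F (m, n)| ≤ (2 * M * R : ℤ) := by
      refine h1.trans ?_
      exact_mod_cast h2
    rw [Finset.mem_Icc]
    exact abs_le.1 h3
  have hcard := Finset.card_le_card_of_injOn (s := (Finset.univ : Finset (Fin M × Fin M))) F
    (fun p _ => hFmem p) (fun p _ q _ h => hFinj h)
  rw [Finset.card_univ, Fintype.card_prod, Fintype.card_fin, Int.card_Icc] at hcard
  have h9 : (2 * (M:ℤ) * R + 1 - -(2 * M * R)).toNat = 4 * M * R + 1 := by
    have : (2 * (M:ℤ) * R + 1 - -(2 * M * R)) = ((4 * M * R + 1 : ℕ) : ℤ) := by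
      push_cast; ring
    rw [this, Int.toNat_natCast]
  rw [h9] at hcard
  have h10 : M * M = 4 * M * R + 2 * M := by
    rw [hM]; ring
  omega

section
variable {K : Type*} [NormedAddCommGroup K] [InnerProductSpace ℂ K] [CompleteSpace K]
  {H : Type*} [NormedAddCommGroup H] [NormedSpace ℂ H]

/-- If there is a wandering vector, the norms of the frame elements are not bounded below.
`q : ℤ → K` is the orbit (on `ℤ`), used for both index sets. -/
lemma small_norm {I : Type*} (σ : I ≃ ℤ × ℤ) (e : HilbertBasis (ℤ × ℤ) ℂ K) (D : K →L[ℂ] H)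
    (sh : ℕ → I → I)
    (S : K →ₗᵢ[ℂ] K) (hSe : ∀ (j : ℕ) (i : I), (S^[j]) (e (σ i)) = e (σ (sh j i)))
    (hub : ∀ F : Finset I, ∃ k : I, ∃ m : ℕ, ∃ g : I → ℕ, (∀ i ∈ F, g i ≤ m ∧ sh (g i) i = k) ∧
      Set.InjOn g (F : Set I))
    (hS : ∀ x, D x = 0 → D (S x) = 0) (δ : ℝ) (hδ : 0 < δ) (hnorm : ∀ l, δ ≤ ‖D (e l)‖)
    (m0 : K) (hm0 : D m0 = 0) (hm0' : ∀ x, D x = 0 → S x ≠ m0) : False := by
  classical
  set N : Submodule ℂ K := LinearMap.ker D.toLinearMap with hN
  have hNmem : ∀ x, x ∈ N ↔ D x = 0 := fun x => by rw [hN]; simp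
  have hNcl : IsClosed (N : Set K) := D.isClosed_ker
  obtain ⟨w, hwN, hw1, hw2⟩ := exists_wandering N hNcl S
    (fun x hx => (hNmem _).2 (hS x ((hNmem x).1 hx))) m0 ((hNmem _).2 hm0)
    (fun x hx => hm0' x ((hNmem x).1 hx))
  obtain ⟨hmem, hon⟩ := wandering_orthonormal N S
    (fun x hx => (hNmem _).2 (hS x ((hNmem x).1 hx))) w hwN hw1 hw2
  -- Parseval reindexed
  have hpar : HasSum (fun i : I => ‖(inner ℂ (e (σ i)) (w))‖ ^ 2) 1 := by
    have h1 := parseval e w
    rw [hw1, one_pow] at h1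
    exact (σ.hasSum_iff (f := fun l => ‖(inner ℂ (e l) (w))‖ ^ 2)).2 h1
  have hDpos : 0 < ‖D‖ := by
    by_contra hcon
    have h0 : ‖D‖ = 0 := le_antisymm (not_lt.1 hcon) (norm_nonneg _)
    have h1 := D.le_opNorm (e (0, 0))
    rw [h0, zero_mul] at h1
    have := hnorm (0, 0)
    linarith
  -- choose a finite set with almost full mass
  have hε : 0 < δ ^ 2 / (‖D‖ ^ 2) / 2 := by positivity
  have hev := hpar.eventually (lt_mem_nhds (show 1 - δ ^ 2 / (‖D‖ ^ 2) / 2 < 1 by linarith))
  obtain ⟨F, hF⟩ := hev.exists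
  obtain ⟨k, m, g, hg, hginj⟩ := hub F
  have hbound := norm_D_le D N hNcl (fun x hx => (hNmem x).1 hx) (fun j => (S^[j]) w) hon hmem
    (e (σ k)) (Finset.range (m+1))
  have hiso : ∀ (j : ℕ) (x y : K), (inner ℂ ((S^[j]) x) ((S^[j]) y)) = (inner ℂ (x) (y)) := by
    intro j
    induction j with
    | zero => intro x y; rfl
    | succ j ih => intro x y; rw [Function.iterate_succ_apply', Function.iterate_succ_apply',
        S.inner_map_map, ih]
  have hsum : ∑ i ∈ F, ‖(inner ℂ (e (σ i)) (w))‖ ^ 2 ≤ ∑ j ∈ Finset.range (m+1), ‖(inner ℂ ((S^[j]) w) (e (σ k)))‖ ^ 2 := by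
    have h1 : ∑ i ∈ F, ‖(inner ℂ (e (σ i)) (w))‖ ^ 2 = ∑ j ∈ F.image g, ‖(inner ℂ ((S^[j]) w) (e (σ k)))‖ ^ 2 := by
      rw [Finset.sum_image hginj]
      refine Finset.sum_congr rfl fun i hi => ?_
      obtain ⟨_, h3⟩ := hg i hi
      have h4 : (inner ℂ ((S^[g i]) w) (e (σ k))) = (inner ℂ (w) (e (σ i))) := by
        rw [← h3, ← hSe, hiso]
      rw [h4, norm_inner_symm]
    rw [h1]
    refine Finset.sum_le_sum_of_subset_of_nonneg ?_ fun _ _ _ => sq_nonneg _
    intro j hj
    obtain ⟨i, hi, rfl⟩ := Finset.mem_image.1 hj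
    exact Finset.mem_range.2 (Nat.lt_succ_of_le (hg i hi).1)
  have hek : ‖e (σ k)‖ = 1 := e.orthonormal.1 _
  rw [hek] at hbound
  have h5 := hnorm (σ k)
  have h6 : δ ^ 2 ≤ ‖D (e (σ k))‖ ^ 2 := pow_le_pow_left₀ hδ.le h5 2
  have h7 : ‖D‖ ^ 2 * (1 ^ 2 - ∑ j ∈ Finset.range (m+1), ‖(inner ℂ ((S^[j]) w) (e (σ k)))‖ ^ 2)
      ≤ ‖D‖ ^ 2 * (δ ^ 2 / (‖D‖ ^ 2) / 2) := by
    refine mul_le_mul_of_nonneg_left ?_ (sq_nonneg _)
    linarith
  have h8 : ‖D‖ ^ 2 * (δ ^ 2 / (‖D‖ ^ 2) / 2) = δ ^ 2 / 2 := by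
    field_simp
  have h9 : 0 < δ ^ 2 := by positivity
  linarith

/-- Abstract theorem, index set `ℕ`. -/
theorem abstract_nat (σ : ℕ ≃ ℤ × ℤ) (e : HilbertBasis (ℤ × ℤ) ℂ K) (D : K →L[ℂ] H)
    (T : H →L[ℂ] H) (hT : ∀ k : ℕ, T (D (e (σ k))) = D (e (σ (k+1))))
    (δ : ℝ) (hδ : 0 < δ) (hnorm : ∀ l, δ ≤ ‖D (e l)‖)
    (x0 : K) (hx0 : D x0 = 0) (hx0' : x0 ≠ 0) : False := by
  classical
  obtain ⟨S, hS⟩ := exists_perm_isometry e (fun l => σ (σ.symm l + 1))
    (fun l l' h => by simpa using σ.injective h) (fun _ => 1) (fun _ => by simp)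
  have hSk : ∀ k, S (e (σ k)) = e (σ (k+1)) := by
    intro k; rw [hS]; simp
  have hDS : D.comp S.toContinuousLinearMap = T.comp D := by
    refine ext_basis e fun l => ?_
    obtain ⟨k, rfl⟩ := σ.surjective l
    simp [hSk, hT]
  have hSN : ∀ x, D x = 0 → D (S x) = 0 := by
    intro x hx
    have := DFunLike.congr_fun hDS x
    simpa [hx] using this
  have hSe : ∀ (j : ℕ) (i : ℕ), (S^[j]) (e (σ i)) = e (σ (i + j)) := by
    intro j
    induction j with
    | zero => intro i; rfl
    | succ j ih => intro i; rw [Function.iterate_succ_apply', ih, hSk]; rfl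
  -- there is an element of the kernel not in the image of the kernel
  by_cases hex : ∃ m0, D m0 = 0 ∧ ∀ x, D x = 0 → S x ≠ m0
  · obtain ⟨m0, h1, h2⟩ := hex
    refine small_norm σ e D (fun j i => i + j) S hSe ?_ hSN δ hδ hnorm m0 h1 h2
    intro F
    obtain ⟨k, hk⟩ := F.bddAbove
    refine ⟨k, k, fun i => k - i, fun i hi => ⟨Nat.sub_le _ _, ?_⟩, ?_⟩
    · have := hk hi
      show i + (k - i) = k
      omega
    · intro i hi j hj hij
      have h1 := hk hi
      have h2 := hk hj
      simp only at hij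
      omega
  · push Not at hex
    have hzero : ∀ k : ℕ, ∀ x, D x = 0 → (inner ℂ (e (σ k)) (x)) = 0 := by
      intro k
      induction k with
      | zero =>
        intro x hx
        obtain ⟨y, _, rfl⟩ := hex x hx
        have h1 : (innerSL ℂ (e (σ 0))).comp S.toContinuousLinearMap = 0 := by
          refine ext_basis e fun l => ?_
          obtain ⟨i, rfl⟩ := σ.surjective l
          simp only [ContinuousLinearMap.comp_apply, LinearIsometry.coe_toContinuousLinearMap,
            innerSL_apply_apply, hSk, ContinuousLinearMap.zero_apply]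
          exact e.orthonormal.2 (fun h => by simpa using σ.injective h)
        have := DFunLike.congr_fun h1 y
        simpa using this
      | succ k ih =>
        intro x hx
        obtain ⟨y, hy, rfl⟩ := hex x hx
        rw [← hSk, S.inner_map_map]
        exact ih y hy
    apply hx0'
    refine eq_zero_of_coeff e x0 fun l => ?_
    obtain ⟨k, rfl⟩ := σ.surjective l
    exact hzero k x0 hx0

/-- Abstract theorem, index set `ℤ`. -/
theorem abstract_int (σ : ℤ ≃ ℤ × ℤ) (e : HilbertBasis (ℤ × ℤ) ℂ K) (D : K →L[ℂ] H)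
    (T : H →L[ℂ] H) (hT : ∀ k : ℤ, T (D (e (σ k))) = D (e (σ (k+1))))
    (π : ℤ × ℤ → (H →L[ℂ] H)) (u : ℤ × ℤ → ℤ × ℤ → ℂ) (hu : ∀ l l', ‖u l l'‖ = 1)
    (hπ : ∀ l l', π l (D (e l')) = u l l' • D (e (l' + l)))
    (hπinj : ∀ l x, π l x = 0 → x = 0)
    (δ : ℝ) (hδ : 0 < δ) (hnorm : ∀ l, δ ≤ ‖D (e l)‖)
    (x0 : K) (hx0 : D x0 = 0) (hx0' : x0 ≠ 0) : False := by
  classical
  obtain ⟨S, hS⟩ := exists_perm_isometry e (fun l => σ (σ.symm l + 1))
    (fun l l' h => by simpa using σ.injective h) (fun _ => 1) (fun _ => by simp)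
  have hSk : ∀ k, S (e (σ k)) = e (σ (k+1)) := by
    intro k; rw [hS]; simp
  have hDS : D.comp S.toContinuousLinearMap = T.comp D := by
    refine ext_basis e fun l => ?_
    obtain ⟨k, rfl⟩ := σ.surjective l
    simp [hSk, hT]
  have hSN : ∀ x, D x = 0 → D (S x) = 0 := by
    intro x hx
    have := DFunLike.congr_fun hDS x
    simpa [hx] using this
  have hSe : ∀ (j : ℕ) (i : ℤ), (S^[j]) (e (σ i)) = e (σ (i + j)) := by
    intro j
    induction j with
    | zero => intro i; simp
    | succ j ih =>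
      intro i
      rw [Function.iterate_succ_apply', ih, hSk]
      push_cast
      rw [add_assoc]
  by_cases hex : ∃ m0, D m0 = 0 ∧ ∀ x, D x = 0 → S x ≠ m0
  · obtain ⟨m0, h1, h2⟩ := hex
    refine small_norm σ e D (fun j i => i + j) S hSe ?_ hSN δ hδ hnorm m0 h1 h2
    intro F
    obtain ⟨k, hk⟩ := F.bddAbove
    obtain ⟨b, hb⟩ := F.bddBelow
    refine ⟨k, (k - b).toNat, fun i => (k - i).toNat, fun i hi => ⟨?_, ?_⟩, ?_⟩
    · have h1 := hb hi
      exact Int.toNat_le_toNat (by linarith)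
    · have h1 := hk hi
      show i + ((k - i).toNat : ℤ) = k
      rw [Int.toNat_of_nonneg (by linarith)]
      ring
    · intro i hi j hj hij
      have h1 := hk hi
      have h2 := hk hj
      simp only at hij
      omega
  · push Not at hex
    set N : Submodule ℂ K := LinearMap.ker D.toLinearMap with hN
    have hNmem : ∀ x, x ∈ N ↔ D x = 0 := fun x => by rw [hN]; simp
    have hNcl : IsClosed (N : Set K) := D.isClosed_ker
    have : CompleteSpace N := completeSpace_coe_iff_isComplete.2 hNcl.isComplete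
    set P := N.starProjection with hP
    have hPS : ∀ x, P (S x) = S (P x) := by
      refine proj_comm N S (fun x hx => (hNmem _).2 (hSN x ((hNmem x).1 hx))) ?_
      intro x hx
      obtain ⟨y, hy, hyx⟩ := hex x ((hNmem x).1 hx)
      exact ⟨y, (hNmem _).2 hy, hyx⟩
    -- Toeplitz property
    set p : ℤ × ℤ → ℤ × ℤ → ℂ := fun l l' => (inner ℂ (e l) (P (e l'))) with hp
    have hToep : ∀ j k : ℤ, p (σ (j+1)) (σ (k+1)) = p (σ j) (σ k) := by
      intro j k
      simp only [hp]
      rw [← hSk, ← hSk, hPS, S.inner_map_map]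
    have hToepN : ∀ (n : ℕ) (j k : ℤ), p (σ (j+n)) (σ (k+n)) = p (σ j) (σ k) := by
      intro n
      induction n with
      | zero => intro j k; simp
      | succ n ih =>
        intro j k
        have h1 := hToep (j+n) (k+n)
        rw [ih] at h1
        rw [← h1]
        push_cast
        rw [add_assoc, add_assoc]
    have hToepZ : ∀ j k : ℤ, p (σ j) (σ k) = p (σ (j - k)) (σ 0) := by
      intro j k
      rcases Int.eq_nat_or_neg k with ⟨n, rfl | rfl⟩
      · have := hToepN n (j - n) 0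
        rw [sub_add_cancel, zero_add] at this
        exact this
      · have := hToepN n j (-n)
        rw [neg_add_cancel] at this
        rw [← this]
        congr 2
        ring_nf
    -- covariance
    have hCov : ∀ l x y : ℤ × ℤ, ‖p (x + l) (y + l)‖ = ‖p x y‖ := by
      intro l x y
      obtain ⟨W, hW⟩ := exists_perm_isometry e (fun l' => l' + l) (add_left_injective l)
        (fun l' => u l l') (hu l)
      obtain ⟨W', hW'⟩ := exists_perm_isometry e (fun l' => l' - l) (sub_left_injective)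
        (fun l' => (u l (l' - l))⁻¹) (fun l' => by rw [norm_inv, hu, inv_one])
      have hWW' : W.toContinuousLinearMap.comp W'.toContinuousLinearMap = ContinuousLinearMap.id ℂ K := by
        refine ext_basis e fun l' => ?_
        have hne : u l (l' - l) ≠ 0 := by
          rw [← norm_pos_iff, hu]; norm_num
        simp only [ContinuousLinearMap.comp_apply, LinearIsometry.coe_toContinuousLinearMap, hW',
          map_smul, hW, sub_add_cancel, smul_smul, ContinuousLinearMap.id_apply]
        rw [inv_mul_cancel₀ hne, one_smul]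
      have hDW : D.comp W.toContinuousLinearMap = (π l).comp D := by
        refine ext_basis e fun l' => ?_
        simp [hW, hπ]
      have hDWx : ∀ x, D (W x) = π l (D x) := fun x => by
        simpa using DFunLike.congr_fun hDW x
      have hPW : ∀ x, P (W x) = W (P x) := by
        refine proj_comm N W ?_ ?_
        · intro x hx
          rw [hNmem, hDWx, (hNmem x).1 hx, map_zero]
        · intro x hx
          have h1 : W (W' x) = x := by simpa using DFunLike.congr_fun hWW' x
          refine ⟨W' x, ?_, h1⟩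
          rw [hNmem]
          apply hπinj l
          rw [← hDWx, h1]
          exact (hNmem x).1 hx
      have hne : ∀ z, u l z ≠ 0 := fun z => by rw [← norm_pos_iff, hu]; norm_num
      have h1 : ∀ z, e (z + l) = (u l z)⁻¹ • W (e z) := by
        intro z
        rw [hW, smul_smul, inv_mul_cancel₀ (hne z), one_smul]
      simp only [hp]
      rw [h1 x, h1 y, map_smul, hPW, inner_smul_left, inner_smul_right, W.inner_map_map, norm_mul,
        norm_mul, RCLike.norm_conj, norm_inv, norm_inv, hu, hu]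
      simp
    -- apply the combinatorial theorem
    refine no_bijection σ (fun d => ‖p (σ d) (σ 0)‖) (fun l => ‖p l 0‖) ?_ ?_ ?_ ?_
    · intro j k
      show ‖p (σ (j - k)) (σ 0)‖ = ‖p (σ j - σ k) 0‖
      rw [← hToepZ, ← hCov (σ k) (σ j - σ k) 0, sub_add_cancel, zero_add]
    · intro r hr
      have h1 := (parseval e (P (e (σ 0)))).summable
      have h2 : Summable (fun d : ℤ => ‖p (σ d) (σ 0)‖ ^ 2) := by
        exact (σ.summable_iff (f := fun l => ‖(inner ℂ (e l) (P (e (σ 0))))‖ ^ 2)).2 h1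
      have h3 := h2.tendsto_cofinite_zero.eventually (gt_mem_nhds (show (0:ℝ) < r ^ 2 by positivity))
      have h4 : {d : ℤ | ¬ (‖p (σ d) (σ 0)‖ ^ 2 < r ^ 2)}.Finite := h3
      refine h4.subset ?_
      intro d hd
      have hd' : ‖p (σ d) (σ 0)‖ = r := hd
      simp only [Set.mem_setOf_eq, hd', lt_irrefl, not_false_eq_true]
    · intro d; exact norm_nonneg _
    · by_contra hcon
      push Not at hcon
      have hdiag : ∀ l l', l ≠ l' → p l l' = 0 := by
        intro l l' hll
        obtain ⟨j, rfl⟩ := σ.surjective l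
        obtain ⟨k, rfl⟩ := σ.surjective l'
        rw [hToepZ]
        have hjk : j - k ≠ 0 := by
          intro h
          apply hll
          rw [sub_eq_zero.1 h]
        exact norm_eq_zero.1 (hcon _ hjk)
      -- each basis vector is an eigenvector of `P`
      have heig : ∀ l, P (e l) = p l l • e l := by
        intro l
        rw [← sub_eq_zero]
        refine eq_zero_of_coeff e _ fun l' => ?_
        rw [inner_sub_right, inner_smul_right]
        by_cases h : l' = l
        · subst h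
          have : (inner ℂ (e l') (e l')) = 1 := by
            rw [inner_self_eq_norm_sq_to_K, e.orthonormal.1]; simp
          rw [this, mul_one, sub_self]
        · have h1 : (inner ℂ (e l') (P (e l))) = 0 := hdiag l' l h
          rw [h1, e.orthonormal.2 h]
          simp
      have hPP : ∀ x, P (P x) = P x := by
        intro x
        exact (Submodule.starProjection_eq_self_iff).2 (N.starProjection_apply_mem x)
      have hzero : ∀ l, P (e l) = 0 := by
        intro l
        by_contra hne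
        have h1 : P (e l) ∈ N := N.starProjection_apply_mem _
        have h2 : p l l ≠ 0 := by
          intro h
          rw [heig, h, zero_smul] at hne
          exact hne rfl
        rw [heig, hNmem, map_smul] at h1
        have h3 : D (e l) = 0 := (smul_eq_zero.1 h1).resolve_left h2
        have h4 := hnorm l
        rw [h3, norm_zero] at h4
        linarith
      have hP0 : (P : K →L[ℂ] K) = 0 := by
        refine ext_basis e fun l => ?_
        rw [hzero]; rfl
      apply hx0'
      have h5 : P x0 = x0 := (Submodule.starProjection_eq_self_iff).2 ((hNmem x0).2 hx0)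
      rw [← h5, hP0]; rfl

end

end Pool.Agent.Helper9.GaborAbs
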