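import Mathlib

set_option autoImplicit false

namespace Pool.Agent.Helper9.GaborFrame

open Filter Topology InnerProductSpace


variable {J : Type*} {H : Type*} [NormedAddCommGroup H] [InnerProductSpace ℂ H] [CompleteSpace H]

theorem exists_synthesis [DecidableEq J] (f : J → H) (A B : ℝ) (hA : 0 < A)
    (hf : ∀ h : H, Summable (fun k => ‖(inner ℂ (f k) (h))‖ ^ 2) ∧ A * ‖h‖ ^ 2 ≤ ∑' k, ‖(inner ℂ (f k) (h))‖ ^ 2 ∧
      ∑' k, ‖(inner ℂ (f k) (h))‖ ^ 2 ≤ B * ‖h‖ ^ 2) :
    ∃ D : lp (fun _ : J => ℂ) 2 →L[ℂ] H, (∀ l, D (lp.single 2 l (1 : ℂ)) = f l) ∧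
      ((∀ x, D x = 0 → x = 0) →
        (Submodule.span ℂ (Set.range f)).topologicalClosure = ⊤ ∧
        ∃ A' B' : ℝ, 0 < A' ∧ 0 < B' ∧ ∀ c : J →₀ ℂ,
          A' * ∑ k ∈ c.support, ‖c k‖ ^ 2 ≤ ‖∑ k ∈ c.support, c k • f k‖ ^ 2 ∧
          ‖∑ k ∈ c.support, c k • f k‖ ^ 2 ≤ B' * ∑ k ∈ c.support, ‖c k‖ ^ 2) := by
  have hmem : ∀ h : H, Memℓp (fun k => ((inner ℂ (f k) (h)) : ℂ)) 2 := by
    intro h
    refine memℓp_gen ?_
    simpa using (hf h).1
  -- analysis operator
  let C0 : H →ₗ[ℂ] lp (fun _ : J => ℂ) 2 :=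
    { toFun := fun h => ⟨fun k => ((inner ℂ (f k) (h)) : ℂ), hmem h⟩
      map_add' := by
        intro x y
        ext k
        show ((inner ℂ (f k) (x + y)) : ℂ) = (inner ℂ (f k) (x)) + (inner ℂ (f k) (y))
        exact inner_add_right _ _ _
      map_smul' := by
        intro c x
        ext k
        show ((inner ℂ (f k) (c • x)) : ℂ) = c * (inner ℂ (f k) (x))
        exact inner_smul_right _ _ _ }
  have hC0 : ∀ h k, (C0 h : J → ℂ) k = (inner ℂ (f k) (h)) := fun h k => rfl
  have hC0norm : ∀ h, ‖C0 h‖ ^ 2 = ∑' k, ‖(inner ℂ (f k) (h))‖ ^ 2 := by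
    intro h
    have := lp.norm_rpow_eq_tsum (p := 2) (by norm_num) (C0 h)
    simpa [hC0] using this
  have hbd : ∀ h, ‖C0 h‖ ≤ Real.sqrt |B| * ‖h‖ := by
    intro h
    refine (sq_le_sq₀ (by positivity) (by positivity)).1 ?_
    rw [hC0norm, mul_pow, Real.sq_sqrt (abs_nonneg _)]
    refine (hf h).2.2.trans ?_
    gcongr
    exact le_abs_self B
  let C : H →L[ℂ] lp (fun _ : J => ℂ) 2 := C0.mkContinuous _ hbd
  have hC : ∀ h k, (C h : J → ℂ) k = (inner ℂ (f k) (h)) := fun h k => rfl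
  have hCnorm : ∀ h, ‖C h‖ ^ 2 = ∑' k, ‖(inner ℂ (f k) (h))‖ ^ 2 := hC0norm
  let D : lp (fun _ : J => ℂ) 2 →L[ℂ] H := ContinuousLinearMap.adjoint C
  have hD : ∀ l, D (lp.single 2 l (1 : ℂ)) = f l := by
    intro l
    refine ext_inner_right ℂ fun h => ?_
    rw [ContinuousLinearMap.adjoint_inner_left, lp.inner_single_left, hC]
    simp
  refine ⟨D, hD, ?_⟩
  intro hinj
  have hCker : ∀ h, C h = 0 → h = 0 := by
    intro h hh
    have h1 := (hf h).2.1
    rw [← hCnorm, hh] at h1
    simp at h1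
    have h2 : ‖h‖ ^ 2 ≤ 0 := by
      by_contra hcon
      push Not at hcon
      nlinarith [mul_pos hA hcon]
    have h3 : ‖h‖ = 0 := by nlinarith [norm_nonneg h]
    exact norm_eq_zero.1 h3
  constructor
  · rw [Submodule.topologicalClosure_eq_top_iff, Submodule.eq_bot_iff]
    intro h hh
    apply hCker
    ext k
    rw [hC]
    rw [Submodule.mem_orthogonal] at hh
    simpa using hh (f k) (Submodule.subset_span ⟨k, rfl⟩)
  · -- C is bijective
    have hanti : AntilipschitzWith (Real.toNNReal (1 / Real.sqrt A)) C := by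
      refine ContinuousLinearMap.antilipschitz_of_bound C ?_
      intro x
      have hs : 0 < Real.sqrt A := Real.sqrt_pos.2 hA
      rw [Real.coe_toNNReal _ (by positivity), one_div, inv_mul_eq_div, le_div_iff₀ hs]
      refine (sq_le_sq₀ (by positivity) (by positivity)).1 ?_
      rw [mul_pow, Real.sq_sqrt hA.le, hCnorm, mul_comm]
      exact (hf x).2.1
    have hclosed : IsClosed (Set.range C) := hanti.isClosed_range C.uniformContinuous
    have hker : C.ker = ⊥ := by
      rw [Submodule.eq_bot_iff]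
      intro x hx
      exact hCker x hx
    have hrange : C.range = ⊤ := by
      have h1 : C.rangeᗮ = ⊥ := by
        rw [ContinuousLinearMap.orthogonal_range, Submodule.eq_bot_iff]
        intro x hx
        exact hinj x hx
      have h2 := (Submodule.topologicalClosure_eq_top_iff (K := C.range)).2 h1
      rw [← h2]
      symm
      apply IsClosed.submodule_topologicalClosure_eq
      exact hclosed
    let Ce := ContinuousLinearEquiv.ofBijective C hker hrange
    let E : lp (fun _ : J => ℂ) 2 →L[ℂ] H := (Ce.symm : lp (fun _ : J => ℂ) 2 →L[ℂ] H)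
    have hCE : ∀ y, C (E y) = y := fun y =>
      ContinuousLinearEquiv.ofBijective_apply_symm_apply C hker hrange y
    have hED : ∀ x, ContinuousLinearMap.adjoint E (D x) = x := by
      intro x
      refine ext_inner_right ℂ fun y => ?_
      rw [ContinuousLinearMap.adjoint_inner_left, ContinuousLinearMap.adjoint_inner_left, hCE]
    have hlow : ∀ x, ‖x‖ ≤ ‖ContinuousLinearMap.adjoint E‖ * ‖D x‖ := by
      intro x
      conv_lhs => rw [← hED x]
      exact ContinuousLinearMap.le_opNorm _ _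
    refine ⟨1 / (‖ContinuousLinearMap.adjoint E‖ ^ 2 + 1), ‖D‖ ^ 2 + 1, by positivity,
      by positivity, ?_⟩
    intro c
    set x : lp (fun _ : J => ℂ) 2 := ∑ k ∈ c.support, c k • lp.single 2 k (1 : ℂ) with hx
    have hDx : D x = ∑ k ∈ c.support, c k • f k := by
      rw [hx, map_sum]
      refine Finset.sum_congr rfl fun k _ => ?_
      rw [map_smul, hD]
    have hxn : ‖x‖ ^ 2 = ∑ k ∈ c.support, ‖c k‖ ^ 2 := by
      have h1 := lp.norm_sum_single (p := 2) (E := fun _ : J => ℂ) (by norm_num) (fun k => c k)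
        c.support
      have h2 : x = ∑ k ∈ c.support, lp.single 2 k (c k) := by
        rw [hx]
        refine Finset.sum_congr rfl fun k _ => ?_
        rw [← lp.single_smul]
        simp
      rw [h2]
      simpa using h1
    rw [← hDx, ← hxn]
    constructor
    · have h1 := hlow x
      have h2 : ‖x‖ ^ 2 ≤ ‖ContinuousLinearMap.adjoint E‖ ^ 2 * ‖D x‖ ^ 2 := by
        rw [← mul_pow]
        gcongr
      rw [one_div, inv_mul_le_iff₀ (by positivity)]
      nlinarith [sq_nonneg ‖D x‖]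
    · have h1 := D.le_opNorm x
      have h2 : ‖D x‖ ^ 2 ≤ ‖D‖ ^ 2 * ‖x‖ ^ 2 := by
        rw [← mul_pow]
        gcongr
      nlinarith [sq_nonneg ‖x‖]

end Pool.Agent.Helper9.GaborFrame
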