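import Mathlib

set_option autoImplicit false
open MeasureTheory

namespace Pool.Agent.Helper9.Hilb

theorem two_point_aux (m : ℕ) (c u v : ℝ) (hc : 4 * (m : ℝ) + 1 ≤ c ^ 2) (k : ℕ) (hk : k ≤ m) :
    ((u + v) ^ (2 * k) + (u - v) ^ (2 * k)) / 2 ≤ (u ^ 2 + c ^ 2 * v ^ 2) ^ k ∧
    u * v * (((u + v) ^ (2 * k) - (u - v) ^ (2 * k)) / 2) ≤
      2 * k * v ^ 2 * (u ^ 2 + c ^ 2 * v ^ 2) ^ k := by
  induction k with
  | zero => simp
  | succ k ih =>
    obtain ⟨h1, h2⟩ := ih (by omega)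
    have hkm : (k : ℝ) + 1 ≤ m := by exact_mod_cast hk
    have hk0 : (0 : ℝ) ≤ k := Nat.cast_nonneg k
    set X := (u + v) ^ (2 * k) with hX
    set Y := (u - v) ^ (2 * k) with hY
    set s := u ^ 2 + c ^ 2 * v ^ 2 with hs
    have hs0 : 0 ≤ s := by positivity
    have hsk : 0 ≤ s ^ k := by positivity
    have e1 : (u + v) ^ (2 * (k + 1)) = (u + v) ^ 2 * X := by rw [hX]; ring
    have e2 : (u - v) ^ (2 * (k + 1)) = (u - v) ^ 2 * Y := by rw [hY]; ring
    rw [e1, e2, pow_succ]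
    have huv : u ^ 2 + v ^ 2 ≤ s := by
      rw [hs]; nlinarith [sq_nonneg v]
    have huv4 : u ^ 2 + v ^ 2 + 4 * k * v ^ 2 ≤ s := by
      rw [hs]; nlinarith [sq_nonneg v]
    constructor
    · calc ((u + v) ^ 2 * X + (u - v) ^ 2 * Y) / 2 =
          (u ^ 2 + v ^ 2) * ((X + Y) / 2) + 2 * (u * v * ((X - Y) / 2)) := by ring
        _ ≤ (u ^ 2 + v ^ 2) * s ^ k + 2 * (2 * k * v ^ 2 * s ^ k) := by gcongr
        _ = (u ^ 2 + v ^ 2 + 4 * k * v ^ 2) * s ^ k := by ring
        _ ≤ s * s ^ k := by gcongr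
        _ = s ^ k * s := by ring
    · calc u * v * (((u + v) ^ 2 * X - (u - v) ^ 2 * Y) / 2) =
          (u ^ 2 + v ^ 2) * (u * v * ((X - Y) / 2)) + 2 * u ^ 2 * v ^ 2 * ((X + Y) / 2) := by ring
        _ ≤ (u ^ 2 + v ^ 2) * (2 * k * v ^ 2 * s ^ k) + 2 * u ^ 2 * v ^ 2 * s ^ k := by gcongr
        _ ≤ (u ^ 2 + v ^ 2) * (2 * k * v ^ 2 * s ^ k) + 2 * (u ^ 2 + v ^ 2) * v ^ 2 * s ^ k := by
            gcongr; nlinarith [sq_nonneg v]
        _ = (2 * (k + 1) * v ^ 2 * s ^ k) * (u ^ 2 + v ^ 2) := by ring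
        _ ≤ (2 * (k + 1) * v ^ 2 * s ^ k) * s := by gcongr
        _ = 2 * ((k + 1 : ℕ) : ℝ) * v ^ 2 * (s ^ k * s) := by push_cast; ring

/-- the two-point inequality with a convexity step -/
theorem two_point (m : ℕ) (ρ : ℝ) (hρ : ρ = 1 / (2 * m + 1)) (x y D : ℝ) (hD : |D| ≤ 1) :
    (x + ρ * D * y) ^ (2 * m) ≤ (x ^ 2 + y ^ 2) ^ m +
      D * (((x + ρ * y) ^ (2 * m) - (x - ρ * y) ^ (2 * m)) / 2) := by
  have hm0 : (0 : ℝ) ≤ m := Nat.cast_nonneg m
  have h1 := (two_point_aux m (2 * m + 1) x (ρ * y) (by nlinarith) m le_rfl).1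
  have e1 : (2 * (m : ℝ) + 1) ^ 2 * (ρ * y) ^ 2 = y ^ 2 := by
    rw [hρ]; field_simp
  rw [e1] at h1
  obtain ⟨hD1, hD2⟩ := abs_le.1 hD
  have hconv : ConvexOn ℝ Set.univ (fun t : ℝ => t ^ (2 * m)) := Even.convexOn_pow (even_two_mul m)
  have h2 := hconv.2 (Set.mem_univ (x + ρ * y)) (Set.mem_univ (x - ρ * y))
    (show 0 ≤ (1 + D) / 2 by linarith) (show 0 ≤ (1 - D) / 2 by linarith) (by ring)
  simp only [smul_eq_mul] at h2
  have e2 : (1 + D) / 2 * (x + ρ * y) + (1 - D) / 2 * (x - ρ * y) = x + ρ * D * y := by ring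
  rw [e2] at h2
  calc (x + ρ * D * y) ^ (2 * m) ≤ _ := h2
    _ = ((x + ρ * y) ^ (2 * m) + (x - ρ * y) ^ (2 * m)) / 2 +
      D * (((x + ρ * y) ^ (2 * m) - (x - ρ * y) ^ (2 * m)) / 2) := by ring
    _ ≤ _ := by gcongr

/-- operators out of `ℓ²` from an upper `ℓ²` estimate -/
theorem exists_T {J X : Type} [NormedAddCommGroup X] [NormedSpace ℝ X] [CompleteSpace X]
    (v : J → X) (C : ℝ) (hC : 0 ≤ C)
    (hb : ∀ (s : Finset J) (a : J → ℝ), ‖∑ j ∈ s, a j • v j‖ ≤ C * Real.sqrt (∑ j ∈ s, a j ^ 2)) :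
    ∃ T : lp (fun _ : J => ℝ) 2 →L[ℝ] X, ∀ j, ∃ x, T x = v j := by
  classical
  have hsq : ∀ a : lp (fun _ : J => ℝ) 2, HasSum (fun j => (a j) ^ 2) (‖a‖ ^ 2) := by
    intro a
    have := lp.hasSum_norm (p := 2) (by norm_num) a
    simpa using this
  have hsum : ∀ a : lp (fun _ : J => ℝ) 2, Summable (fun j => a j • v j) := by
    intro a
    rw [summable_iff_vanishing_norm]
    intro ε hε
    have h1 := (hsq a).summable
    rw [summable_iff_vanishing_norm] at h1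
    obtain ⟨s, hs⟩ := h1 ((ε / (C + 1)) ^ 2) (by positivity)
    refine ⟨s, fun t ht => ?_⟩
    have h2 := hs t ht
    have h3 : ∑ j ∈ t, (a j) ^ 2 < (ε / (C + 1)) ^ 2 := by
      refine lt_of_le_of_lt (le_abs_self _) ?_
      rwa [← Real.norm_eq_abs]
    have h4 : Real.sqrt (∑ j ∈ t, (a j) ^ 2) < ε / (C + 1) := by
      rw [Real.sqrt_lt' (by positivity)]
      exact h3
    calc ‖∑ j ∈ t, a j • v j‖ ≤ C * Real.sqrt (∑ j ∈ t, a j ^ 2) := hb t _
      _ ≤ (C + 1) * Real.sqrt (∑ j ∈ t, a j ^ 2) := by gcongr; linarith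
      _ < (C + 1) * (ε / (C + 1)) := by gcongr
      _ = ε := by field_simp
  have hbd : ∀ a : lp (fun _ : J => ℝ) 2, ‖∑' j, a j • v j‖ ≤ C * ‖a‖ := by
    intro a
    have h1 := (hsum a).hasSum
    have h2 : Filter.Tendsto (fun s : Finset J => ‖∑ j ∈ s, a j • v j‖) Filter.atTop
        (nhds ‖∑' j, a j • v j‖) := h1.norm
    refine le_of_tendsto h2 (Filter.Eventually.of_forall fun s => ?_)
    refine (hb s _).trans ?_
    gcongr
    rw [Real.sqrt_le_left (norm_nonneg _)]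
    exact sum_le_hasSum s (fun j _ => sq_nonneg _) (hsq a)
  let L : lp (fun _ : J => ℝ) 2 →ₗ[ℝ] X :=
    { toFun := fun a => ∑' j, a j • v j
      map_add' := by
        intro a b
        rw [← (hsum a).tsum_add (hsum b)]
        congr 1
        ext j
        rw [← add_smul]
        rfl
      map_smul' := by
        intro c a
        rw [RingHom.id_apply, ← (hsum a).tsum_const_smul]
        congr 1
        ext j
        rw [smul_smul]
        rfl }
  refine ⟨L.mkContinuous C hbd, fun j => ⟨lp.single 2 j 1, ?_⟩⟩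
  show ∑' i, (lp.single (E := fun _ : J => ℝ) 2 j (1:ℝ) : lp (fun _ : J => ℝ) 2) i • v i = v j
  rw [tsum_eq_single j]
  · rw [lp.single_apply_self, one_smul]
  · intro i hi
    rw [lp.single_apply_ne _ _ _ hi, zero_smul]

/-- the predictable projection of an indicator -/
theorem exists_P {α : Type} {m0 : MeasurableSpace α} (μ : Measure α) [IsFiniteMeasure μ]
    (m : MeasurableSpace α) (hm : m ≤ m0) (A : Set α) (hA : MeasurableSet[m0] A) :
    ∃ P : α → ℝ, Measurable[m] P ∧ (∀ x, 0 ≤ P x) ∧ (∀ x, P x ≤ 1) ∧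
      ∀ ψ : α → ℝ, Measurable[m] ψ → (∃ C, ∀ x, |ψ x| ≤ C) →
        ∫ x, (A.indicator 1 x - P x) * ψ x ∂μ = 0 := by
  set f : α → ℝ := A.indicator 1 with hf
  have hfi : Integrable f μ := (integrable_const (1:ℝ)).indicator hA
  set Q : α → ℝ := μ[f | m] with hQ
  have hQm : StronglyMeasurable[m] Q := stronglyMeasurable_condExp
  have hQ0 : 0 ≤ᵐ[μ] Q := condExp_nonneg (Filter.Eventually.of_forall fun x => by
    rw [hf]; exact Set.indicator_nonneg (fun _ _ => zero_le_one) x)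
  have hQ1 : Q ≤ᵐ[μ] fun _ => (1:ℝ) := by
    have h1 : μ[f | m] ≤ᵐ[μ] μ[(fun _ => (1:ℝ)) | m] :=
      condExp_mono hfi (integrable_const _) (Filter.Eventually.of_forall fun x => by
        rw [hf]; exact Set.indicator_le_self' (fun _ _ => zero_le_one) x)
    rw [condExp_const hm] at h1
    exact h1
  refine ⟨fun x => max 0 (min 1 (Q x)), ?_, ?_, ?_, ?_⟩
  · exact measurable_const.max (measurable_const.min hQm.measurable)
  · intro x; exact le_max_left _ _
  · intro x; exact max_le zero_le_one (min_le_left _ _)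
  · intro ψ hψ ⟨C, hC⟩
    have hψs : StronglyMeasurable[m] ψ := hψ.stronglyMeasurable
    have hψi : Integrable ψ μ := Integrable.of_bound (hψs.mono hm).aestronglyMeasurable C
      (Filter.Eventually.of_forall fun x => by rw [Real.norm_eq_abs]; exact hC x)
    have e1 : ∫ x, (f x - max 0 (min 1 (Q x))) * ψ x ∂μ = ∫ x, (ψ x * f x - ψ x * Q x) ∂μ := by
      apply integral_congr_ae
      filter_upwards [hQ0, hQ1] with x h0 h1
      have : max 0 (min 1 (Q x)) = Q x := by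
        rw [min_eq_right h1, max_eq_right (show (0:ℝ) ≤ Q x from h0)]
      rw [this]; ring
    rw [e1]
    have hpf : Integrable (fun x => ψ x * f x) μ := by
      refine hfi.bdd_mul (c := C) (hψs.mono hm).aestronglyMeasurable (Filter.Eventually.of_forall fun x => by
        rw [Real.norm_eq_abs]; exact hC x)
    have h2 : μ[ψ * f | m] =ᵐ[μ] ψ * μ[f | m] :=
      condExp_stronglyMeasurable_mul_of_bound hm hψs hfi C
        (Filter.Eventually.of_forall fun x => by rw [Real.norm_eq_abs]; exact hC x)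
    have hpq : Integrable (fun x => ψ x * Q x) μ := by
      exact (integrable_condExp (μ := μ) (m := m) (f := ψ * f)).congr h2
    rw [integral_sub hpf hpq]
    have h3 : ∫ x, ψ x * Q x ∂μ = ∫ x, ψ x * f x ∂μ := by
      have h4 := integral_condExp (μ := μ) (f := ψ * f) hm
      rw [integral_congr_ae h2] at h4
      exact h4
    rw [h3, sub_self]

end Pool.Agent.Helper9.Hilb
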