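import Mathlib
import Pool.Agent.Helper9.HilbA

set_option autoImplicit false
open MeasureTheory

namespace Pool.Agent.Helper9.Hilb

/-- bounded and measurable -/
def BM {α : Type} (m : MeasurableSpace α) (f : α → ℝ) : Prop :=
  Measurable[m] f ∧ ∃ C, ∀ x, |f x| ≤ C

theorem BM.add {α : Type} {m : MeasurableSpace α} {f g : α → ℝ} (hf : BM m f) (hg : BM m g) :
    BM m (fun x => f x + g x) := by
  obtain ⟨hf, C, hC⟩ := hf
  obtain ⟨hg, C', hC'⟩ := hg
  exact ⟨hf.add hg, C + C', fun x => (abs_add_le _ _).trans (add_le_add (hC x) (hC' x))⟩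

theorem BM.sub {α : Type} {m : MeasurableSpace α} {f g : α → ℝ} (hf : BM m f) (hg : BM m g) :
    BM m (fun x => f x - g x) := by
  obtain ⟨hf, C, hC⟩ := hf
  obtain ⟨hg, C', hC'⟩ := hg
  exact ⟨hf.sub hg, C + C', fun x => (abs_sub _ _).trans (add_le_add (hC x) (hC' x))⟩

theorem BM.mul {α : Type} {m : MeasurableSpace α} {f g : α → ℝ} (hf : BM m f) (hg : BM m g) :
    BM m (fun x => f x * g x) := by
  obtain ⟨hf, C, hC⟩ := hf
  obtain ⟨hg, C', hC'⟩ := hg
  refine ⟨hf.mul hg, C * C', fun x => ?_⟩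
  rw [abs_mul]
  exact mul_le_mul (hC x) (hC' x) (abs_nonneg _) ((abs_nonneg _).trans (hC x))

theorem BM.const {α : Type} {m : MeasurableSpace α} (c : ℝ) : BM m (fun _ : α => c) :=
  ⟨measurable_const, |c|, fun _ => le_rfl⟩

theorem BM.pow {α : Type} {m : MeasurableSpace α} {f : α → ℝ} (hf : BM m f) (n : ℕ) :
    BM m (fun x => f x ^ n) := by
  induction n with
  | zero => simpa using BM.const 1
  | succ n ih => simpa [pow_succ] using ih.mul hf

theorem BM.sum {α ι : Type} {m : MeasurableSpace α} {f : ι → α → ℝ} (s : Finset ι)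
    (hf : ∀ i ∈ s, BM m (f i)) : BM m (fun x => ∑ i ∈ s, f i x) := by
  classical
  induction s using Finset.induction_on with
  | empty => simpa using BM.const 0
  | insert i s hi ih =>
    have h1 := hf i (Finset.mem_insert_self _ _)
    have h2 := ih (fun j hj => hf j (Finset.mem_insert_of_mem hj))
    have := h1.add h2
    simpa [Finset.sum_insert hi] using this

theorem BM.prod {α ι : Type} {m : MeasurableSpace α} {f : ι → α → ℝ} (s : Finset ι)
    (hf : ∀ i ∈ s, BM m (f i)) : BM m (fun x => ∏ i ∈ s, f i x) := by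
  classical
  induction s using Finset.induction_on with
  | empty => simpa using BM.const 1
  | insert i s hi ih =>
    have h1 := hf i (Finset.mem_insert_self _ _)
    have h2 := ih (fun j hj => hf j (Finset.mem_insert_of_mem hj))
    have := h1.mul h2
    simpa [Finset.prod_insert hi] using this

theorem BM.mono {α : Type} {m m' : MeasurableSpace α} {f : α → ℝ} (hf : BM m f) (h : m ≤ m') :
    BM m' f := ⟨hf.1.mono h le_rfl, hf.2⟩

theorem BM.integrable {α : Type} {m0 : MeasurableSpace α} {μ : Measure α} [IsFiniteMeasure μ]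
    {f : α → ℝ} (hf : BM m0 f) : Integrable f μ := by
  obtain ⟨hf, C, hC⟩ := hf
  exact Integrable.of_bound hf.aestronglyMeasurable C (Filter.Eventually.of_forall fun x => by
    rw [Real.norm_eq_abs]; exact hC x)

/-- the chaos functions -/
noncomputable def w {α ι : Type} (ρ : ℝ) (D : ι → α → ℝ) (F : Finset ι) (x : α) : ℝ :=
  ∏ i ∈ F, (ρ * D i x)

/-- a filtered family of bounded differences -/
structure Sys {α ι : Type} [LinearOrder ι] {m0 : MeasurableSpace α} (μ : Measure α)
    (Sig : ι → MeasurableSpace α) (D : ι → α → ℝ) : Prop where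
  le : ∀ i, Sig i ≤ m0
  meas : ∀ i j, j < i → Measurable[Sig i] (D j)
  meas0 : ∀ j, Measurable[m0] (D j)
  bd : ∀ j x, |D j x| ≤ 1
  orth : ∀ i ψ, BM (Sig i) ψ → ∫ x, D i x * ψ x ∂μ = 0

theorem w_BM {α ι : Type} [LinearOrder ι] {m0 : MeasurableSpace α} {μ : Measure α}
    {Sig : ι → MeasurableSpace α} {D : ι → α → ℝ} (hS : Sys μ Sig D) (ρ : ℝ) (i : ι)
    (F : Finset ι) (hF : ∀ j ∈ F, j < i) : BM (Sig i) (w ρ D F) := by
  unfold w
  apply BM.prod
  intro j hj
  exact (BM.const ρ).mul ⟨hS.meas i j (hF j hj), 1, hS.bd j⟩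

theorem w_BM0 {α ι : Type} [LinearOrder ι] {m0 : MeasurableSpace α} {μ : Measure α}
    {Sig : ι → MeasurableSpace α} {D : ι → α → ℝ} (hS : Sys μ Sig D) (ρ : ℝ)
    (F : Finset ι) : BM m0 (w ρ D F) := by
  unfold w
  apply BM.prod
  intro j hj
  exact (BM.const ρ).mul ⟨hS.meas0 j, 1, hS.bd j⟩

/-- convexity replaces Minkowski -/
theorem combine {α : Type} {m0 : MeasurableSpace α} {μ : Measure α} [IsFiniteMeasure μ]
    {g h : α → ℝ} (hg : BM m0 g) (hh : BM m0 h) (m : ℕ) (A B M : ℝ) (hA : 0 < A)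
    (hB : 0 < B) (h1 : ∫ x, g x ^ (2 * m) ∂μ ≤ M * A ^ m) (h2 : ∫ x, h x ^ (2 * m) ∂μ ≤ M * B ^ m) :
    ∫ x, (g x ^ 2 + h x ^ 2) ^ m ∂μ ≤ M * (A + B) ^ m := by
  have hAB : 0 < A + B := by positivity
  have hpt : ∀ x, (g x ^ 2 + h x ^ 2) ^ m ≤
      (A + B) ^ m * (A / (A + B) * (g x ^ (2 * m) / A ^ m) + B / (A + B) * (h x ^ (2 * m) / B ^ m)) := by
    intro x
    have hconv := (convexOn_pow m).2 (show (g x ^ 2 / A) ∈ Set.Ici (0:ℝ) by
        rw [Set.mem_Ici]; positivity) (show (h x ^ 2 / B) ∈ Set.Ici (0:ℝ) by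
        rw [Set.mem_Ici]; positivity)
      (show 0 ≤ A / (A + B) by positivity) (show 0 ≤ B / (A + B) by positivity)
      (by field_simp)
    simp only [smul_eq_mul] at hconv
    have e1 : A / (A + B) * (g x ^ 2 / A) + B / (A + B) * (h x ^ 2 / B) =
        (g x ^ 2 + h x ^ 2) / (A + B) := by field_simp
    rw [e1, div_pow, div_pow, div_pow, ← pow_mul, ← pow_mul] at hconv
    rw [div_le_iff₀ (by positivity)] at hconv
    linarith [hconv]
  have hgi := (hg.pow (2 * m)).integrable (μ := μ)
  have hhi := (hh.pow (2 * m)).integrable (μ := μ)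
  have hl : Integrable (fun x => (g x ^ 2 + h x ^ 2) ^ m) μ :=
    (((hg.pow 2).add (hh.pow 2)).pow m).integrable
  have hr : Integrable (fun x => (A + B) ^ m * (A / (A + B) * (g x ^ (2 * m) / A ^ m) +
      B / (A + B) * (h x ^ (2 * m) / B ^ m))) μ :=
    (((hgi.div_const _).const_mul _).add ((hhi.div_const _).const_mul _)).const_mul _
  calc ∫ x, (g x ^ 2 + h x ^ 2) ^ m ∂μ ≤ ∫ x, (A + B) ^ m * (A / (A + B) * (g x ^ (2 * m) / A ^ m) +
      B / (A + B) * (h x ^ (2 * m) / B ^ m)) ∂μ := integral_mono hl hr hpt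
    _ = (A + B) ^ m * (A / (A + B) * ((∫ x, g x ^ (2 * m) ∂μ) / A ^ m) +
      B / (A + B) * ((∫ x, h x ^ (2 * m) ∂μ) / B ^ m)) := by
        rw [integral_const_mul, integral_add ((hgi.div_const _).const_mul _)
          ((hhi.div_const _).const_mul _), integral_const_mul, integral_const_mul,
          integral_div, integral_div]
    _ ≤ (A + B) ^ m * (A / (A + B) * M + B / (A + B) * M) := by
        gcongr
        · rw [div_le_iff₀ (by positivity)]; exact h1
        · rw [div_le_iff₀ (by positivity)]; exact h2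
    _ = M * (A + B) ^ m := by field_simp

theorem main_est {α ι : Type} [LinearOrder ι] {m0 : MeasurableSpace α} {μ : Measure α}
    [IsFiniteMeasure μ] {Sig : ι → MeasurableSpace α} {D : ι → α → ℝ} (hS : Sys μ Sig D)
    (m : ℕ) (hm : 1 ≤ m) (ρ : ℝ) (hρ : ρ = 1 / (2 * m + 1)) (S : Finset ι) :
    ∀ a : Finset ι → ℝ, ∫ x, (∑ F ∈ S.powerset, a F * w ρ D F x) ^ (2 * m) ∂μ ≤
      μ.real Set.univ * (∑ F ∈ S.powerset, a F ^ 2) ^ m := by
  induction S using Finset.induction_on_max with
  | empty =>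
    intro a
    simp only [Finset.powerset_empty, Finset.sum_singleton, w, Finset.prod_empty, mul_one]
    rw [integral_const, smul_eq_mul, pow_mul]
  | insert i S hi ih =>
    intro a
    have hiS : i ∉ S := fun h => lt_irrefl _ (hi i h)
    set g : α → ℝ := fun x => ∑ F ∈ S.powerset, a F * w ρ D F x with hg
    set h : α → ℝ := fun x => ∑ F ∈ S.powerset, a (insert i F) * w ρ D F x with hh
    have hsub : ∀ F ∈ S.powerset, ∀ j ∈ F, j < i := fun F hF j hj =>
      hi j (Finset.mem_powerset.1 hF hj)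
    have hgB : BM (Sig i) g := BM.sum _ fun F hF => (BM.const (a F)).mul (w_BM hS ρ i F (hsub F hF))
    have hhB : BM (Sig i) h := BM.sum _ fun F hF =>
      (BM.const (a (insert i F))).mul (w_BM hS ρ i F (hsub F hF))
    have hsum : ∀ x, ∑ F ∈ (insert i S).powerset, a F * w ρ D F x = g x + ρ * D i x * h x := by
      intro x
      rw [Finset.sum_powerset_insert hiS, hg, hh]
      simp only
      rw [Finset.mul_sum]
      congr 1
      apply Finset.sum_congr rfl
      intro F hF
      have hiF : i ∉ F := fun h => lt_irrefl _ (hsub F hF i h)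
      unfold w
      rw [Finset.prod_insert hiF]
      ring
    simp only [hsum]
    have hDB : BM m0 (D i) := ⟨hS.meas0 i, 1, hS.bd i⟩
    have hgB0 := hgB.mono (hS.le i)
    have hhB0 := hhB.mono (hS.le i)
    -- the odd part
    set ψ : α → ℝ := fun x => ((g x + ρ * h x) ^ (2 * m) - (g x - ρ * h x) ^ (2 * m)) * (1 / 2) with hψ
    have hψB : BM (Sig i) ψ := by
      have hρh : BM (Sig i) (fun x => ρ * h x) := (BM.const ρ).mul hhB
      exact (((hgB.add hρh).pow _).sub ((hgB.sub hρh).pow _)).mul (BM.const _)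
    have horth := hS.orth i ψ hψB
    have hstep : ∫ x, (g x + ρ * D i x * h x) ^ (2 * m) ∂μ ≤ ∫ x, (g x ^ 2 + h x ^ 2) ^ m ∂μ := by
      have hi1 : Integrable (fun x => (g x + ρ * D i x * h x) ^ (2 * m)) μ :=
        ((hgB0.add (((BM.const ρ).mul hDB).mul hhB0)).pow _).integrable
      have hi2 : Integrable (fun x => (g x ^ 2 + h x ^ 2) ^ m) μ :=
        (((hgB0.pow 2).add (hhB0.pow 2)).pow m).integrable
      have hi3 : Integrable (fun x => D i x * ψ x) μ := (hDB.mul (hψB.mono (hS.le i))).integrable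
      calc ∫ x, (g x + ρ * D i x * h x) ^ (2 * m) ∂μ ≤
          ∫ x, ((g x ^ 2 + h x ^ 2) ^ m + D i x * ψ x) ∂μ := by
            apply integral_mono hi1 (hi2.add hi3)
            intro x
            have := two_point m ρ hρ (g x) (h x) (D i x) (hS.bd i x)
            show (g x + ρ * D i x * h x) ^ (2 * m) ≤ (g x ^ 2 + h x ^ 2) ^ m + D i x * ψ x
            have e : ψ x = ((g x + ρ * h x) ^ (2 * m) - (g x - ρ * h x) ^ (2 * m)) / 2 := by
              simp only [hψ]; ring
            rw [e]
            exact this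
        _ = ∫ x, (g x ^ 2 + h x ^ 2) ^ m ∂μ := by
            rw [integral_add hi2 hi3, horth, add_zero]
    refine hstep.trans ?_
    rw [Finset.sum_powerset_insert hiS]
    have ih1 := ih a
    have ih2 := ih (fun F => a (insert i F))
    set A := ∑ F ∈ S.powerset, a F ^ 2 with hA
    set B := ∑ F ∈ S.powerset, a (insert i F) ^ 2 with hB
    have hA0 : 0 ≤ A := Finset.sum_nonneg fun _ _ => sq_nonneg _
    have hB0 : 0 ≤ B := Finset.sum_nonneg fun _ _ => sq_nonneg _
    rcases hA0.eq_or_lt with hA1 | hA1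
    · -- g = 0
      have hg0 : ∀ x, g x = 0 := by
        intro x
        rw [hg]
        apply Finset.sum_eq_zero
        intro F hF
        have := (Finset.sum_eq_zero_iff_of_nonneg (fun F _ => sq_nonneg (a F))).1 hA1.symm F hF
        rw [pow_eq_zero_iff (by norm_num)] at this
        rw [this, zero_mul]
      rw [← hA1, zero_add]
      simp only [hg0]
      refine le_trans (le_of_eq ?_) ih2
      apply integral_congr_ae
      refine Filter.Eventually.of_forall fun x => ?_
      simp only [hh]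
      rw [pow_mul]
      congr 1
      ring
    rcases hB0.eq_or_lt with hB1 | hB1
    · have hh0 : ∀ x, h x = 0 := by
        intro x
        rw [hh]
        apply Finset.sum_eq_zero
        intro F hF
        have := (Finset.sum_eq_zero_iff_of_nonneg (fun F _ => sq_nonneg (a (insert i F)))).1
          hB1.symm F hF
        rw [pow_eq_zero_iff (by norm_num)] at this
        rw [this, zero_mul]
      rw [← hB1, add_zero]
      simp only [hh0]
      refine le_trans (le_of_eq ?_) ih1
      apply integral_congr_ae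
      refine Filter.Eventually.of_forall fun x => ?_
      simp only [hg]
      rw [pow_mul]
      congr 1
      ring
    · exact combine hgB0 hhB0 m A B _ hA1 hB1 ih1 ih2

end Pool.Agent.Helper9.Hilb
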