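import Mathlib
import Pool.Agent.Helper9.HilbB

set_option autoImplicit false
set_option linter.unusedSectionVars false
open MeasureTheory
open scoped ENNReal

namespace Pool.Agent.Helper9.Hilb

section
variable {α ι : Type} {m0 : MeasurableSpace α} (μ : Measure α) [IsFiniteMeasure μ]
  (p : ℝ≥0∞) (ρ : ℝ) (D : ι → α → ℝ)

/-- span of the chaos functions over index sets inside `J` -/
def U (J : Set ι) : Submodule ℝ (α → ℝ) := Submodule.span ℝ (w ρ D '' {F | (F : Set ι) ⊆ J})

/-- approximable functions -/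
def App (J : Set ι) (f : α → ℝ) : Prop :=
  ∀ ε : ℝ≥0∞, ε ≠ 0 → ∃ u ∈ U ρ D J, eLpNorm (f - u) p μ ≤ ε

end

section
variable {α ι : Type} [LinearOrder ι] {m0 : MeasurableSpace α} {μ : Measure α} [IsFiniteMeasure μ]
  {p : ℝ≥0∞} {ρ : ℝ} {D : ι → α → ℝ} {Sig : ι → MeasurableSpace α}

theorem U_BM (hS : Sys μ Sig D) {J : Set ι} {u : α → ℝ} (hu : u ∈ U ρ D J) : BM m0 u := by
  unfold U at hu
  induction hu using Submodule.span_induction with
  | mem x hx => obtain ⟨F, _, rfl⟩ := hx; exact w_BM0 hS ρ F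
  | zero => exact BM.const 0
  | add x y _ _ hx hy => exact hx.add hy
  | smul a x _ hx => exact (BM.const a).mul hx

theorem App.add (hS : Sys μ Sig D) (hp : 1 ≤ p) {J : Set ι} {f g : α → ℝ} (hfm : Measurable f)
    (hgm : Measurable g) (hf : App μ p ρ D J f) (hg : App μ p ρ D J g) :
    App μ p ρ D J (f + g) := by
  intro ε hε
  obtain ⟨u, hu, hu2⟩ := hf (ε / 2) (by simpa using hε)
  obtain ⟨v, hv, hv2⟩ := hg (ε / 2) (by simpa using hε)
  refine ⟨u + v, Submodule.add_mem _ hu hv, ?_⟩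
  have e : f + g - (u + v) = (f - u) + (g - v) := by ring
  rw [e]
  calc eLpNorm ((f - u) + (g - v)) p μ ≤ eLpNorm (f - u) p μ + eLpNorm (g - v) p μ :=
        eLpNorm_add_le (hfm.sub (U_BM hS hu).1).aestronglyMeasurable
          (hgm.sub (U_BM hS hv).1).aestronglyMeasurable hp
    _ ≤ ε / 2 + ε / 2 := add_le_add hu2 hv2
    _ = ε := ENNReal.add_halves ε

theorem App.of_mem {J : Set ι} {u : α → ℝ} (hu : u ∈ U ρ D J) : App μ p ρ D J u := by
  intro ε _
  exact ⟨u, hu, by simp⟩

theorem App.smul {J : Set ι} {f : α → ℝ} (c : ℝ) (hf : App μ p ρ D J f) :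
    App μ p ρ D J (c • f) := by
  rcases eq_or_ne c 0 with rfl | hc
  · rw [zero_smul]; exact App.of_mem (Submodule.zero_mem _)
  intro ε hε
  obtain ⟨u, hu, hu2⟩ := hf (ε / ‖c‖ₑ) (by
    rw [Ne, ENNReal.div_eq_zero_iff]
    push Not
    exact ⟨hε, enorm_ne_top⟩)
  refine ⟨c • u, Submodule.smul_mem _ _ hu, ?_⟩
  rw [← smul_sub]
  rw [eLpNorm_const_smul]
  calc ‖c‖ₑ * eLpNorm (f - u) p μ ≤ ‖c‖ₑ * (ε / ‖c‖ₑ) := by gcongr
    _ ≤ ε := ENNReal.mul_div_le

theorem meas_sum {κ : Type} (s : Finset κ) (f : κ → α → ℝ) (hm : ∀ k ∈ s, Measurable (f k)) :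
    Measurable (∑ k ∈ s, f k) := by
  classical
  induction s using Finset.induction_on with
  | empty => rw [Finset.sum_empty]; exact measurable_zero
  | insert k s hk ih =>
    rw [Finset.sum_insert hk]
    exact (hm k (Finset.mem_insert_self _ _)).add
      (ih fun j hj => hm j (Finset.mem_insert_of_mem hj))

theorem App.sum (hS : Sys μ Sig D) (hp : 1 ≤ p) {J : Set ι} {κ : Type} (s : Finset κ)
    (f : κ → α → ℝ) (hm : ∀ k ∈ s, Measurable (f k)) (hf : ∀ k ∈ s, App μ p ρ D J (f k)) :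
    App μ p ρ D J (∑ k ∈ s, f k) := by
  classical
  induction s using Finset.induction_on with
  | empty => exact App.of_mem (Submodule.zero_mem _)
  | insert k s hk ih =>
    rw [Finset.sum_insert hk]
    apply App.add hS hp (hm k (Finset.mem_insert_self _ _))
    · exact meas_sum _ _ fun j hj => hm j (Finset.mem_insert_of_mem hj)
    · exact hf k (Finset.mem_insert_self _ _)
    · exact ih (fun j hj => hm j (Finset.mem_insert_of_mem hj))
        (fun j hj => hf j (Finset.mem_insert_of_mem hj))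

theorem App.closed (hS : Sys μ Sig D) (hp : 1 ≤ p) {J : Set ι} {f : α → ℝ} (hfm : Measurable f)
    (h : ∀ ε : ℝ≥0∞, ε ≠ 0 → ∃ g : α → ℝ, Measurable g ∧ App μ p ρ D J g ∧
      eLpNorm (f - g) p μ ≤ ε) : App μ p ρ D J f := by
  intro ε hε
  obtain ⟨g, hgm, hg, hfg⟩ := h (ε / 2) (by simpa using hε)
  obtain ⟨u, hu, hu2⟩ := hg (ε / 2) (by simpa using hε)
  refine ⟨u, hu, ?_⟩
  have e : f - u = (f - g) + (g - u) := by ring
  rw [e]
  calc eLpNorm ((f - g) + (g - u)) p μ ≤ eLpNorm (f - g) p μ + eLpNorm (g - u) p μ :=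
        eLpNorm_add_le (hfm.sub hgm).aestronglyMeasurable
          (hgm.sub (U_BM hS hu).1).aestronglyMeasurable hp
    _ ≤ ε / 2 + ε / 2 := add_le_add hfg hu2
    _ = ε := ENNReal.add_halves ε

theorem App.mono {J J' : Set ι} (h : J ⊆ J') {f : α → ℝ} (hf : App μ p ρ D J f) :
    App μ p ρ D J' f := by
  intro ε hε
  obtain ⟨u, hu, hu2⟩ := hf ε hε
  refine ⟨u, ?_, hu2⟩
  refine Submodule.span_mono ?_ hu
  rintro _ ⟨F, hF, rfl⟩
  exact ⟨F, hF.trans h, rfl⟩

theorem U_mulD (hρ : ρ ≠ 0) {J : Set ι} {j : ι} (hj : j ∈ J) (hJ : Set.Iio j ⊆ J) {u : α → ℝ}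
    (hu : u ∈ U ρ D (Set.Iio j)) : D j * u ∈ U ρ D J := by
  unfold U at hu
  induction hu using Submodule.span_induction with
  | mem x hx =>
    obtain ⟨F, hF, rfl⟩ := hx
    have hjF : j ∉ F := fun h => lt_irrefl _ (hF h)
    have e : D j * w ρ D F = ρ⁻¹ • w ρ D (insert j F) := by
      ext x
      simp only [Pi.mul_apply, Pi.smul_apply, smul_eq_mul, w]
      rw [Finset.prod_insert hjF]
      field_simp
    rw [e]
    apply Submodule.smul_mem
    apply Submodule.subset_span
    refine ⟨insert j F, ?_, rfl⟩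
    intro k hk
    simp only [Finset.coe_insert, Set.mem_insert_iff] at hk
    rcases hk with rfl | hk
    · exact hj
    · exact hJ (hF hk)
  | zero => rw [mul_zero]; exact Submodule.zero_mem _
  | add x y _ _ hx hy => rw [mul_add]; exact Submodule.add_mem _ hx hy
  | smul a x _ hx => rw [mul_smul_comm]; exact Submodule.smul_mem _ _ hx

theorem App.mulD (hS : Sys μ Sig D) (hρ : ρ ≠ 0) {J : Set ι} {j : ι} (hj : j ∈ J)
    (hJ : Set.Iio j ⊆ J) {f : α → ℝ} (hf : App μ p ρ D (Set.Iio j) f) :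
    App μ p ρ D J (D j * f) := by
  intro ε hε
  obtain ⟨u, hu, hu2⟩ := hf ε hε
  refine ⟨D j * u, U_mulD hρ hj hJ hu, ?_⟩
  refine le_trans ?_ hu2
  rw [← mul_sub]
  apply eLpNorm_mono
  intro x
  rw [Pi.mul_apply, norm_mul]
  calc ‖D j x‖ * ‖(f - u) x‖ ≤ 1 * ‖(f - u) x‖ := by
        gcongr
        rw [Real.norm_eq_abs]; exact hS.bd j x
    _ = ‖(f - u) x‖ := one_mul _

end

/-- sigma algebra generated by part of a family -/
@[instance_reducible]
def SJ {α ι : Type} (A : ι → Set α) (J : Set ι) : MeasurableSpace α :=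
  MeasurableSpace.generateFrom {s | ∃ E : Finset ι, (E : Set ι) ⊆ J ∧ (⋂ j ∈ E, A j) = s}

theorem SJ_mono {α ι : Type} (A : ι → Set α) {J J' : Set ι} (h : J ⊆ J') : SJ A J ≤ SJ A J' := by
  apply MeasurableSpace.generateFrom_mono
  rintro s ⟨E, hE, rfl⟩
  exact ⟨E, hE.trans h, rfl⟩

theorem SJ_mem {α ι : Type} (A : ι → Set α) {J : Set ι} {E : Finset ι} (hE : (E : Set ι) ⊆ J) :
    MeasurableSet[SJ A J] (⋂ j ∈ E, A j) :=
  MeasurableSpace.measurableSet_generateFrom ⟨E, hE, rfl⟩

theorem SJ_mem1 {α ι : Type} (A : ι → Set α) {J : Set ι} {j : ι} (hj : j ∈ J) :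
    MeasurableSet[SJ A J] (A j) := by
  have := SJ_mem A (J := J) (E := {j}) (by simpa using hj)
  simpa using this

theorem SJ_le {α ι : Type} {m0 : MeasurableSpace α} (A : ι → Set α) (hA : ∀ j, MeasurableSet (A j))
    (J : Set ι) : SJ A J ≤ m0 := by
  apply MeasurableSpace.generateFrom_le
  rintro s ⟨E, _, rfl⟩
  exact Finset.measurableSet_biInter _ fun j _ => hA j

theorem indicator_BM {α : Type} {m : MeasurableSpace α} {s : Set α} (hs : MeasurableSet[m] s) :
    BM m (s.indicator (1 : α → ℝ)) := by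
  refine ⟨(measurable_const (a := (1:ℝ))).indicator hs, 1, fun x => ?_⟩
  by_cases hx : x ∈ s
  · rw [Set.indicator_of_mem hx]; simp
  · rw [Set.indicator_of_notMem hx]; simp

section
variable {α ι : Type} [LinearOrder ι] {m0 : MeasurableSpace α} {μ : Measure α} [IsFiniteMeasure μ]
  {p : ℝ≥0∞} {ρ : ℝ} {D : ι → α → ℝ} {A : ι → Set α} {P : ι → α → ℝ}

theorem one_mem_U (J : Set ι) : (1 : α → ℝ) ∈ U ρ D J := by
  apply Submodule.subset_span
  refine ⟨∅, by simp, ?_⟩
  ext x
  simp [w]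

/-- indicators of the pi system -/
theorem App_inter (hS : Sys μ (fun i => SJ A (Set.Iio i)) D) (hp : 1 ≤ p) (hρ : ρ ≠ 0)
    (hA : ∀ j, MeasurableSet (A j))
    (hP : ∀ i, BM (SJ A (Set.Iio i)) (P i)) (hD : ∀ i x, D i x = (A i).indicator 1 x - P i x)
    (J : Set ι) (hJ : ∀ j ∈ J, Set.Iio j ⊆ J)
    (ih : ∀ j ∈ J, ∀ f, BM (SJ A (Set.Iio j)) f → App μ p ρ D (Set.Iio j) f) (E : Finset ι)
    (hE : (E : Set ι) ⊆ J) : App μ p ρ D J ((⋂ j ∈ E, A j).indicator 1) := by
  induction E using Finset.induction_on_max with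
  | empty =>
    have e : ((⋂ j ∈ (∅ : Finset ι), A j).indicator 1 : α → ℝ) = 1 := by
      ext x; simp
    rw [e]
    exact App.of_mem (one_mem_U J)
  | insert j E hj _ =>
    have hjJ : j ∈ J := hE (by simp)
    set g : α → ℝ := (⋂ k ∈ E, A k).indicator 1 with hg
    have hEj : (E : Set ι) ⊆ Set.Iio j := fun k hk => hj k hk
    have hgB : BM (SJ A (Set.Iio j)) g := indicator_BM (SJ_mem A hEj)
    have e : ((⋂ k ∈ insert j E, A k).indicator 1 : α → ℝ) = D j * g + (fun x => P j x * g x) := by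
      ext x
      rw [Finset.set_biInter_insert, Pi.add_apply, Pi.mul_apply, hD, Set.inter_indicator_one]
      rw [Pi.mul_apply, ← hg]
      ring
    rw [e]
    have hPg := (hP j).mul hgB
    have hle := SJ_le (m0 := m0) A hA (Set.Iio j)
    apply App.add hS hp
    · exact (hS.meas0 j).mul (hgB.mono hle).1
    · exact (hPg.mono hle).1
    · exact App.mulD hS hρ hjJ (hJ j hjJ) (ih j hjJ g hgB)
    · exact (ih j hjJ _ hPg).mono (hJ j hjJ)

theorem exists_delta (μ : Measure α) [IsFiniteMeasure μ] (ε : ℝ≥0∞)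
    (hε : ε ≠ 0) : ∃ δ : ℝ, 0 < δ ∧ μ Set.univ ^ p.toReal⁻¹ * ENNReal.ofReal δ ≤ ε := by
  have hK : μ Set.univ ^ p.toReal⁻¹ ≠ ⊤ := by
    apply ENNReal.rpow_ne_top_of_nonneg (by positivity) (measure_ne_top _ _)
  obtain ⟨n, hn, h⟩ := ENNReal.exists_nnreal_pos_mul_lt hK hε
  refine ⟨n, by exact_mod_cast hn, ?_⟩
  rw [ENNReal.ofReal_coe_nnreal, mul_comm]
  exact h.le

theorem App_indicator (hS : Sys μ (fun i => SJ A (Set.Iio i)) D) (hp : 1 ≤ p) (hpt : p ≠ ⊤)
    (hρ : ρ ≠ 0) (hA : ∀ j, MeasurableSet (A j))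
    (hP : ∀ i, BM (SJ A (Set.Iio i)) (P i)) (hD : ∀ i x, D i x = (A i).indicator 1 x - P i x)
    (J : Set ι) (hJ : ∀ j ∈ J, Set.Iio j ⊆ J)
    (ih : ∀ j ∈ J, ∀ f, BM (SJ A (Set.Iio j)) f → App μ p ρ D (Set.Iio j) f) (s : Set α)
    (hs : MeasurableSet[SJ A J] s) : App μ p ρ D J (s.indicator 1) := by
  have hle := SJ_le (m0 := m0) A hA J
  have hpi : IsPiSystem {s | ∃ E : Finset ι, (E : Set ι) ⊆ J ∧ (⋂ j ∈ E, A j) = s} := by
    rintro _ ⟨E, hE, rfl⟩ _ ⟨E', hE', rfl⟩ _
    refine ⟨E ∪ E', by simp [hE, hE'], ?_⟩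
    ext x
    simp only [Finset.mem_union, Set.mem_iInter, Set.mem_inter_iff]
    constructor
    · intro h
      exact ⟨fun i hi => h i (Or.inl hi), fun i hi => h i (Or.inr hi)⟩
    · rintro ⟨h1, h2⟩ i (hi | hi)
      · exact h1 i hi
      · exact h2 i hi
  induction s, hs using MeasurableSpace.induction_on_inter (m := SJ A J) (h_eq := rfl)
    (h_inter := hpi) with
  | empty =>
    have e : ((∅ : Set α).indicator 1 : α → ℝ) = 0 := by ext x; simp
    rw [e]
    exact App.of_mem (Submodule.zero_mem _)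
  | basic t ht =>
    obtain ⟨E, hE, rfl⟩ := ht
    exact App_inter hS hp hρ hA hP hD J hJ ih E hE
  | compl t htm iht =>
    have e : ((tᶜ : Set α).indicator 1 : α → ℝ) = 1 + (-1 : ℝ) • (t.indicator 1 : α → ℝ) := by
      ext x
      by_cases hx : x ∈ t
      · simp [hx]
      · simp [hx]
    rw [e]
    apply App.add hS hp measurable_one
    · exact ((indicator_BM (hle _ htm)).1).const_smul _
    · exact App.of_mem (one_mem_U J)
    · exact App.smul _ iht
  | iUnion f hdisj hfm ihf =>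
    have hfm0 : ∀ i, MeasurableSet (f i) := fun i => hle _ (hfm i)
    apply App.closed hS hp (indicator_BM (MeasurableSet.iUnion hfm0)).1
    intro ε hε
    -- measure of the tail tends to zero
    have hp0 : 0 < p.toReal := ENNReal.toReal_pos (by
      intro h; rw [h] at hp; simp at hp) hpt
    have ht : Filter.Tendsto (fun n => μ (Set.accumulate f n)) Filter.atTop
        (nhds (μ (⋃ i, f i))) := tendsto_measure_iUnion_accumulate
    have ht2 : Filter.Tendsto (fun n => μ (⋃ i, f i) - μ (Set.accumulate f n)) Filter.atTop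
        (nhds 0) := by
      have := ENNReal.Tendsto.sub (tendsto_const_nhds (x := μ (⋃ i, f i))) ht
        (Or.inl (measure_ne_top _ _))
      simpa using this
    have ht3 : Filter.Tendsto (fun n => (μ (⋃ i, f i) - μ (Set.accumulate f n)) ^ (1 / p.toReal))
        Filter.atTop (nhds 0) := by
      have := (ENNReal.continuous_rpow_const (y := 1 / p.toReal)).tendsto 0 |>.comp ht2
      rwa [ENNReal.zero_rpow_of_pos (by positivity)] at this
    have hev := ht3.eventually (gt_mem_nhds (pos_iff_ne_zero.2 hε))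
    obtain ⟨n, hn⟩ := hev.exists
    refine ⟨∑ i ∈ Finset.range (n + 1), (f i).indicator 1, ?_, ?_, ?_⟩
    · exact meas_sum _ _ fun i _ => (indicator_BM (hfm0 i)).1
    · exact App.sum hS hp _ _ (fun i _ => (indicator_BM (hfm0 i)).1) fun i _ => ihf i
    · have e : ((⋃ i, f i).indicator 1 : α → ℝ) - ∑ i ∈ Finset.range (n + 1), (f i).indicator 1 =
          ((⋃ i, f i) \ Set.accumulate f n).indicator (fun _ => (1:ℝ)) := by
        have e1 : ∑ i ∈ Finset.range (n + 1), ((f i).indicator 1 : α → ℝ) =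
            (Set.accumulate f n).indicator 1 := by
          ext x
          rw [Finset.sum_apply]
          by_cases hx : x ∈ Set.accumulate f n
          · rw [Set.indicator_of_mem hx]
            rw [Set.mem_accumulate] at hx
            obtain ⟨i, hi, hxi⟩ := hx
            rw [Finset.sum_eq_single_of_mem i (by simpa using Nat.lt_succ_of_le hi)]
            · rw [Set.indicator_of_mem hxi]
            · intro j _ hji
              rw [Set.indicator_of_notMem]
              exact fun hxj => Set.disjoint_left.1 (hdisj hji) hxj hxi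
          · rw [Set.indicator_of_notMem hx]
            apply Finset.sum_eq_zero
            intro i hi
            rw [Set.indicator_of_notMem]
            intro hxi
            apply hx
            rw [Set.mem_accumulate]
            exact ⟨i, by simpa [Nat.lt_succ_iff] using hi, hxi⟩
        rw [e1]
        ext x
        have hsub : Set.accumulate f n ⊆ ⋃ i, f i := Set.accumulate_subset_iUnion n
        by_cases h1 : x ∈ Set.accumulate f n
        · have h2 := hsub h1
          simp [Set.indicator_of_mem h2, h1]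
        · by_cases h2 : x ∈ ⋃ i, f i
          · rw [Pi.sub_apply, Set.indicator_of_mem h2, Set.indicator_of_notMem h1,
              Set.indicator_of_mem (show x ∈ (⋃ i, f i) \ Set.accumulate f n from ⟨h2, h1⟩)]
            simp
          · rw [Pi.sub_apply, Set.indicator_of_notMem h2, Set.indicator_of_notMem h1,
              Set.indicator_of_notMem (fun h => h2 h.1)]
            simp
      rw [e]
      refine (eLpNorm_indicator_const_le (1:ℝ) p).trans ?_
      have hms : MeasurableSet (Set.accumulate f n) := by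
        rw [Set.accumulate_def]
        exact MeasurableSet.biUnion (Set.to_countable _) fun i _ => hfm0 i
      rw [measure_sdiff (Set.accumulate_subset_iUnion n) hms.nullMeasurableSet (measure_ne_top _ _)]
      simpa using hn.le

theorem App_BM (hS : Sys μ (fun i => SJ A (Set.Iio i)) D) (hp : 1 ≤ p) (hpt : p ≠ ⊤)
    (hρ : ρ ≠ 0) (hA : ∀ j, MeasurableSet (A j))
    (hP : ∀ i, BM (SJ A (Set.Iio i)) (P i)) (hD : ∀ i x, D i x = (A i).indicator 1 x - P i x)
    (J : Set ι) (hJ : ∀ j ∈ J, Set.Iio j ⊆ J)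
    (ih : ∀ j ∈ J, ∀ f, BM (SJ A (Set.Iio j)) f → App μ p ρ D (Set.Iio j) f) (f : α → ℝ)
    (hf : BM (SJ A J) f) : App μ p ρ D J f := by
  have hle := SJ_le (m0 := m0) A hA J
  obtain ⟨hfm, C, hC⟩ := hf
  apply App.closed hS hp (hfm.mono hle le_rfl)
  intro ε hε
  obtain ⟨δ, hδ, hδε⟩ := exists_delta (α := α) (p := p) μ ε hε
  -- step function
  let N : ℕ := ⌈C / δ⌉₊ + 1
  let B : ℤ → Set α := fun k => {x | ⌊f x / δ⌋ = k}
  have hBm : ∀ k, MeasurableSet[SJ A J] (B k) := by
    intro k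
    have h0 : Measurable (fun t : ℝ => ⌊t / δ⌋) := (measurable_id.div_const δ).floor
    have h1 : Measurable[SJ A J] (fun x => ⌊f x / δ⌋) := h0.comp hfm
    exact h1 (measurableSet_singleton k)
  refine ⟨∑ k ∈ Finset.Icc (-(N:ℤ)) N, (k * δ : ℝ) • (B k).indicator 1, ?_, ?_, ?_⟩
  · exact meas_sum _ _ fun k _ => ((indicator_BM (hle _ (hBm k))).1).const_smul _
  · apply App.sum hS hp _ _ (fun k _ => ((indicator_BM (hle _ (hBm k))).1).const_smul _)
    intro k _
    exact App.smul _ (App_indicator hS hp hpt hρ hA hP hD J hJ ih (B k) (hBm k))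
  · refine le_trans (eLpNorm_le_of_ae_bound (C := δ) (Filter.Eventually.of_forall fun x => ?_)) hδε
    have hval : (∑ k ∈ Finset.Icc (-(N:ℤ)) N, (k * δ : ℝ) • ((B k).indicator 1 : α → ℝ)) x =
        ⌊f x / δ⌋ * δ := by
      rw [Finset.sum_apply, Finset.sum_eq_single_of_mem ⌊f x / δ⌋]
      · have hx : x ∈ B ⌊f x / δ⌋ := rfl
        rw [Pi.smul_apply, Set.indicator_of_mem hx]
        simp
      · have h1 := abs_le.1 (hC x)
        have h2 : C / δ ≤ ⌈C / δ⌉₊ := Nat.le_ceil _
        have h3 : f x / δ ≤ C / δ := by gcongr; exact h1.2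
        have h4 : -(C / δ) ≤ f x / δ := by
          rw [← neg_div]; gcongr; exact h1.1
        rw [Finset.mem_Icc]
        constructor
        · rw [Int.le_floor]
          push_cast [N]
          linarith
        · have h5 : (⌊f x / δ⌋ : ℝ) ≤ f x / δ := Int.floor_le _
          have : (⌊f x / δ⌋ : ℝ) ≤ ((N : ℤ) : ℝ) := by
            push_cast [N]
            linarith
          exact_mod_cast this
      · intro k _ hk
        rw [Pi.smul_apply, Set.indicator_of_notMem, smul_zero]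
        intro hx
        exact hk hx.symm
    rw [Pi.sub_apply, hval, Real.norm_eq_abs]
    have h1 : (⌊f x / δ⌋ : ℝ) ≤ f x / δ := Int.floor_le _
    have h2 : f x / δ < ⌊f x / δ⌋ + 1 := Int.lt_floor_add_one _
    have h3 : (⌊f x / δ⌋ : ℝ) * δ ≤ f x := by rwa [le_div_iff₀ hδ] at h1
    have h4 : f x < (⌊f x / δ⌋ + 1) * δ := by rwa [div_lt_iff₀ hδ] at h2
    rw [abs_le]
    constructor <;> linarith

theorem App_all [WellFoundedLT ι] (hS : Sys μ (fun i => SJ A (Set.Iio i)) D) (hp : 1 ≤ p)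
    (hpt : p ≠ ⊤)
    (hρ : ρ ≠ 0) (hA : ∀ j, MeasurableSet (A j))
    (hP : ∀ i, BM (SJ A (Set.Iio i)) (P i)) (hD : ∀ i x, D i x = (A i).indicator 1 x - P i x)
    (s : Set α) (hs : MeasurableSet[SJ A Set.univ] s) : App μ p ρ D Set.univ (s.indicator 1) := by
  have key : ∀ i : ι, ∀ f, BM (SJ A (Set.Iio i)) f → App μ p ρ D (Set.Iio i) f := by
    intro i
    induction i using WellFoundedLT.induction with
    | ind i ih =>
      apply App_BM hS hp hpt hρ hA hP hD (Set.Iio i)
      · intro j hj k hk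
        exact lt_trans hk hj
      · intro j hj
        exact ih j hj
  exact App_indicator hS hp hpt hρ hA hP hD Set.univ (fun _ _ => Set.subset_univ _)
    (fun j _ => key j) s hs

end

end Pool.Agent.Helper9.Hilb
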