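import Mathlib
import Pool.Agent.Helper9.Dyson

set_option autoImplicit false

namespace Pool.Agent.Helper9.Hill

open MeasureTheory intervalIntegral Complex

noncomputable def S (x : ℝ) : ℝ := Real.sqrt 3 * Real.cos x
noncomputable def De (x : ℝ) : ℝ := 1 + 3 * Real.cos x ^ 2
noncomputable def eta' (x : ℝ) : ℝ := -(Real.sqrt 3 * Real.sin x) / De x
noncomputable def w' (x : ℝ) : ℝ :=
  -(Real.sqrt 3 * Real.cos x * (4 + 3 * Real.sin x ^ 2)) / De x ^ 2
noncomputable def phi (x : ℝ) : ℂ := Complex.exp (I * (Real.arctan (S x) : ℝ))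
noncomputable def dphi (x : ℝ) : ℂ := phi x * (I * (eta' x : ℝ))
noncomputable def q (x : ℝ) : ℂ := I * (w' x : ℝ) + (I * (eta' x : ℝ)) ^ 2
noncomputable def A (x : ℝ) : ℝ :=
  -Real.arctan (Real.sin x * Real.cos x / (1 + Real.cos x ^ 2))
noncomputable def B (x : ℝ) : ℝ :=
  -(1/2) * (Real.log (2 + Real.sqrt 3 * Real.sin x) - Real.log (2 - Real.sqrt 3 * Real.sin x))
noncomputable def A' (x : ℝ) : ℝ := (1 - 3 * Real.cos x ^ 2) / De x
noncomputable def B' (x : ℝ) : ℝ := -(2 * Real.sqrt 3 * Real.cos x) / De x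
noncomputable def psi (x : ℝ) : ℂ := (A x : ℂ) + I * (B x : ℝ)
noncomputable def y2 (x : ℝ) : ℂ := phi x * psi x
noncomputable def dy2 (x : ℝ) : ℂ := dphi x * psi x + (phi x)⁻¹

lemma s3 : Real.sqrt 3 ^ 2 = 3 := Real.sq_sqrt (by norm_num)

lemma De_pos (x : ℝ) : 0 < De x := by unfold De; positivity

lemma De_eq (x : ℝ) : 1 + S x ^ 2 = De x := by
  unfold De S; rw [mul_pow, s3]

lemma phi_ne (x : ℝ) : phi x ≠ 0 := Complex.exp_ne_zero _

lemma hS (x : ℝ) : HasDerivAt S (-(Real.sqrt 3 * Real.sin x)) x := by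
  unfold S
  have := (Real.hasDerivAt_cos x).const_mul (Real.sqrt 3)
  refine HasDerivAt.congr_deriv this ?_
  ring

lemma hDe (x : ℝ) : HasDerivAt De (-(6 * Real.sin x * Real.cos x)) x := by
  unfold De
  have := (((Real.hasDerivAt_cos x).pow 2).const_mul 3).const_add 1
  refine HasDerivAt.congr_deriv this ?_
  push_cast
  ring

lemma heta (x : ℝ) : HasDerivAt (fun x => Real.arctan (S x)) (eta' x) x := by
  have := (hS x).arctan
  refine HasDerivAt.congr_deriv this ?_
  unfold eta'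
  rw [De_eq]
  field_simp

lemma heta' (x : ℝ) : HasDerivAt eta' (w' x) x := by
  unfold eta'
  have h1 : HasDerivAt (fun x => -(Real.sqrt 3 * Real.sin x)) (-(Real.sqrt 3 * Real.cos x)) x :=
    ((Real.hasDerivAt_sin x).const_mul (Real.sqrt 3)).neg
  have := h1.div (hDe x) (De_pos x).ne'
  refine HasDerivAt.congr_deriv this ?_
  unfold w'
  congr 1
  unfold De
  have := Real.sin_sq_add_cos_sq x
  have h2 : Real.sin x ^ 2 = 1 - Real.cos x ^ 2 := by linarith
  linear_combination (-3 * Real.sqrt 3 * Real.cos x) * h2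

lemma hphi (x : ℝ) : HasDerivAt phi (dphi x) x := by
  unfold phi dphi
  have h1 : HasDerivAt (fun x : ℝ => I * ((Real.arctan (S x) : ℝ) : ℂ)) (I * (eta' x : ℝ)) x :=
    ((heta x).ofReal_comp).const_mul I
  exact h1.cexp

lemma hdphi (x : ℝ) : HasDerivAt dphi (q x * phi x) x := by
  unfold dphi
  have h1 : HasDerivAt (fun x : ℝ => I * ((eta' x : ℝ) : ℂ)) (I * (w' x : ℝ)) x :=
    ((heta' x).ofReal_comp).const_mul I
  have := (hphi x).mul h1
  refine HasDerivAt.congr_deriv this ?_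
  unfold q dphi
  ring

lemma phi_sq (x : ℝ) : phi x ^ 2 * ((A' x : ℝ) + I * (B' x : ℝ)) = 1 := by
  have hc : Complex.exp (I * (Real.arctan (S x) : ℝ))
      = (Real.cos (Real.arctan (S x)) : ℝ) + (Real.sin (Real.arctan (S x)) : ℝ) * I := by
    rw [mul_comm, Complex.exp_mul_I, Complex.ofReal_cos, Complex.ofReal_sin]
  unfold phi
  rw [hc, Real.cos_arctan, Real.sin_arctan]
  have hD : 1 + S x ^ 2 = De x := De_eq x
  rw [hD]
  obtain ⟨r, hr⟩ : ∃ r, r = Real.sqrt (De x) := ⟨_, rfl⟩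
  have hr2 : r ^ 2 = De x := by rw [hr]; exact Real.sq_sqrt (De_pos x).le
  have hr0 : r ≠ 0 := by
    intro h; rw [h] at hr2; have := De_pos x; rw [← hr2] at this; norm_num at this
  rw [← hr]
  unfold A' B'
  rw [← hr2]
  have e1 : (1 : ℝ) - 3 * Real.cos x ^ 2 = 1 - S x ^ 2 := by unfold S; rw [mul_pow, s3]
  have e2 : -(2 * Real.sqrt 3 * Real.cos x) = - (2 * S x) := by unfold S; ring
  rw [e1, e2]
  have hrC : (r : ℂ) ≠ 0 := by exact_mod_cast hr0
  have hr2C : (r : ℂ) ^ 2 = 1 + (S x : ℂ) ^ 2 := by rw [← De_eq] at hr2; exact_mod_cast hr2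
  push_cast
  field_simp
  have hr4 : (r : ℂ) ^ 4 = (1 + (S x : ℂ) ^ 2) ^ 2 := by rw [← hr2C]; ring
  ring_nf
  simp only [hr4, Complex.I_sq, Complex.I_pow_three, Complex.I_pow_four]
  ring_nf

lemma hA (x : ℝ) : HasDerivAt A (A' x) x := by
  unfold A
  have hden : (1 : ℝ) + Real.cos x ^ 2 ≠ 0 := by positivity
  have h1 : HasDerivAt (fun x => Real.sin x * Real.cos x)
      (Real.cos x * Real.cos x + Real.sin x * (-Real.sin x)) x :=
    (Real.hasDerivAt_sin x).mul (Real.hasDerivAt_cos x)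
  have h2 : HasDerivAt (fun x => 1 + Real.cos x ^ 2) (2 * Real.cos x * (-Real.sin x)) x := by
    have := ((Real.hasDerivAt_cos x).pow 2).const_add 1
    refine HasDerivAt.congr_deriv this ?_
    push_cast; ring
  have := ((h1.div h2 hden).arctan).neg
  refine HasDerivAt.congr_deriv this ?_
  unfold A'
  have h3 : (1 + Real.cos x ^ 2) ^ 2 + (Real.sin x * Real.cos x) ^ 2 = De x := by
    unfold De
    have h2 : Real.sin x ^ 2 = 1 - Real.cos x ^ 2 := by
      have := Real.sin_sq_add_cos_sq x; linarith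
    rw [mul_pow, h2]; ring
  have h4 : 1 + (Real.sin x * Real.cos x / (1 + Real.cos x ^ 2)) ^ 2
      = De x / (1 + Real.cos x ^ 2) ^ 2 := by
    rw [← h3]; field_simp
  simp only [Pi.div_apply]
  rw [h4]
  have hD := (De_pos x).ne'
  field_simp
  have h2 : Real.sin x ^ 2 = 1 - Real.cos x ^ 2 := by
    have := Real.sin_sq_add_cos_sq x; linarith
  ring_nf
  rw [h2]
  ring

lemma pos1 (x : ℝ) : 0 < 2 + Real.sqrt 3 * Real.sin x := by
  have h1 : Real.sqrt 3 < 2 := by
    rw [show (2:ℝ) = Real.sqrt 4 by rw [show (4:ℝ) = 2^2 by norm_num, Real.sqrt_sq]; norm_num]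
    exact Real.sqrt_lt_sqrt (by norm_num) (by norm_num)
  have h0 : 0 ≤ Real.sqrt 3 := Real.sqrt_nonneg 3
  nlinarith [Real.neg_one_le_sin x, Real.sin_le_one x]

lemma pos2 (x : ℝ) : 0 < 2 - Real.sqrt 3 * Real.sin x := by
  have h1 : Real.sqrt 3 < 2 := by
    rw [show (2:ℝ) = Real.sqrt 4 by rw [show (4:ℝ) = 2^2 by norm_num, Real.sqrt_sq]; norm_num]
    exact Real.sqrt_lt_sqrt (by norm_num) (by norm_num)
  have h0 : 0 ≤ Real.sqrt 3 := Real.sqrt_nonneg 3
  nlinarith [Real.neg_one_le_sin x, Real.sin_le_one x]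

lemma hB (x : ℝ) : HasDerivAt B (B' x) x := by
  unfold B
  have h1 : HasDerivAt (fun x => 2 + Real.sqrt 3 * Real.sin x) (Real.sqrt 3 * Real.cos x) x :=
    ((Real.hasDerivAt_sin x).const_mul (Real.sqrt 3)).const_add 2
  have h2 : HasDerivAt (fun x => 2 - Real.sqrt 3 * Real.sin x) (-(Real.sqrt 3 * Real.cos x)) x :=
    ((Real.hasDerivAt_sin x).const_mul (Real.sqrt 3)).const_sub 2
  have := ((h1.log (pos1 x).ne').sub (h2.log (pos2 x).ne')).const_mul (-(1/2) : ℝ)
  refine HasDerivAt.congr_deriv this ?_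
  unfold B'
  have hp1 := (pos1 x).ne'
  have hp2 := (pos2 x).ne'
  have h4 : De x = (2 + Real.sqrt 3 * Real.sin x) * (2 - Real.sqrt 3 * Real.sin x) := by
    unfold De
    have h3 := s3
    have h2 : Real.sin x ^ 2 = 1 - Real.cos x ^ 2 := by
      have := Real.sin_sq_add_cos_sq x; linarith
    linear_combination (3 : ℝ) * h2 + (Real.sin x)^2 * h3 
  rw [h4]
  field_simp
  ring

lemma hpsi (x : ℝ) : HasDerivAt psi ((phi x ^ 2)⁻¹) x := by
  have h1 : HasDerivAt psi ((A' x : ℝ) + I * (B' x : ℝ)) x :=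
    ((hA x).ofReal_comp).add (((hB x).ofReal_comp).const_mul I)
  refine h1.congr_deriv ?_
  exact eq_inv_of_mul_eq_one_right (phi_sq x)

lemma hy2 (x : ℝ) : HasDerivAt y2 (dy2 x) x := by
  have := (hphi x).mul (hpsi x)
  refine HasDerivAt.congr_deriv this ?_
  unfold dy2
  have hp := phi_ne x
  field_simp

lemma hdy2 (x : ℝ) : HasDerivAt dy2 (q x * y2 x) x := by
  have h1 : HasDerivAt (fun x => (phi x)⁻¹) (-(dphi x) / (phi x)^2) x := by
    exact (hphi x).inv (phi_ne x)
  have := ((hdphi x).mul (hpsi x)).add h1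
  refine HasDerivAt.congr_deriv this ?_
  unfold y2
  have hp := phi_ne x
  field_simp
  ring

lemma wronsk (x : ℝ) : phi x * dy2 x - dphi x * y2 x = 1 := by
  unfold dy2 y2
  have hp := phi_ne x
  field_simp
  ring

lemma S_per (x : ℝ) : S (x + 2 * Real.pi) = S x := by unfold S; rw [Real.cos_add_two_pi]
lemma De_per (x : ℝ) : De (x + 2 * Real.pi) = De x := by unfold De; rw [Real.cos_add_two_pi]
lemma phi_per (x : ℝ) : phi (x + 2 * Real.pi) = phi x := by unfold phi; rw [S_per]
lemma eta'_per (x : ℝ) : eta' (x + 2 * Real.pi) = eta' x := by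
  unfold eta'; rw [De_per, Real.sin_add_two_pi]
lemma w'_per (x : ℝ) : w' (x + 2 * Real.pi) = w' x := by
  unfold w'; rw [De_per, Real.sin_add_two_pi, Real.cos_add_two_pi]
lemma q_per (x : ℝ) : q (x + 2 * Real.pi) = q x := by
  unfold q; rw [eta'_per, w'_per]
lemma dphi_per (x : ℝ) : dphi (x + 2 * Real.pi) = dphi x := by
  unfold dphi; rw [eta'_per, phi_per]
lemma psi_per (x : ℝ) : psi (x + 2 * Real.pi) = psi x := by
  unfold psi A B; rw [Real.sin_add_two_pi, Real.cos_add_two_pi]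
lemma y2_per (x : ℝ) : y2 (x + 2 * Real.pi) = y2 x := by
  unfold y2; rw [psi_per, phi_per]
lemma dy2_per (x : ℝ) : dy2 (x + 2 * Real.pi) = dy2 x := by
  unfold dy2; rw [psi_per, phi_per, dphi_per]

lemma phi_cont : Continuous phi := by
  rw [continuous_iff_continuousAt]; exact fun x => (hphi x).continuousAt
lemma psi_cont : Continuous psi := by
  rw [continuous_iff_continuousAt]; exact fun x => (hpsi x).continuousAt
lemma y2_cont : Continuous y2 := by
  rw [continuous_iff_continuousAt]; exact fun x => (hy2 x).continuousAt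
lemma dphi_cont : Continuous dphi := by
  rw [continuous_iff_continuousAt]; exact fun x => (hdphi x).continuousAt
lemma dy2_cont : Continuous dy2 := by
  rw [continuous_iff_continuousAt]; exact fun x => (hdy2 x).continuousAt
lemma A_cont : Continuous A := by
  rw [continuous_iff_continuousAt]; exact fun x => (hA x).continuousAt
lemma B_cont : Continuous B := by
  rw [continuous_iff_continuousAt]; exact fun x => (hB x).continuousAt
lemma De_cont : Continuous De := by unfold De; fun_prop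
lemma A'_cont : Continuous A' := by
  unfold A'
  exact Continuous.div (by fun_prop) De_cont (fun x => (De_pos x).ne')
lemma B'_cont : Continuous B' := by
  unfold B'
  exact Continuous.div (by fun_prop) De_cont (fun x => (De_pos x).ne')
lemma eta'_cont : Continuous eta' := by
  unfold eta'
  exact Continuous.div (by fun_prop) De_cont (fun x => (De_pos x).ne')
lemma w'_cont : Continuous w' := by
  unfold w'
  exact Continuous.div (by fun_prop) (De_cont.pow 2) (fun x => pow_ne_zero _ (De_pos x).ne')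
lemma q_cont : Continuous q := by
  unfold q
  have h1 := eta'_cont
  have h2 := w'_cont
  fun_prop

end Pool.Agent.Helper9.Hill
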