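import Mathlib
import Pool.Agent.Helper9.Hill

set_option autoImplicit false

namespace Pool.Agent.Helper9.Hill

open MeasureTheory intervalIntegral Complex

lemma psi_deriv_eq (x : ℝ) : (phi x ^ 2)⁻¹ = (A' x : ℝ) + I * (B' x : ℝ) := by
  symm
  exact eq_inv_of_mul_eq_one_right (phi_sq x)

lemma A'B' (x : ℝ) : A' x ^ 2 + B' x ^ 2 = 1 := by
  unfold A' B'
  have hD := (De_pos x).ne'
  field_simp
  have := s3
  unfold De
  rw [this]
  ring

lemma phi2 (x : ℝ) : phi x ^ 2 = (A' x : ℝ) - I * (B' x : ℝ) := by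
  have h := phi_sq x
  have h2 : ((A' x : ℂ)) ^ 2 + (B' x : ℂ) ^ 2 = 1 := by exact_mod_cast A'B' x
  have h3 : ((A' x : ℂ) - I * (B' x : ℂ)) * ((A' x : ℂ) + I * (B' x : ℂ)) = 1 := by
    rw [← h2]; ring_nf; rw [Complex.I_sq]; ring
  have h4 : ((A' x : ℂ) + I * (B' x : ℂ)) ≠ 0 := by
    intro h0; rw [h0] at h3; simp at h3
  exact mul_right_cancel₀ h4 (h.trans h3.symm)

lemma A_zero : A 0 = 0 := by unfold A; simp
lemma B_zero : B 0 = 0 := by unfold B; simp
lemma A_2pi : A (2 * Real.pi) = 0 := by unfold A; simp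
lemma B_2pi : B (2 * Real.pi) = 0 := by unfold B; simp

lemma int_A' : ∫ x in (0:ℝ)..(2 * Real.pi), A' x = 0 := by
  rw [integral_eq_sub_of_hasDerivAt (fun x _ => hA x) (A'_cont.intervalIntegrable _ _),
    A_2pi, A_zero]; ring
lemma int_B' : ∫ x in (0:ℝ)..(2 * Real.pi), B' x = 0 := by
  rw [integral_eq_sub_of_hasDerivAt (fun x _ => hB x) (B'_cont.intervalIntegrable _ _),
    B_2pi, B_zero]; ring

lemma int_phi2 : ∫ x in (0:ℝ)..(2 * Real.pi), phi x ^ 2 = 0 := by
  have h : ∀ x : ℝ, phi x ^ 2 = (A' x : ℂ) - I * (B' x : ℂ) := phi2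
  simp_rw [h]
  rw [intervalIntegral.integral_sub, intervalIntegral.integral_const_mul,
    intervalIntegral.integral_ofReal, intervalIntegral.integral_ofReal, int_A', int_B']
  · simp
  · exact (Complex.continuous_ofReal.comp A'_cont).intervalIntegrable _ _
  · exact (continuous_const.mul (Complex.continuous_ofReal.comp B'_cont)).intervalIntegrable _ _

lemma phi_refl (x : ℝ) : phi (2 * Real.pi - x) = phi x := by
  unfold phi S; rw [Real.cos_two_pi_sub]
lemma psi_refl (x : ℝ) : psi (2 * Real.pi - x) = -psi x := by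
  unfold psi A B
  rw [Real.cos_two_pi_sub, Real.sin_two_pi_sub]
  rw [show -Real.sin x * Real.cos x / (1 + Real.cos x ^ 2)
    = -(Real.sin x * Real.cos x / (1 + Real.cos x ^ 2)) by ring, Real.arctan_neg,
    show 2 + Real.sqrt 3 * -Real.sin x = 2 - Real.sqrt 3 * Real.sin x by ring,
    show 2 - Real.sqrt 3 * -Real.sin x = 2 + Real.sqrt 3 * Real.sin x by ring]
  push_cast
  ring

lemma int_phi2psi : ∫ x in (0:ℝ)..(2 * Real.pi), phi x ^ 2 * psi x = 0 := by
  have h := intervalIntegral.integral_comp_sub_left (fun x => phi x ^ 2 * psi x)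
    (a := 0) (b := 2 * Real.pi) (2 * Real.pi)
  simp only [phi_refl, psi_refl, sub_zero, sub_self] at h
  simp only [mul_neg, intervalIntegral.integral_neg] at h
  have h2 : (2 : ℂ) * ∫ x in (0:ℝ)..(2 * Real.pi), phi x ^ 2 * psi x = 0 := by
    linear_combination -h
  simpa using h2

/-- threshold value -/
noncomputable def mst : ℝ :=
  ((1/2) * (Real.log (2 + Real.sqrt 2) - Real.log (2 - Real.sqrt 2))) ^ 2

lemma g_mono {u v : ℝ} (hu : 0 ≤ u) (huv : u ≤ v) (hv : v < 2) :
    ((1/2) * (Real.log (2 + u) - Real.log (2 - u))) ^ 2 ≤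
    ((1/2) * (Real.log (2 + v) - Real.log (2 - v))) ^ 2 := by
  have h1 : Real.log (2 + u) ≤ Real.log (2 + v) := Real.log_le_log (by linarith) (by linarith)
  have h2 : Real.log (2 - v) ≤ Real.log (2 - u) := Real.log_le_log (by linarith) (by linarith)
  have h3 : Real.log (2 - u) ≤ Real.log (2 + u) := Real.log_le_log (by linarith) (by linarith)
  apply pow_le_pow_left₀
  · linarith
  · linarith

lemma B_sq (x : ℝ) : B x ^ 2 =
    ((1/2) * (Real.log (2 + |Real.sqrt 3 * Real.sin x|)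
      - Real.log (2 - |Real.sqrt 3 * Real.sin x|))) ^ 2 := by
  unfold B
  rcases abs_cases (Real.sqrt 3 * Real.sin x) with ⟨h, _⟩ | ⟨h, _⟩
  · rw [h]; ring
  · rw [h, show 2 + -(Real.sqrt 3 * Real.sin x) = 2 - Real.sqrt 3 * Real.sin x by ring,
      show 2 - -(Real.sqrt 3 * Real.sin x) = 2 + Real.sqrt 3 * Real.sin x by ring]
    ring

lemma abs_lt2 (x : ℝ) : |Real.sqrt 3 * Real.sin x| < 2 := by
  rw [abs_lt]
  have h1 := pos1 x
  have h2 := pos2 x
  constructor <;> linarith

lemma sqrt2_lt : Real.sqrt 2 < 2 := by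
  rw [show (2:ℝ) = Real.sqrt 4 by rw [show (4:ℝ) = 2^2 by norm_num, Real.sqrt_sq]; norm_num]
  exact Real.sqrt_lt_sqrt (by norm_num) (by
    rw [show (4:ℝ) = 2^2 by norm_num, Real.sqrt_sq] <;> norm_num)

lemma A'_eq (x : ℝ) : A' x = (|Real.sqrt 3 * Real.sin x| ^ 2 - 2) / De x := by
  unfold A'
  congr 1
  rw [sq_abs, mul_pow, s3]
  have := Real.sin_sq_add_cos_sq x
  linarith

lemma key_nonneg (x : ℝ) : 0 ≤ A' x * (B x ^ 2 - mst) := by
  have hs2 : Real.sqrt 2 ^ 2 = 2 := Real.sq_sqrt (by norm_num)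
  have hD := De_pos x
  rcases le_total (Real.sqrt 2) (|Real.sqrt 3 * Real.sin x|) with h | h
  · apply mul_nonneg
    · rw [A'_eq]
      apply div_nonneg _ hD.le
      have := pow_le_pow_left₀ (Real.sqrt_nonneg 2) h 2
      linarith
    · rw [B_sq, sub_nonneg]
      exact g_mono (Real.sqrt_nonneg 2) h (abs_lt2 x)
  · apply mul_nonneg_of_nonpos_of_nonpos
    · rw [A'_eq]
      apply div_nonpos_of_nonpos_of_nonneg _ hD.le
      have := pow_le_pow_left₀ (abs_nonneg _) h 2
      linarith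
    · rw [B_sq, sub_nonpos]
      exact g_mono (abs_nonneg _) h sqrt2_lt

lemma key_pos : 0 < A' 0 * (B 0 ^ 2 - mst) := by
  apply mul_pos_of_neg_of_neg
  · unfold A' De; simp; norm_num
  · rw [B_zero]
    unfold mst
    have h0 : 0 < Real.sqrt 2 := by positivity
    have h1 : Real.log (2 - Real.sqrt 2) < Real.log (2 + Real.sqrt 2) :=
      Real.log_lt_log (by linarith [sqrt2_lt]) (by linarith)
    have h2 : 0 < (1/2) * (Real.log (2 + Real.sqrt 2) - Real.log (2 - Real.sqrt 2)) := by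
      linarith
    have := pow_pos h2 2
    linarith

lemma int_pos : 0 < ∫ x in (0:ℝ)..(2 * Real.pi), A' x * B x ^ 2 := by
  have h1 : 0 < ∫ x in (0:ℝ)..(2 * Real.pi), A' x * (B x ^ 2 - mst) := by
    apply intervalIntegral.integral_pos
    · positivity
    · exact (A'_cont.mul ((B_cont.pow 2).sub continuous_const)).continuousOn
    · exact fun x _ => key_nonneg x
    · exact ⟨0, ⟨le_rfl, by positivity⟩, key_pos⟩
  have h2 : ∫ x in (0:ℝ)..(2 * Real.pi), A' x * (B x ^ 2 - mst)
      = (∫ x in (0:ℝ)..(2 * Real.pi), A' x * B x ^ 2) - (∫ x in (0:ℝ)..(2 * Real.pi), A' x) * mst := by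
    rw [← intervalIntegral.integral_mul_const, ← intervalIntegral.integral_sub]
    · congr 1; ext x; ring
    · exact (A'_cont.mul (B_cont.pow 2)).intervalIntegrable _ _
    · exact (A'_cont.mul continuous_const).intervalIntegrable _ _
  rw [h2, int_A'] at h1
  linarith

noncomputable def Bc : ℂ := ∫ x in (0:ℝ)..(2 * Real.pi), phi x ^ 2 * psi x ^ 2

lemma Bc_re : Bc.re = -2 * ∫ x in (0:ℝ)..(2 * Real.pi), A' x * B x ^ 2 := by
  have hcont : Continuous (fun x => phi x ^ 2 * psi x ^ 2) := (phi_cont.pow 2).mul (psi_cont.pow 2)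
  have h0 : Bc.re = ∫ x in (0:ℝ)..(2 * Real.pi), (phi x ^ 2 * psi x ^ 2).re := by
    unfold Bc
    have := Complex.reCLM.intervalIntegral_comp_comm (hcont.intervalIntegrable 0 (2 * Real.pi) (μ := volume))
    simpa using this.symm
  have h1 : ∀ x : ℝ, (phi x ^ 2 * psi x ^ 2).re
      = (A' x * (A x) ^ 2 + (A' x * B x ^ 2 + A x * (2 * B x * B' x))) - 2 * (A' x * B x ^ 2) := by
    intro x
    rw [phi2]
    unfold psi
    simp only [pow_two, Complex.mul_re, Complex.mul_im, Complex.sub_re, Complex.sub_im,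
      Complex.add_re, Complex.add_im, Complex.ofReal_re, Complex.ofReal_im, Complex.I_re,
      Complex.I_im]
    ring
  rw [h0]
  simp_rw [h1]
  have hd : ∀ x ∈ Set.uIcc (0:ℝ) (2 * Real.pi), HasDerivAt (fun x => A x ^ 3 / 3 + A x * B x ^ 2)
      (A' x * (A x) ^ 2 + (A' x * B x ^ 2 + A x * (2 * B x * B' x))) x := by
    intro x _
    have h2 := (((hA x).pow 3).div_const 3).add ((hA x).mul ((hB x).pow 2))
    refine h2.congr_deriv ?_
    push_cast
    simp only [Pi.pow_apply]
    ring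
  have hc1 : Continuous (fun x => A' x * (A x) ^ 2 + (A' x * B x ^ 2 + A x * (2 * B x * B' x))) := by
    have := A_cont; have := B_cont; have := A'_cont; have := B'_cont
    fun_prop
  have hc2 : Continuous (fun x => 2 * (A' x * (B x) ^ 2)) := by
    have := A_cont; have := B_cont; have := A'_cont; have := B'_cont
    fun_prop
  rw [intervalIntegral.integral_sub (hc1.intervalIntegrable _ _) (hc2.intervalIntegrable _ _),
    integral_eq_sub_of_hasDerivAt hd (hc1.intervalIntegrable _ _), A_2pi, A_zero,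
    intervalIntegral.integral_const_mul]
  ring

lemma Bc_ne : Bc ≠ 0 := by
  intro h
  have h1 := Bc_re
  rw [h] at h1
  have h2 := int_pos
  simp at h1
  rw [h1] at h2
  exact lt_irrefl _ h2

end Pool.Agent.Helper9.Hill
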