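import Mathlib
import Pool.Agent.Helper9.HillInt

set_option autoImplicit false

namespace Pool.Agent.Helper9.Hill

open MeasureTheory intervalIntegral Complex Pool.Agent.Helper9

noncomputable abbrev P11 : ℂ × ℂ →L[ℂ] ℂ × ℂ := (ContinuousLinearMap.fst ℂ ℂ ℂ).prod 0
noncomputable abbrev P12 : ℂ × ℂ →L[ℂ] ℂ × ℂ := (ContinuousLinearMap.snd ℂ ℂ ℂ).prod 0
noncomputable abbrev P21 : ℂ × ℂ →L[ℂ] ℂ × ℂ := (0 : ℂ × ℂ →L[ℂ] ℂ).prod (ContinuousLinearMap.fst ℂ ℂ ℂ)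
noncomputable abbrev P22 : ℂ × ℂ →L[ℂ] ℂ × ℂ := (0 : ℂ × ℂ →L[ℂ] ℂ).prod (ContinuousLinearMap.snd ℂ ℂ ℂ)

noncomputable def NN (x : ℝ) : ℂ × ℂ →L[ℂ] ℂ × ℂ :=
  (phi x * y2 x) • P11 + (y2 x ^ 2) • P12 + (-(phi x ^ 2)) • P21 + (-(phi x * y2 x)) • P22

lemma NN_apply (x : ℝ) (e : ℂ × ℂ) : NN x e =
    (phi x * y2 x * e.1 + y2 x ^ 2 * e.2, -(phi x ^ 2) * e.1 + -(phi x * y2 x) * e.2) := by
  unfold NN
  simp [P11, P12, P21, P22]

lemma NN_cont : Continuous NN := by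
  unfold NN
  have h1 := phi_cont
  have h2 := y2_cont
  exact ((((h1.mul h2).smul continuous_const).add ((h2.pow 2).smul continuous_const)).add
    (((h1.pow 2).neg).smul continuous_const)).add (((h1.mul h2).neg).smul continuous_const)

lemma NN_per (x : ℝ) : NN (x + 2 * Real.pi) = NN x := by
  unfold NN; rw [phi_per, y2_per]

lemma NN_bdd : ∃ K : ℝ, ∀ t, ‖NN t‖ ≤ K := by
  obtain ⟨K, hK⟩ := (isCompact_Icc (a := (0:ℝ)) (b := 2 * Real.pi)).exists_bound_of_continuousOn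
    NN_cont.continuousOn
  refine ⟨K, fun t => ?_⟩
  obtain ⟨y, hy, hty⟩ := Function.Periodic.exists_mem_Ico₀ (f := NN) NN_per
    (by positivity : (0:ℝ) < 2 * Real.pi) t
  rw [hty]
  exact hK y ⟨hy.1, hy.2.le⟩

lemma int_NN (x₀ : ℝ) (e : ℂ × ℂ) :
    ∫ t in x₀..(x₀ + 2 * Real.pi), NN t e = (Bc * e.2, 0) := by
  have hcont : Continuous (fun t => NN t e) := NN_cont.clm_apply continuous_const
  have hint := hcont.intervalIntegrable (μ := volume) x₀ (x₀ + 2 * Real.pi)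
  have hper : ∀ f : ℝ → ℂ, (∀ x, f (x + 2 * Real.pi) = f x) →
      ∫ t in x₀..(x₀ + 2 * Real.pi), f t = ∫ t in (0:ℝ)..(2 * Real.pi), f t := by
    intro f hf
    have := Function.Periodic.intervalIntegral_add_eq (f := f) (T := 2 * Real.pi) hf x₀ 0
    rw [this, zero_add]
  have h1 : (∫ t in x₀..(x₀ + 2 * Real.pi), NN t e).1 = Bc * e.2 := by
    have h := (ContinuousLinearMap.fst ℂ ℂ ℂ).intervalIntegral_comp_comm hint
    have h' : (∫ t in x₀..(x₀ + 2 * Real.pi), NN t e).1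
      = ∫ t in x₀..(x₀ + 2 * Real.pi), (phi t * y2 t * e.1 + y2 t ^ 2 * e.2) := by
      rw [← ContinuousLinearMap.coe_fst' (R := ℂ)]
      rw [← h]
      simp only [NN_apply, ContinuousLinearMap.coe_fst']
    rw [h', hper _ (fun x => by rw [phi_per, y2_per])]
    have hc1 : Continuous (fun t => phi t * y2 t * e.1) :=
      (phi_cont.mul y2_cont).mul continuous_const
    have hc2 : Continuous (fun t => y2 t ^ 2 * e.2) := (y2_cont.pow 2).mul continuous_const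
    rw [intervalIntegral.integral_add (hc1.intervalIntegrable _ _) (hc2.intervalIntegrable _ _),
      intervalIntegral.integral_mul_const, intervalIntegral.integral_mul_const]
    have e1 : ∫ x in (0:ℝ)..(2 * Real.pi), phi x * y2 x = 0 := by
      rw [← int_phi2psi]; congr 1; ext x; unfold y2; ring
    have e2 : ∫ x in (0:ℝ)..(2 * Real.pi), y2 x ^ 2 = Bc := by
      unfold Bc; congr 1; ext x; unfold y2; ring
    rw [e1, e2]; ring
  have h2 : (∫ t in x₀..(x₀ + 2 * Real.pi), NN t e).2 = 0 := by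
    have h := (ContinuousLinearMap.snd ℂ ℂ ℂ).intervalIntegral_comp_comm hint
    have h' : (∫ t in x₀..(x₀ + 2 * Real.pi), NN t e).2
      = ∫ t in x₀..(x₀ + 2 * Real.pi), (-(phi t ^ 2) * e.1 + -(phi t * y2 t) * e.2) := by
      rw [← ContinuousLinearMap.coe_snd' (R := ℂ)]
      rw [← h]
      simp only [NN_apply, ContinuousLinearMap.coe_snd']
    rw [h', hper _ (fun x => by rw [phi_per, y2_per])]
    have hc1 : Continuous (fun t => -(phi t ^ 2) * e.1) :=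
      ((phi_cont.pow 2).neg).mul continuous_const
    have hc2 : Continuous (fun t => -(phi t * y2 t) * e.2) :=
      ((phi_cont.mul y2_cont).neg).mul continuous_const
    rw [intervalIntegral.integral_add (hc1.intervalIntegrable _ _) (hc2.intervalIntegrable _ _),
      intervalIntegral.integral_mul_const, intervalIntegral.integral_mul_const,
      intervalIntegral.integral_neg, intervalIntegral.integral_neg]
    have e1 : ∫ x in (0:ℝ)..(2 * Real.pi), phi x * y2 x = 0 := by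
      rw [← int_phi2psi]; congr 1; ext x; unfold y2; ring
    rw [e1, int_phi2]; ring
  exact Prod.ext h1 h2

/-- coefficient vector -/
noncomputable def cf (x₀ : ℝ) (e : ℂ × ℂ) (z : ℂ) (x : ℝ) : ℂ × ℂ := Dyson.sol NN x₀ e z x

lemma cf_deriv (x₀ : ℝ) (e : ℂ × ℂ) (z : ℂ) (x : ℝ) :
    HasDerivAt (cf x₀ e z) (z • NN x (cf x₀ e z x)) x := by
  obtain ⟨K, hK⟩ := NN_bdd
  exact Dyson.sol_hasDeriv NN_cont hK x₀ e z x

lemma cf_init (x₀ : ℝ) (e : ℂ × ℂ) (z : ℂ) : cf x₀ e z x₀ = e := Dyson.sol_init x₀ e z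

lemma cf_expand (x₀ : ℝ) (e : ℂ × ℂ) : ∃ R1 R2 : ℂ → ℂ, Differentiable ℂ R1 ∧ Differentiable ℂ R2 ∧
    ∀ z, (cf x₀ e z (x₀ + 2 * Real.pi)).1 = e.1 + z * (Bc * e.2) + z ^ 2 * R1 z ∧
      (cf x₀ e z (x₀ + 2 * Real.pi)).2 = e.2 + z ^ 2 * R2 z := by
  obtain ⟨K, hK⟩ := NN_bdd
  obtain ⟨R, hR, h⟩ := Dyson.sol_expand NN_cont hK x₀ e (x₀ + 2 * Real.pi)
  refine ⟨fun z => (R z).1, fun z => (R z).2, fun z => (hR z).fst, fun z => (hR z).snd, ?_⟩
  intro z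
  have := h z
  rw [int_NN] at this
  unfold cf
  rw [this]
  constructor
  · simp
  · simp

/-- solution and derivative -/
noncomputable def u (x₀ : ℝ) (e : ℂ × ℂ) (z : ℂ) (x : ℝ) : ℂ :=
  (cf x₀ e z x).1 * phi x + (cf x₀ e z x).2 * y2 x
noncomputable def du (x₀ : ℝ) (e : ℂ × ℂ) (z : ℂ) (x : ℝ) : ℂ :=
  (cf x₀ e z x).1 * dphi x + (cf x₀ e z x).2 * dy2 x

lemma cf1_deriv (x₀ : ℝ) (e : ℂ × ℂ) (z : ℂ) (x : ℝ) :
    HasDerivAt (fun x => (cf x₀ e z x).1) (z * (y2 x * u x₀ e z x)) x := by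
  have h1 := (ContinuousLinearMap.fst ℝ ℂ ℂ).hasFDerivAt.comp_hasDerivAt x (cf_deriv x₀ e z x)
  refine h1.congr_deriv ?_
  rw [NN_apply]
  simp only [ContinuousLinearMap.coe_fst', Prod.smul_fst, smul_eq_mul]
  unfold u
  ring

lemma cf2_deriv (x₀ : ℝ) (e : ℂ × ℂ) (z : ℂ) (x : ℝ) :
    HasDerivAt (fun x => (cf x₀ e z x).2) (-z * (phi x * u x₀ e z x)) x := by
  have h1 := (ContinuousLinearMap.snd ℝ ℂ ℂ).hasFDerivAt.comp_hasDerivAt x (cf_deriv x₀ e z x)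
  refine h1.congr_deriv ?_
  rw [NN_apply]
  simp only [ContinuousLinearMap.coe_snd', Prod.smul_snd, smul_eq_mul]
  unfold u
  ring

lemma u_deriv (x₀ : ℝ) (e : ℂ × ℂ) (z : ℂ) (x : ℝ) :
    HasDerivAt (u x₀ e z) (du x₀ e z x) x := by
  have h := ((cf1_deriv x₀ e z x).mul (hphi x)).add ((cf2_deriv x₀ e z x).mul (hy2 x))
  refine h.congr_deriv ?_
  unfold du
  ring

lemma du_deriv (x₀ : ℝ) (e : ℂ × ℂ) (z : ℂ) (x : ℝ) :
    HasDerivAt (du x₀ e z) ((q x - z) * u x₀ e z x) x := by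
  have h := ((cf1_deriv x₀ e z x).mul (hdphi x)).add ((cf2_deriv x₀ e z x).mul (hdy2 x))
  refine h.congr_deriv ?_
  have hw := wronsk x
  have hu : u x₀ e z x = (cf x₀ e z x).1 * phi x + (cf x₀ e z x).2 * y2 x := rfl
  linear_combination (-(z * u x₀ e z x)) * hw - q x * hu

lemma u_cont (x₀ : ℝ) (e : ℂ × ℂ) (z : ℂ) : Continuous (u x₀ e z) := by
  rw [continuous_iff_continuousAt]; exact fun x => (u_deriv x₀ e z x).continuousAt
lemma du_cont (x₀ : ℝ) (e : ℂ × ℂ) (z : ℂ) : Continuous (du x₀ e z) := by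
  rw [continuous_iff_continuousAt]; exact fun x => (du_deriv x₀ e z x).continuousAt

lemma u_int (x₀ : ℝ) (e : ℂ × ℂ) (z : ℂ) (x : ℝ) :
    u x₀ e z x = u x₀ e z x₀ + ∫ t in x₀..x, du x₀ e z t := by
  rw [integral_eq_sub_of_hasDerivAt (fun t _ => u_deriv x₀ e z t)
    ((du_cont x₀ e z).intervalIntegrable _ _)]
  ring

lemma du_int (x₀ : ℝ) (e : ℂ × ℂ) (z : ℂ) (x : ℝ) :
    du x₀ e z x = du x₀ e z x₀ + ∫ t in x₀..x, (q t - z) * u x₀ e z t := by
  rw [integral_eq_sub_of_hasDerivAt (fun t _ => du_deriv x₀ e z t)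
    (((q_cont.sub continuous_const).mul (u_cont x₀ e z)).intervalIntegrable _ _)]
  ring

/-- the initial vectors -/
noncomputable def ec (x₀ : ℝ) : ℂ × ℂ := (dy2 x₀, -dphi x₀)
noncomputable def es (x₀ : ℝ) : ℂ × ℂ := (-y2 x₀, phi x₀)

lemma c_init (x₀ : ℝ) (z : ℂ) : u x₀ (ec x₀) z x₀ = 1 := by
  unfold u; rw [cf_init]; unfold ec
  have := wronsk x₀
  linear_combination this
lemma dc_init (x₀ : ℝ) (z : ℂ) : du x₀ (ec x₀) z x₀ = 0 := by
  unfold du; rw [cf_init]; unfold ec; ring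
lemma s_init (x₀ : ℝ) (z : ℂ) : u x₀ (es x₀) z x₀ = 0 := by
  unfold u; rw [cf_init]; unfold es; ring
lemma ds_init (x₀ : ℝ) (z : ℂ) : du x₀ (es x₀) z x₀ = 1 := by
  unfold du; rw [cf_init]; unfold es
  have := wronsk x₀
  linear_combination this

lemma wr (z : ℂ) (x : ℝ) :
    u 0 (ec 0) z x * du 0 (es 0) z x - u 0 (es 0) z x * du 0 (ec 0) z x = 1 := by
  have hd : ∀ x, HasDerivAt (fun x => u 0 (ec 0) z x * du 0 (es 0) z x
      - u 0 (es 0) z x * du 0 (ec 0) z x) 0 x := by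
    intro x
    have h := ((u_deriv 0 (ec 0) z x).mul (du_deriv 0 (es 0) z x)).sub
      ((u_deriv 0 (es 0) z x).mul (du_deriv 0 (ec 0) z x))
    refine h.congr_deriv ?_
    ring
  have hc := is_const_of_deriv_eq_zero (f := fun x => u 0 (ec 0) z x * du 0 (es 0) z x
      - u 0 (es 0) z x * du 0 (ec 0) z x) (fun x => (hd x).differentiableAt)
      (fun x => (hd x).deriv) x 0
  rw [hc, c_init, ds_init, s_init, dc_init]
  ring

/-- expansions over the period -/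
lemma s_expand (x₀ : ℝ) : ∃ R : ℂ → ℂ, Differentiable ℂ R ∧
    ∀ z, u x₀ (es x₀) z (x₀ + 2 * Real.pi) = z * (Bc * phi x₀ ^ 2 + z * R z) := by
  obtain ⟨R1, R2, h1, h2, h⟩ := cf_expand x₀ (es x₀)
  refine ⟨fun z => R1 z * phi x₀ + R2 z * y2 x₀, by fun_prop, ?_⟩
  intro z
  obtain ⟨ha, hb⟩ := h z
  unfold u
  rw [ha, hb, phi_per, y2_per]
  unfold es
  ring

lemma dc_expand (x₀ : ℝ) : ∃ R : ℂ → ℂ, Differentiable ℂ R ∧
    ∀ z, du x₀ (ec x₀) z (x₀ + 2 * Real.pi) = z * (-(Bc * dphi x₀ ^ 2) + z * R z) := by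
  obtain ⟨R1, R2, h1, h2, h⟩ := cf_expand x₀ (ec x₀)
  refine ⟨fun z => R1 z * dphi x₀ + R2 z * dy2 x₀, by fun_prop, ?_⟩
  intro z
  obtain ⟨ha, hb⟩ := h z
  unfold du
  rw [ha, hb, dphi_per, dy2_per]
  unfold ec
  ring

lemma c_expand (x₀ : ℝ) : ∃ R : ℂ → ℂ, Differentiable ℂ R ∧
    ∀ z, u x₀ (ec x₀) z (x₀ + 2 * Real.pi) = 1 - z * (Bc * dphi x₀ * phi x₀) + z ^ 2 * R z := by
  obtain ⟨R1, R2, h1, h2, h⟩ := cf_expand x₀ (ec x₀)
  refine ⟨fun z => R1 z * phi x₀ + R2 z * y2 x₀, by fun_prop, ?_⟩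
  intro z
  obtain ⟨ha, hb⟩ := h z
  unfold u
  rw [ha, hb, phi_per, y2_per]
  unfold ec
  have := wronsk x₀
  linear_combination this

lemma ds_expand (x₀ : ℝ) : ∃ R : ℂ → ℂ, Differentiable ℂ R ∧
    ∀ z, du x₀ (es x₀) z (x₀ + 2 * Real.pi) = 1 + z * (Bc * dphi x₀ * phi x₀) + z ^ 2 * R z := by
  obtain ⟨R1, R2, h1, h2, h⟩ := cf_expand x₀ (es x₀)
  refine ⟨fun z => R1 z * dphi x₀ + R2 z * dy2 x₀, by fun_prop, ?_⟩
  intro z
  obtain ⟨ha, hb⟩ := h z
  unfold du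
  rw [ha, hb, dphi_per, dy2_per]
  unfold es
  have := wronsk x₀
  linear_combination this

lemma dphi_zero : dphi 0 = 0 := by unfold dphi eta'; simp

lemma dphi_half : dphi (Real.pi / 2) ≠ 0 := by
  unfold dphi
  apply mul_ne_zero (phi_ne _)
  apply mul_ne_zero Complex.I_ne_zero
  unfold eta'
  rw [Real.sin_pi_div_two]
  have := De_pos (Real.pi / 2)
  norm_cast
  apply div_ne_zero _ this.ne'
  simp

/-- orders -/
lemma order_ge (C : ℂ) (R : ℂ → ℂ) (hR : Differentiable ℂ R) :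
    1 ≤ analyticOrderAt (fun z : ℂ => z * (C + z * R z)) 0 := by
  have hA : AnalyticAt ℂ (fun z : ℂ => z * (C + z * R z)) 0 := by
    have : Differentiable ℂ (fun z : ℂ => z * (C + z * R z)) := by fun_prop
    exact this.analyticAt 0
  have := (natCast_le_analyticOrderAt hA (n := 1)).2 ⟨fun z => C + z * R z, by
    have : Differentiable ℂ (fun z : ℂ => (C + z * R z)) := by fun_prop
    exact this.analyticAt 0, Filter.Eventually.of_forall (fun z => by simp)⟩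
  exact_mod_cast this

lemma order_eq {C : ℂ} (hC : C ≠ 0) (R : ℂ → ℂ) (hR : Differentiable ℂ R) :
    analyticOrderAt (fun z : ℂ => z * (C + z * R z)) 0 = 1 := by
  have hA : AnalyticAt ℂ (fun z : ℂ => z * (C + z * R z)) 0 := by
    have : Differentiable ℂ (fun z : ℂ => z * (C + z * R z)) := by fun_prop
    exact this.analyticAt 0
  have := (hA.analyticOrderAt_eq_natCast (n := 1)).2 ⟨fun z => C + z * R z, by
    have : Differentiable ℂ (fun z : ℂ => (C + z * R z)) := by fun_prop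
    exact this.analyticAt 0, by simpa using hC, Filter.Eventually.of_forall (fun z => by simp)⟩
  exact_mod_cast this

lemma disc_order : 3 ≤ analyticOrderAt
    (fun w : ℂ => (u 0 (ec 0) w (2 * Real.pi) + du 0 (es 0) w (2 * Real.pi)) ^ 2 - 4) 0 := by
  obtain ⟨Rc, hRc, hc⟩ := c_expand 0
  obtain ⟨Rd, hRd, hd⟩ := ds_expand 0
  obtain ⟨Rs, hRs, hs⟩ := s_expand 0
  obtain ⟨Re, hRe, he⟩ := dc_expand 0
  simp only [zero_add, dphi_zero] at hc hd hs he
  have heq : (fun w : ℂ => (u 0 (ec 0) w (2 * Real.pi) + du 0 (es 0) w (2 * Real.pi)) ^ 2 - 4)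
      = fun w => w ^ 3 * (w * (Rc w - Rd w) ^ 2 + 4 * (Bc * phi 0 ^ 2 + w * Rs w) * Re w) := by
    ext w
    have hw := wr w (2 * Real.pi)
    rw [hs, he] at hw
    have h1 := hc w
    have h2 := hd w
    have h3 : (u 0 (ec 0) w (2 * Real.pi) + du 0 (es 0) w (2 * Real.pi)) ^ 2 - 4
      = (u 0 (ec 0) w (2 * Real.pi) - du 0 (es 0) w (2 * Real.pi)) ^ 2
        + 4 * (w * (Bc * phi 0 ^ 2 + w * Rs w)) * (w * (-(Bc * 0 ^ 2) + w * Re w)) := by
      linear_combination 4 * hw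
    rw [h3, h1, h2]
    ring
  rw [heq]
  have hA : AnalyticAt ℂ (fun w : ℂ => w ^ 3 * (w * (Rc w - Rd w) ^ 2 + 4 * (Bc * phi 0 ^ 2 + w * Rs w) * Re w)) 0 := by
    have : Differentiable ℂ (fun w : ℂ => w ^ 3 * (w * (Rc w - Rd w) ^ 2 + 4 * (Bc * phi 0 ^ 2 + w * Rs w) * Re w)) := by fun_prop
    exact this.analyticAt 0
  have := (natCast_le_analyticOrderAt hA (n := 3)).2 ⟨fun w => (w * (Rc w - Rd w) ^ 2 + 4 * (Bc * phi 0 ^ 2 + w * Rs w) * Re w), by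
    have : Differentiable ℂ (fun w : ℂ => (w * (Rc w - Rd w) ^ 2 + 4 * (Bc * phi 0 ^ 2 + w * Rs w) * Re w)) := by fun_prop
    exact this.analyticAt 0, Filter.Eventually.of_forall (fun z => by simp)⟩
  exact_mod_cast this

end Pool.Agent.Helper9.Hill
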