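import Mathlib

set_option autoImplicit false

namespace Pool.Agent.Helper9.Neumann

open Matrix Polynomial

/-- Hadamard-type inequality for Z-matrices with a positive supersolution. -/
theorem det_bounds : ∀ (n : ℕ) (M : Matrix (Fin n) (Fin n) ℝ) (x : Fin n → ℝ),
    (∀ i j, i ≠ j → M i j ≤ 0) → (∀ i, 0 < x i) → (∀ i, 0 ≤ ∑ j, M i j * x j) →
    0 ≤ M.det ∧ M.det ≤ ∏ i, M i i := by
  intro n
  induction n with
  | zero =>
    intro M x _ _ _
    simp
  | succ n ih =>
    intro M x hM hx hMx
    have h0 := hMx 0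
    rw [Fin.sum_univ_succ] at h0
    have hterm : ∀ j : Fin n, M 0 j.succ * x j.succ ≤ 0 := fun j =>
      mul_nonpos_of_nonpos_of_nonneg (hM _ _ (Fin.succ_ne_zero j).symm) (hx _).le
    have hsum : ∑ j : Fin n, M 0 j.succ * x j.succ ≤ 0 := Finset.sum_nonpos fun j _ => hterm j
    have ha : 0 ≤ M 0 0 := by
      by_contra hneg
      push Not at hneg
      have := mul_neg_of_neg_of_pos hneg (hx 0)
      linarith
    -- diagonal entries are nonnegative
    have hdiag : ∀ i, 0 ≤ M i i := by
      intro i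
      have hi := hMx i
      rw [← Finset.add_sum_erase _ _ (Finset.mem_univ i)] at hi
      have hs : ∑ j ∈ Finset.univ.erase i, M i j * x j ≤ 0 := by
        refine Finset.sum_nonpos fun j hj => ?_
        exact mul_nonpos_of_nonpos_of_nonneg (hM _ _ (Finset.ne_of_mem_erase hj).symm) (hx _).le
      by_contra hneg
      push Not at hneg
      have := mul_neg_of_neg_of_pos hneg (hx i)
      linarith
    rcases ha.eq_or_lt with ha0 | hapos
    · -- zero row
      have hs0 : ∑ j : Fin n, M 0 j.succ * x j.succ = 0 := by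
        rw [← ha0] at h0
        linarith
      have hz : ∀ j : Fin n, M 0 j.succ = 0 := by
        intro j
        have := (Finset.sum_eq_zero_iff_of_nonpos (fun j _ => hterm j)).1 hs0 j (Finset.mem_univ j)
        rcases mul_eq_zero.1 this with h | h
        · exact h
        · exact absurd h (hx _).ne'
      have hdet : M.det = 0 := by
        apply Matrix.det_eq_zero_of_row_eq_zero 0
        intro j
        refine Fin.cases ha0.symm (fun j => hz j) j
      rw [hdet]
      exact ⟨le_refl _, Finset.prod_nonneg fun i _ => hdiag i⟩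
    · set M' : Matrix (Fin n) (Fin n) ℝ :=
        Matrix.of fun i j => M i.succ j.succ - M i.succ 0 / M 0 0 * M 0 j.succ with hM'
      set B : Matrix (Fin (n+1)) (Fin (n+1)) ℝ :=
        Matrix.of fun i j => M i j - (if i = 0 then 0 else M i 0 / M 0 0) * M 0 j with hB
      have hdetB : M.det = B.det := by
        apply Matrix.det_eq_of_forall_row_eq_smul_add_const
          (fun i => if i = 0 then 0 else M i 0 / M 0 0) 0
        · simp
        · intro i j
          simp [hB]
      have hdetM' : B.det = M 0 0 * M'.det := by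
        rw [Matrix.det_succ_column_zero, Fin.sum_univ_succ]
        have hz : ∀ i : Fin n, B i.succ 0 = 0 := by
          intro i
          simp [hB, Fin.succ_ne_zero, div_mul_cancel₀ _ hapos.ne']
        have h00 : B 0 0 = M 0 0 := by simp [hB]
        have hsub : B.submatrix (Fin.succAbove 0) Fin.succ = M' := by
          ext i j
          simp [hB, hM', Fin.succ_ne_zero]
        rw [h00, hsub]
        simp [hz]
      have hc : ∀ i : Fin n, M i.succ 0 / M 0 0 ≤ 0 := fun i =>
        div_nonpos_of_nonpos_of_nonneg (hM _ _ (Fin.succ_ne_zero i)) hapos.le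
      have hprodnn : ∀ i j : Fin n, 0 ≤ M i.succ 0 / M 0 0 * M 0 j.succ := fun i j =>
        mul_nonneg_of_nonpos_of_nonpos (hc i) (hM _ _ (Fin.succ_ne_zero j).symm)
      have hsumM' : ∀ i : Fin n, ∑ j, M' i j * x j.succ
          = (∑ j, M i.succ j * x j) - M i.succ 0 / M 0 0 * ∑ j, M 0 j * x j := by
        intro i
        rw [Fin.sum_univ_succ (fun j => M i.succ j * x j), Fin.sum_univ_succ (fun j => M 0 j * x j)]
        simp only [hM', Matrix.of_apply, sub_mul, Finset.sum_sub_distrib, mul_add, Finset.mul_sum]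
        have : M i.succ 0 / M 0 0 * (M 0 0 * x 0) = M i.succ 0 * x 0 := by
          field_simp
        rw [this]
        have h2 : ∑ j : Fin n, M i.succ 0 / M 0 0 * M 0 j.succ * x j.succ
            = ∑ j : Fin n, M i.succ 0 / M 0 0 * (M 0 j.succ * x j.succ) :=
          Finset.sum_congr rfl fun j _ => by ring
        rw [h2]
        ring
      obtain ⟨h1, h2⟩ := ih M' (fun j => x j.succ)
        (by
          intro i j hij
          simp only [hM', Matrix.of_apply]
          have := hprodnn i j
          have := hM i.succ j.succ (fun h => hij (Fin.succ_injective _ h))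
          linarith)
        (fun i => hx _)
        (by
          intro i
          rw [hsumM' i]
          have h3 := mul_nonpos_of_nonpos_of_nonneg (hc i) (hMx 0)
          have h4 := hMx i.succ
          linarith)
      have hM'diag : ∀ i, 0 ≤ M' i i := by
        intro i
        have hi : 0 ≤ ∑ j, M' i j * x j.succ := by
          rw [hsumM' i]
          have h3 := mul_nonpos_of_nonpos_of_nonneg (hc i) (hMx 0)
          have h4 := hMx i.succ
          linarith
        rw [← Finset.add_sum_erase _ _ (Finset.mem_univ i)] at hi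
        have hs : ∑ j ∈ Finset.univ.erase i, M' i j * x j.succ ≤ 0 := by
          refine Finset.sum_nonpos fun j hj => ?_
          refine mul_nonpos_of_nonpos_of_nonneg ?_ (hx _).le
          simp only [hM', Matrix.of_apply]
          have := hprodnn i j
          have := hM i.succ j.succ (fun h => (Finset.ne_of_mem_erase hj).symm (Fin.succ_injective _ h))
          linarith
        by_contra hneg
        push Not at hneg
        have := mul_neg_of_neg_of_pos hneg (hx i.succ)
        linarith
      rw [hdetB, hdetM']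
      refine ⟨mul_nonneg hapos.le h1, ?_⟩
      rw [Fin.prod_univ_succ]
      refine mul_le_mul_of_nonneg_left (h2.trans ?_) hapos.le
      refine Finset.prod_le_prod (fun i _ => hM'diag i) fun i _ => ?_
      simp only [hM', Matrix.of_apply]
      have := hprodnn i i
      linarith

/-- A positive supersolution for `A x ≤ t x` from a small power. -/
theorem exists_super {n : ℕ} (A : Matrix (Fin n) (Fin n) ℝ) (hA : ∀ i j, 0 ≤ A i j)
    (t : ℝ) (ht : 0 < t) (K : ℕ) (hK : 1 ≤ K) (hpow : ∀ i, ∑ j, (A ^ K) i j ≤ t ^ K) :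
    ∃ x : Fin n → ℝ, (∀ i, 0 < x i) ∧ ∀ i, ∑ j, A i j * x j ≤ t * x i := by
  have hApow : ∀ k i j, 0 ≤ (A ^ k) i j := by
    intro k
    induction k with
    | zero => intro i j; simp only [pow_zero, Matrix.one_apply]; split_ifs <;> norm_num
    | succ k ih =>
      intro i j
      rw [pow_succ, Matrix.mul_apply]
      exact Finset.sum_nonneg fun l _ => mul_nonneg (ih _ _) (hA _ _)
  -- v k i = (row sum of A^k) / t^k
  refine ⟨fun i => ∑ k ∈ Finset.range K, (∑ j, (A ^ k) i j) / t ^ k, ?_, ?_⟩
  · intro i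
    have h0 : (0 : ℕ) ∈ Finset.range K := Finset.mem_range.2 hK
    refine lt_of_lt_of_le ?_ (Finset.single_le_sum (f := fun k => (∑ j, (A ^ k) i j) / t ^ k)
      (fun k _ => div_nonneg (Finset.sum_nonneg fun j _ => hApow k i j) (pow_pos ht k).le) h0)
    simp [Matrix.one_apply]
  · intro i
    have hswap : ∑ j, A i j * ∑ k ∈ Finset.range K, (∑ l, (A ^ k) j l) / t ^ k
        = ∑ k ∈ Finset.range K, (∑ l, (A ^ (k+1)) i l) / t ^ k := by
      simp only [Finset.mul_sum]
      rw [Finset.sum_comm]
      refine Finset.sum_congr rfl fun k _ => ?_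
      simp only [pow_succ' A k, Matrix.mul_apply]
      rw [Finset.sum_comm, Finset.sum_div]
      refine Finset.sum_congr rfl fun j _ => ?_
      rw [← Finset.mul_sum, mul_div_assoc]
    rw [hswap]
    have hshift : t * ∑ k ∈ Finset.range K, (∑ j, (A ^ k) i j) / t ^ k
        = (∑ k ∈ Finset.range K, (∑ l, (A ^ (k+1)) i l) / t ^ k)
          + t * 1 - t * ((∑ l, (A ^ K) i l) / t ^ K) := by
      have h1 : ∑ k ∈ Finset.range (K+1), (∑ j, (A ^ k) i j) / t ^ k
          = (∑ k ∈ Finset.range K, (∑ j, (A ^ k) i j) / t ^ k) + (∑ j, (A ^ K) i j) / t ^ K :=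
        Finset.sum_range_succ _ _
      have h2 : ∑ k ∈ Finset.range (K+1), (∑ j, (A ^ k) i j) / t ^ k
          = (∑ k ∈ Finset.range K, (∑ j, (A ^ (k+1)) i j) / t ^ (k+1)) + 1 := by
        rw [Finset.sum_range_succ']
        simp [Matrix.one_apply]
      have h3 : ∑ k ∈ Finset.range K, (∑ l, (A ^ (k+1)) i l) / t ^ k
          = t * ∑ k ∈ Finset.range K, (∑ j, (A ^ (k+1)) i j) / t ^ (k+1) := by
        rw [Finset.mul_sum]
        refine Finset.sum_congr rfl fun k _ => ?_
        rw [pow_succ t k]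
        field_simp
      rw [h3]
      have h4 := h1.symm.trans h2
      have h5 : ∑ k ∈ Finset.range K, (∑ j, (A ^ k) i j) / t ^ k
          = (∑ k ∈ Finset.range K, (∑ j, (A ^ (k+1)) i j) / t ^ (k+1)) + 1
            - (∑ j, (A ^ K) i j) / t ^ K := by linarith
      rw [h5]
      ring
    rw [hshift]
    have h6 : (∑ l, (A ^ K) i l) / t ^ K ≤ 1 := by
      rw [div_le_one (pow_pos ht K)]
      exact hpow i
    nlinarith

/-- From the spectral radius: some power has small row sums. -/
theorem exists_pow {n : ℕ} (A : Matrix (Fin n) (Fin n) ℝ) (hA : ∀ i j, 0 ≤ A i j)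
    (hr : ∀ z ∈ (A.map (algebraMap ℝ ℂ)).charpoly.roots, ‖z‖ ≤ 1) (t : ℝ) (ht : 1 < t) :
    ∃ K : ℕ, 1 ≤ K ∧ ∀ i, ∑ j, (A ^ K) i j ≤ t ^ K := by
  have hApow : ∀ k i j, 0 ≤ (A ^ k) i j := by
    intro k
    induction k with
    | zero => intro i j; simp only [pow_zero, Matrix.one_apply]; split_ifs <;> norm_num
    | succ k ih =>
      intro i j
      rw [pow_succ, Matrix.mul_apply]
      exact Finset.sum_nonneg fun l _ => mul_nonneg (ih _ _) (hA _ _)
  let _ : NormedRing (Matrix (Fin n) (Fin n) ℂ) := Matrix.linftyOpNormedRing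
  let _ : NormedAlgebra ℂ (Matrix (Fin n) (Fin n) ℂ) := Matrix.linftyOpNormedAlgebra
  have : CompleteSpace (Matrix (Fin n) (Fin n) ℂ) := FiniteDimensional.complete ℂ _
  set C : Matrix (Fin n) (Fin n) ℂ := A.map (algebraMap ℝ ℂ) with hC
  have hrad : spectralRadius ℂ C ≤ 1 := by
    refine iSup₂_le fun z hz => ?_
    have hz' : z ∈ C.charpoly.roots := by
      rw [mem_roots (Matrix.charpoly_monic C).ne_zero]
      exact (Matrix.mem_spectrum_iff_isRoot_charpoly).1 hz
    have := hr z hz'
    have h1 : ‖z‖₊ ≤ 1 := by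
      rw [← NNReal.coe_le_coe]
      simpa using this
    exact_mod_cast h1
  have htend := spectrum.pow_nnnorm_pow_one_div_tendsto_nhds_spectralRadius C
  have hlt : spectralRadius ℂ C < ENNReal.ofReal t := by
    refine lt_of_le_of_lt hrad ?_
    rw [← ENNReal.ofReal_one]
    exact (ENNReal.ofReal_lt_ofReal_iff (by linarith)).2 ht
  have hev := (htend.eventually (gt_mem_nhds hlt)).and (Filter.eventually_ge_atTop 1)
  obtain ⟨K, hK, hK1⟩ := hev.exists
  refine ⟨K, hK1, fun i => ?_⟩
  have hKpos : (0 : ℝ) < K := by exact_mod_cast hK1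
  -- norm bound
  have hnorm : ‖C ^ K‖ ≤ t ^ K := by
    have h1 : ((‖C ^ K‖₊ : ENNReal) ^ (1 / (K : ℝ))) ^ (K : ℝ) ≤ (ENNReal.ofReal t) ^ (K : ℝ) :=
      ENNReal.rpow_le_rpow hK.le hKpos.le
    rw [← ENNReal.rpow_mul, one_div_mul_cancel hKpos.ne', ENNReal.rpow_one,
      ENNReal.rpow_natCast, ← ENNReal.ofReal_pow (by linarith)] at h1
    have h2 := ENNReal.toReal_mono ENNReal.ofReal_ne_top h1
    rw [ENNReal.toReal_ofReal (by positivity)] at h2
    simpa using h2
  have hrow : ∑ j, ‖(C ^ K) i j‖ ≤ ‖C ^ K‖ := by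
    have h1 : (∑ j, ‖(C ^ K) i j‖₊ : NNReal) ≤ ‖C ^ K‖₊ := by
      rw [Matrix.linfty_opNNNorm_def]
      exact Finset.le_sup (f := fun i => ∑ j, ‖(C ^ K) i j‖₊) (Finset.mem_univ i)
    have h2 : ((∑ j, ‖(C ^ K) i j‖₊ : NNReal) : ℝ) ≤ (‖C ^ K‖₊ : ℝ) := NNReal.coe_le_coe.2 h1
    simpa using h2
  have hpowmap : C ^ K = (A ^ K).map (algebraMap ℝ ℂ) := by
    rw [hC, Matrix.map_pow]
  have hent : ∀ j, ‖(C ^ K) i j‖ = (A ^ K) i j := by
    intro j
    rw [hpowmap]
    simp [abs_of_nonneg (hApow K i j)]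
  calc ∑ j, (A ^ K) i j = ∑ j, ‖(C ^ K) i j‖ := Finset.sum_congr rfl fun j _ => (hent j).symm
    _ ≤ ‖C ^ K‖ := hrow
    _ ≤ t ^ K := hnorm

/-- derivative of the characteristic polynomial as a trace of the adjugate -/
theorem derivative_charpoly_eval {n : ℕ} (A : Matrix (Fin n) (Fin n) ℝ) (t : ℝ)
    (hdet : (t • (1 : Matrix (Fin n) (Fin n) ℝ) - A).det ≠ 0) :
    (derivative A.charpoly).eval t = ((t • (1 : Matrix (Fin n) (Fin n) ℝ) - A).adjugate).trace := by
  set M := t • (1 : Matrix (Fin n) (Fin n) ℝ) - A with hM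
  have hunit : IsUnit M.det := isUnit_iff_ne_zero.2 hdet
  have hcomp : A.charpoly.comp (X + C t) = C M.det * (1 + (X : ℝ[X]) • (M⁻¹).map C).det := by
    have h1 : (1 + (X : ℝ[X]) • (M⁻¹).map C) = (M⁻¹).map C * ((M.map C) + (X : ℝ[X]) • (1 : Matrix (Fin n) (Fin n) ℝ[X])) := by
      rw [mul_add, ← Matrix.map_mul, Matrix.nonsing_inv_mul _ hunit]
      simp
    rw [h1, Matrix.det_mul, ← mul_assoc]
    have h2 : C M.det * ((M⁻¹).map C).det = 1 := by
      have : ((M⁻¹).map C).det = C (M⁻¹).det := by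
        rw [RingHom.map_det]; rfl
      rw [this, ← C_mul, ← Matrix.det_mul, Matrix.mul_nonsing_inv _ hunit]
      simp
    rw [h2, one_mul]
    have h3 : A.charpoly.comp (X + C t) = (Polynomial.compRingHom (X + C t)) A.charpoly := rfl
    rw [h3, Matrix.charpoly, RingHom.map_det]
    congr 1
    ext1 i j
    simp only [RingHom.mapMatrix_apply, Matrix.map_apply, Matrix.charmatrix_apply, hM,
      Matrix.add_apply, Matrix.sub_apply, Matrix.smul_apply, Polynomial.coe_compRingHom_apply,
      sub_comp, C_comp, Matrix.diagonal_apply, Matrix.one_apply]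
    split_ifs <;> simp [add_comm, sub_eq_add_neg, add_assoc]
  have hder := congrArg (fun p => (derivative p).eval 0) hcomp
  simp only [derivative_comp, derivative_mul, derivative_C, zero_mul, zero_add, eval_mul, eval_C,
    Matrix.derivative_det_one_add_X_smul] at hder
  have hl : eval 0 (derivative (X + C t)) = 1 := by simp
  rw [hl, one_mul, eval_comp] at hder
  have hl2 : eval 0 (X + C t) = t := by simp
  rw [hl2] at hder
  rw [hder, Matrix.inv_def, Matrix.trace_smul, Ring.inverse_eq_inv', smul_eq_mul, ← mul_assoc,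
    mul_inv_cancel₀ hdet, one_mul]

/-- Key inequality: `p'(t) ≤ ∑_r ∏_{i≠r} (t - a_ii)` for `t > 1`. -/
theorem derivative_bound {n : ℕ} (A : Matrix (Fin n) (Fin n) ℝ) (hA : ∀ i j, 0 ≤ A i j)
    (hr : ∀ z ∈ (A.map (algebraMap ℝ ℂ)).charpoly.roots, ‖z‖ ≤ 1) (t : ℝ) (ht : 1 < t) :
    (derivative A.charpoly).eval t ≤ ∑ r, ∏ i ∈ Finset.univ.erase r, (t - A i i) ∧
      ∀ i, A i i ≤ t := by
  obtain ⟨K, hK, hpow⟩ := exists_pow A hA hr t ht
  obtain ⟨x, hx, hAx⟩ := exists_super A hA t (by linarith) K hK hpow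
  have hdet : (t • (1 : Matrix (Fin n) (Fin n) ℝ) - A).det ≠ 0 := by
    intro h0
    have hroot : (A.map (algebraMap ℝ ℂ)).charpoly.eval (t : ℂ) = 0 := by
      have h1 : A.charpoly.eval t = 0 := by
        rw [Matrix.eval_charpoly, ← h0]
        congr 1
        ext i j
        simp [Matrix.scalar_apply, Matrix.diagonal_apply, Matrix.one_apply]
      have h2 : (A.map (algebraMap ℝ ℂ)).charpoly = A.charpoly.map (algebraMap ℝ ℂ) :=
        Matrix.charpoly_map A (algebraMap ℝ ℂ)
      rw [h2]
      have h3 : (t : ℂ) = algebraMap ℝ ℂ t := rfl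
      rw [h3, eval_map_algebraMap, Polynomial.aeval_algebraMap_apply, Polynomial.coe_aeval_eq_eval, h1, map_zero]
    have hmem : (t : ℂ) ∈ (A.map (algebraMap ℝ ℂ)).charpoly.roots := by
      rw [mem_roots (Matrix.charpoly_monic _).ne_zero]
      exact hroot
    have := hr _ hmem
    rw [Complex.norm_real, Real.norm_eq_abs, abs_of_pos (by linarith)] at this
    linarith
  rw [derivative_charpoly_eval A t hdet]
  set M := t • (1 : Matrix (Fin n) (Fin n) ℝ) - A with hM
  have hMij : ∀ i j, M i j = (if i = j then t else 0) - A i j := by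
    intro i j
    simp [hM, Matrix.one_apply]
  have hMx : ∀ i, 0 ≤ ∑ j, M i j * x j := by
    intro i
    simp only [hMij, sub_mul, Finset.sum_sub_distrib, ite_mul, zero_mul, Finset.sum_ite_eq,
      Finset.mem_univ, if_true]
    linarith [hAx i]
  have hMoff : ∀ i j, i ≠ j → M i j ≤ 0 := by
    intro i j hij
    rw [hMij, if_neg hij]
    linarith [hA i j]
  constructor
  · rw [Matrix.trace]
    refine Finset.sum_le_sum fun r _ => ?_
    rw [Matrix.diag_apply, Matrix.adjugate_apply]
    have := (det_bounds n (M.updateRow r (Pi.single r 1)) x ?_ hx ?_).2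
    · refine this.trans (le_of_eq ?_)
      rw [← Finset.mul_prod_erase _ _ (Finset.mem_univ r)]
      rw [Matrix.updateRow_self, Pi.single_eq_same, one_mul]
      refine Finset.prod_congr rfl fun i hi => ?_
      rw [Matrix.updateRow_ne (Finset.ne_of_mem_erase hi), hMij, if_pos rfl]
    · intro i j hij
      by_cases hir : i = r
      · subst hir
        rw [Matrix.updateRow_self, Pi.single_eq_of_ne hij.symm]
      · rw [Matrix.updateRow_ne hir]
        exact hMoff i j hij
    · intro i
      by_cases hir : i = r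
      · subst hir
        simp only [Matrix.updateRow_self, Pi.single_apply, ite_mul, one_mul, zero_mul,
          Finset.sum_ite_eq', Finset.mem_univ, if_true]
        exact (hx i).le
      · simp only [Matrix.updateRow_ne hir]
        exact hMx i
  · intro i
    have h := hAx i
    rw [← Finset.add_sum_erase _ _ (Finset.mem_univ i)] at h
    have hs : 0 ≤ ∑ j ∈ Finset.univ.erase i, A i j * x j :=
      Finset.sum_nonneg fun j _ => mul_nonneg (hA _ _) (hx _).le
    have : A i i * x i ≤ t * x i := by linarith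
    exact le_of_mul_le_mul_right this (hx i)

/-- The bound at `t = 1`. -/
theorem derivative_bound_one {n : ℕ} (hn : 1 ≤ n) (A : Matrix (Fin (n+1)) (Fin (n+1)) ℝ)
    (hA : ∀ i j, 0 ≤ A i j)
    (hr : ∀ z ∈ (A.map (algebraMap ℝ ℂ)).charpoly.roots, ‖z‖ ≤ 1) :
    (derivative A.charpoly).eval 1 ≤ (n + 1 : ℝ) - A.trace := by
  have hdiag1 : ∀ i, A i i ≤ 1 := by
    intro i
    refine le_of_forall_gt_imp_ge_of_dense fun t ht => ?_
    exact (derivative_bound A hA hr t ht).2 i
  have hle : (derivative A.charpoly).eval 1 ≤ ∑ r, ∏ i ∈ Finset.univ.erase r, (1 - A i i) := by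
    have hc1 : Filter.Tendsto (fun t : ℝ => (derivative A.charpoly).eval t) (nhdsWithin 1 (Set.Ioi 1))
        (nhds ((derivative A.charpoly).eval 1)) :=
      ((derivative A.charpoly).continuous.tendsto 1).mono_left nhdsWithin_le_nhds
    have hc2 : Filter.Tendsto (fun t : ℝ => ∑ r, ∏ i ∈ Finset.univ.erase r, (t - A i i))
        (nhdsWithin 1 (Set.Ioi 1)) (nhds (∑ r, ∏ i ∈ Finset.univ.erase r, (1 - A i i))) := by
      have : Continuous (fun t : ℝ => ∑ r, ∏ i ∈ Finset.univ.erase r, (t - A i i)) := by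
        fun_prop
      exact (this.tendsto 1).mono_left nhdsWithin_le_nhds
    refine le_of_tendsto_of_tendsto hc1 hc2 ?_
    filter_upwards [self_mem_nhdsWithin] with t ht
    exact (derivative_bound A hA hr t ht).1
  refine hle.trans ?_
  have hstep : ∀ r : Fin (n+1), ∏ i ∈ Finset.univ.erase r, (1 - A i i) ≤ 1 - A (r+1) (r+1) := by
    intro r
    have hne : r + 1 ≠ r := by
      intro h
      have h1 : (1 : Fin (n+1)) = 0 := by
        have := congrArg (fun z => z - r) h
        simpa using this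
      obtain ⟨m, rfl⟩ : ∃ m, n = m + 1 := ⟨n - 1, by omega⟩
      exact one_ne_zero h1
    have hmem : r + 1 ∈ Finset.univ.erase r := Finset.mem_erase.2 ⟨hne, Finset.mem_univ _⟩
    rw [← Finset.mul_prod_erase _ _ hmem]
    have h1 : ∏ i ∈ (Finset.univ.erase r).erase (r+1), (1 - A i i) ≤ 1 :=
      Finset.prod_le_one (fun i _ => by linarith [hdiag1 i]) (fun i _ => by linarith [hA i i])
    have h2 : 0 ≤ 1 - A (r+1) (r+1) := by linarith [hdiag1 (r+1)]
    nlinarith
  refine (Finset.sum_le_sum fun r _ => hstep r).trans (le_of_eq ?_)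
  have : ∑ r : Fin (n+1), (1 - A (r+1) (r+1)) = ∑ r : Fin (n+1), (1 - A r r) :=
    Equiv.sum_comp (Equiv.addRight (1 : Fin (n+1))) (fun r => 1 - A r r)
  rw [this, Finset.sum_sub_distrib, Matrix.trace]
  simp

theorem main : ∀ n : ℕ, 1 ≤ n → ∀ A : Matrix (Fin (n + 1)) (Fin (n + 1)) ℝ,
      (∀ i j, 0 ≤ A i j) →
      (1 : ℂ) ∈ (A.map (algebraMap ℝ ℂ)).charpoly.roots →
      (∀ z ∈ (A.map (algebraMap ℝ ℂ)).charpoly.roots, ‖z‖ ≤ 1) →
      ∃ a b : ℝ, a ≤ b ∧
      ((((A.map (algebraMap ℝ ℂ)).charpoly.roots).erase 1).map (fun z : ℂ => 1 - z)).prod = (a : ℂ) ∧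
      ((((A.map (algebraMap ℝ ℂ)).charpoly.roots).erase 1).map (fun z : ℂ => 1 - z)).sum = (b : ℂ) := by
  intro n hn A hA h1 hr
  refine ⟨(derivative A.charpoly).eval 1, (n + 1 : ℝ) - A.trace,
    derivative_bound_one hn A hA hr, ?_, ?_⟩
  · set R := (A.map (algebraMap ℝ ℂ)).charpoly.roots with hR
    have hsplit : (A.map (algebraMap ℝ ℂ)).charpoly = (R.map (fun z => X - C z)).prod := by
      have := (IsAlgClosed.splits (A.map (algebraMap ℝ ℂ)).charpoly).eq_prod_roots_of_monic
        (Matrix.charpoly_monic _)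
      exact this
    have hcons : R = 1 ::ₘ R.erase 1 := (Multiset.cons_erase h1).symm
    have hder : (derivative (A.map (algebraMap ℝ ℂ)).charpoly).eval 1
        = (((R.erase 1).map (fun z : ℂ => 1 - z))).prod := by
      rw [hsplit, hcons, Multiset.map_cons, Multiset.prod_cons, derivative_mul, eval_add, eval_mul,
        eval_mul]
      simp only [Multiset.erase_cons_head]
      have h2 : eval 1 (derivative (X - C (1:ℂ))) = 1 := by simp
      have h3 : eval 1 (X - C (1:ℂ)) = 0 := by simp
      rw [h2, h3, zero_mul, one_mul, add_zero, eval_multiset_prod, Multiset.map_map]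
      simp
    rw [← hder, Matrix.charpoly_map, derivative_map]
    have h3 : (1 : ℂ) = algebraMap ℝ ℂ 1 := (map_one _).symm
    rw [h3, eval_map_algebraMap, Polynomial.aeval_algebraMap_apply, Polynomial.coe_aeval_eq_eval]
    rfl
  · set R := (A.map (algebraMap ℝ ℂ)).charpoly.roots with hR
    have hcons : R = 1 ::ₘ R.erase 1 := (Multiset.cons_erase h1).symm
    have hsum : (R.erase 1).sum = (A.map (algebraMap ℝ ℂ)).trace - 1 := by
      rw [Matrix.trace_eq_sum_roots_charpoly, ← hR]
      conv_rhs => rw [hcons]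
      rw [Multiset.sum_cons]
      ring
    have hcard : R.card = n + 1 := by
      rw [hR, IsAlgClosed.card_roots_eq_natDegree, Matrix.charpoly_natDegree_eq_dim]
      simp
    have hcard' : (R.erase 1).card = n := by
      rw [Multiset.card_erase_of_mem h1, hcard]
      rfl
    rw [Multiset.sum_map_sub, Multiset.map_id', hsum]
    simp [hcard', Matrix.trace]
    ring

end Pool.Agent.Helper9.Neumann
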