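import Mathlib

set_option autoImplicit false

namespace Pool.Agent.Helper9.OlsonBound

open Finset
open scoped Pointwise

variable {G : Type*} [AddCommGroup G] [DecidableEq G]

/-- number of points of `B` moved out of `B` by the translation by `x` -/
def lam (B : Finset G) (x : G) : ℕ := (B.filter (fun q => x + q ∉ B)).card

lemma lam_zero (B : Finset G) : lam B 0 = 0 := by
  unfold lam
  rw [Finset.card_eq_zero, Finset.filter_eq_empty_iff]
  intro q hq
  simpa using hq

lemma lam_le_card (B : Finset G) (x : G) : lam B x ≤ B.card := Finset.card_filter_le _ _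

lemma lam_add (B : Finset G) (x y : G) : lam B (x + y) ≤ lam B x + lam B y := by
  unfold lam
  have hsub : B.filter (fun q => x + y + q ∉ B) ⊆
      (B.filter (fun q => y + q ∉ B)) ∪
        ((B.filter (fun p => x + p ∉ B)).image (fun p => -y + p)) := by
    intro q hq
    rw [Finset.mem_filter] at hq
    by_cases h : y + q ∈ B
    · rw [Finset.mem_union]
      right
      rw [Finset.mem_image]
      refine ⟨y + q, ?_, by abel⟩
      rw [Finset.mem_filter]
      refine ⟨h, ?_⟩
      rw [← add_assoc]
      exact hq.2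
    · rw [Finset.mem_union]
      left
      rw [Finset.mem_filter]
      exact ⟨hq.1, h⟩
  calc _ ≤ _ := Finset.card_le_card hsub
    _ ≤ _ := Finset.card_union_le _ _
    _ ≤ _ := by
      rw [add_comm]
      exact Nat.add_le_add_right Finset.card_image_le _

lemma card_sub_lam (B : Finset G) (x : G) :
    (B.filter (fun q => x + q ∈ B)).card + lam B x = B.card := by
  unfold lam
  exact Finset.card_filter_add_card_filter_not (s := B) (fun q => x + q ∈ B)

lemma lam_neg (B : Finset G) (x : G) : lam B (-x) = lam B x := by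
  have h1 := card_sub_lam B x
  have h2 := card_sub_lam B (-x)
  have h3 : (B.filter (fun q => x + q ∈ B)).card = (B.filter (fun q => -x + q ∈ B)).card := by
    apply Finset.card_bij (fun q _ => x + q)
    · intro q hq
      rw [Finset.mem_filter] at hq ⊢
      exact ⟨hq.2, by simpa using hq.1⟩
    · intro a _ b _ h
      simpa using h
    · intro p hp
      rw [Finset.mem_filter] at hp
      refine ⟨-x + p, ?_, by simp⟩
      rw [Finset.mem_filter]
      exact ⟨hp.2, by simpa using hp.1⟩
  omega

lemma card_union_translate (B : Finset G) (x : G) :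
    (B ∪ B.image (fun q => x + q)).card = B.card + lam B x := by
  have h1 : B ∪ B.image (fun q => x + q)
      = B ∪ ((B.filter (fun q => x + q ∉ B)).image (fun q => x + q)) := by
    ext z
    simp only [Finset.mem_union, Finset.mem_image, Finset.mem_filter]
    constructor
    · rintro (h | ⟨q, hq, rfl⟩)
      · exact Or.inl h
      · by_cases h : x + q ∈ B
        · exact Or.inl h
        · exact Or.inr ⟨q, ⟨hq, h⟩, rfl⟩
    · rintro (h | ⟨q, ⟨hq, _⟩, rfl⟩)
      · exact Or.inl h
      · exact Or.inr ⟨q, hq, rfl⟩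
  rw [h1, Finset.card_union_of_disjoint]
  · unfold lam
    rw [Finset.card_image_of_injective _ (add_right_injective x)]
  · rw [Finset.disjoint_left]
    intro z hz hz'
    rw [Finset.mem_image] at hz'
    obtain ⟨q, hq, rfl⟩ := hz'
    rw [Finset.mem_filter] at hq
    exact hq.2 hz

lemma lam_compl [Fintype G] (B : Finset G) (x : G) : lam Bᶜ x = lam B x := by
  rw [← lam_neg B x]
  unfold lam
  apply Finset.card_bij (fun q _ => x + q)
  · intro q hq
    rw [Finset.mem_filter] at hq ⊢
    simp only [Finset.mem_compl, not_not] at hq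
    exact ⟨hq.2, by simpa using hq.1⟩
  · intro a _ b _ h
    simpa using h
  · intro p hp
    rw [Finset.mem_filter] at hp
    refine ⟨-x + p, ?_, by simp⟩
    rw [Finset.mem_filter]
    simp only [Finset.mem_compl, not_not]
    exact ⟨hp.2, by simpa using hp.1⟩

/-- averaging -/
lemma sum_lam_ge (B X : Finset G) :
    B.card * X.card ≤ ∑ x ∈ X, lam B x + B.card * B.card := by
  have h1 : ∑ x ∈ X, (B.filter (fun q => x + q ∈ B)).card ≤ B.card * B.card := by
    rw [← Finset.card_sigma, ← Finset.card_product]
    apply Finset.card_le_card_of_injOn (fun p : (Σ _ : G, G) => (p.2, p.1 + p.2))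
    · rintro ⟨x, q⟩ h
      simp only [Finset.coe_sigma, Set.mem_sigma_iff, Finset.mem_coe, Finset.mem_filter] at h
      simp only [Finset.coe_product, Set.mem_prod, Finset.mem_coe]
      exact ⟨h.2.1, h.2.2⟩
    · rintro ⟨x, q⟩ _ ⟨y, p⟩ _ h
      simp only [Prod.mk.injEq] at h
      obtain ⟨h1, h2⟩ := h
      subst h1
      simp only [add_left_inj] at h2
      subst h2
      rfl
  have h2 : ∑ x ∈ X, ((B.filter (fun q => x + q ∈ B)).card + lam B x) = X.card * B.card := by
    rw [Finset.sum_congr rfl (fun x _ => card_sub_lam B x), Finset.sum_const, smul_eq_mul]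
  rw [Finset.sum_add_distrib] at h2
  rw [Nat.mul_comm B.card X.card, ← h2]
  omega

/-! ### Growth of sumsets with a symmetric generating set -/

section growth

variable [Fintype G]

lemma subset_add_of_zero_mem {X N : Finset G} (h0 : (0 : G) ∈ N) : X ⊆ X + N := by
  intro x hx
  rw [Finset.mem_add]
  exact ⟨x, hx, 0, h0, by simp⟩

/-- Growth lemma (Olson's theorem in the abelian symmetric case). -/
theorem growth (N : Finset G) (h0 : (0 : G) ∈ N) (hsym : ∀ x ∈ N, -x ∈ N)
    (hgen : AddSubgroup.closure (N : Set G) = ⊤) (A : Finset G) (hA : A.Nonempty)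
    (hAN : A + N ≠ univ) : 2 * A.card + N.card ≤ 2 * (A + N).card := by
  classical
  -- the family
  let Fam : Finset (Finset G) := univ.filter (fun X => X.Nonempty ∧ X + N ≠ univ)
  have hAF : A ∈ Fam := by
    simp only [Fam, Finset.mem_filter, Finset.mem_univ, true_and]
    exact ⟨hA, hAN⟩
  -- minimise φ(X) = |X+N| - |X|, then |X|
  obtain ⟨X1, hX1F, hX1min⟩ := Finset.exists_min_image Fam (fun X => (X + N).card - X.card) ⟨A, hAF⟩
  obtain ⟨k, hk⟩ : ∃ k, k = (X1 + N).card - X1.card := ⟨_, rfl⟩
  let Fam2 : Finset (Finset G) := Fam.filter (fun X => (X + N).card - X.card = k)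
  have hX1F2 : X1 ∈ Fam2 := by
    simp only [Fam2, Finset.mem_filter]
    exact ⟨hX1F, hk.symm⟩
  obtain ⟨X, hXF2, hXmin⟩ := Finset.exists_min_image Fam2 (fun X => X.card) ⟨X1, hX1F2⟩
  have hXF : X ∈ Fam := (Finset.mem_filter.1 hXF2).1
  have hXk : (X + N).card - X.card = k := (Finset.mem_filter.1 hXF2).2
  have hXne : X.Nonempty := (Finset.mem_filter.1 hXF).2.1
  have hXu : X + N ≠ univ := (Finset.mem_filter.1 hXF).2.2
  have hle : ∀ Y : Finset G, Y.card ≤ (Y + N).card := fun Y =>
    Finset.card_le_card (subset_add_of_zero_mem h0)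
  have hmin : ∀ Y : Finset G, Y.Nonempty → Y + N ≠ univ → k + Y.card ≤ (Y + N).card := by
    intro Y hY hYu
    have hYF : Y ∈ Fam := by
      simp only [Fam, Finset.mem_filter, Finset.mem_univ, true_and]
      exact ⟨hY, hYu⟩
    have := hX1min Y hYF
    have h2 := hle Y
    omega
  have hmin2 : ∀ Y : Finset G, Y.Nonempty → Y + N ≠ univ → (Y + N).card ≤ k + Y.card →
      X.card ≤ Y.card := by
    intro Y hY hYu hYk
    have hYF : Y ∈ Fam2 := by
      simp only [Fam2, Fam, Finset.mem_filter, Finset.mem_univ, true_and]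
      refine ⟨⟨hY, hYu⟩, ?_⟩
      have := hmin Y hY hYu
      omega
    exact hXmin Y hYF
  have hXc : (X + N).card = k + X.card := by
    have := hle X
    omega
  -- the dual fragment
  have hdual : 2 * X.card + k ≤ Fintype.card G := by
    let Z : Finset G := (X + N)ᶜ
    have hZne : Z.Nonempty := by
      rw [Finset.nonempty_iff_ne_empty]
      intro h
      apply hXu
      exact (Finset.compl_eq_empty_iff _).1 h
    have hZsub : Z + N ⊆ Xᶜ := by
      intro z hz
      rw [Finset.mem_add] at hz
      obtain ⟨u, hu, n, hn, rfl⟩ := hz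
      rw [Finset.mem_compl]
      intro hmem
      have hu' : u ∉ X + N := Finset.mem_compl.1 hu
      apply hu'
      rw [Finset.mem_add]
      exact ⟨u + n, hmem, -n, hsym n hn, by abel⟩
    have hZu : Z + N ≠ univ := by
      intro h
      rw [h] at hZsub
      obtain ⟨x, hx⟩ := hXne
      exact (Finset.mem_compl.1 (hZsub (Finset.mem_univ x))) hx
    have hZc : Z.card = Fintype.card G - (X + N).card := Finset.card_compl _
    have hXcc : Xᶜ.card = Fintype.card G - X.card := Finset.card_compl _
    have hZN := Finset.card_le_card hZsub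
    have hu1 : (X + N).card ≤ Fintype.card G := Finset.card_le_univ _
    have hu2 : X.card ≤ Fintype.card G := Finset.card_le_univ _
    have := hmin2 Z hZne hZu (by omega)
    omega
  -- translates of X meeting X are equal to X
  have htrans : ∀ g : G, (X ∩ X.image (fun q => g + q)).Nonempty →
      X ⊆ X.image (fun q => g + q) := by
    intro g hne
    obtain ⟨Y, hY⟩ : ∃ Y, Y = X.image (fun q => g + q) := ⟨_, rfl⟩
    rw [← hY] at hne ⊢
    have hYc : Y.card = X.card := by
      rw [hY]; exact Finset.card_image_of_injective _ (add_right_injective g)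
    have hYN : Y + N = (X + N).image (fun q => g + q) := by
      ext z
      simp only [hY, Finset.mem_add, Finset.mem_image]
      constructor
      · rintro ⟨_, ⟨x, hx, rfl⟩, n, hn, rfl⟩
        exact ⟨x + n, ⟨x, hx, n, hn, rfl⟩, by abel⟩
      · rintro ⟨_, ⟨x, hx, n, hn, rfl⟩, rfl⟩
        exact ⟨g + x, ⟨x, hx, rfl⟩, n, hn, by abel⟩
    have hYNc : (Y + N).card = (X + N).card := by
      rw [hYN]; exact Finset.card_image_of_injective _ (add_right_injective g)
    have hIsub : (X ∩ Y) + N ⊆ (X + N) ∩ (Y + N) := by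
      intro z hz
      rw [Finset.mem_add] at hz
      obtain ⟨u, hu, n, hn, rfl⟩ := hz
      rw [Finset.mem_inter] at hu ⊢
      exact ⟨Finset.add_mem_add hu.1 hn, Finset.add_mem_add hu.2 hn⟩
    have hUeq : (X ∪ Y) + N = (X + N) ∪ (Y + N) := Finset.union_add
    have hIu : (X ∩ Y) + N ≠ univ := by
      intro h
      apply hXu
      rw [Finset.eq_univ_iff_forall]
      intro z
      have : z ∈ (X ∩ Y) + N := by rw [h]; exact Finset.mem_univ z
      exact (Finset.mem_inter.1 (hIsub this)).1
    have hsum1 : ((X ∪ Y) + N).card + ((X + N) ∩ (Y + N)).card = (X + N).card + (Y + N).card := by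
      rw [hUeq]; exact Finset.card_union_add_card_inter _ _
    have hsum2 : (X ∪ Y).card + (X ∩ Y).card = X.card + Y.card :=
      Finset.card_union_add_card_inter _ _
    have hI1 := hmin (X ∩ Y) hne hIu
    have hI2 := Finset.card_le_card hIsub
    have hInepos : 0 < (X ∩ Y).card := Finset.card_pos.2 hne
    have hUu : (X ∪ Y) + N ≠ univ := by
      intro h
      have h1 : ((X ∪ Y) + N).card = Fintype.card G := by rw [h]; exact Finset.card_univ
      omega
    have hU1 := hmin (X ∪ Y) (hXne.mono Finset.subset_union_left) hUu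
    have hfin := hmin2 (X ∩ Y) hne hIu (by omega)
    have heq : X ∩ Y = X := Finset.eq_of_subset_of_card_le Finset.inter_subset_left hfin
    exact Finset.inter_eq_left.1 heq
  -- so a translate of X is a subgroup
  obtain ⟨x0, hx0⟩ := hXne
  let K : Finset G := X.image (fun q => -x0 + q)
  have hKc : K.card = X.card := Finset.card_image_of_injective _ (add_right_injective (-x0))
  have hK0 : (0 : G) ∈ K := Finset.mem_image.2 ⟨x0, hx0, by simp⟩
  have hKsub : ∀ a ∈ K, ∀ b ∈ K, a - b ∈ K := by
    intro a ha b hb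
    obtain ⟨x, hx, rfl⟩ := Finset.mem_image.1 ha
    obtain ⟨y, hy, rfl⟩ := Finset.mem_image.1 hb
    -- X ⊆ (y - x0) + X
    have hne : (X ∩ X.image (fun q => (y - x0) + q)).Nonempty :=
      ⟨y, Finset.mem_inter.2 ⟨hy, Finset.mem_image.2 ⟨x0, hx0, by abel⟩⟩⟩
    have := htrans (y - x0) hne hx
    obtain ⟨z, hz, hzx⟩ := Finset.mem_image.1 this
    refine Finset.mem_image.2 ⟨z, hz, ?_⟩
    rw [← hzx]; abel
  let KS : AddSubgroup G :=
    { carrier := K
      zero_mem' := by exact_mod_cast hK0
      add_mem' := by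
        intro a b ha hb
        have ha' : a ∈ K := by exact_mod_cast ha
        have hb' : b ∈ K := by exact_mod_cast hb
        have hnb : -b ∈ K := by
          have := hKsub 0 hK0 b hb'
          simpa using this
        have := hKsub a ha' (-b) hnb
        rw [sub_neg_eq_add] at this
        exact_mod_cast this
      neg_mem' := by
        intro b hb
        have hb' : b ∈ K := by exact_mod_cast hb
        have := hKsub 0 hK0 b hb'
        rw [zero_sub] at this
        exact_mod_cast this }
  have hKN : K + N = (X + N).image (fun q => -x0 + q) := by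
    ext z
    simp only [K, Finset.mem_add, Finset.mem_image]
    constructor
    · rintro ⟨_, ⟨x, hx, rfl⟩, n, hn, rfl⟩
      exact ⟨x + n, ⟨x, hx, n, hn, rfl⟩, by abel⟩
    · rintro ⟨_, ⟨x, hx, n, hn, rfl⟩, rfl⟩
      exact ⟨-x0 + x, ⟨x, hx, rfl⟩, n, hn, by abel⟩
  have hKNc : (K + N).card = (X + N).card := by
    rw [hKN]; exact Finset.card_image_of_injective _ (add_right_injective (-x0))
  have hNK : ∃ n ∈ N, n ∉ K := by
    by_contra hcon
    push Not at hcon
    have h1 : AddSubgroup.closure (N : Set G) ≤ KS := by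
      rw [AddSubgroup.closure_le]
      intro n hn
      have : n ∈ K := hcon n (by exact_mod_cast hn)
      show n ∈ (K : Set G)
      exact_mod_cast this
    rw [hgen] at h1
    apply hXu
    apply (Finset.card_eq_iff_eq_univ _).1
    apply le_antisymm (Finset.card_le_univ _)
    rw [← hKNc, ← Finset.card_univ]
    apply Finset.card_le_card
    intro g _
    have : g ∈ KS := h1 trivial
    have hg : g ∈ K := by
      have h2 : g ∈ (K : Set G) := this
      exact_mod_cast h2
    exact subset_add_of_zero_mem h0 hg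
  obtain ⟨n, hn, hnK⟩ := hNK
  have h2K : 2 * K.card ≤ (K + N).card := by
    have hdisj : Disjoint K (K.image (fun q => n + q)) := by
      rw [Finset.disjoint_left]
      intro z hz hz'
      obtain ⟨w, hw, rfl⟩ := Finset.mem_image.1 hz'
      apply hnK
      have := hKsub _ hz _ hw
      simpa using this
    have hsub : K ∪ (K.image (fun q => n + q)) ⊆ K + N := by
      intro z hz
      rcases Finset.mem_union.1 hz with h | h
      · exact subset_add_of_zero_mem h0 h
      · obtain ⟨w, hw, rfl⟩ := Finset.mem_image.1 h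
        rw [Finset.mem_add]
        exact ⟨w, hw, n, hn, by abel⟩
    have := Finset.card_le_card hsub
    rw [Finset.card_union_of_disjoint hdisj,
      Finset.card_image_of_injective _ (add_right_injective n)] at this
    omega
  have hNle : N.card ≤ (K + N).card := by
    apply Finset.card_le_card
    intro z hz
    rw [Finset.mem_add]
    exact ⟨0, hK0, z, hz, by simp⟩
  have hAfin := hmin A hA hAN
  omega

end growth

/-! ### The key lemma -/

section key

variable [Fintype G]

/-- The `j`-fold sumset -/
def NN (N : Finset G) : ℕ → Finset G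
  | 0 => {0}
  | (j + 1) => NN N j + N

lemma NN_mono_succ {N : Finset G} (h0 : (0 : G) ∈ N) (j : ℕ) : NN N j ⊆ NN N (j + 1) :=
  subset_add_of_zero_mem h0

lemma NN_mono {N : Finset G} (h0 : (0 : G) ∈ N) {i j : ℕ} (h : i ≤ j) : NN N i ⊆ NN N j := by
  induction h with
  | refl => exact subset_rfl
  | step _ ih => exact ih.trans (NN_mono_succ h0 _)

lemma zero_mem_NN {N : Finset G} (h0 : (0 : G) ∈ N) (j : ℕ) : (0 : G) ∈ NN N j :=
  NN_mono h0 (Nat.zero_le j) (by simp [NN])

lemma NN_lam {N B : Finset G} {ρ : ℕ} (h : ∀ x ∈ N, lam B x ≤ ρ) (j : ℕ) :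
    ∀ x ∈ NN N j, lam B x ≤ j * ρ := by
  induction j with
  | zero =>
    intro x hx
    simp only [NN, Finset.mem_singleton] at hx
    subst hx
    rw [lam_zero]; exact Nat.zero_le _
  | succ j ih =>
    intro x hx
    simp only [NN] at hx
    rw [Finset.mem_add] at hx
    obtain ⟨y, hy, z, hz, rfl⟩ := hx
    have h1 := lam_add B y z
    have h2 := ih y hy
    have h3 := h z hz
    calc lam B (y + z) ≤ j * ρ + ρ := by omega
      _ = (j + 1) * ρ := by ring

/-- Olson's lemma. -/
theorem key (T B : Finset G) (hT : ∀ x ∈ T, -x ∉ T)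
    (hgen : AddSubgroup.closure (T : Set G) = ⊤) (hB : B.Nonempty)
    (hBc : 2 * B.card ≤ Fintype.card G) :
    ∃ x ∈ T, min (B.card / 2) (T.card / 2) + 1 ≤ lam B x := by
  classical
  by_contra hcon
  push Not at hcon
  obtain ⟨b, hb⟩ : ∃ b, b = B.card := ⟨_, rfl⟩
  obtain ⟨t, ht⟩ : ∃ t, t = T.card := ⟨_, rfl⟩
  obtain ⟨ρ, hρ⟩ : ∃ ρ, ρ = min (b / 2) (t / 2) := ⟨_, rfl⟩
  have hbpos : 0 < b := by rw [hb]; exact Finset.card_pos.2 hB
  rw [← hb] at hBc
  have hlamT : ∀ x ∈ T, lam B x ≤ ρ := by
    intro x hx
    have := hcon x hx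
    rw [← hb, ← ht, ← hρ] at this
    omega
  -- T is nonempty
  have htpos : 0 < t := by
    rw [ht, Finset.card_pos, Finset.nonempty_iff_ne_empty]
    intro h
    rw [h] at hgen
    simp only [Finset.coe_empty, AddSubgroup.closure_empty] at hgen
    have h1 : Subsingleton G := by
      constructor
      intro x y
      have hx : x ∈ (⊥ : AddSubgroup G) := by rw [hgen]; trivial
      have hy : y ∈ (⊥ : AddSubgroup G) := by rw [hgen]; trivial
      rw [AddSubgroup.mem_bot] at hx hy
      rw [hx, hy]
    have h2 : Fintype.card G ≤ 1 := Fintype.card_le_one_iff_subsingleton.2 h1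
    omega
  have h0T : (0 : G) ∉ T := fun h => hT 0 h (by simpa using h)
  let N : Finset G := insert 0 (T ∪ T.image (fun x => -x))
  have hN0 : (0 : G) ∈ N := Finset.mem_insert_self _ _
  have hNc : N.card = 2 * t + 1 := by
    have hd : Disjoint T (T.image (fun x => -x)) := by
      rw [Finset.disjoint_left]
      intro z hz hz'
      obtain ⟨w, hw, rfl⟩ := Finset.mem_image.1 hz'
      exact hT w hw hz
    have h1 : (0 : G) ∉ T ∪ T.image (fun x => -x) := by
      rw [Finset.mem_union]
      rintro (h | h)
      · exact h0T h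
      · obtain ⟨w, hw, hw0⟩ := Finset.mem_image.1 h
        have : w = 0 := by simpa using hw0
        exact h0T (this ▸ hw)
    rw [Finset.card_insert_of_notMem h1, Finset.card_union_of_disjoint hd,
      Finset.card_image_of_injective _ neg_injective, ← ht]
    ring
  have hNsym : ∀ x ∈ N, -x ∈ N := by
    intro x hx
    simp only [N, Finset.mem_insert, Finset.mem_union, Finset.mem_image] at hx ⊢
    rcases hx with rfl | hx | ⟨w, hw, rfl⟩
    · left; simp
    · right; right; exact ⟨x, hx, rfl⟩
    · right; left; simpa using hw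
  have hNgen : AddSubgroup.closure (N : Set G) = ⊤ := by
    rw [eq_top_iff, ← hgen]
    apply AddSubgroup.closure_mono
    intro x hx
    simp only [N, Finset.coe_insert, Finset.coe_union]
    right; left; exact hx
  have hlamN : ∀ x ∈ N, lam B x ≤ ρ := by
    intro x hx
    simp only [N, Finset.mem_insert, Finset.mem_union, Finset.mem_image] at hx
    rcases hx with rfl | hx | ⟨w, hw, rfl⟩
    · rw [lam_zero]; exact Nat.zero_le _
    · exact hlamT x hx
    · rw [lam_neg]; exact hlamT w hw
  have hgrow : ∀ j, NN N (j + 1) ≠ univ →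
      2 * (NN N j).card + (2 * t + 1) ≤ 2 * (NN N (j + 1)).card := by
    intro j hj
    have := growth N hN0 hNsym hNgen (NN N j) ⟨0, zero_mem_NN hN0 j⟩ hj
    rw [hNc] at this
    exact this
  -- eventually everything
  have hex : ∃ j, NN N j = univ := by
    by_contra hno
    push Not at hno
    have hlin : ∀ j, j ≤ (NN N j).card := by
      intro j
      induction j with
      | zero => exact Nat.zero_le _
      | succ j ih =>
        have := hgrow j (hno (j + 1))
        omega
    have h1 := hlin (Fintype.card G + 1)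
    have h2 := Finset.card_le_univ (NN N (Fintype.card G + 1))
    omega
  obtain ⟨j1, hj1⟩ := hex
  have hcardgrow : ∀ j, 1 ≤ j → NN N j ≠ univ → (j + 1) * (2 * t + 1) ≤ 2 * (NN N j).card := by
    intro j hj
    induction j, hj using Nat.le_induction with
    | base =>
      intro _
      have : NN N 1 = N := by
        simp only [NN, Finset.singleton_add, zero_vadd]
      rw [this, hNc]
    | succ j hj ih =>
      intro hne
      have h1 : NN N j ≠ univ := by
        intro h
        apply hne
        rw [Finset.eq_univ_iff_forall]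
        intro z
        apply NN_mono_succ hN0 j
        rw [h]; exact Finset.mem_univ z
      have h2 := ih h1
      have h3 := hgrow j hne
      nlinarith
  -- minimal J
  have hexJ : ∃ j, 2 * b ≤ (NN N j).card := ⟨j1, by rw [hj1, Finset.card_univ]; exact hBc⟩
  obtain ⟨J, hJ⟩ : ∃ J, J = Nat.find hexJ := ⟨_, rfl⟩
  have hJspec : 2 * b ≤ (NN N J).card := by rw [hJ]; exact Nat.find_spec hexJ
  have hJmin : ∀ j, j < J → (NN N j).card < 2 * b := by
    intro j hj
    rw [hJ] at hj
    have := Nat.find_min hexJ hj
    omega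
  have hJpos : 1 ≤ J := by
    by_contra h
    have h0 : J = 0 := by omega
    rw [h0] at hJspec
    simp only [NN, Finset.card_singleton] at hJspec
    omega
  have hJne : ∀ j, j < J → NN N j ≠ univ := by
    intro j hj h
    have := hJmin j hj
    rw [h, Finset.card_univ] at this
    omega
  -- the set X
  obtain ⟨X, hX1, hX2, hXc⟩ := Finset.exists_subsuperset_card_eq
    (NN_mono hN0 (Nat.sub_le J 1)) (hJmin (J - 1) (by omega)).le hJspec
  -- bound on lam over X
  have hlamX : ∀ x ∈ X, lam B x ≤ ((range J).filter (fun j => x ∉ NN N j)).card * ρ := by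
    intro x hx
    have hxJ : ∃ j, x ∈ NN N j := ⟨J, hX2 hx⟩
    have h1 := NN_lam hlamN (Nat.find hxJ) x (Nat.find_spec hxJ)
    refine h1.trans (Nat.mul_le_mul_right _ ?_)
    have hle : Nat.find hxJ ≤ J := Nat.find_min' hxJ (hX2 hx)
    calc Nat.find hxJ = (range (Nat.find hxJ)).card := (Finset.card_range _).symm
      _ ≤ _ := by
        apply Finset.card_le_card
        intro j hj
        rw [Finset.mem_range] at hj
        rw [Finset.mem_filter, Finset.mem_range]
        exact ⟨by omega, Nat.find_min hxJ hj⟩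
  have hsumX : ∑ x ∈ X, ((range J).filter (fun j => x ∉ NN N j)).card
      = ∑ j ∈ range J, (X.filter (fun x => x ∉ NN N j)).card := by
    simp only [Finset.card_filter]
    rw [Finset.sum_comm]
  have hcount : ∀ j ∈ range J, ((X.filter (fun x => x ∉ NN N j)).card : ℤ)
      = 2 * b - (NN N j).card := by
    intro j hj
    rw [Finset.mem_range] at hj
    have hsub : NN N j ⊆ X := (NN_mono hN0 (by omega : j ≤ J - 1)).trans hX1
    have h1 : X.filter (fun x => x ∉ NN N j) = X \ NN N j := by
      ext z; simp [Finset.mem_sdiff]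
    have h2 := Finset.card_sdiff_add_card_eq_card hsub
    rw [h1]
    have h3 : ((X \ NN N j).card : ℤ) + (NN N j).card = X.card := by exact_mod_cast h2
    rw [hXc] at h3
    push_cast at h3
    linarith
  -- assemble
  obtain ⟨S, hS⟩ : ∃ S : ℤ, S = ∑ j ∈ range J, (2 * (b : ℤ) - (NN N j).card) := ⟨_, rfl⟩
  have hSnn : 0 ≤ S := by
    rw [hS]
    apply Finset.sum_nonneg
    intro j hj
    rw [Finset.mem_range] at hj
    have := hJmin j hj
    have h' : ((NN N j).card : ℤ) < 2 * b := by exact_mod_cast this
    linarith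
  have hmain : (b : ℤ) ^ 2 ≤ ρ * S := by
    have h1 := sum_lam_ge B X
    rw [← hb, hXc] at h1
    have h2 : ∑ x ∈ X, lam B x ≤ (∑ x ∈ X, ((range J).filter (fun j => x ∉ NN N j)).card) * ρ := by
      rw [Finset.sum_mul]
      exact Finset.sum_le_sum hlamX
    rw [hsumX] at h2
    have h3 : ((∑ j ∈ range J, (X.filter (fun x => x ∉ NN N j)).card : ℕ) : ℤ) = S := by
      push_cast
      rw [hS]
      exact Finset.sum_congr rfl hcount
    have h1' : (b : ℤ) * (2 * b) ≤ (∑ x ∈ X, lam B x : ℕ) + b * b := by exact_mod_cast h1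
    have h2' : ((∑ x ∈ X, lam B x : ℕ) : ℤ) ≤ S * ρ := by
      rw [← h3]
      exact_mod_cast h2
    nlinarith
  have hρb : 2 * (ρ : ℤ) ≤ b := by
    have : 2 * ρ ≤ b := by rw [hρ]; omega
    exact_mod_cast this
  have hρt : 2 * (ρ : ℤ) ≤ t := by
    have : 2 * ρ ≤ t := by rw [hρ]; omega
    exact_mod_cast this
  have hbpos' : (0 : ℤ) < b := by exact_mod_cast hbpos
  have htpos' : (0 : ℤ) < t := by exact_mod_cast htpos
  -- upper bound for S
  have hSle : ∀ K : ℕ, 1 ≤ K → K ≤ J →
      4 * ∑ j ∈ range K, (2 * (b : ℤ) - (NN N j).card)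
        ≤ 8 * b * K - 4 - (2 * t + 1) * ((K : ℤ) ^ 2 + K - 2) := by
    intro K hK
    induction K, hK using Nat.le_induction with
    | base =>
      intro _
      simp only [Finset.sum_range_one, NN, Finset.card_singleton]
      push_cast
      ring_nf
      omega
    | succ K hK ih =>
      intro hKJ
      have h1 := ih (by omega)
      have h2 := hcardgrow K hK (hJne K (by omega))
      have h2' : ((K : ℤ) + 1) * (2 * t + 1) ≤ 2 * (NN N K).card := by exact_mod_cast h2
      rw [Finset.sum_range_succ]
      push_cast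
      nlinarith
  rcases Nat.eq_or_lt_of_le hJpos with hJ1 | hJ2
  · -- J = 1
    have hS1 : S = 2 * b - 1 := by
      rw [hS, ← hJ1]
      simp [NN]
    rw [hS1] at hmain
    nlinarith
  · have h1 := hSle J hJpos le_rfl
    rw [← hS] at h1
    have hJ2' : (2 : ℤ) ≤ J := by exact_mod_cast hJ2
    have h2 : 4 * (2 * (b : ℤ) ^ 2) ≤ t * (4 * S) := by nlinarith
    have h3 : (t : ℤ) * (4 * S) ≤ t * (8 * b * J - 4 - (2 * t + 1) * ((J : ℤ) ^ 2 + J - 2)) :=
      mul_le_mul_of_nonneg_left h1 htpos'.le
    have h4 : 0 ≤ (t : ℤ) ^ 2 * (J - 2) := mul_nonneg (sq_nonneg _) (by linarith)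
    have h5 : 0 ≤ (t : ℤ) * (J ^ 2 + J - 2) := mul_nonneg htpos'.le (by nlinarith)
    nlinarith [sq_nonneg (2 * (b : ℤ) - t * J)]

end key

end Pool.Agent.Helper9.OlsonBound
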