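import Mathlib
import Pool.Agent.Helper9.OlsonBase

set_option autoImplicit false

namespace Pool.Agent.Helper9.OlsonBound

open Finset
open scoped Pointwise

section sums

variable {G : Type*} [AddCommGroup G] [DecidableEq G]

/-- all subset sums, the empty sum included -/
def sig (A : Finset G) : Finset G := A.powerset.image (fun B => ∑ b ∈ B, b)

/-- no nonempty subset sums to zero -/
def ZF (A : Finset G) : Prop := ∀ B ⊆ A, B.Nonempty → ∑ b ∈ B, b ≠ 0

lemma ZF.mono {A B : Finset G} (h : ZF A) (hB : B ⊆ A) : ZF B := fun C hC => h C (hC.trans hB)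

lemma mem_sig {A : Finset G} {z : G} : z ∈ sig A ↔ ∃ B ⊆ A, ∑ b ∈ B, b = z := by
  simp only [sig, Finset.mem_image, Finset.mem_powerset]

lemma zero_mem_sig (A : Finset G) : (0 : G) ∈ sig A :=
  mem_sig.2 ⟨∅, Finset.empty_subset _, by simp⟩

lemma sig_pos (A : Finset G) : 1 ≤ (sig A).card := Finset.card_pos.2 ⟨0, zero_mem_sig A⟩

lemma sig_mono {A B : Finset G} (h : A ⊆ B) : sig A ⊆ sig B := by
  intro z hz
  obtain ⟨C, hC, rfl⟩ := mem_sig.1 hz
  exact mem_sig.2 ⟨C, hC.trans h, rfl⟩

lemma sig_union {U T : Finset G} (hd : Disjoint U T) : sig (U ∪ T) = sig U + sig T := by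
  ext z
  rw [Finset.mem_add]
  constructor
  · intro hz
    obtain ⟨C, hC, rfl⟩ := mem_sig.1 hz
    refine ⟨∑ b ∈ C ∩ U, b, mem_sig.2 ⟨_, Finset.inter_subset_right, rfl⟩,
      ∑ b ∈ C ∩ T, b, mem_sig.2 ⟨_, Finset.inter_subset_right, rfl⟩, ?_⟩
    rw [← Finset.sum_union]
    · congr 1
      rw [← Finset.inter_union_distrib_left]
      exact Finset.inter_eq_left.2 hC
    · exact hd.mono Finset.inter_subset_right Finset.inter_subset_right
  · rintro ⟨x, hx, y, hy, rfl⟩
    obtain ⟨C, hC, rfl⟩ := mem_sig.1 hx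
    obtain ⟨D, hD, rfl⟩ := mem_sig.1 hy
    refine mem_sig.2 ⟨C ∪ D, Finset.union_subset_union hC hD, ?_⟩
    rw [Finset.sum_union (hd.mono hC hD)]

lemma sig_insert {U : Finset G} {x : G} (hx : x ∉ U) :
    sig (insert x U) = sig U ∪ (sig U).image (fun q => x + q) := by
  have h1 : insert x U = {x} ∪ U := by rw [Finset.insert_eq]
  have hd : Disjoint {x} U := Finset.disjoint_singleton_left.2 hx
  rw [h1, sig_union hd]
  ext z
  simp only [Finset.mem_add, Finset.mem_union, Finset.mem_image]
  constructor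
  · rintro ⟨a, ha, b, hb, rfl⟩
    obtain ⟨C, hC, rfl⟩ := mem_sig.1 ha
    rcases Finset.subset_singleton_iff.1 hC with rfl | rfl
    · left; simpa using hb
    · right; exact ⟨b, hb, by simp⟩
  · rintro (h | ⟨a, ha, rfl⟩)
    · exact ⟨0, zero_mem_sig _, z, h, by simp⟩
    · exact ⟨x, mem_sig.2 ⟨{x}, subset_rfl, by simp⟩, a, ha, rfl⟩

/-- Scherk's theorem. -/
theorem scherk : ∀ n : ℕ, ∀ A B : Finset G, B.card = n → (0 : G) ∈ A → (0 : G) ∈ B →
    (∀ a ∈ A, ∀ b ∈ B, a + b = 0 → a = 0 ∧ b = 0) → A.card + B.card ≤ (A + B).card + 1 := by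
  intro n
  induction n using Nat.strong_induction_on with
  | _ n ih =>
    intro A B hn hA hB h
    by_cases hb : ∃ b ∈ B, b ≠ 0
    · obtain ⟨b, hbB, hb0⟩ := hb
      -- an element e of A and b' of B with e + b' not in A
      have hex : ∃ e ∈ A, ∃ b' ∈ B, e + b' ∉ A := by
        by_contra hcon
        push Not at hcon
        have hsub : A.image (fun a => a + b) ⊆ A := by
          intro z hz
          obtain ⟨a, ha, rfl⟩ := Finset.mem_image.1 hz
          exact hcon a ha b hbB
        have heq := Finset.eq_of_subset_of_card_le hsub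
          (by rw [Finset.card_image_of_injective _ (add_left_injective b)])
        rw [← heq] at hA
        obtain ⟨a, ha, hab⟩ := Finset.mem_image.1 hA
        exact hb0 (h a ha b hbB hab).2
      obtain ⟨e, he, b', hb', heb⟩ := hex
      obtain ⟨A', hA'⟩ : ∃ A', A' = A ∪ (B.filter (fun q => e + q ∉ A)).image (fun q => e + q) :=
        ⟨_, rfl⟩
      obtain ⟨B', hB'⟩ : ∃ B', B' = B.filter (fun q => e + q ∈ A) := ⟨_, rfl⟩
      have hcA' : A'.card = A.card + (B.filter (fun q => e + q ∉ A)).card := by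
        rw [hA', Finset.card_union_of_disjoint,
          Finset.card_image_of_injective _ (add_right_injective e)]
        rw [Finset.disjoint_left]
        intro z hz hz'
        obtain ⟨q, hq, rfl⟩ := Finset.mem_image.1 hz'
        exact (Finset.mem_filter.1 hq).2 hz
      have hcB := Finset.card_filter_add_card_filter_not (s := B) (fun q => e + q ∈ A)
      rw [← hB'] at hcB
      have hBlt : B'.card < n := by
        have : 0 < (B.filter (fun q => ¬ e + q ∈ A)).card :=
          Finset.card_pos.2 ⟨b', Finset.mem_filter.2 ⟨hb', heb⟩⟩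
        omega
      have h0A' : (0 : G) ∈ A' := by rw [hA']; exact Finset.mem_union_left _ hA
      have h0B' : (0 : G) ∈ B' := by
        rw [hB', Finset.mem_filter]; exact ⟨hB, by simpa using he⟩
      have hz : ∀ a ∈ A', ∀ b ∈ B', a + b = 0 → a = 0 ∧ b = 0 := by
        intro a ha b2 hb2 hab
        rw [hB', Finset.mem_filter] at hb2
        rw [hA', Finset.mem_union] at ha
        rcases ha with ha | ha
        · exact h a ha b2 hb2.1 hab
        · obtain ⟨b1, hb1, rfl⟩ := Finset.mem_image.1 ha
          have hb1B := (Finset.mem_filter.1 hb1).1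
          have h1 := h (e + b2) hb2.2 b1 hb1B (by rw [← hab]; abel)
          have h2 := h e he b2 hb2.1 h1.1
          exact ⟨by rw [h2.1, h1.2]; simp, h2.2⟩
      have hsub : A' + B' ⊆ A + B := by
        intro z hz
        obtain ⟨a, ha, b2, hb2, rfl⟩ := Finset.mem_add.1 hz
        rw [hB', Finset.mem_filter] at hb2
        rw [hA', Finset.mem_union] at ha
        rcases ha with ha | ha
        · exact Finset.add_mem_add ha hb2.1
        · obtain ⟨b1, hb1, rfl⟩ := Finset.mem_image.1 ha
          have hb1B := (Finset.mem_filter.1 hb1).1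
          have : e + b1 + b2 = (e + b2) + b1 := by abel
          rw [this]
          exact Finset.add_mem_add hb2.2 hb1B
      have h1 := ih B'.card hBlt A' B' rfl h0A' h0B' hz
      have h2 := Finset.card_le_card hsub
      have h3 : (B.filter (fun q => ¬ e + q ∈ A)).card = (B.filter (fun q => e + q ∉ A)).card := rfl
      omega
    · push Not at hb
      have hB1 : B = {0} := by
        ext z
        rw [Finset.mem_singleton]
        exact ⟨fun hz => hb z hz, fun hz => hz ▸ hB⟩
      rw [hB1]
      simp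

lemma sig_superadd {U T : Finset G} (hd : Disjoint U T) (hz : ZF (U ∪ T)) :
    (sig U).card + (sig T).card ≤ (sig (U ∪ T)).card + 1 := by
  rw [sig_union hd]
  apply scherk _ _ _ rfl (zero_mem_sig _) (zero_mem_sig _)
  intro a ha b hb hab
  obtain ⟨C, hC, rfl⟩ := mem_sig.1 ha
  obtain ⟨D, hD, rfl⟩ := mem_sig.1 hb
  rw [← Finset.sum_union (hd.mono hC hD)] at hab
  have hem : C ∪ D = ∅ := by
    by_contra hne
    exact hz (C ∪ D) (Finset.union_subset_union hC hD) (Finset.nonempty_iff_ne_empty.2 hne) hab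
  rw [Finset.union_eq_empty] at hem
  rw [hem.1, hem.2]
  simp

lemma sig_double {S S' : Finset G} (hS : S' ⊆ S) (K : AddSubgroup G)
    (hK : ∀ x ∈ S', x ∈ K) {y : G} (hy : y ∈ S) (hyK : y ∉ K) :
    2 * (sig S').card ≤ (sig S).card := by
  have hyS' : y ∉ S' := fun h => hyK (hK y h)
  have hsub : insert y S' ⊆ S := Finset.insert_subset hy hS
  have h1 := Finset.card_le_card (sig_mono hsub)
  rw [sig_insert hyS', Finset.card_union_of_disjoint,
    Finset.card_image_of_injective _ (add_right_injective y)] at h1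
  · omega
  · have hin : ∀ z ∈ sig S', z ∈ K := by
      intro z hz
      obtain ⟨C, hC, rfl⟩ := mem_sig.1 hz
      exact K.sum_mem (fun x hx => hK x (hC hx))
    rw [Finset.disjoint_left]
    intro z hz hz'
    obtain ⟨w, hw, rfl⟩ := Finset.mem_image.1 hz'
    apply hyK
    have := K.sub_mem (hin _ hz) (hin _ hw)
    simpa using this

/-- greedy sizes -/
def gr (m : ℕ) : ℕ → ℕ
  | 0 => 1
  | (i + 1) => gr m i + min (gr m i / 2) ((m - i) / 2) + 1

lemma greedy [Fintype G] {S : Finset G} (hz : ZF S) (hanti : ∀ x ∈ S, -x ∉ S) {κ : ℕ}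
    (hgen : ∀ T ⊆ S, κ + 1 ≤ T.card → AddSubgroup.closure (T : Set G) = ⊤) :
    ∀ i, i + κ ≤ S.card → ∃ T ⊆ S, T.card = S.card - i ∧ gr S.card i ≤ (sig (S \ T)).card := by
  intro i
  induction i with
  | zero =>
    intro _
    exact ⟨S, subset_rfl, by simp, by simpa [gr] using sig_pos _⟩
  | succ i ih =>
    intro hi
    obtain ⟨T, hTS, hTc, hgr⟩ := ih (by omega)
    have hTgen := hgen T hTS (by omega)
    obtain ⟨B, hB⟩ : ∃ B, B = sig (S \ T) := ⟨_, rfl⟩
    have hantiT : ∀ x ∈ T, -x ∉ T := fun x hx h => hanti x (hTS hx) (hTS h)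
    have hkey : ∃ x ∈ T, min (B.card / 2) (T.card / 2) + 1 ≤ lam B x := by
      by_cases hBc : 2 * B.card ≤ Fintype.card G
      · exact key T B hantiT hTgen (by rw [hB]; exact ⟨0, zero_mem_sig _⟩) hBc
      · have hsub : T.image (fun x => -x) ⊆ Bᶜ := by
          intro z hz'
          obtain ⟨x, hx, rfl⟩ := Finset.mem_image.1 hz'
          rw [Finset.mem_compl, hB]
          intro hmem
          obtain ⟨C, hC, hCs⟩ := mem_sig.1 hmem
          have hxC : x ∉ C := fun h => (Finset.mem_sdiff.1 (hC h)).2 hx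
          apply hz (insert x C) _ ⟨x, Finset.mem_insert_self _ _⟩
          · rw [Finset.sum_insert hxC, hCs]; simp
          · exact Finset.insert_subset (hTS hx) (hC.trans Finset.sdiff_subset)
        have hTle : T.card ≤ Bᶜ.card := by
          have := Finset.card_le_card hsub
          rwa [Finset.card_image_of_injective _ neg_injective] at this
        have hcc := Finset.card_compl B
        have hTpos : 0 < T.card := by omega
        obtain ⟨x, hx, hlam⟩ := key T Bᶜ hantiT hTgen (Finset.card_pos.1 (by omega)) (by omega)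
        refine ⟨x, hx, ?_⟩
        rw [lam_compl] at hlam
        refine le_trans ?_ hlam
        have : T.card / 2 ≤ Bᶜ.card / 2 := Nat.div_le_div_right hTle
        rw [min_eq_right this]
        exact Nat.add_le_add_right (min_le_right _ _) 1
    obtain ⟨x, hx, hlam⟩ := hkey
    refine ⟨T.erase x, (Finset.erase_subset _ _).trans hTS, ?_, ?_⟩
    · rw [Finset.card_erase_of_mem hx]; omega
    · have hxS : x ∉ S \ T := fun h => (Finset.mem_sdiff.1 h).2 hx
      have hS' : S \ T.erase x = insert x (S \ T) := by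
        ext z
        simp only [Finset.mem_sdiff, Finset.mem_erase, Finset.mem_insert]
        constructor
        · rintro ⟨h1, h2⟩
          by_cases hzx : z = x
          · exact Or.inl hzx
          · exact Or.inr ⟨h1, fun h => h2 ⟨hzx, h⟩⟩
        · rintro (rfl | ⟨h1, h2⟩)
          · exact ⟨hTS hx, fun h => h.1 rfl⟩
          · exact ⟨h1, fun h => h2 h.2⟩
      rw [hS', sig_insert hxS, card_union_translate, ← hB]
      rw [← hB] at hgr
      simp only [gr]
      rw [hTc] at hlam
      have h1 : gr S.card i / 2 ≤ B.card / 2 := Nat.div_le_div_right hgr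
      have h2 : min (gr S.card i / 2) ((S.card - i) / 2) ≤ min (B.card / 2) ((S.card - i) / 2) :=
        min_le_min_right _ h1
      omega

lemma structure_top [Fintype G] {S : Finset G} (hz : ZF S) (hanti : ∀ x ∈ S, -x ∉ S) {κ : ℕ}
    (hκ : κ ≤ S.card) (htop : AddSubgroup.closure (S : Set G) = ⊤) :
    (∃ S' ⊆ S, κ + 1 ≤ S'.card ∧ 2 * (sig S').card ≤ (sig S).card) ∨
    (∃ T ⊆ S, T.card = κ ∧ gr S.card (S.card - κ) + (sig T).card ≤ (sig S).card + 1) := by
  by_cases h : ∀ T ⊆ S, κ + 1 ≤ T.card → AddSubgroup.closure (T : Set G) = ⊤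
  · right
    obtain ⟨T, hTS, hTc, hgr⟩ := greedy hz hanti h (S.card - κ) (by omega)
    refine ⟨T, hTS, by omega, ?_⟩
    have hd : Disjoint (S \ T) T := Finset.sdiff_disjoint
    have hun : S \ T ∪ T = S := Finset.sdiff_union_of_subset hTS
    have := sig_superadd hd (by rw [hun]; exact hz)
    rw [hun] at this
    omega
  · left
    push Not at h
    obtain ⟨T, hTS, hTc, hne⟩ := h
    have hy : ∃ y ∈ S, y ∉ AddSubgroup.closure (T : Set G) := by
      by_contra hcon
      push Not at hcon
      apply hne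
      rw [eq_top_iff, ← htop, AddSubgroup.closure_le]
      intro y hy
      exact hcon y (by exact_mod_cast hy)
    obtain ⟨y, hy, hyK⟩ := hy
    exact ⟨T, hTS, hTc, sig_double hTS _ (fun x hx => AddSubgroup.subset_closure hx) hy hyK⟩

end sums

section transfer

variable {G : Type*} [AddCommGroup G] [DecidableEq G]

lemma sig_map {H : Type*} [AddCommGroup H] [DecidableEq H] (φ : H →+ G)
    (hφ : Function.Injective φ) (T : Finset H) :
    sig (T.image φ) = (sig T).image φ := by
  ext z
  rw [Finset.mem_image]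
  constructor
  · intro hz
    obtain ⟨C, hC, rfl⟩ := mem_sig.1 hz
    obtain ⟨D, hD, rfl⟩ := Finset.subset_image_iff.1 hC
    refine ⟨∑ b ∈ D, b, mem_sig.2 ⟨D, hD, rfl⟩, ?_⟩
    rw [Finset.sum_image (fun a _ b _ h => hφ h), map_sum]
  · rintro ⟨w, hw, rfl⟩
    obtain ⟨D, hD, rfl⟩ := mem_sig.1 hw
    refine mem_sig.2 ⟨D.image φ, Finset.image_subset_image hD, ?_⟩
    rw [Finset.sum_image (fun a _ b _ h => hφ h), map_sum]

lemma sig_map_card {H : Type*} [AddCommGroup H] [DecidableEq H] (φ : H →+ G)
    (hφ : Function.Injective φ) (T : Finset H) :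
    (sig (T.image φ)).card = (sig T).card := by
  rw [sig_map φ hφ, Finset.card_image_of_injective _ hφ]

/-- The structural dichotomy. -/
theorem dichotomy [Finite G] {S : Finset G} (hz : ZF S) (hanti : ∀ x ∈ S, -x ∉ S) {κ : ℕ}
    (hκ : κ ≤ S.card) :
    (∃ S' ⊆ S, κ + 1 ≤ S'.card ∧ 2 * (sig S').card ≤ (sig S).card) ∨
    (∃ T ⊆ S, T.card = κ ∧ gr S.card (S.card - κ) + (sig T).card ≤ (sig S).card + 1) := by
  classical
  let H : AddSubgroup G := AddSubgroup.closure (S : Set G)
  have : Fintype H := Fintype.ofFinite H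
  let φ : H →+ G := H.subtype
  have hφ : Function.Injective φ := H.subtype_injective
  let SH : Finset H := S.subtype (fun x => x ∈ H)
  have hSH : SH.image φ = S := by
    ext z
    simp only [SH, Finset.mem_image, Finset.mem_subtype]
    constructor
    · rintro ⟨w, hw, rfl⟩; exact hw
    · intro hz'
      exact ⟨⟨z, AddSubgroup.subset_closure hz'⟩, hz', rfl⟩
  have hSHc : SH.card = S.card := by
    rw [← hSH, Finset.card_image_of_injective _ hφ]
  have hzH : ZF SH := by
    intro B hB hne hsum
    apply hz (B.image φ) _ (hne.image φ)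
    · rw [Finset.sum_image (fun a _ b _ h => hφ h), ← map_sum, hsum, map_zero]
    · rw [← hSH]; exact Finset.image_subset_image hB
  have hantiH : ∀ x ∈ SH, -x ∉ SH := by
    intro x hx hx'
    rw [Finset.mem_subtype] at hx hx'
    exact hanti x.1 hx (by simpa using hx')
  have htop : AddSubgroup.closure (SH : Set H) = ⊤ := by
    have h1 := AddSubgroup.closure_closure_coe_preimage (k := (S : Set G))
    have h2 : (SH : Set H) = ((↑) : H → G) ⁻¹' (S : Set G) := by
      ext z
      simp [SH, Finset.mem_subtype]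
    rw [h2]
    exact h1
  rcases structure_top hzH hantiH (κ := κ) (by omega) htop with ⟨S', hS', hc, h2⟩ | ⟨T, hT, hc, h2⟩
  · left
    refine ⟨S'.image φ, ?_, ?_, ?_⟩
    · rw [← hSH]; exact Finset.image_subset_image hS'
    · rwa [Finset.card_image_of_injective _ hφ]
    · rw [sig_map_card φ hφ, ← hSH, sig_map_card φ hφ]
      exact h2
  · right
    refine ⟨T.image φ, ?_, ?_, ?_⟩
    · rw [← hSH]; exact Finset.image_subset_image hT
    · rwa [Finset.card_image_of_injective _ hφ]
    · rw [sig_map_card φ hφ, ← hSHc]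
      conv_rhs => rw [← hSH, sig_map_card φ hφ]
      exact h2

end transfer

end Pool.Agent.Helper9.OlsonBound
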