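import Mathlib
import Pool.Agent.Helper9.OlsonSums

set_option autoImplicit false

namespace Pool.Agent.Helper9.OlsonBound

open Finset

lemma gr_pos (m i : ℕ) : 1 ≤ gr m i := by
  induction i with
  | zero => simp [gr]
  | succ i ih => simp only [gr]; omega

lemma gr_alt (m : ℕ) : ∀ i : ℕ, ((3 / 2 : ℝ) ^ i ≤ gr m i) ∨ (m ≤ gr m i + i) := by
  intro i
  induction i with
  | zero => left; simp [gr]
  | succ i ih =>
    by_cases h : m ≤ gr m i + i
    · right
      simp only [gr]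
      omega
    · left
      rcases ih with ih | ih
      · have h1 : gr m (i + 1) = gr m i + gr m i / 2 + 1 := by
          simp only [gr]
          have : gr m i / 2 ≤ (m - i) / 2 := Nat.div_le_div_right (by omega)
          rw [min_eq_left this]
        have h2 : 3 * gr m i ≤ 2 * gr m (i + 1) := by omega
        have h2' : (3 : ℝ) * gr m i ≤ 2 * gr m (i + 1) := by exact_mod_cast h2
        rw [pow_succ]
        linarith
      · exact absurd ih h

lemma gr_quad (m s : ℕ) (hs : m ≤ gr m s + s) : ∀ i : ℕ, s ≤ i → i ≤ m →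
    (m ≤ gr m i + i) ∧ (((m : ℝ) - s + 1) * (m - s + 2) - (m - i + 1) * (m - i + 2)
      ≤ 4 * (gr m i : ℝ)) := by
  intro i hi
  induction i, hi using Nat.le_induction with
  | base =>
    intro _
    refine ⟨hs, ?_⟩
    have : (0 : ℝ) ≤ gr m s := Nat.cast_nonneg _
    linarith
  | succ i hi ih =>
    intro him
    obtain ⟨h1, h2⟩ := ih (by omega)
    have h3 : gr m (i + 1) = gr m i + (m - i) / 2 + 1 := by
      simp only [gr]
      have : (m - i) / 2 ≤ gr m i / 2 := Nat.div_le_div_right (by omega)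
      rw [min_eq_right this]
    refine ⟨by omega, ?_⟩
    have h4 : 2 * gr m i + (m - i) + 1 ≤ 2 * gr m (i + 1) := by omega
    have h5 : (2 : ℝ) * gr m i + ((m : ℝ) - i) + 1 ≤ 2 * gr m (i + 1) := by
      have : ((m - i : ℕ) : ℝ) = (m : ℝ) - i := by
        rw [Nat.cast_sub (by omega)]
      rw [← this]
      exact_mod_cast h4
    push_cast
    nlinarith

lemma sq_le_pow (s : ℕ) : (s : ℝ) ^ 2 / 25 ≤ (3 / 2 : ℝ) ^ s := by
  have h1 : 1 + (s : ℝ) * (1 / 5) ≤ (1 + 1 / 5 : ℝ) ^ s :=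
    one_add_mul_le_pow (by norm_num) s
  have h2 : ((1 + 1 / 5 : ℝ) ^ s) ^ 2 ≤ (3 / 2 : ℝ) ^ s := by
    rw [← pow_mul, mul_comm, pow_mul]
    exact pow_le_pow_left₀ (by norm_num) (by norm_num) s
  have hs : (0 : ℝ) ≤ s := Nat.cast_nonneg s
  nlinarith

lemma gr_lower {m κ s : ℕ} (hsκ : s + κ ≤ m) (hm : (m : ℝ) ≤ (s : ℝ) ^ 2 / 25) :
    (((m : ℝ) - s) ^ 2 - (κ + 2) ^ 2) / 4 ≤ gr m (m - κ) := by
  have h1 : m ≤ gr m s + s := by
    rcases gr_alt m s with h | h
    · have h2 : (m : ℝ) ≤ gr m s := hm.trans ((sq_le_pow s).trans h)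
      have h3 : m ≤ gr m s := by exact_mod_cast h2
      omega
    · exact h
  have h2 := (gr_quad m s h1 (m - κ) (by omega) (by omega)).2
  have h3 : ((m - κ : ℕ) : ℝ) = (m : ℝ) - κ := by rw [Nat.cast_sub (by omega)]
  rw [h3] at h2
  have h4 : (s : ℝ) ≤ m := by
    have : s ≤ m := by omega
    exact_mod_cast this
  have h5 : (0 : ℝ) ≤ κ := Nat.cast_nonneg κ
  nlinarith

/-- the quadratic bound for sets without elements of order two -/
def Good (c : ℝ) (M : ℕ) : Prop :=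
  ∀ (G : Type) [AddCommGroup G] [DecidableEq G] [Finite G] (S : Finset G), ZF S →
    (∀ x ∈ S, -x ∉ S) → M ≤ S.card → c * (S.card : ℝ) ^ 2 ≤ ((sig S).card : ℝ)

lemma good_base : Good (1 / 4000000) 0 := by
  intro G _ _ _ S
  induction hn : S.card using Nat.strong_induction_on generalizing S with
  | _ n ih =>
    intro hz hanti _
    by_cases hsmall : n < 2000
    · have h1 : (1 : ℝ) ≤ (sig S).card := by exact_mod_cast sig_pos S
      have h2 : (n : ℝ) ≤ 2000 := by exact_mod_cast hsmall.le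
      have h3 : (0 : ℝ) ≤ n := Nat.cast_nonneg n
      nlinarith
    · push Not at hsmall
      have hn' : (2000 : ℝ) ≤ n := by exact_mod_cast hsmall
      have hκ : 3 * n / 4 ≤ S.card := by omega
      rcases dichotomy hz hanti hκ with ⟨S', hS', hc, h2⟩ | ⟨T, hT, hc, h2⟩
      · have hlt : S'.card < n := by
          rw [← hn]
          apply Finset.card_lt_card
          refine ⟨hS', fun h => ?_⟩
          have : S' = S := Finset.Subset.antisymm hS' h
          rw [this] at h2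
          have := sig_pos S
          omega
        have h3 := ih S'.card hlt S' rfl (hz.mono hS')
          (fun x hx h => hanti x (hS' hx) (hS' h)) (Nat.zero_le _)
        have h4 : 3 * n ≤ 4 * S'.card := by omega
        have h4' : (3 : ℝ) * n ≤ 4 * S'.card := by exact_mod_cast h4
        have h5 : (2 : ℝ) * (sig S').card ≤ (sig S).card := by exact_mod_cast h2
        nlinarith
      · have h3 : (((n : ℝ) - (n / 8 : ℕ)) ^ 2 - ((3 * n / 4 : ℕ) + 2) ^ 2) / 4
            ≤ gr n (n - 3 * n / 4) := by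
          apply gr_lower (by omega)
          have h8 : (n : ℝ) ≤ 8 * (n / 8 : ℕ) + 8 := by
            have : n ≤ 8 * (n / 8) + 8 := by omega
            exact_mod_cast this
          nlinarith
        have h4 : ((n / 8 : ℕ) : ℝ) ≤ n / 8 := Nat.cast_div_le
        have h5 : ((3 * n / 4 : ℕ) : ℝ) ≤ 3 * n / 4 := by
          have := @Nat.cast_div_le ℝ _ _ _ (3 * n) 4
          push_cast at this
          exact this
        have h6 : gr n (n - 3 * n / 4) ≤ (sig S).card := by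
          have := sig_pos T
          rw [hn] at h2
          omega
        have h6' : (gr n (n - 3 * n / 4) : ℝ) ≤ (sig S).card := by exact_mod_cast h6
        have h7 : (0 : ℝ) ≤ (3 * n / 4 : ℕ) := Nat.cast_nonneg _
        have h8 : (7 / 8 * (n : ℝ)) ^ 2 ≤ ((n : ℝ) - (n / 8 : ℕ)) ^ 2 :=
          pow_le_pow_left₀ (by linarith) (by linarith) 2
        have h9 : (((3 * n / 4 : ℕ) : ℝ) + 2) ^ 2 ≤ (3 * n / 4 + 2) ^ 2 :=
          pow_le_pow_left₀ (by linarith) (by linarith) 2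
        nlinarith

lemma good_boot {c c' : ℝ} {M : ℕ} (hc : 0 < c) (hc4 : c < 1 / 4) (hG : Good c M)
    (hc' : c' < 2 * c / (1 + 4 * c)) : ∃ M', Good c' M' := by
  have h14 : 0 < 1 + 4 * c := by linarith
  obtain ⟨θ, hθ⟩ : ∃ θ, θ = Real.sqrt (1 / (1 + 4 * c)) := ⟨_, rfl⟩
  have hθ2 : θ ^ 2 = 1 / (1 + 4 * c) := by
    rw [hθ, Real.sq_sqrt (by positivity)]
  have hθ0 : 0 < θ := by rw [hθ]; exact Real.sqrt_pos.2 (by positivity)
  have hθ2' : θ ^ 2 * (1 + 4 * c) = 1 := by rw [hθ2]; field_simp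
  have hθ1 : θ < 1 := by
    by_contra h
    push Not at h
    have h1 : 1 ≤ θ ^ 2 := by nlinarith
    nlinarith
  obtain ⟨L, hL⟩ : ∃ L, L = 2 * c / (1 + 4 * c) := ⟨_, rfl⟩
  have hL1 : L = 2 * c * θ ^ 2 := by rw [hL, hθ2]; ring
  have hL2 : L = 1 / 4 - θ ^ 2 * (1 / 4 - c) := by
    rw [hL1]; linarith
  rw [← hL] at hc'
  obtain ⟨δ, hδ⟩ : ∃ δ, δ = L - c' := ⟨_, rfl⟩
  have hδ0 : 0 < δ := by rw [hδ]; linarith
  obtain ⟨ε, hε⟩ : ∃ ε, ε = min δ (1 - θ) := ⟨_, rfl⟩
  have hε0 : 0 < ε := by rw [hε]; exact lt_min hδ0 (by linarith)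
  have hεδ : ε ≤ δ := by rw [hε]; exact min_le_left _ _
  have hεθ : ε ≤ 1 - θ := by rw [hε]; exact min_le_right _ _
  obtain ⟨M', hM'⟩ := exists_nat_ge ((M + 1) / θ + 8 / δ + 27 / ε ^ 2 + 1)
  refine ⟨M', ?_⟩
  intro G _ _ _ S hz hanti hSM
  obtain ⟨m, hm⟩ : ∃ m, m = S.card := ⟨_, rfl⟩
  rw [← hm] at hSM ⊢
  have hmM : (M + 1) / θ + 8 / δ + 27 / ε ^ 2 + 1 ≤ (m : ℝ) :=
    hM'.trans (by exact_mod_cast hSM)
  have p1 : 0 ≤ ((M : ℝ) + 1) / θ := by positivity
  have p2 : 0 ≤ 8 / δ := by positivity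
  have p3 : 0 ≤ 27 / ε ^ 2 := by positivity
  have hm1 : (M : ℝ) + 1 ≤ θ * m := by
    have : (M + 1) / θ ≤ (m : ℝ) := by linarith
    rw [div_le_iff₀ hθ0] at this
    linarith
  have hm2 : 8 ≤ δ * m := by
    have : 8 / δ ≤ (m : ℝ) := by linarith
    rw [div_le_iff₀ hδ0] at this
    linarith
  have hm3 : 27 ≤ ε ^ 2 * m := by
    have : 27 / ε ^ 2 ≤ (m : ℝ) := by linarith
    rw [div_le_iff₀ (by positivity)] at this
    linarith
  have hm0 : (1 : ℝ) ≤ m := by linarith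
  obtain ⟨κ, hκ⟩ : ∃ κ, κ = ⌊θ * m⌋₊ := ⟨_, rfl⟩
  obtain ⟨s, hs⟩ : ∃ s, s = ⌊ε * m⌋₊ := ⟨_, rfl⟩
  have hκ1 : (κ : ℝ) ≤ θ * m := by rw [hκ]; exact Nat.floor_le (by positivity)
  have hκ2 : θ * m < κ + 1 := by rw [hκ]; exact Nat.lt_floor_add_one _
  have hs1 : (s : ℝ) ≤ ε * m := by rw [hs]; exact Nat.floor_le (by positivity)
  have hs2 : ε * m < s + 1 := by rw [hs]; exact Nat.lt_floor_add_one _
  have hsκ : s + κ ≤ m := by
    have : (s : ℝ) + κ ≤ m := by nlinarith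
    exact_mod_cast this
  have hMκ : M ≤ κ := by
    have : (M : ℝ) < κ + 1 := by linarith
    have : M < κ + 1 := by exact_mod_cast this
    omega
  rcases dichotomy hz hanti (κ := κ) (by omega) with ⟨S', hS', hcc, h2⟩ | ⟨T, hT, hcc, h2⟩
  · have h3 := hG G S' (hz.mono hS') (fun x hx h => hanti x (hS' hx) (hS' h)) (by omega)
    have h4 : θ * m ≤ S'.card := by
      have : ((κ + 1 : ℕ) : ℝ) ≤ S'.card := by exact_mod_cast hcc
      push_cast at this
      linarith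
    have h5 : (θ * m) ^ 2 ≤ (S'.card : ℝ) ^ 2 := pow_le_pow_left₀ (by positivity) h4 2
    have h6 : (2 : ℝ) * (sig S').card ≤ (sig S).card := by exact_mod_cast h2
    have h7 : 2 * c * θ ^ 2 * m ^ 2 ≤ (sig S).card := by nlinarith
    rw [← hL1] at h7
    have h8 : 0 ≤ (m : ℝ) ^ 2 := sq_nonneg _
    nlinarith
  · have h3 := hG G T (hz.mono hT) (fun x hx h => hanti x (hT hx) (hT h)) (by omega)
    rw [hcc] at h3
    rw [← hm] at h2
    have h2' : (gr m (m - κ) : ℝ) + (sig T).card ≤ (sig S).card + 1 := by exact_mod_cast h2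
    have h25 : (m : ℝ) ≤ (s : ℝ) ^ 2 / 25 := by
      have e1 : ε * m - 1 ≤ s := by linarith
      have e0 : ε ≤ 1 := by linarith
      have e2 : 1 ≤ ε * m := by nlinarith
      have e3 : (ε * m - 1) ^ 2 ≤ (s : ℝ) ^ 2 := pow_le_pow_left₀ (by linarith) e1 2
      have e4 : 25 * (m : ℝ) ≤ (ε * m - 1) ^ 2 := by
        have : (ε * m - 1) ^ 2 = (ε ^ 2 * m) * m - 2 * (ε * m) + 1 := by ring
        rw [this]
        nlinarith
      linarith
    have h4 := gr_lower hsκ h25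
    have h5 : ((1 - ε) * m) ^ 2 ≤ ((m : ℝ) - s) ^ 2 := by
      apply pow_le_pow_left₀
      · have : 0 ≤ 1 - ε := by linarith
        positivity
      · linarith
    have h6 : ((κ : ℝ) + 2) ^ 2 ≤ (θ * m + 2) ^ 2 :=
      pow_le_pow_left₀ (by positivity) (by linarith) 2
    have hM0 : (0 : ℝ) ≤ M := Nat.cast_nonneg M
    have h7 : (θ * m - 1) ^ 2 ≤ (κ : ℝ) ^ 2 :=
      pow_le_pow_left₀ (by linarith) (by linarith) 2
    have h8 : c * (θ * m - 1) ^ 2 ≤ c * (κ : ℝ) ^ 2 := mul_le_mul_of_nonneg_left h7 hc.le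
    -- combine
    have h9 : (((1 - ε) * m) ^ 2 - (θ * m + 2) ^ 2) / 4 + c * (θ * m - 1) ^ 2 - 1
        ≤ (sig S).card := by linarith
    have h10 : L * m ^ 2 - (ε / 2) * m ^ 2 - (3 / 2 * m + 2) ≤
        (((1 - ε) * m) ^ 2 - (θ * m + 2) ^ 2) / 4 + c * (θ * m - 1) ^ 2 - 1 := by
      rw [hL2]
      have g1 : 0 ≤ ε ^ 2 * (m : ℝ) ^ 2 := by positivity
      have hm00 : (0 : ℝ) ≤ m := by linarith
      have g2 : θ * m ≤ m := by
        have := mul_le_mul_of_nonneg_right hθ1.le hm00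
        linarith
      have g3 : c * (θ * m) ≤ (1 / 4) * m := by
        have h0 : 0 ≤ θ * m := by positivity
        have := mul_le_mul_of_nonneg_right hc4.le h0
        linarith
      have g4 : ((((1 - ε) * m) ^ 2 - (θ * m + 2) ^ 2) / 4 + c * (θ * m - 1) ^ 2 - 1)
          - ((1 / 4 - θ ^ 2 * (1 / 4 - c)) * m ^ 2 - (ε / 2) * m ^ 2 - (3 / 2 * m + 2))
          = (ε ^ 2 * (m : ℝ) ^ 2) / 4 + (3 / 2 * m - θ * m - 2 * (c * (θ * m))) + c := by ring
      linarith
    have h11 : c' * (m : ℝ) ^ 2 ≤ L * m ^ 2 - (ε / 2) * m ^ 2 - (3 / 2 * m + 2) := by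
      have g1 : c' = L - δ := by rw [hδ]; ring
      rw [g1]
      have g2 : ε * (m : ℝ) ^ 2 ≤ δ * m ^ 2 := mul_le_mul_of_nonneg_right hεδ (sq_nonneg _)
      have hm00 : (0 : ℝ) ≤ m := by linarith
      have g3 : 8 * (m : ℝ) ≤ δ * m ^ 2 := by
        have h1 := mul_le_mul_of_nonneg_right hm2 hm00
        have h2 : δ * m ^ 2 = δ * m * m := by ring
        linarith
      have g4 : (L - δ) * (m : ℝ) ^ 2 = L * m ^ 2 - δ * m ^ 2 := by ring
      have g5 : (ε / 2) * (m : ℝ) ^ 2 = (ε * m ^ 2) / 2 := by ring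
      rw [g4, g5]
      linarith
    linarith

theorem good_all {c : ℝ} (hc : c < 1 / 4) : ∃ M, Good c M := by
  by_contra hcon
  let E : Set ℝ := {x | ∃ M, Good x M}
  have hdown : ∀ x y : ℝ, x ≤ y → y ∈ E → x ∈ E := by
    rintro x y hxy ⟨M, hM⟩
    refine ⟨M, ?_⟩
    intro G _ _ _ S hz hanti hS
    have := hM G S hz hanti hS
    have h2 : x * (S.card : ℝ) ^ 2 ≤ y * (S.card : ℝ) ^ 2 :=
      mul_le_mul_of_nonneg_right hxy (sq_nonneg _)
    linarith
  have hbase : (1 / 4000000 : ℝ) ∈ E := ⟨0, good_base⟩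
  have hbdd : BddAbove E := by
    refine ⟨c, fun y hy => ?_⟩
    by_contra h
    push Not at h
    exact hcon (hdown c y h.le hy)
  have hle : sSup E ≤ c := csSup_le ⟨_, hbase⟩ (fun y hy => by
    by_contra h
    push Not at h
    exact hcon (hdown c y h.le hy))
  have hge : (1 / 4000000 : ℝ) ≤ sSup E := le_csSup hbdd hbase
  obtain ⟨z, hz⟩ : ∃ z, z = sSup E := ⟨_, rfl⟩
  rw [← hz] at hle hge
  have hz0 : 0 < z := by linarith
  have hz4 : z < 1 / 4 := by linarith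
  have h1 : z / (2 - 4 * z) < sSup E := by
    rw [← hz, div_lt_iff₀ (by linarith)]
    nlinarith
  obtain ⟨x, hxE, hx⟩ := exists_lt_of_lt_csSup ⟨_, hbase⟩ h1
  have hxz : x ≤ z := by rw [hz]; exact le_csSup hbdd hxE
  rw [div_lt_iff₀ (by linarith)] at hx
  have hx0 : 0 < x := by
    by_contra h
    push Not at h
    nlinarith
  have h2 : z < 2 * x / (1 + 4 * x) := by
    rw [lt_div_iff₀ (by linarith)]
    nlinarith
  obtain ⟨M, hM⟩ := hxE
  obtain ⟨w, hw1, hw2⟩ := exists_between h2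
  obtain ⟨M', hM'⟩ := good_boot hx0 (by linarith) hM hw2
  have : w ≤ z := by rw [hz]; exact le_csSup hbdd ⟨M', hM'⟩
  linarith

end Pool.Agent.Helper9.OlsonBound
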