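import Mathlib

set_option autoImplicit false

namespace Pool.Agent.Helper9.RevLin

open Module

noncomputable def E (q : ℚ) : ℂ := Complex.exp (2 * Real.pi * Complex.I * q)

theorem E_add (p q : ℚ) : E (p + q) = E p * E q := by
  rw [E, E, E, ← Complex.exp_add]
  congr 1
  push_cast
  ring

theorem E_int (n : ℤ) : E n = 1 := by
  rw [E, Complex.exp_eq_one_iff]
  exact ⟨n, by push_cast; ring⟩

theorem E_congr (p q : ℚ) (h : (p : AddCircle (1 : ℚ)) = q) : E p = E q := by
  have h1 : ((p - q : ℚ) : AddCircle (1 : ℚ)) = 0 := by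
    rw [AddCircle.coe_sub, h, sub_self]
  rw [AddCircle.coe_eq_zero_iff] at h1
  obtain ⟨n, hn⟩ := h1
  have h2 : p = q + (n : ℚ) := by
    have : (n : ℚ) = p - q := by rw [← hn]; simp
    rw [this]; ring
  rw [h2, E_add, E_int, mul_one]

theorem E_pow (q : ℚ) : E q ^ q.den = 1 := by
  rw [E, ← Complex.exp_nat_mul, Complex.exp_eq_one_iff]
  refine ⟨q.num, ?_⟩
  have h : (q : ℂ) * (q.den : ℂ) = (q.num : ℂ) := by
    exact_mod_cast Rat.mul_den_eq_num q
  rw [← h]; ring

theorem exists_psi : ∃ ψ : ℂ → ℂ, ψ 1 = 1 ∧ ψ (-1) = -1 ∧ (∀ x y, ψ (x * y) = ψ x * ψ y) ∧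
    (∀ x, x ≠ 0 → ∃ N, 1 ≤ N ∧ ψ x ^ N = 1) := by
  classical
  have hne : (Additive.ofMul (-1 : ℂˣ)) ≠ 0 := by
    intro h
    have h1 : (-1 : ℂˣ) = 1 := h
    have h2 : ((-1 : ℂˣ) : ℂ) = 1 := by rw [h1]; rfl
    norm_num at h2
  obtain ⟨c, hc⟩ := CharacterModule.exists_character_apply_ne_zero_of_ne_zero hne
  have hsurj : ∀ z : AddCircle (1 : ℚ), ∃ q : ℚ, (q : AddCircle (1 : ℚ)) = z := fun z =>
    QuotientAddGroup.mk_surjective z
  choose r hr using hsurj
  let φ : ℂˣ → ℂ := fun u => E (r (c (Additive.ofMul u)))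
  have hφmul : ∀ u v, φ (u * v) = φ u * φ v := by
    intro u v
    show E _ = E _ * E _
    rw [← E_add]
    apply E_congr
    rw [AddCircle.coe_add, hr, hr, hr, ofMul_mul, map_add]
  have hφ1 : φ 1 = 1 := by
    have h := hφmul 1 1
    rw [mul_one] at h
    have hne : φ 1 ≠ 0 := Complex.exp_ne_zero _
    field_simp at h
    exact h.symm
  have hφneg : φ (-1) = -1 := by
    have h := hφmul (-1) (-1)
    rw [neg_mul_neg, one_mul, hφ1] at h
    have h2 : (φ (-1) - 1) * (φ (-1) + 1) = 0 := by linear_combination -h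
    rcases mul_eq_zero.1 h2 with h3 | h3
    · exfalso
      apply hc
      have h4 : φ (-1) = 1 := by linear_combination h3
      have h5 : E (r (c (Additive.ofMul (-1 : ℂˣ)))) = 1 := h4
      rw [E, Complex.exp_eq_one_iff] at h5
      obtain ⟨n, hn⟩ := h5
      have h6 : ((r (c (Additive.ofMul (-1 : ℂˣ))) : ℚ) : ℂ) = n := by
        have hpi : (2 * Real.pi * Complex.I : ℂ) ≠ 0 := Complex.two_pi_I_ne_zero
        apply mul_left_cancel₀ hpi
        rw [hn]; ring
      have h7 : r (c (Additive.ofMul (-1 : ℂˣ))) = (n : ℚ) := by exact_mod_cast h6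
      rw [← hr (c (Additive.ofMul (-1 : ℂˣ))), h7, AddCircle.coe_eq_zero_iff]
      exact ⟨n, by simp⟩
    · linear_combination h3
  refine ⟨fun x => if h : x = 0 then 0 else φ (Units.mk0 x h), ?_, ?_, ?_, ?_⟩
  · simp only [one_ne_zero, dite_false]
    rw [Units.mk0_one, hφ1]
  · have : (-1 : ℂ) ≠ 0 := by norm_num
    simp only [this, dite_false]
    rw [show Units.mk0 (-1 : ℂ) this = -1 from Units.ext (by simp), hφneg]
  · intro x y
    by_cases hx : x = 0
    · simp [hx]
    by_cases hy : y = 0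
    · simp [hy]
    have hxy : x * y ≠ 0 := mul_ne_zero hx hy
    simp only [hx, hy, hxy, dite_false]
    rw [← hφmul]
    congr 1
    exact Units.ext (by simp)
  · intro x hx
    simp only [hx, dite_false]
    exact ⟨_, Rat.den_pos _, E_pow _⟩

section
variable {V W : Type*} [AddCommGroup V] [Module ℂ V] [AddCommGroup W] [Module ℂ W]

def IsPsi (ψ : ℂ → ℂ) (b D : End ℂ V) : Prop := ∀ μ : ℂ, ∀ x ∈ b.maxGenEigenspace μ, D x = ψ μ • x

theorem exists_isPsi [FiniteDimensional ℂ V] (ψ : ℂ → ℂ) (b : End ℂ V) : ∃ D, IsPsi ψ b D := by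
  classical
  have hint : DirectSum.IsInternal (fun μ : ℂ => b.maxGenEigenspace μ) :=
    DirectSum.isInternal_submodule_of_iSupIndep_of_iSup_eq_top
      b.independent_maxGenEigenspace b.iSup_maxGenEigenspace_eq_top
  let e := LinearEquiv.ofBijective (DirectSum.coeLinearMap fun μ : ℂ => b.maxGenEigenspace μ) hint
  let T : (DirectSum ℂ fun μ : ℂ => b.maxGenEigenspace μ) →ₗ[ℂ] V :=
    DirectSum.toModule ℂ ℂ V fun μ => ψ μ • (b.maxGenEigenspace μ).subtype
  refine ⟨T ∘ₗ e.symm.toLinearMap, ?_⟩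
  intro μ x hx
  have h1 : e.symm x = DirectSum.lof ℂ ℂ (fun μ : ℂ => b.maxGenEigenspace μ) μ ⟨x, hx⟩ := by
    rw [LinearEquiv.symm_apply_eq]
    show x = DirectSum.coeLinearMap _ _
    rw [DirectSum.coeLinearMap_lof]
  show T (e.symm x) = _
  rw [h1, DirectSum.toModule_lof]
  rfl

theorem span_induction' [FiniteDimensional ℂ V] (b : End ℂ V) (P : V → Prop)
    (h : ∀ μ : ℂ, ∀ x ∈ b.maxGenEigenspace μ, P x) (h0 : P 0) (hadd : ∀ x y, P x → P y → P (x + y))
    (x : V) : P x := by
  have hx : x ∈ ⨆ μ : ℂ, b.maxGenEigenspace μ := by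
    rw [b.iSup_maxGenEigenspace_eq_top]; trivial
  exact Submodule.iSup_induction _ (motive := P) hx h h0 hadd

theorem psi_nat [FiniteDimensional ℂ V] (ψ : ℂ → ℂ) (b D : End ℂ V) (b' D' : End ℂ W)
    (hD : IsPsi ψ b D) (hD' : IsPsi ψ b' D') (π : V →ₗ[ℂ] W) (h : ∀ x, π (b x) = b' (π x)) (x : V) :
    π (D x) = D' (π x) := by
  refine span_induction' b (fun x => π (D x) = D' (π x)) ?_ (by simp) ?_ x
  · intro μ x hx
    have hπ : π x ∈ b'.maxGenEigenspace μ := by
      rw [End.mem_maxGenEigenspace] at hx ⊢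
      obtain ⟨k, hk⟩ := hx
      refine ⟨k, ?_⟩
      have key : ∀ k y, ((b' - μ • (1 : End ℂ W)) ^ k) (π y) = π (((b - μ • (1 : End ℂ V)) ^ k) y) := by
        intro k
        induction k with
        | zero => intro y; simp
        | succ k ih =>
          intro y
          rw [pow_succ, pow_succ, Module.End.mul_apply, Module.End.mul_apply, ← ih]
          congr 1
          simp [h]
      rw [key, hk, map_zero]
    rw [hD μ x hx, map_smul, hD' μ _ hπ]
  · intro x y hx hy
    simp only [map_add, hx, hy]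

theorem isPsi_neg (ψ : ℂ → ℂ) (h1 : ψ (-1) = -1) (hm : ∀ x y, ψ (x * y) = ψ x * ψ y)
    (b D : End ℂ V) (hD : IsPsi ψ b D) : IsPsi ψ (-b) (-D) := by
  intro μ x hx
  have hx' : x ∈ b.maxGenEigenspace (-μ) := by
    rw [End.mem_maxGenEigenspace] at hx ⊢
    obtain ⟨k, hk⟩ := hx
    refine ⟨k, ?_⟩
    have : (-b - μ • (1 : End ℂ V)) = -(b - (-μ) • (1 : End ℂ V)) := by
      rw [neg_smul]; abel
    rw [this, neg_pow] at hk
    have h2 : ((-1 : End ℂ V) ^ k) (((b - (-μ) • (1 : End ℂ V)) ^ k) x) = 0 := hk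
    rcases neg_one_pow_eq_or (End ℂ V) k with h | h
    · rw [h] at h2; simpa using h2
    · rw [h] at h2; simpa using h2
  rw [LinearMap.neg_apply, hD _ x hx']
  have : ψ (-μ) = - ψ μ := by
    rw [← neg_one_mul, hm, h1, neg_one_mul]
  rw [this, neg_smul, neg_neg]

theorem psi_reverse [FiniteDimensional ℂ V] (ψ : ℂ → ℂ) (h1 : ψ (-1) = -1)
    (hm : ∀ x y, ψ (x * y) = ψ x * ψ y) (a a' b D : End ℂ V) (hD : IsPsi ψ b D)
    (ha : ∀ x, a (a' x) = x) (ha' : ∀ x, a' (a x) = x) (hab : ∀ x, a (b (a x)) = b x) (x : V) :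
    a (D (a x)) = D x := by
  have e1 : ∀ x, b (a x) = a' (b x) := by
    intro x
    rw [← hab x, ha']
  have e2 : ∀ x, b (a' x) = a (b x) := by
    intro x
    have := hab (a' x)
    rw [ha] at this
    exact this.symm
  have p1 : ∀ x, (a + a') (D x) = D ((a + a') x) := by
    intro x
    refine psi_nat ψ b D b D hD hD (a + a') ?_ x
    intro y
    simp only [LinearMap.add_apply, map_add, e1, e2]
    abel
  have p2 : ∀ x, (a - a') (D x) = (-D) ((a - a') x) := by
    intro x
    refine psi_nat ψ b D (-b) (-D) hD (isPsi_neg ψ h1 hm b D hD) (a - a') ?_ x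
    intro y
    simp only [LinearMap.sub_apply, LinearMap.neg_apply, map_sub, e1, e2]
    abel
  have p1x := p1 x
  have p2x := p2 x
  simp only [LinearMap.add_apply, LinearMap.sub_apply, LinearMap.neg_apply, map_add, map_sub]
    at p1x p2x
  -- a D + a' D = D a + D a' ; a D - a' D = - D a + D a'
  have h3 : (2 : ℂ) • D (a x) = (2 : ℂ) • a' (D x) := by
    rw [two_smul, two_smul]
    have h4 : a (D x) + a' (D x) - (a (D x) - a' (D x)) =
        D (a x) + D (a' x) - -(D (a x) - D (a' x)) := by rw [p1x, p2x]; abel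
    have h5 : a (D x) + a' (D x) - (a (D x) - a' (D x)) = a' (D x) + a' (D x) := by abel
    have h6 : D (a x) + D (a' x) - -(D (a x) - D (a' x)) = D (a x) + D (a x) := by abel
    rw [h5, h6] at h4
    exact h4.symm
  have h7 : D (a x) = a' (D x) := smul_right_injective V (two_ne_zero : (2 : ℂ) ≠ 0) h3
  rw [h7, ha]

end

section
variable {A : Type*} [CommRing A] [Algebra ℂ A]

theorem genmul (b : A →ₐ[ℂ] A) (l m : ℂ) : ∀ n p q : ℕ, p + q = n → ∀ x y : A,
    ((b.toLinearMap - l • (1 : End ℂ A)) ^ p) x = 0 →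
    ((b.toLinearMap - m • (1 : End ℂ A)) ^ q) y = 0 →
    ((b.toLinearMap - (l * m) • (1 : End ℂ A)) ^ n) (x * y) = 0 := by
  intro n
  induction n with
  | zero =>
    intro p q hpq x y hx hy
    have : p = 0 := by omega
    subst this
    simp only [pow_zero, Module.End.one_apply] at hx ⊢
    rw [hx, zero_mul]
  | succ n ih =>
    intro p q hpq x y hx hy
    rcases Nat.eq_zero_or_pos p with hp | hp
    · subst hp
      simp only [pow_zero, Module.End.one_apply] at hx
      rw [hx, zero_mul, map_zero]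
    rcases Nat.eq_zero_or_pos q with hq | hq
    · subst hq
      simp only [pow_zero, Module.End.one_apply] at hy
      rw [hy, mul_zero, map_zero]
    obtain ⟨p', rfl⟩ := Nat.exists_eq_add_of_le' hp
    obtain ⟨q', rfl⟩ := Nat.exists_eq_add_of_le' hq
    rw [pow_succ, Module.End.mul_apply]
    have hsplit : (b.toLinearMap - (l * m) • (1 : End ℂ A)) (x * y) =
        ((b.toLinearMap - l • (1 : End ℂ A)) x) * b y +
        l • (x * ((b.toLinearMap - m • (1 : End ℂ A)) y)) := by
      simp only [LinearMap.sub_apply, LinearMap.smul_apply, Module.End.one_apply,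
        AlgHom.toLinearMap_apply, map_mul, sub_mul, mul_sub, smul_sub, smul_mul_assoc,
        mul_smul_comm, mul_smul]
      abel
    rw [hsplit, map_add, map_smul]
    rw [ih p' (q' + 1) (by omega) _ (b y), ih (p' + 1) q' (by omega) x _]
    · simp
    · exact hx
    · rw [pow_succ, Module.End.mul_apply] at hy
      exact hy
    · rw [pow_succ, Module.End.mul_apply] at hx
      exact hx
    · have hcomm : Commute ((b.toLinearMap - m • (1 : End ℂ A)) ^ (q' + 1)) (b.toLinearMap) := by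
        apply Commute.pow_left
        refine Commute.sub_left (Commute.refl _) ?_
        exact (Commute.one_left _).smul_left m
      have := congrFun (congrArg DFunLike.coe hcomm.eq) y
      simp only [Module.End.mul_apply, AlgHom.toLinearMap_apply] at this
      rw [this, hy, map_zero]

theorem psi_mul [FiniteDimensional ℂ A] (ψ : ℂ → ℂ) (hm : ∀ x y, ψ (x * y) = ψ x * ψ y)
    (b : A →ₐ[ℂ] A) (D : End ℂ A) (hD : IsPsi ψ b.toLinearMap D) (x y : A) :
    D (x * y) = D x * D y := by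
  refine span_induction' b.toLinearMap (fun x => D (x * y) = D x * D y) ?_ (by simp) ?_ x
  · intro l x hx
    refine span_induction' b.toLinearMap (fun y => D (x * y) = D x * D y) ?_ (by simp) ?_ y
    · intro m y hy
      have hxy : x * y ∈ End.maxGenEigenspace (b.toLinearMap : End ℂ A) (l * m) := by
        rw [End.mem_maxGenEigenspace] at hx hy ⊢
        obtain ⟨p, hp⟩ := hx
        obtain ⟨q, hq⟩ := hy
        exact ⟨p + q, genmul b l m (p + q) p q rfl x y hp hq⟩
      rw [hD _ _ hxy, hD _ _ hx, hD _ _ hy, hm, smul_mul_smul_comm]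
    · intro y z h1 h2
      simp only [mul_add, map_add, h1, h2]
  · intro x z h1 h2
    simp only [add_mul, map_add, h1, h2]

theorem psi_one (ψ : ℂ → ℂ) (h1 : ψ 1 = 1) (b : A →ₐ[ℂ] A) (D : End ℂ A)
    (hD : IsPsi ψ b.toLinearMap D) : D 1 = 1 := by
  have h : (1 : A) ∈ End.maxGenEigenspace (b.toLinearMap : End ℂ A) 1 := by
    rw [End.mem_maxGenEigenspace]
    exact ⟨1, by simp⟩
  rw [hD _ _ h, h1, one_smul]

end

end Pool.Agent.Helper9.RevLin
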