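import Mathlib
import Pool.Agent.Helper9.RevLin

set_option autoImplicit false

namespace Pool.Agent.Helper9.RevPS

open MvPowerSeries

variable {n : ℕ}

/-- series of order at least `k` -/
noncomputable def J (n k : ℕ) : Ideal (MvPowerSeries (Fin n) ℂ) where
  carrier := {p | (k : ℕ∞) ≤ p.order}
  add_mem' := fun {a b} ha hb => le_trans (le_min ha hb) min_order_le_add
  zero_mem' := by simp
  smul_mem' := fun c x hx => le_trans hx (le_trans le_add_self le_order_mul)

theorem mem_J {k : ℕ} {p : MvPowerSeries (Fin n) ℂ} : p ∈ J n k ↔ (k : ℕ∞) ≤ p.order := Iff.rfl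

theorem mem_J_coeff {k : ℕ} {p : MvPowerSeries (Fin n) ℂ} :
    p ∈ J n k ↔ ∀ m : Fin n →₀ ℕ, m.degree < k → coeff m p = 0 := by
  rw [mem_J]
  constructor
  · intro h m hm
    apply coeff_of_lt_order
    exact lt_of_lt_of_le (by exact_mod_cast hm) h
  · intro h
    exact nat_le_order h

theorem J_anti {j k : ℕ} (h : j ≤ k) : J n k ≤ J n j := by
  intro p hp
  rw [mem_J] at *
  exact le_trans (by exact_mod_cast h) hp

theorem mul_mem_J {i j : ℕ} {p q : MvPowerSeries (Fin n) ℂ} (hp : p ∈ J n i) (hq : q ∈ J n j) :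
    p * q ∈ J n (i + j) := by
  rw [mem_J] at *
  refine le_trans ?_ le_order_mul
  push_cast
  exact add_le_add hp hq

theorem X_mem (i : Fin n) : (X i : MvPowerSeries (Fin n) ℂ) ∈ J n 1 := by
  rw [mem_J_coeff]
  intro m hm
  have : m = 0 := by
    have : m.degree = 0 := by omega
    exact (Finsupp.degree_eq_zero_iff m).1 this
  rw [this, coeff_zero_eq_constantCoeff_apply, constantCoeff_X]

theorem eq_zero_of_all {p : MvPowerSeries (Fin n) ℂ} (h : ∀ k, p ∈ J n k) : p = 0 := by
  ext m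
  exact mem_J_coeff.1 (h (m.degree + 1)) m (Nat.lt_succ_self _)

theorem mem_J_one {p : MvPowerSeries (Fin n) ℂ} (h : p 0 = 0) : p ∈ J n 1 := by
  rw [mem_J_coeff]
  intro m hm
  have : m = 0 := by
    have : m.degree = 0 := by omega
    exact (Finsupp.degree_eq_zero_iff m).1 this
  rw [this]
  exact h

theorem zero_of_mem_J_one {p : MvPowerSeries (Fin n) ℂ} (h : p ∈ J n 1) : p 0 = 0 := by
  have := mem_J_coeff.1 h 0 (by simp)
  exact this

theorem hasSubst {G : Fin n → MvPowerSeries (Fin n) ℂ} (hG : ∀ i, G i ∈ J n 1) : HasSubst G :=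
  hasSubst_of_constantCoeff_zero fun i => zero_of_mem_J_one (hG i)

theorem subst_mem {G : Fin n → MvPowerSeries (Fin n) ℂ} (hG : ∀ i, G i ∈ J n 1) {k : ℕ}
    {p : MvPowerSeries (Fin n) ℂ} (hp : p ∈ J n k) : subst G p ∈ J n k := by
  rw [mem_J] at *
  refine le_trans ?_ (le_order_subst (hasSubst hG) p)
  refine le_trans hp ?_
  have h1 : (1 : ℕ∞) ≤ ⨅ i, (G i).order := le_iInf fun i => by
    have := hG i
    rw [mem_J] at this
    exact_mod_cast this
  calc p.order = 1 * p.order := (one_mul _).symm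
    _ ≤ _ := mul_le_mul_left h1 _

theorem sub_trunc_mem (k : ℕ) (p : MvPowerSeries (Fin n) ℂ) :
    p - ((truncTotal k p : MvPolynomial (Fin n) ℂ) : MvPowerSeries (Fin n) ℂ) ∈ J n k := by
  rw [mem_J_coeff]
  intro m hm
  rw [map_sub, MvPolynomial.coeff_coe, coeff_truncTotal _ hm, sub_self]

theorem ext_k {S : Type*} [CommRing S] [Algebra ℂ S] (k : ℕ)
    (f g : MvPowerSeries (Fin n) ℂ →ₐ[ℂ] S) (hf : ∀ x ∈ J n k, f x = 0) (hg : ∀ x ∈ J n k, g x = 0)
    (h : ∀ i, f (X i) = g (X i)) (p : MvPowerSeries (Fin n) ℂ) : f p = g p := by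
  have hpoly : ∀ q : MvPolynomial (Fin n) ℂ, f (q : MvPowerSeries (Fin n) ℂ) = g q := by
    intro q
    have : (f.comp (MvPolynomial.coeToMvPowerSeries.algHom ℂ)) =
        (g.comp (MvPolynomial.coeToMvPowerSeries.algHom ℂ)) := by
      apply MvPolynomial.algHom_ext
      intro i
      simpa using h i
    have := DFunLike.congr_fun this q
    simpa using this
  have h1 := hf _ (sub_trunc_mem k p)
  have h2 := hg _ (sub_trunc_mem k p)
  rw [map_sub, sub_eq_zero] at h1 h2
  rw [h1, h2, hpoly]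

instance finite_quot (k : ℕ) : FiniteDimensional ℂ (MvPowerSeries (Fin n) ℂ ⧸ J n k) := by
  have hfin : Finite {m : Fin n →₀ ℕ // m.degree < k} :=
    (Finsupp.finite_of_degree_lt k).to_subtype
  let T : MvPowerSeries (Fin n) ℂ →ₗ[ℂ] ({m : Fin n →₀ ℕ // m.degree < k} → ℂ) :=
    LinearMap.pi fun m => coeff m.1
  have hker : LinearMap.ker T = (J n k).restrictScalars ℂ := by
    ext p
    rw [LinearMap.mem_ker, Submodule.restrictScalars_mem, mem_J_coeff]
    constructor
    · intro h m hm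
      exact congrFun h ⟨m, hm⟩
    · intro h
      funext m
      exact h m.1 m.2
  have hinj : Function.Injective (((J n k).restrictScalars ℂ).liftQ T hker.ge) :=
    LinearMap.ker_eq_bot.1 (Submodule.ker_liftQ_eq_bot _ _ _ hker.le)
  have h1 : Module.Finite ℂ (MvPowerSeries (Fin n) ℂ ⧸ (J n k).restrictScalars ℂ) :=
    Module.Finite.of_injective _ hinj
  exact Module.Finite.equiv (Submodule.Quotient.restrictScalarsEquiv ℂ (J n k))

/-- lemma U -/
theorem unip (φ : MvPowerSeries (Fin n) ℂ →ₐ[ℂ] MvPowerSeries (Fin n) ℂ)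
    (hφ : ∀ k, ∀ x ∈ J n k, φ x ∈ J n k) (hX : ∀ i, φ (X i) - X i ∈ J n 2) (j : ℕ)
    (x : MvPowerSeries (Fin n) ℂ) (hx : x ∈ J n j) : φ x - x ∈ J n (j + 1) := by
  have hmono : ∀ m : Fin n →₀ ℕ, (monomial m (1 : ℂ)) ∈ J n m.degree ∧
      φ (monomial m (1 : ℂ)) - monomial m (1 : ℂ) ∈ J n (m.degree + 1) := by
    have hadd : ∀ m m' : Fin n →₀ ℕ,
        ((monomial m (1 : ℂ)) ∈ J n m.degree ∧
          φ (monomial m (1 : ℂ)) - monomial m (1 : ℂ) ∈ J n (m.degree + 1)) →
        ((monomial m' (1 : ℂ)) ∈ J n m'.degree ∧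
          φ (monomial m' (1 : ℂ)) - monomial m' (1 : ℂ) ∈ J n (m'.degree + 1)) →
        ((monomial (m + m') (1 : ℂ)) ∈ J n (m + m').degree ∧
          φ (monomial (m + m') (1 : ℂ)) - monomial (m + m') (1 : ℂ) ∈ J n ((m + m').degree + 1)) := by
      intro m m' ⟨h1, h2⟩ ⟨h3, h4⟩
      have e : (monomial (m + m') (1 : ℂ) : MvPowerSeries (Fin n) ℂ) =
          monomial m (1 : ℂ) * monomial m' (1 : ℂ) := by
        rw [monomial_mul_monomial, one_mul]
      have ed : (m + m').degree = m.degree + m'.degree := map_add _ _ _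
      rw [e, ed]
      refine ⟨mul_mem_J h1 h3, ?_⟩
      have hs : φ (monomial m (1 : ℂ) * monomial m' (1 : ℂ)) -
          monomial m (1 : ℂ) * monomial m' (1 : ℂ) =
          (φ (monomial m (1 : ℂ)) - monomial m (1 : ℂ)) * φ (monomial m' (1 : ℂ)) +
          monomial m (1 : ℂ) * (φ (monomial m' (1 : ℂ)) - monomial m' (1 : ℂ)) := by
        rw [map_mul]; ring
      rw [hs]
      refine Ideal.add_mem _ ?_ ?_
      · have := mul_mem_J h2 (hφ _ _ h3)
        rwa [add_right_comm] at this
      · have := mul_mem_J h1 h4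
        rwa [← add_assoc] at this
    have hz : (monomial (0 : Fin n →₀ ℕ) (1 : ℂ)) ∈ J n (0 : Fin n →₀ ℕ).degree ∧
      φ (monomial (0 : Fin n →₀ ℕ) (1 : ℂ)) - monomial (0 : Fin n →₀ ℕ) (1 : ℂ) ∈
        J n ((0 : Fin n →₀ ℕ).degree + 1) := by
      rw [monomial_zero_one, map_one, sub_self]
      refine ⟨?_, Ideal.zero_mem _⟩
      rw [mem_J]
      simp
    intro m
    induction m using Finsupp.induction_linear with
    | zero => exact hz
    | add m m' h1 h2 => exact hadd m m' h1 h2
    | single i c =>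
      induction c with
      | zero => rw [Finsupp.single_zero]; exact hz
      | succ c ih =>
        rw [Finsupp.single_add]
        refine hadd _ _ ih ?_
        have e : (monomial (Finsupp.single i 1) (1 : ℂ) : MvPowerSeries (Fin n) ℂ) = X i := rfl
        have ed : (Finsupp.single i 1 : Fin n →₀ ℕ).degree = 1 := by simp
        rw [e, ed]
        exact ⟨X_mem i, hX i⟩
  set q := (truncTotal (j + 1) x : MvPolynomial (Fin n) ℂ) with hq
  have h1 := sub_trunc_mem (j + 1) x
  rw [← hq] at h1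
  have h2 : φ (q : MvPowerSeries (Fin n) ℂ) - q ∈ J n (j + 1) := by
    have e : (q : MvPowerSeries (Fin n) ℂ) = ∑ m ∈ q.support, q.coeff m • monomial m (1 : ℂ) := by
      conv_lhs => rw [← MvPolynomial.support_sum_monomial_coeff q]
      have : ∀ s : Finset (Fin n →₀ ℕ), ((∑ v ∈ s, MvPolynomial.monomial v (q.coeff v) :
          MvPolynomial (Fin n) ℂ) : MvPowerSeries (Fin n) ℂ) =
          ∑ m ∈ s, q.coeff m • monomial m (1 : ℂ) := by
        intro s
        have h := map_sum (MvPolynomial.coeToMvPowerSeries.ringHom (σ := Fin n) (R := ℂ))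
          (fun v => MvPolynomial.monomial v (q.coeff v)) s
        simp only [MvPolynomial.coeToMvPowerSeries.ringHom_apply] at h
        rw [h]
        refine Finset.sum_congr rfl fun v _ => ?_
        rw [MvPolynomial.coe_monomial, ← map_smul, smul_eq_mul, mul_one]
      exact this _
    rw [e, map_sum, ← Finset.sum_sub_distrib]
    refine Ideal.sum_mem _ fun m hm => ?_
    rw [map_smul, ← smul_sub]
    have hdeg : j ≤ m.degree := by
      by_contra hcon
      push Not at hcon
      have h3 : q.coeff m = coeff m x := by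
        rw [hq, coeff_truncTotal _ (by omega)]
      rw [MvPolynomial.mem_support_iff, h3] at hm
      exact hm (mem_J_coeff.1 hx m hcon)
    have h4 := J_anti (n := n) (show j + 1 ≤ m.degree + 1 by omega) (hmono m).2
    exact Submodule.smul_of_tower_mem _ _ h4
  have h3 := hφ _ _ h1
  rw [map_sub] at h3
  have e : φ x - x = (φ x - φ (q : MvPowerSeries (Fin n) ℂ)) +
      (φ (q : MvPowerSeries (Fin n) ℂ) - q) - (x - q) := by ring
  rw [e]
  exact Ideal.sub_mem _ (Ideal.add_mem _ h3 h2) h1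

end Pool.Agent.Helper9.RevPS
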