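import Mathlib
import Pool.Agent.Helper9.RevLin
import Pool.Agent.Helper9.RevPS

set_option autoImplicit false

namespace Pool.Agent.Helper9.RevMain

open MvPowerSeries Pool.Agent.Helper9.RevPS Pool.Agent.Helper9.RevLin

variable {n : ℕ}

/-- the map induced on the quotient -/
noncomputable def quo (φ : MvPowerSeries (Fin n) ℂ →ₐ[ℂ] MvPowerSeries (Fin n) ℂ)
    (hφ : ∀ k, ∀ x ∈ J n k, φ x ∈ J n k) (k : ℕ) :
    (MvPowerSeries (Fin n) ℂ ⧸ J n k) →ₐ[ℂ] (MvPowerSeries (Fin n) ℂ ⧸ J n k) :=
  Ideal.quotientMapₐ (J n k) φ (fun x hx => hφ k x hx)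

theorem quo_mk (φ : MvPowerSeries (Fin n) ℂ →ₐ[ℂ] MvPowerSeries (Fin n) ℂ)
    (hφ : ∀ k, ∀ x ∈ J n k, φ x ∈ J n k) (k : ℕ) (p : MvPowerSeries (Fin n) ℂ) :
    quo φ hφ k (Ideal.Quotient.mk (J n k) p) = Ideal.Quotient.mk (J n k) (φ p) := rfl

theorem abstract_main
    (a a' b b' : MvPowerSeries (Fin n) ℂ →ₐ[ℂ] MvPowerSeries (Fin n) ℂ)
    (ha : ∀ k, ∀ x ∈ J n k, a x ∈ J n k) (ha' : ∀ k, ∀ x ∈ J n k, a' x ∈ J n k)
    (hb : ∀ k, ∀ x ∈ J n k, b x ∈ J n k) (hb' : ∀ k, ∀ x ∈ J n k, b' x ∈ J n k)
    (haa' : ∀ x, a (a' x) = x) (ha'a : ∀ x, a' (a x) = x)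
    (hb'b : ∀ x, b' (b x) = x) (hab : ∀ x, a (b (a x)) = b x) :
    ∃ (K : Fin n → MvPowerSeries (Fin n) ℂ), (∀ i, K i ∈ J n 1) ∧
      (∀ i, a (subst K (a (X i))) = K i) ∧
      ∃ N : ℕ, 1 ≤ N ∧ ∀ i, (subst K)^[N] (X i : MvPowerSeries (Fin n) ℂ) = X i := by
  classical
  obtain ⟨ψ, hψ1, hψneg, hψmul, hψtor⟩ := exists_psi
  have hex : ∀ k, ∃ D : Module.End ℂ (MvPowerSeries (Fin n) ℂ ⧸ J n k),
      IsPsi ψ (quo b hb k).toLinearMap D := fun k => exists_isPsi ψ _
  choose D hD using hex
  have hDmul : ∀ k x y, D k (x * y) = D k x * D k y := fun k x y =>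
    psi_mul ψ hψmul (quo b hb k) (D k) (hD k) x y
  have hDone : ∀ k, D k 1 = 1 := fun k => psi_one ψ hψ1 (quo b hb k) (D k) (hD k)
  let DA : ∀ k, (MvPowerSeries (Fin n) ℂ ⧸ J n k) →ₐ[ℂ] (MvPowerSeries (Fin n) ℂ ⧸ J n k) :=
    fun k => AlgHom.ofLinearMap (D k) (hDone k) (hDmul k)
  have hDA : ∀ k x, DA k x = D k x := fun k x => rfl
  -- compatibility
  have hcompat : ∀ j k (h : j ≤ k) (p q : MvPowerSeries (Fin n) ℂ),
      D k (Ideal.Quotient.mk (J n k) p) = Ideal.Quotient.mk (J n k) q →
      D j (Ideal.Quotient.mk (J n j) p) = Ideal.Quotient.mk (J n j) q := by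
    intro j k h p q hq
    let π := Ideal.Quotient.factorₐ ℂ (J_anti (n := n) h)
    have hπ : ∀ p, π (Ideal.Quotient.mk (J n k) p) = Ideal.Quotient.mk (J n j) p := fun p => rfl
    have h1 := psi_nat ψ (quo b hb k).toLinearMap (D k) (quo b hb j).toLinearMap (D j) (hD k) (hD j)
      π.toLinearMap (by
        intro x
        obtain ⟨x, rfl⟩ := Ideal.Quotient.mk_surjective x
        rfl) (Ideal.Quotient.mk (J n k) p)
    rw [hq] at h1
    exact h1.symm
  -- choose lifts
  have hlift : ∀ k i, ∃ q : MvPowerSeries (Fin n) ℂ,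
      D k (Ideal.Quotient.mk (J n k) (X i)) = Ideal.Quotient.mk (J n k) q := by
    intro k i
    obtain ⟨q, hq⟩ := Ideal.Quotient.mk_surjective (D k (Ideal.Quotient.mk (J n k) (X i)))
    exact ⟨q, hq.symm⟩
  choose Q hQ using hlift
  let K : Fin n → MvPowerSeries (Fin n) ℂ := fun i m => coeff m (Q (m.degree + 1) i)
  have hKcoeff : ∀ i m, coeff m (K i) = coeff m (Q (m.degree + 1) i) := fun i m => rfl
  have hK : ∀ k i, D k (Ideal.Quotient.mk (J n k) (X i)) = Ideal.Quotient.mk (J n k) (K i) := by
    intro k i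
    rw [hQ k i, Ideal.Quotient.eq, mem_J_coeff]
    intro m hm
    have h1 := hcompat (m.degree + 1) k (by omega) (X i) (Q k i) (hQ k i)
    rw [hQ (m.degree + 1) i, Ideal.Quotient.eq, mem_J_coeff] at h1
    have h2 := h1 m (Nat.lt_succ_self _)
    rw [map_sub, sub_eq_zero] at h2
    rw [map_sub, hKcoeff, h2, sub_self]
  have hK1 : ∀ i, K i ∈ J n 1 := by
    intro i
    have h1 := hK 1 i
    have h2 : Ideal.Quotient.mk (J n 1) (X i) = 0 := Ideal.Quotient.eq_zero_iff_mem.2 (X_mem i)
    rw [h2, map_zero] at h1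
    exact Ideal.Quotient.eq_zero_iff_mem.1 h1.symm
  have hKs := hasSubst hK1
  -- subst K induces D k
  have hind : ∀ k (p : MvPowerSeries (Fin n) ℂ),
      Ideal.Quotient.mk (J n k) (subst K p) = D k (Ideal.Quotient.mk (J n k) p) := by
    intro k p
    have h := ext_k k ((Ideal.Quotient.mkₐ ℂ (J n k)).comp (substAlgHom hKs))
      ((DA k).comp (Ideal.Quotient.mkₐ ℂ (J n k))) ?_ ?_ ?_ p
    · simp only [AlgHom.comp_apply, substAlgHom_apply, Ideal.Quotient.mkₐ_eq_mk] at h
      exact h
    · intro x hx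
      simp only [AlgHom.comp_apply, substAlgHom_apply, Ideal.Quotient.mkₐ_eq_mk]
      exact Ideal.Quotient.eq_zero_iff_mem.2 (subst_mem hK1 hx)
    · intro x hx
      simp only [AlgHom.comp_apply, Ideal.Quotient.mkₐ_eq_mk]
      rw [Ideal.Quotient.eq_zero_iff_mem.2 hx, map_zero]
    · intro i
      simp only [AlgHom.comp_apply, substAlgHom_apply, Ideal.Quotient.mkₐ_eq_mk]
      rw [subst_X hKs]
      exact (hK k i).symm
  refine ⟨K, hK1, ?_, ?_⟩
  · intro i
    rw [← sub_eq_zero]
    apply eq_zero_of_all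
    intro k
    rw [← Ideal.Quotient.eq, ← hK k i]
    have h := psi_reverse ψ hψneg hψmul (quo a ha k).toLinearMap (quo a' ha' k).toLinearMap
      (quo b hb k).toLinearMap (D k) (hD k)
      (by
        intro x
        obtain ⟨x, rfl⟩ := Ideal.Quotient.mk_surjective x
        simp only [AlgHom.toLinearMap_apply, quo_mk, haa'])
      (by
        intro x
        obtain ⟨x, rfl⟩ := Ideal.Quotient.mk_surjective x
        simp only [AlgHom.toLinearMap_apply, quo_mk, ha'a])
      (by
        intro x
        obtain ⟨x, rfl⟩ := Ideal.Quotient.mk_surjective x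
        simp only [AlgHom.toLinearMap_apply, quo_mk, hab])
      (Ideal.Quotient.mk (J n k) (X i))
    rw [← h]
    simp only [AlgHom.toLinearMap_apply, quo_mk]
    rw [← hind k, quo_mk]
  · -- finite order
    -- the finitely many generalized eigenvalues on level 2
    have hfin : {μ : ℂ | Module.End.maxGenEigenspace
        ((quo b hb 2).toLinearMap : Module.End ℂ (MvPowerSeries (Fin n) ℂ ⧸ J n 2)) μ ≠ ⊥}.Finite :=
      WellFoundedGT.finite_ne_bot_of_iSupIndep (Module.End.independent_maxGenEigenspace _)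
    have hne0 : ∀ k, Module.End.maxGenEigenspace
        ((quo b hb k).toLinearMap : Module.End ℂ (MvPowerSeries (Fin n) ℂ ⧸ J n k)) 0 = ⊥ := by
      intro k
      rw [Submodule.eq_bot_iff]
      intro x hx
      rw [Module.End.mem_maxGenEigenspace] at hx
      obtain ⟨m, hm⟩ := hx
      rw [zero_smul, sub_zero] at hm
      have hinj : ∀ y, (quo b hb k).toLinearMap y = 0 → y = 0 := by
        intro y hy
        have h1 : quo b' hb' k (quo b hb k y) = y := by
          obtain ⟨y, rfl⟩ := Ideal.Quotient.mk_surjective y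
          rw [quo_mk, quo_mk, hb'b]
        rw [← h1]
        have : quo b hb k y = 0 := hy
        rw [this, map_zero]
      have : ∀ m y, (((quo b hb k).toLinearMap :
          Module.End ℂ (MvPowerSeries (Fin n) ℂ ⧸ J n k)) ^ m) y = 0 → y = 0 := by
        intro m
        induction m with
        | zero => intro y hy; simpa using hy
        | succ m ih =>
          intro y hy
          rw [pow_succ, Module.End.mul_apply] at hy
          exact hinj _ (ih _ hy)
      exact this m x hm
    have hN : ∃ N : ℕ, 1 ≤ N ∧ ∀ μ : ℂ, Module.End.maxGenEigenspace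
        ((quo b hb 2).toLinearMap : Module.End ℂ (MvPowerSeries (Fin n) ℂ ⧸ J n 2)) μ ≠ ⊥ →
        ψ μ ^ N = 1 := by
      choose! M hM1 hM using hψtor
      refine ⟨∏ μ ∈ hfin.toFinset, M μ, ?_, ?_⟩
      · apply Nat.one_le_iff_ne_zero.2
        rw [Finset.prod_ne_zero_iff]
        intro μ hμ
        rw [Set.Finite.mem_toFinset] at hμ
        have : μ ≠ 0 := by
          rintro rfl
          exact hμ (hne0 2)
        have := hM1 μ this
        omega
      · intro μ hμ
        have hμ0 : μ ≠ 0 := by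
          rintro rfl
          exact hμ (hne0 2)
        have hmem : μ ∈ hfin.toFinset := by
          rw [Set.Finite.mem_toFinset]; exact hμ
        obtain ⟨c, hc⟩ := Finset.dvd_prod_of_mem M hmem
        rw [hc, pow_mul, hM μ hμ0, one_pow]
    obtain ⟨N, hN1, hN⟩ := hN
    refine ⟨N, hN1, ?_⟩
    -- iterates
    have hit : ∀ k m (p : MvPowerSeries (Fin n) ℂ),
        Ideal.Quotient.mk (J n k) ((subst K)^[m] p) = (D k ^ m) (Ideal.Quotient.mk (J n k) p) := by
      intro k m
      induction m with
      | zero => intro p; simp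
      | succ m ih =>
        intro p
        rw [Function.iterate_succ_apply, ih, hind, pow_succ, Module.End.mul_apply]
    have hpow : ∀ k (μ : ℂ) m, ∀ x ∈ Module.End.maxGenEigenspace
        ((quo b hb k).toLinearMap : Module.End ℂ (MvPowerSeries (Fin n) ℂ ⧸ J n k)) μ,
        (D k ^ m) x = ψ μ ^ m • x := by
      intro k μ m
      induction m with
      | zero => intro x _; simp
      | succ m ih =>
        intro x hx
        rw [pow_succ, Module.End.mul_apply, hD k μ x hx, map_smul, ih x hx, smul_smul, pow_succ,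
          mul_comm]
    have hE2 : ∀ x, (D 2 ^ N) x = x := by
      intro x
      refine span_induction' (quo b hb 2).toLinearMap (fun x => (D 2 ^ N) x = x) ?_ (by simp) ?_ x
      · intro μ x hx
        by_cases hμ : Module.End.maxGenEigenspace
          ((quo b hb 2).toLinearMap : Module.End ℂ (MvPowerSeries (Fin n) ℂ ⧸ J n 2)) μ = ⊥
        · have : x = 0 := by
            have hx' := hx
            rw [hμ] at hx'
            simpa using hx'
          rw [this, map_zero]
        · rw [hpow 2 μ N x hx, hN μ hμ, one_smul]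
      · intro x y h1 h2
        rw [map_add, h1, h2]
    -- the algebra hom (subst K)^N
    have hφ : ∃ φ : MvPowerSeries (Fin n) ℂ →ₐ[ℂ] MvPowerSeries (Fin n) ℂ,
        ∀ p, φ p = (subst K)^[N] p := by
      have : ∀ m : ℕ, ∃ φ : MvPowerSeries (Fin n) ℂ →ₐ[ℂ] MvPowerSeries (Fin n) ℂ,
        ∀ p, φ p = (subst K)^[m] p := by
        intro m
        induction m with
        | zero => exact ⟨AlgHom.id ℂ _, fun p => rfl⟩
        | succ m ih =>
          obtain ⟨φ, hφ⟩ := ih
          refine ⟨φ.comp (substAlgHom hKs), fun p => ?_⟩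
          rw [AlgHom.comp_apply, substAlgHom_apply, hφ, Function.iterate_succ_apply]
      exact this N
    obtain ⟨φ, hφ⟩ := hφ
    have hφJ : ∀ k, ∀ x ∈ J n k, φ x ∈ J n k := by
      intro k x hx
      have : ∀ m : ℕ, ∀ x ∈ J n k, (subst K)^[m] x ∈ J n k := by
        intro m
        induction m with
        | zero => intro x hx; exact hx
        | succ m ih =>
          intro x hx
          rw [Function.iterate_succ_apply]
          exact ih _ (subst_mem hK1 hx)
      rw [hφ]
      exact this N x hx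
    have hφX : ∀ i, φ (X i) - X i ∈ J n 2 := by
      intro i
      rw [← Ideal.Quotient.eq, hφ, hit 2 N, hE2]
    have hU := unip φ hφJ hφX
    have hEk : ∀ k x, (D k ^ N) x = x := by
      intro k x
      refine span_induction' (quo b hb k).toLinearMap (fun x => (D k ^ N) x = x) ?_ (by simp) ?_ x
      · intro μ x hx
        rw [hpow k μ N x hx]
        obtain ⟨p, rfl⟩ := Ideal.Quotient.mk_surjective x
        by_cases hc : ψ μ ^ N = 1
        · rw [hc, one_smul]
        have hrel : φ p - (ψ μ ^ N) • p ∈ J n k := by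
          have h1 := hpow k μ N _ hx
          rw [← hit k N, ← hφ] at h1
          have h2 : (ψ μ ^ N) • Ideal.Quotient.mk (J n k) p =
              Ideal.Quotient.mk (J n k) ((ψ μ ^ N) • p) := rfl
          rw [h2, Ideal.Quotient.eq] at h1
          exact h1
        have hall : ∀ j, j ≤ k → p ∈ J n j := by
          intro j
          induction j with
          | zero => intro _; rw [mem_J]; simp
          | succ j ih =>
            intro hj
            have h1 := ih (by omega)
            have h2 := hU j p h1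
            have h3 := J_anti (n := n) hj hrel
            have h4 : (ψ μ ^ N - 1) • p ∈ J n (j + 1) := by
              have : (ψ μ ^ N - 1) • p = (φ p - p) - (φ p - (ψ μ ^ N) • p) := by
                rw [sub_smul, one_smul]; ring
              rw [this]
              exact Ideal.sub_mem _ h2 h3
            have h5 := Submodule.smul_of_tower_mem (J n (j + 1)) ((ψ μ ^ N - 1)⁻¹) h4
            rwa [smul_smul, inv_mul_cancel₀ (sub_ne_zero.2 hc), one_smul] at h5
        have : Ideal.Quotient.mk (J n k) p = 0 := Ideal.Quotient.eq_zero_iff_mem.2 (hall k le_rfl)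
        rw [this, smul_zero]
      · intro x y h1 h2
        rw [map_add, h1, h2]
    intro i
    rw [← sub_eq_zero]
    apply eq_zero_of_all
    intro k
    rw [← Ideal.Quotient.eq, hit, hEk]

theorem main (n : ℕ) (F H : Fin n → MvPowerSeries (Fin n) ℂ)
    (hF : ∀ i, F i 0 = 0)
    (hFG : ∃ G : Fin n → MvPowerSeries (Fin n) ℂ, (∀ i, G i 0 = 0) ∧
        (∀ i, MvPowerSeries.subst G (F i) = MvPowerSeries.X i) ∧
        (∀ i, MvPowerSeries.subst F (G i) = MvPowerSeries.X i))
    (hH : ∀ i, H i 0 = 0)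
    (hHG : ∃ G : Fin n → MvPowerSeries (Fin n) ℂ, (∀ i, G i 0 = 0) ∧
        (∀ i, MvPowerSeries.subst G (H i) = MvPowerSeries.X i) ∧
        (∀ i, MvPowerSeries.subst H (G i) = MvPowerSeries.X i))
    (hrev : ∀ i, MvPowerSeries.subst (fun j => MvPowerSeries.subst F (H j)) (F i) = H i) :
    ∃ K : Fin n → MvPowerSeries (Fin n) ℂ, (∀ i, K i 0 = 0) ∧
      (∃ k : ℕ, 1 ≤ k ∧
        (fun M : Fin n → MvPowerSeries (Fin n) ℂ => fun i => MvPowerSeries.subst M (K i))^[k]
            (fun i => MvPowerSeries.X i) = (fun i => MvPowerSeries.X i)) ∧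
      (∀ i, MvPowerSeries.subst (fun j => MvPowerSeries.subst F (K j)) (F i) = K i) := by
  obtain ⟨F', hF'0, hF'1, hF'2⟩ := hFG
  obtain ⟨H', hH'0, hH'1, hH'2⟩ := hHG
  have jF : ∀ i, F i ∈ J n 1 := fun i => mem_J_one (hF i)
  have jF' : ∀ i, F' i ∈ J n 1 := fun i => mem_J_one (hF'0 i)
  have jH : ∀ i, H i ∈ J n 1 := fun i => mem_J_one (hH i)
  have jH' : ∀ i, H' i ∈ J n 1 := fun i => mem_J_one (hH'0 i)
  have sF := hasSubst jF
  have sF' := hasSubst jF'
  have sH := hasSubst jH
  have sH' := hasSubst jH'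
  have hself : ∀ p : MvPowerSeries (Fin n) ℂ, subst (fun i => X i) p = p := by
    intro p
    have := congrFun (subst_self (σ := Fin n) (R := ℂ)) p
    exact this
  have c1 : ∀ p : MvPowerSeries (Fin n) ℂ, subst F (subst F' p) = p := by
    intro p
    rw [subst_comp_subst_apply sF' sF]
    simp only [hF'2]
    exact hself p
  have c2 : ∀ p : MvPowerSeries (Fin n) ℂ, subst F' (subst F p) = p := by
    intro p
    rw [subst_comp_subst_apply sF sF']
    simp only [hF'1]
    exact hself p
  have c3 : ∀ p : MvPowerSeries (Fin n) ℂ, subst H' (subst H p) = p := by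
    intro p
    rw [subst_comp_subst_apply sH sH']
    simp only [hH'1]
    exact hself p
  have c4 : ∀ p : MvPowerSeries (Fin n) ℂ, subst F (subst H (subst F p)) = subst H p := by
    intro p
    rw [subst_comp_subst_apply sF sH, subst_comp_subst_apply _ sF]
    · congr 1
      funext i
      rw [subst_comp_subst_apply sH sF, hrev]
    · exact hasSubst fun i => subst_mem jH (jF i)
  obtain ⟨K, hK1, hKrev, N, hN1, hN⟩ := abstract_main (substAlgHom sF) (substAlgHom sF')
    (substAlgHom sH) (substAlgHom sH')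
    (fun k x hx => by rw [substAlgHom_apply]; exact subst_mem jF hx)
    (fun k x hx => by rw [substAlgHom_apply]; exact subst_mem jF' hx)
    (fun k x hx => by rw [substAlgHom_apply]; exact subst_mem jH hx)
    (fun k x hx => by rw [substAlgHom_apply]; exact subst_mem jH' hx)
    (fun x => by simp only [substAlgHom_apply]; exact c1 x)
    (fun x => by simp only [substAlgHom_apply]; exact c2 x)
    (fun x => by simp only [substAlgHom_apply]; exact c3 x)
    (fun x => by simp only [substAlgHom_apply]; exact c4 x)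
  have sK := hasSubst hK1
  refine ⟨K, fun i => zero_of_mem_J_one (hK1 i), ⟨N, hN1, ?_⟩, ?_⟩
  · set T := (fun M : Fin n → MvPowerSeries (Fin n) ℂ => fun i => MvPowerSeries.subst M (K i))
      with hT
    have key : ∀ m : ℕ, (∀ i, (T^[m] (fun i => X i)) i ∈ J n 1) ∧
        ∀ p : MvPowerSeries (Fin n) ℂ, subst (T^[m] (fun i => X i)) p = (subst K)^[m] p := by
      intro m
      induction m with
      | zero => exact ⟨fun i => X_mem i, fun p => hself p⟩
      | succ m ih =>
        obtain ⟨ih1, ih2⟩ := ih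
        rw [Function.iterate_succ_apply' T]
        have hTi : ∀ M i, T M i = subst M (K i) := fun M i => rfl
        refine ⟨fun i => ?_, fun p => ?_⟩
        · rw [hTi]
          exact subst_mem ih1 (hK1 i)
        · have := subst_comp_subst_apply sK (hasSubst ih1) p
          rw [Function.iterate_succ_apply, ← ih2, this]
    funext i
    have h1 := (key N).2 (X i)
    rw [subst_X (hasSubst (key N).1), hN i] at h1
    exact h1
  · intro i
    have h1 := hKrev i
    simp only [substAlgHom_apply] at h1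
    rw [subst_X sF, subst_comp_subst_apply sK sF] at h1
    exact h1

end Pool.Agent.Helper9.RevMain
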