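import Mathlib

set_option autoImplicit false

namespace Pool.Agent.Helper9.SatCol

/-- adjacency of the circulant graph C_15(1,3,4,5) -/
def adjB (u v : Fin 15) : Bool :=
  let d := (v.val + 15 - u.val) % 15
  d == 1 || d == 3 || d == 4 || d == 5 || d == 10 || d == 11 || d == 12 || d == 14

def G : SimpleGraph (Fin 15) where
  Adj u v := adjB u v = true
  symm := ⟨by decide +kernel⟩
  loopless := ⟨by decide +kernel⟩

instance : DecidableRel G.Adj := fun u v => inferInstanceAs (Decidable (adjB u v = true))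

lemma no_four : ∀ a b : Fin 15, a < b → ¬ G.Adj a b → ∀ c, b < c → ¬ G.Adj a c → ¬ G.Adj b c →
    ∀ d, c < d → ¬ G.Adj a d → ¬ G.Adj b d → G.Adj c d := by
  decide +kernel

def T : List (ℕ × ℕ × ℕ) :=
  [(0, 2, 8), (0, 2, 9), (0, 6, 8), (0, 6, 13), (0, 7, 9), (0, 7, 13), (1, 3, 9), (1, 3, 10),
   (1, 7, 9), (1, 7, 14), (1, 8, 10), (1, 8, 14), (2, 4, 10), (2, 4, 11), (2, 8, 10), (2, 9, 11),
   (3, 5, 11), (3, 5, 12), (3, 9, 11), (3, 10, 12), (4, 6, 12), (4, 6, 13), (4, 10, 12),
   (4, 11, 13), (5, 7, 13), (5, 7, 14), (5, 11, 13), (5, 12, 14), (6, 8, 14), (6, 12, 14)]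

lemma mem_T : ∀ a b : Fin 15, a < b → ¬ G.Adj a b → ∀ c, b < c → ¬ G.Adj a c → ¬ G.Adj b c →
    (a.val, b.val, c.val) ∈ T := by
  decide +kernel

/-- three elements of a finset of card 3 in `Fin 15`, sorted -/
lemma sorted_three (s : Finset (Fin 15)) (hs : s.card = 3) :
    ∃ a b c, a < b ∧ b < c ∧ s = {a, b, c} := by
  obtain ⟨x, y, z, hxy, hxz, hyz, rfl⟩ := Finset.card_eq_three.1 hs
  rcases lt_trichotomy x y with h1 | h1 | h1
  · rcases lt_trichotomy y z with h2 | h2 | h2
    · exact ⟨x, y, z, h1, h2, rfl⟩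
    · exact absurd h2 hyz
    · rcases lt_trichotomy x z with h3 | h3 | h3
      · exact ⟨x, z, y, h3, h2, by ext; simp; tauto⟩
      · exact absurd h3 hxz
      · exact ⟨z, x, y, h3, h1, by ext; simp; tauto⟩
  · exact absurd h1 hxy
  · rcases lt_trichotomy x z with h2 | h2 | h2
    · exact ⟨y, x, z, h1, h2, by ext; simp; tauto⟩
    · exact absurd h2 hxz
    · rcases lt_trichotomy y z with h3 | h3 | h3
      · exact ⟨y, z, x, h3, h2, by ext; simp; tauto⟩
      · exact absurd h3 hyz
      · exact ⟨z, y, x, h3, h1, by ext; simp; tauto⟩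

lemma indep_card_le (s : Finset (Fin 15)) (hs : ∀ u ∈ s, ∀ v ∈ s, ¬ G.Adj u v) : s.card ≤ 3 := by
  by_contra hlt
  push Not at hlt
  obtain ⟨t, hts, ht4⟩ := Finset.exists_subset_card_eq hlt
  -- sort the four elements
  have hcard : t.card = 4 := ht4
  let e := t.orderEmbOfFin hcard
  have hmem : ∀ i, e i ∈ s := fun i => hts (t.orderEmbOfFin_mem hcard i)
  have hlt : ∀ i j : Fin 4, i < j → e i < e j := fun i j h => (OrderEmbedding.lt_iff_lt _).2 h
  exact hs _ (hmem 2) _ (hmem 3)
    (no_four (e 0) (e 1) (hlt 0 1 (by decide)) (hs _ (hmem 0) _ (hmem 1))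
    (e 2) (hlt 1 2 (by decide)) (hs _ (hmem 0) _ (hmem 2)) (hs _ (hmem 1) _ (hmem 2))
    (e 3) (hlt 2 3 (by decide)) (hs _ (hmem 0) _ (hmem 3)) (hs _ (hmem 1) _ (hmem 3)))

lemma indepNum_eq : G.indepNum = 3 := by
  apply le_antisymm
  · obtain ⟨s, hs⟩ := G.exists_isNIndepSet_indepNum
    rw [← hs.card_eq]
    refine indep_card_le s fun u hu v hv huv => ?_
    have hne : u ≠ v := huv.ne
    exact hs.isIndepSet hu hv hne huv
  · have h : G.IsIndepSet (({0, 2, 8} : Finset (Fin 15)) : Set (Fin 15)) := by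
      intro u hu v hv _
      revert u v
      decide +kernel
    have := h.card_le_indepNum
    simpa using this

/-- exact cover search -/
def go : ℕ → List ℕ → Bool
  | 0, cov => (List.range 15).all (fun i => cov.elem i)
  | k+1, cov => match (List.range 15).find? (fun i => !cov.elem i) with
    | none => true
    | some v => T.any (fun t => (t.1 == v || t.2.1 == v || t.2.2 == v) &&
        (!(cov.elem t.1) && (!(cov.elem t.2.1) && (!(cov.elem t.2.2) &&
          go k (t.1 :: t.2.1 :: t.2.2 :: cov)))))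

lemma go_false : go 5 [] = false := by decide +kernel

lemma go_sound (C : Fin 15 → Fin 5)
    (hC : ∀ v, ∃ a b c : Fin 15, (a.val, b.val, c.val) ∈ T ∧ ∀ u, C u = C v ↔ (u = a ∨ u = b ∨ u = c)) :
    ∀ (k : ℕ) (cov : List ℕ) (S : Finset (Fin 5)), S.card + k = 5 →
      (∀ u : Fin 15, u.val ∈ cov ↔ C u ∈ S) → go k cov = true := by
  intro k
  induction k with
  | zero =>
    intro cov S hS hcov
    have hSu : S = Finset.univ := by
      apply Finset.eq_univ_of_card
      simpa using hS
    simp only [go, List.all_eq_true, List.mem_range, List.elem_iff]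
    intro i hi
    have := (hcov ⟨i, hi⟩).2 (by rw [hSu]; exact Finset.mem_univ _)
    exact this
  | succ k ih =>
    intro cov S hS hcov
    rw [go]
    split
    · rfl
    · rename_i v hv
      have hv1 := List.find?_some hv
      have hv2 := List.mem_of_find?_eq_some hv
      rw [List.mem_range] at hv2
      simp only [Bool.not_eq_true', List.elem_eq_mem, decide_eq_false_iff_not] at hv1
      set v' : Fin 15 := ⟨v, hv2⟩ with hv'
      obtain ⟨a, b, c, hT, hcl⟩ := hC v'
      have hvS : C v' ∉ S := fun h => hv1 ((hcov v').2 h)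
      have hnot : ∀ u, C u = C v' → u.val ∉ cov := by
        intro u hu hmem
        exact hvS (hu ▸ (hcov u).1 hmem)
      have ha := hnot a ((hcl a).2 (Or.inl rfl))
      have hb := hnot b ((hcl b).2 (Or.inr (Or.inl rfl)))
      have hc := hnot c ((hcl c).2 (Or.inr (Or.inr rfl)))
      rw [List.any_eq_true]
      refine ⟨(a.val, b.val, c.val), hT, ?_⟩
      have hrec := ih (a.val :: b.val :: c.val :: cov) (insert (C v') S)
        (by rw [Finset.card_insert_of_notMem hvS]; omega)
        (by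
          intro u
          rw [Finset.mem_insert, hcl u, ← hcov u]
          simp only [List.mem_cons, Fin.val_inj]
          tauto)
      have hvabc := (hcl v').1 rfl
      simp only [Bool.and_eq_true, Bool.or_eq_true, beq_iff_eq, Bool.not_eq_true',
        List.elem_eq_mem, decide_eq_false_iff_not]
      refine ⟨?_, ha, hb, hc, hrec⟩
      rcases hvabc with h | h | h
      · left; left; rw [← h]
      · left; right; rw [← h]
      · right; rw [← h]

lemma not_colorable : ¬ G.Colorable 5 := by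
  rintro ⟨C⟩
  have hle : ∀ i : Fin 5, (Finset.univ.filter (fun v => C v = i)).card ≤ 3 := by
    intro i
    refine indep_card_le _ fun u hu v hv huv => ?_
    simp only [Finset.mem_filter, Finset.mem_univ, true_and] at hu hv
    exact C.valid huv (hu.trans hv.symm)
  have hsum : ∑ i : Fin 5, (Finset.univ.filter (fun v => C v = i)).card = 15 := by
    have := Finset.card_eq_sum_card_fiberwise (f := fun v => C v) (s := (Finset.univ : Finset (Fin 15)))
      (t := (Finset.univ : Finset (Fin 5))) (fun _ _ => Finset.mem_univ _)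
    rw [← this]
    rfl
  have heq : ∀ i : Fin 5, (Finset.univ.filter (fun v => C v = i)).card = 3 := by
    have h2 : ∑ i : Fin 5, (Finset.univ.filter (fun v => C v = i)).card = ∑ i : Fin 5, 3 := by
      rw [hsum]; simp
    have := (Finset.sum_eq_sum_iff_of_le (fun i _ => hle i)).1 h2
    intro i
    exact this i (Finset.mem_univ _)
  have key := go_sound (fun v => C v) (by
    intro v
    obtain ⟨a, b, c, hab, hbc, hs⟩ := sorted_three _ (heq (C v))
    have hmem : ∀ u, C u = C v ↔ (u = a ∨ u = b ∨ u = c) := by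
      intro u
      have : u ∈ Finset.univ.filter (fun w => C w = C v) ↔ u ∈ ({a, b, c} : Finset (Fin 15)) := by
        rw [hs]
      simpa using this
    have hnadj : ∀ x y, C x = C v → C y = C v → ¬ G.Adj x y := by
      intro x y hx hy hxy
      exact C.valid hxy (hx.trans hy.symm)
    have ha := (hmem a).2 (Or.inl rfl)
    have hb := (hmem b).2 (Or.inr (Or.inl rfl))
    have hc := (hmem c).2 (Or.inr (Or.inr rfl))
    exact ⟨a, b, c, mem_T a b hab (hnadj _ _ ha hb) c hbc (hnadj _ _ ha hc) (hnadj _ _ hb hc), hmem⟩)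
    5 [] ∅ (by simp) (by simp)
  rw [go_false] at key
  exact absurd key (by decide)

/-- 2-fold colouring with 10 colours -/
def g2 (v : Fin 15) : Finset (Fin 10) :=
  match v with
  | 0 => {0, 1} | 1 => {2, 3} | 2 => {0, 1} | 3 => {2, 4} | 4 => {5, 6} | 5 => {7, 8}
  | 6 => {5, 9} | 7 => {3, 7} | 8 => {0, 1} | 9 => {3, 4} | 10 => {2, 6} | 11 => {4, 8}
  | 12 => {6, 9} | 13 => {5, 8} | 14 => {7, 9}

/-- 3-fold colouring with 15 colours -/
def g3 (v : Fin 15) : Finset (Fin 15) := {v, v + 13, v + 7}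

lemma g2_card : ∀ v, (g2 v).card = 2 := by decide +kernel
lemma g2_disj : ∀ u v, G.Adj u v → Disjoint (g2 u) (g2 v) := by decide +kernel
lemma g3_card : ∀ v, (g3 v).card = 3 := by decide +kernel
lemma g3_disj : ∀ u v, G.Adj u v → Disjoint (g3 u) (g3 v) := by decide +kernel

/-- counting -/
lemma count {k m : ℕ} (g : Fin 15 → Finset (Fin m)) (hk : ∀ v, (g v).card = k) :
    ∑ c : Fin m, (Finset.univ.filter (fun v => c ∈ g v)).card = 15 * k := by
  have h1 : ∑ c : Fin m, (Finset.univ.filter (fun v => c ∈ g v)).card = ∑ v : Fin 15, (g v).card := by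
    simp only [Finset.card_filter]
    rw [Finset.sum_comm]
    refine Finset.sum_congr rfl fun v _ => ?_
    rw [← Finset.card_filter]
    congr 1
    ext c
    simp
  rw [h1, Finset.sum_congr rfl (fun v _ => hk v)]
  simp

lemma class_le {m : ℕ} (g : Fin 15 → Finset (Fin m))
    (hd : ∀ u v, G.Adj u v → Disjoint (g u) (g v)) (c : Fin m) :
    (Finset.univ.filter (fun v => c ∈ g v)).card ≤ 3 := by
  refine indep_card_le _ fun u hu v hv huv => ?_
  simp only [Finset.mem_filter, Finset.mem_univ, true_and] at hu hv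
  exact (Finset.disjoint_left.1 (hd u v huv)) hu hv

lemma two_fold : sInf {m : ℕ | ∃ g : Fin 15 → Finset (Fin m),
    (∀ v, (g v).card = 2) ∧ ∀ u v, G.Adj u v → Disjoint (g u) (g v)} = 10 := by
  apply le_antisymm
  · exact Nat.sInf_le ⟨g2, g2_card, g2_disj⟩
  · refine le_csInf ⟨10, g2, g2_card, g2_disj⟩ ?_
    rintro m ⟨g, hk, hd⟩
    have h1 := count g hk
    have h2 : ∑ c : Fin m, (Finset.univ.filter (fun v => c ∈ g v)).card ≤ ∑ _c : Fin m, 3 :=
      Finset.sum_le_sum fun c _ => class_le g hd c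
    rw [h1] at h2
    simp at h2
    omega

theorem main : ¬ (∀ (n : ℕ) (G : SimpleGraph (Fin n)) (k : ℕ), 1 ≤ k →
      (∀ f : Fin n → Finset (Fin (sInf {m : ℕ | ∃ g : Fin n → Finset (Fin m),
            (∀ v, (g v).card = k) ∧ ∀ u v, G.Adj u v → Disjoint (g u) (g v)})),
          (∀ v, (f v).card = k) →
          (∀ u v, G.Adj u v → Disjoint (f u) (f v)) →
          ∀ c, (Finset.univ.filter (fun v => c ∈ f v)).card = G.indepNum) →
      ((sInf {m : ℕ | ∃ g : Fin n → Finset (Fin m),
            (∀ v, (g v).card = k + 1) ∧ ∀ u v, G.Adj u v → Disjoint (g u) (g v)} : ℕ) : ℕ∞)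
        = ((sInf {m : ℕ | ∃ g : Fin n → Finset (Fin m),
            (∀ v, (g v).card = k) ∧ ∀ u v, G.Adj u v → Disjoint (g u) (g v)} : ℕ) : ℕ∞)
          + G.chromaticNumber) := by
  intro H
  have h := H 15 G 2 (by norm_num) (by
    intro f hf1 hf2 c
    rw [indepNum_eq]
    have h1 := count f hf1
    have hle := class_le f hf2
    have h2 : ∑ c, (Finset.univ.filter (fun v => c ∈ f v)).card
        = ∑ _c : Fin (sInf {m : ℕ | ∃ g : Fin 15 → Finset (Fin m),
            (∀ v, (g v).card = 2) ∧ ∀ u v, G.Adj u v → Disjoint (g u) (g v)}), 3 := by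
      rw [h1, Finset.sum_const, Finset.card_univ, Fintype.card_fin, two_fold]
      rfl
    exact (Finset.sum_eq_sum_iff_of_le (fun i _ => hle i)).1 h2 c (Finset.mem_univ _))
  rw [two_fold] at h
  have h3 : sInf {m : ℕ | ∃ g : Fin 15 → Finset (Fin m),
      (∀ v, (g v).card = 2 + 1) ∧ ∀ u v, G.Adj u v → Disjoint (g u) (g v)} ≤ 15 :=
    Nat.sInf_le ⟨g3, g3_card, g3_disj⟩
  have h4 : (6 : ℕ∞) ≤ G.chromaticNumber := by
    by_contra hlt
    push Not at hlt
    apply not_colorable
    have h5 : G.chromaticNumber ≤ (5 : ℕ) := by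
      have : G.chromaticNumber < ((5 : ℕ) : ℕ∞) + 1 := by
        refine lt_of_lt_of_eq hlt ?_
        norm_num
      exact Order.le_of_lt_add_one this
    exact SimpleGraph.chromaticNumber_le_iff_colorable.1 h5
  have h5 : ((10 : ℕ) : ℕ∞) + 6 ≤ ((15 : ℕ) : ℕ∞) := by
    calc ((10 : ℕ) : ℕ∞) + 6 ≤ ((10 : ℕ) : ℕ∞) + G.chromaticNumber := by gcongr
      _ = _ := h.symm
      _ ≤ ((15 : ℕ) : ℕ∞) := by exact_mod_cast h3
  norm_cast at h5

end Pool.Agent.Helper9.SatCol
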