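import Mathlib

set_option autoImplicit false

namespace Pool.Agent.Helper9.Semilinear

/-- the sign `(-1)^n` -/
def eps (n : ℤ) : ℤ := ((n.negOnePow : ℤˣ) : ℤ)

lemma eps_add (a b : ℤ) : eps (a + b) = eps a * eps b := by
  unfold eps; rw [Int.negOnePow_add]; push_cast; rfl
lemma eps_neg (a : ℤ) : eps (-a) = eps a := by
  unfold eps; rw [Int.negOnePow_neg]
lemma eps_sq (a : ℤ) : eps a * eps a = 1 := by
  rw [← eps_add]; unfold eps; rw [Int.negOnePow_even _ ⟨a, rfl⟩]; rfl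
lemma eps_zero : eps 0 = 1 := by unfold eps; simp
lemma eps_even {a : ℤ} (h : Even a) : eps a = 1 := by
  unfold eps; rw [Int.negOnePow_even _ h]; rfl
lemma eps_one : eps 1 = -1 := by unfold eps; simp
lemma eps_neg_one : eps (-1) = -1 := by rw [eps_neg, eps_one]

/-- The Klein bottle group. -/
@[ext] structure Kb where
  m : ℤ
  n : ℤ

namespace Kb
instance : Mul Kb := ⟨fun x y => ⟨x.m + eps x.n * y.m, x.n + y.n⟩⟩
instance : One Kb := ⟨⟨0, 0⟩⟩
instance : Inv Kb := ⟨fun x => ⟨-(eps x.n * x.m), -x.n⟩⟩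
@[simp] lemma mul_m (x y : Kb) : (x * y).m = x.m + eps x.n * y.m := rfl
@[simp] lemma mul_n (x y : Kb) : (x * y).n = x.n + y.n := rfl
@[simp] lemma one_m : (1 : Kb).m = 0 := rfl
@[simp] lemma one_n : (1 : Kb).n = 0 := rfl
@[simp] lemma inv_m (x : Kb) : (x⁻¹).m = -(eps x.n * x.m) := rfl
@[simp] lemma inv_n (x : Kb) : (x⁻¹).n = -x.n := rfl

instance : Group Kb := Group.ofLeftAxioms
  (by
    intro x y z
    ext
    · simp [eps_add]; ring
    · simp; ring)
  (by intro x; ext <;> simp [eps_zero])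
  (by intro x; ext <;> simp [eps_neg])

@[simp] lemma mul_m' (x y : Kb) : (x * y).m = x.m + eps x.n * y.m := rfl
@[simp] lemma mul_n' (x y : Kb) : (x * y).n = x.n + y.n := rfl
@[simp] lemma one_m' : (1 : Kb).m = 0 := rfl
@[simp] lemma one_n' : (1 : Kb).n = 0 := rfl
@[simp] lemma inv_m' (x : Kb) : (x⁻¹).m = -(eps x.n * x.m) := rfl
@[simp] lemma inv_n' (x : Kb) : (x⁻¹).n = -x.n := rfl
end Kb

/-- the positive cones -/
def cone (i : ℤ) (x : Kb) : Prop :=
  (i = 0 ∧ Even x.n ∧ (0 < x.m ∨ (x.m = 0 ∧ 0 < x.n))) ∨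
  (i ≠ 0 ∧ (0 < x.n ∨ (x.n = 0 ∧ 0 < x.m)))

lemma cone_mul {i : ℤ} {x y : Kb} (hx : cone i x) (hy : cone i y) : cone i (x * y) := by
  unfold cone at *
  by_cases hi : i = 0
  · left
    rcases hx with ⟨_, hx, hx'⟩ | ⟨h, _⟩
    · rcases hy with ⟨_, hy, hy'⟩ | ⟨h, _⟩
      · refine ⟨hi, ?_, ?_⟩
        · rw [Kb.mul_n']; exact hx.add hy
        · rw [Kb.mul_m', Kb.mul_n', eps_even hx]; omega
      · exact absurd hi h
    · exact absurd hi h
  · right
    rcases hx with ⟨h, _⟩ | ⟨_, hx'⟩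
    · exact absurd h hi
    · rcases hy with ⟨h, _⟩ | ⟨_, hy'⟩
      · exact absurd h hi
      · refine ⟨hi, ?_⟩
        rw [Kb.mul_m', Kb.mul_n']
        rcases hx' with hx' | ⟨hx', hx''⟩
        · left; omega
        · rw [hx', eps_zero]; omega

lemma not_cone_one (i : ℤ) : ¬ cone i 1 := by
  unfold cone; simp

lemma cone_tri {i : ℤ} {x : Kb} (h : i = 0 → Even x.n) (hx : x ≠ 1) : cone i x ∨ cone i x⁻¹ := by
  unfold cone
  have hx' : x.m ≠ 0 ∨ x.n ≠ 0 := by
    by_contra hcon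
    push Not at hcon
    exact hx (Kb.ext hcon.1 hcon.2)
  by_cases hi : i = 0
  · have he := h hi
    rw [Kb.inv_m', Kb.inv_n', eps_even he]
    have hne : Even (-x.n) := he.neg
    simp only [hi, he, hne, true_and, ne_eq, not_true_eq_false, false_and, or_false]
    omega
  · rw [Kb.inv_m', Kb.inv_n']
    simp only [hi, false_and, false_or, ne_eq, not_false_eq_true, true_and]
    rcases lt_trichotomy x.n 0 with h1 | h1 | h1
    · right; left; omega
    · rw [h1, eps_zero]; omega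
    · left; left; exact h1

lemma cone_even {i : ℤ} {x : Kb} (h : cone i x) (hi : i = 0) : Even x.n := by
  rcases h with ⟨_, h, _⟩ | ⟨h, _⟩
  · exact h
  · exact absurd hi h

/-- The group `K ≀ ℤ` (with left bounded supports). -/
@[ext] structure G where
  f : ℤ → Kb
  n : ℤ
  h : ∃ m, ∀ i < m, f i = 1

namespace G
instance : Mul G := ⟨fun x y => ⟨fun i => x.f i * y.f (i - x.n), x.n + y.n, by
  obtain ⟨m, hm⟩ := x.h
  obtain ⟨k, hk⟩ := y.h
  refine ⟨min m (k + x.n), fun i hi => ?_⟩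
  show x.f i * y.f (i - x.n) = 1
  rw [hm i (by omega), hk _ (by omega), mul_one]⟩⟩
instance : One G := ⟨⟨fun _ => 1, 0, ⟨0, fun _ _ => rfl⟩⟩⟩
instance : Inv G := ⟨fun x => ⟨fun i => (x.f (i + x.n))⁻¹, -x.n, by
  obtain ⟨m, hm⟩ := x.h
  refine ⟨m - x.n, fun i hi => ?_⟩
  show (x.f (i + x.n))⁻¹ = 1
  rw [hm _ (by omega), inv_one]⟩⟩

@[simp] lemma mul_f (x y : G) (i : ℤ) : (x * y).f i = x.f i * y.f (i - x.n) := rfl
@[simp] lemma mul_n (x y : G) : (x * y).n = x.n + y.n := rfl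
@[simp] lemma one_f (i : ℤ) : (1 : G).f i = 1 := rfl
@[simp] lemma one_n : (1 : G).n = 0 := rfl
@[simp] lemma inv_f (x : G) (i : ℤ) : (x⁻¹).f i = (x.f (i + x.n))⁻¹ := rfl
@[simp] lemma inv_n (x : G) : (x⁻¹).n = -x.n := rfl

instance : Group G := Group.ofLeftAxioms
  (by
    intro x y z
    apply G.ext
    · funext i
      simp only [mul_f, mul_n, mul_assoc]
      congr 3
      ring
    · simp only [mul_n]; ring)
  (by
    intro x
    apply G.ext
    · funext i; simp only [mul_f, one_f, one_n, sub_zero, one_mul]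
    · simp only [mul_n, one_n, zero_add])
  (by
    intro x
    apply G.ext
    · funext i
      simp only [mul_f, inv_f, inv_n, one_f, sub_neg_eq_add]
      exact inv_mul_cancel _
    · simp only [mul_n, inv_n, one_n]; ring)

@[simp] lemma mul_f' (x y : G) (i : ℤ) : (x * y).f i = x.f i * y.f (i - x.n) := rfl
@[simp] lemma mul_n' (x y : G) : (x * y).n = x.n + y.n := rfl
@[simp] lemma one_f' (i : ℤ) : (1 : G).f i = 1 := rfl
@[simp] lemma one_n' : (1 : G).n = 0 := rfl
@[simp] lemma inv_f' (x : G) (i : ℤ) : (x⁻¹).f i = (x.f (i + x.n))⁻¹ := rfl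
@[simp] lemma inv_n' (x : G) : (x⁻¹).n = -x.n := rfl
end G

def InU (f : ℤ → Kb) : Prop := (∀ i < 0, f i = 1) ∧ Even (f 0).n
def Pos (f : ℤ → Kb) : Prop := ∃ i, 0 ≤ i ∧ (∀ j < i, f j = 1) ∧ cone i (f i)

lemma Pos.inU {f : ℤ → Kb} (h : Pos f) : InU f := by
  obtain ⟨i, hi, hj, hc⟩ := h
  refine ⟨fun j hj' => hj j (by omega), ?_⟩
  rcases hi.lt_or_eq with h0 | h0
  · rw [hj 0 h0]; simp
  · subst h0; exact cone_even hc rfl

/-- the cone -/
def P (g : G) : Prop := g = 1 ∨ (g.n = 0 ∧ Pos g.f) ∨ (0 < g.n ∧ InU g.f)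

lemma P.inU {g : G} (h : P g) : InU g.f := by
  rcases h with rfl | ⟨_, h⟩ | ⟨_, h⟩
  · exact ⟨fun _ _ => rfl, by simp⟩
  · exact h.inU
  · exact h

lemma P.nonneg {g : G} (h : P g) : 0 ≤ g.n := by
  rcases h with rfl | ⟨h, _⟩ | ⟨h, _⟩
  · simp
  · omega
  · omega

lemma inU_mul {x y : G} (hx : InU x.f) (hy : InU y.f) (hn : 0 ≤ x.n) : InU (x * y).f := by
  refine ⟨fun i hi => ?_, ?_⟩
  · rw [G.mul_f', hx.1 i hi, hy.1 _ (by omega), mul_one]
  · rw [G.mul_f', Kb.mul_n']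
    rcases hn.lt_or_eq with h | h
    · rw [hy.1 _ (by omega)]; simpa using hx.2
    · rw [← h, sub_zero]; exact hx.2.add hy.2

lemma P_mul {x y : G} (hx : P x) (hy : P y) : P (x * y) := by
  rcases hx with rfl | hx
  · rwa [one_mul]
  rcases hy with rfl | hy
  · rw [mul_one]; exact Or.inr hx
  have hxU : InU x.f := P.inU (Or.inr hx)
  have hyU : InU y.f := P.inU (Or.inr hy)
  have hxn : 0 ≤ x.n := P.nonneg (Or.inr hx)
  have hyn : 0 ≤ y.n := P.nonneg (Or.inr hy)
  have hU := inU_mul hxU hyU hxn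
  rcases hx with ⟨hx0, hx⟩ | ⟨hx0, _⟩
  · rcases hy with ⟨hy0, hy⟩ | ⟨hy0, _⟩
    · right; left
      refine ⟨by rw [G.mul_n']; omega, ?_⟩
      obtain ⟨i, hi, hi1, hi2⟩ := hx
      obtain ⟨j, hj, hj1, hj2⟩ := hy
      rcases lt_trichotomy i j with h | h | h
      · refine ⟨i, hi, fun k hk => ?_, ?_⟩
        · rw [G.mul_f', hi1 k hk, hx0, sub_zero, hj1 k (by omega), mul_one]
        · rw [G.mul_f', hx0, sub_zero, hj1 i h, mul_one]; exact hi2
      · subst h
        refine ⟨i, hi, fun k hk => ?_, ?_⟩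
        · rw [G.mul_f', hi1 k hk, hx0, sub_zero, hj1 k hk, mul_one]
        · rw [G.mul_f', hx0, sub_zero]; exact cone_mul hi2 hj2
      · refine ⟨j, hj, fun k hk => ?_, ?_⟩
        · rw [G.mul_f', hi1 k (by omega), hx0, sub_zero, hj1 k hk, mul_one]
        · rw [G.mul_f', hx0, sub_zero, hi1 j h, one_mul]; exact hj2
    · right; right
      exact ⟨by rw [G.mul_n']; omega, hU⟩
  · right; right
    exact ⟨by rw [G.mul_n']; omega, hU⟩

lemma not_Pos_one {f : ℤ → Kb} (h : Pos f) (h1 : ∀ i, f i = 1) : False := by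
  obtain ⟨i, _, _, hc⟩ := h
  rw [h1 i] at hc
  exact not_cone_one i hc

lemma P_antisymm {x : G} (hx : P x) (hx' : P x⁻¹) : x = 1 := by
  rcases hx with rfl | ⟨h0, hx⟩ | ⟨h0, _⟩
  · rfl
  · rcases hx' with h | ⟨h0', hx'⟩ | ⟨h0', _⟩
    · rwa [inv_eq_one] at h
    · exfalso
      obtain ⟨i, hi, hi1, hi2⟩ := hx
      obtain ⟨j, hj, hj1, hj2⟩ := hx'
      simp only [G.inv_f', h0, add_zero, inv_eq_one] at hj1 hj2
      rcases lt_trichotomy i j with h | h | h
      · rw [hj1 i h] at hi2; exact not_cone_one _ hi2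
      · subst h
        have := cone_mul hi2 hj2
        rw [mul_inv_cancel] at this
        exact not_cone_one _ this
      · rw [hi1 j h, inv_one] at hj2; exact not_cone_one _ hj2
    · rw [G.inv_n'] at h0'; omega
  · have := P.nonneg hx'
    rw [G.inv_n'] at this; omega

lemma Pos_tri {x : G} (hn : x.n = 0) (hU : InU x.f) : x = 1 ∨ P x ∨ P x⁻¹ := by
  classical
  by_cases h1 : ∀ i, x.f i = 1
  · left
    apply G.ext
    · funext i; exact h1 i
    · exact hn
  · right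
    push Not at h1
    have hex : ∃ k : ℕ, x.f k ≠ 1 := by
      obtain ⟨i, hi⟩ := h1
      have hi0 : 0 ≤ i := by
        by_contra hneg
        exact hi (hU.1 i (by omega))
      exact ⟨i.toNat, by rwa [Int.toNat_of_nonneg hi0]⟩
    have hmin : ∀ j < ((Nat.find hex : ℕ) : ℤ), x.f j = 1 := by
      intro j hj
      by_cases hj0 : 0 ≤ j
      · have := Nat.find_min hex (m := j.toNat) (by omega)
        push Not at this
        rwa [Int.toNat_of_nonneg hj0] at this
      · exact hU.1 j (by omega)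
    have hne := Nat.find_spec hex
    have htri := cone_tri (i := ((Nat.find hex : ℕ) : ℤ)) (x := x.f ((Nat.find hex : ℕ) : ℤ))
      (fun h => by rw [h]; exact hU.2) hne
    rcases htri with h | h
    · left; right; left
      exact ⟨hn, _, Int.natCast_nonneg _, hmin, h⟩
    · right; right; left
      refine ⟨by rw [G.inv_n', hn]; rfl, _, Int.natCast_nonneg (Nat.find hex), ?_, ?_⟩
      · intro j hj
        rw [G.inv_f', hn, add_zero, hmin j hj, inv_one]
      · rw [G.inv_f', hn, add_zero]; exact h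

lemma P_chain_lt {a b : G} (ha : P a) (hb : P b) (h : a.n < b.n) : P (b * a⁻¹) := by
  right; right
  refine ⟨by rw [G.mul_n', G.inv_n']; omega, ?_, ?_⟩
  · intro i hi
    rw [G.mul_f', G.inv_f', hb.inU.1 i hi, ha.inU.1 _ (by omega), inv_one, mul_one]
  · rw [G.mul_f', G.inv_f', ha.inU.1 _ (by omega), inv_one, mul_one]
    exact hb.inU.2

lemma P_chain {a b : G} (ha : P a) (hb : P b) : P (b * a⁻¹) ∨ P (a * b⁻¹) := by
  rcases lt_trichotomy a.n b.n with h | h | h
  · left; exact P_chain_lt ha hb h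
  · have hU : InU (b * a⁻¹).f := by
      refine ⟨fun i hi => ?_, ?_⟩
      · rw [G.mul_f', G.inv_f', hb.inU.1 i hi, ha.inU.1 _ (by omega), inv_one, mul_one]
      · rw [G.mul_f', G.inv_f', Kb.mul_n', Kb.inv_n',
          show (0 : ℤ) - b.n + a.n = 0 by omega]
        exact hb.inU.2.add ha.inU.2.neg
    rcases Pos_tri (by rw [G.mul_n', G.inv_n']; omega) hU with h1 | h1 | h1
    · left; rw [h1]; exact Or.inl rfl
    · left; exact h1
    · right; rwa [mul_inv_rev, inv_inv] at h1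
  · right; exact P_chain_lt hb ha h

lemma P_directed (a b : G) : ∃ c : G, P (c * a⁻¹) ∧ P (c * b⁻¹) := by
  obtain ⟨m, hm⟩ := a.h
  obtain ⟨k, hk⟩ := b.h
  let N : ℤ := 1 + |a.n| + |b.n| + |m| + |k|
  have hN : N = 1 + |a.n| + |b.n| + |m| + |k| := rfl
  have habs : ∀ z : ℤ, z ≤ |z| ∧ -z ≤ |z| := fun z => ⟨le_abs_self z, neg_le_abs z⟩
  have h1 := habs a.n
  have h2 := habs b.n
  have h3 := habs m
  have h4 := habs k
  have key : ∀ (x : G) (m : ℤ), (∀ i < m, x.f i = 1) → x.n < N → x.n - N < m →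
      P ((⟨fun _ => 1, N, ⟨0, fun _ _ => rfl⟩⟩ : G) * x⁻¹) := by
    intro x m hm hxN hxm
    right; right
    refine ⟨by rw [G.mul_n', G.inv_n']; show 0 < N + -x.n; omega, ?_, ?_⟩
    · intro i hi
      rw [G.mul_f', G.inv_f']
      show 1 * (x.f (i - N + x.n))⁻¹ = 1
      rw [hm _ (by omega), inv_one, mul_one]
    · rw [G.mul_f', G.inv_f']
      show Even (1 * (x.f (0 - N + x.n))⁻¹).n
      rw [hm _ (by omega), inv_one, mul_one]; simp
  exact ⟨_, key a m hm (by omega) (by omega), key b k hk (by omega) (by omega)⟩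

/-- the elements supported at coordinate `0` -/
def io (x : Kb) : G := ⟨fun i => if i = 0 then x else 1, 0, ⟨0, fun i hi => by
  simp only [hi.ne, if_false]⟩⟩

lemma io_mul (x y : Kb) : io x * io y = io (x * y) := by
  apply G.ext
  · funext i
    rw [G.mul_f']
    show (if i = 0 then x else 1) * (if i - 0 = 0 then y else 1) = if i = 0 then x * y else 1
    rw [sub_zero]
    split_ifs <;> simp
  · rfl

lemma io_one : io 1 = 1 := by
  apply G.ext
  · funext i
    show (if i = 0 then (1 : Kb) else 1) = 1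
    split_ifs <;> rfl
  · rfl

lemma P_io {x : Kb} (h : cone 0 x) : P (io x) := by
  right; left
  refine ⟨rfl, 0, le_rfl, fun j hj => ?_, ?_⟩
  · show (if j = 0 then x else 1) = 1
    rw [if_neg hj.ne]
  · show cone 0 (if (0 : ℤ) = 0 then x else 1)
    rw [if_pos rfl]; exact h

end Pool.Agent.Helper9.Semilinear
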