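import Mathlib

set_option autoImplicit false

namespace Pool.Agent.Helper9.Subsum

/-- decoding of `p` into two indices and a sign -/
def da (p : ℕ) : ℕ := (Nat.unpair (p / 2)).1
def db (p : ℕ) : ℕ := (Nat.unpair (p / 2)).2
def ds (p : ℕ) : ℤ := if p % 2 = 0 then 1 else -1
def blk (j : ℕ) : ℕ := Nat.sqrt j

def b2i (b : Bool) : ℤ := if b then 1 else 0

def c (j p : ℕ) : ℤ := if blk (da p) = blk (db p) then 0 else
  (if j = da p then 1 else 0) + ds p * (if j = db p then 1 else 0)

def L (u : ℕ → Bool) (p : ℕ) : ℤ := if blk (da p) = blk (db p) then 0 else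
  b2i (u (da p)) + ds p * b2i (u (db p))

noncomputable def y (p : ℕ) : ℝ := (1/5) ^ p
noncomputable def z (j : ℕ) : ℝ := ∑' p, (c j p : ℝ) * y p

lemma y_pos (p : ℕ) : 0 < y p := by unfold y; positivity

lemma summable_y : Summable y := summable_geometric_of_lt_one (by norm_num) (by norm_num)

/-- uniqueness of expansions -/
lemma uniq (d : ℕ → ℤ) (hd : ∀ p, |d p| ≤ 3) (h : ∑' p, (d p : ℝ) * y p = 0) :
    ∀ p, d p = 0 := by
  by_contra hne
  push Not at hne
  classical
  have hp0 := Nat.find_spec hne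
  set p0 := Nat.find hne with hp0def
  have hmin : ∀ p, p < p0 → d p = 0 := by
    intro p hp
    by_contra h'
    exact Nat.find_min hne hp h'
  have hbd : ∀ p, ‖(d p : ℝ) * y p‖ ≤ 3 * y p := by
    intro p
    rw [norm_mul, Real.norm_eq_abs, Real.norm_eq_abs, abs_of_pos (y_pos p)]
    refine mul_le_mul_of_nonneg_right ?_ (y_pos p).le
    have := hd p
    have h2 : ((|d p| : ℤ) : ℝ) ≤ ((3 : ℤ) : ℝ) := Int.cast_le.2 this
    rw [Int.cast_abs] at h2
    simpa using h2
  have hs : Summable fun p => (d p : ℝ) * y p :=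
    Summable.of_norm_bounded (summable_y.mul_left 3) hbd
  have h1 := hs.sum_add_tsum_nat_add (p0 + 1)
  rw [h, Finset.sum_range_succ, Finset.sum_eq_zero (fun p hp => by
    rw [hmin p (Finset.mem_range.1 hp)]; simp), zero_add] at h1
  have h2 : ‖∑' i, (d (i + (p0 + 1)) : ℝ) * y (i + (p0 + 1))‖ ≤ 3 / 4 * y p0 := by
    have hg : HasSum (fun i : ℕ => (3 * y (p0+1)) * (1/5 : ℝ) ^ i) (3 / 4 * y p0) := by
      have := (hasSum_geometric_of_lt_one (show (0:ℝ) ≤ 1/5 by norm_num) (by norm_num)).mul_left
        (3 * y (p0+1))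
      have e : 3 / 4 * y p0 = 3 * y (p0+1) * (1 - 1/5)⁻¹ := by
        unfold y
        rw [pow_succ]
        norm_num
        ring
      rw [e]
      exact this
    refine tsum_of_norm_bounded hg fun i => ?_
    refine (hbd _).trans (le_of_eq ?_)
    unfold y
    rw [pow_add]
    ring
  have h3 : (d p0 : ℝ) * y p0 = - ∑' i, (d (i + (p0 + 1)) : ℝ) * y (i + (p0 + 1)) := by linarith
  have h4 : y p0 ≤ ‖(d p0 : ℝ) * y p0‖ := by
    rw [norm_mul, Real.norm_eq_abs, Real.norm_eq_abs, abs_of_pos (y_pos p0)]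
    have : (1 : ℝ) ≤ |(d p0 : ℝ)| := by
      have h5 : 1 ≤ |d p0| := Int.one_le_abs hp0
      have h6 : ((1 : ℤ) : ℝ) ≤ ((|d p0| : ℤ) : ℝ) := Int.cast_le.2 h5
      rw [Int.cast_abs] at h6
      simpa using h6
    nlinarith [y_pos p0]
  rw [h3, norm_neg] at h4
  have := y_pos p0
  linarith

/-- the dominating double family -/
lemma summable_graph (g : ℕ → ℕ) : Summable fun q : ℕ × ℕ => if q.1 = g q.2 then y q.2 else 0 := by
  have hinj : Function.Injective (fun p : ℕ => ((g p, p) : ℕ × ℕ)) := by
    intro p q h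
    exact (Prod.mk.inj h).2
  rw [← hinj.summable_iff]
  · have : ((fun q : ℕ × ℕ => if q.1 = g q.2 then y q.2 else 0) ∘ fun p => (g p, p)) = y := by
      funext p
      simp
    rw [this]
    exact summable_y
  · rintro ⟨j, p⟩ hq
    have : j ≠ g p := by
      rintro rfl
      exact hq ⟨p, rfl⟩
    simp [this]

lemma ds_abs (p : ℕ) : |ds p| = 1 := by
  unfold ds; split_ifs <;> simp

lemma summable_c (w : ℕ → ℝ) (hw : ∀ j, |w j| ≤ 1) :
    Summable fun q : ℕ × ℕ => w q.1 * ((c q.1 q.2 : ℝ) * y q.2) := by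
  refine Summable.of_norm_bounded ((summable_graph da).add (summable_graph db)) ?_
  rintro ⟨j, p⟩
  simp only
  rw [norm_mul, norm_mul, Real.norm_eq_abs, Real.norm_eq_abs, Real.norm_eq_abs,
    abs_of_pos (y_pos p)]
  have h1 : |(c j p : ℝ)| ≤ (if j = da p then 1 else 0) + (if j = db p then 1 else 0) := by
    unfold c ds
    split_ifs <;> norm_num
  have h2 : |(c j p : ℝ)| * y p ≤ (if j = da p then y p else 0) + (if j = db p then y p else 0) := by
    refine (mul_le_mul_of_nonneg_right h1 (y_pos p).le).trans (le_of_eq ?_)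
    rw [add_mul, ite_mul, ite_mul]
    simp
  have h3 : 0 ≤ |(c j p : ℝ)| * y p := mul_nonneg (abs_nonneg _) (y_pos p).le
  calc |w j| * (|(c j p : ℝ)| * y p) ≤ 1 * (|(c j p : ℝ)| * y p) :=
        mul_le_mul_of_nonneg_right (hw j) h3
    _ ≤ _ := by rw [one_mul]; exact h2

/-- summability of `z` -/
lemma summable_z (w : ℕ → ℝ) (hw : ∀ j, |w j| ≤ 1) : Summable fun j => w j * z j := by
  have := (summable_c w hw).prod
  refine this.congr fun j => ?_
  simp only [z]
  rw [tsum_mul_left]

lemma tsum_z (w : ℕ → ℝ) (hw : ∀ j, |w j| ≤ 1) :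
    ∑' j, w j * z j = ∑' p, (if blk (da p) = blk (db p) then 0 else
      w (da p) + ds p * w (db p)) * y p := by
  have hs := summable_c w hw
  have h1 : ∑' j, w j * z j = ∑' j, ∑' p, w j * ((c j p : ℝ) * y p) := by
    refine tsum_congr fun j => ?_
    rw [tsum_mul_left, z]
  rw [h1, ← Summable.tsum_comm (f := fun j p => w j * ((c j p : ℝ) * y p)) hs]
  refine tsum_congr fun p => ?_
  by_cases hb : blk (da p) = blk (db p)
  · simp [c, hb]
  · rw [if_neg hb]
    have h2 : ∀ j, w j * ((c j p : ℝ) * y p) = (if j = da p then w (da p) * y p else 0)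
        + (if j = db p then ds p * w (db p) * y p else 0) := by
      intro j
      unfold c
      rw [if_neg hb]
      by_cases h3 : j = da p
      · by_cases h4 : j = db p
        · exact absurd (by rw [← h3, ← h4]) hb
        · subst h3
          simp [h4]
      · by_cases h4 : j = db p
        · subst h4
          simp [h3]
          ring
        · simp [h3, h4]
    rw [tsum_congr h2, Summable.tsum_add, tsum_ite_eq, tsum_ite_eq]
    · ring
    · exact (hasSum_ite_eq _ _).summable
    · exact (hasSum_ite_eq _ _).summable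

/-- the enumeration of all terms -/
def e : ℕ ≃ ℕ ⊕ ℕ := Equiv.natSumNatEquivNat.symm

noncomputable def X (i : ℕ ⊕ ℕ) : ℝ := Sum.elim z y i
noncomputable def x (n : ℕ) : ℝ := X (e n)

def uu (ε : ℕ → Bool) (j : ℕ) : Bool := ε (e.symm (Sum.inl j))
def vv (ε : ℕ → Bool) (p : ℕ) : Bool := ε (e.symm (Sum.inr p))

lemma ext_uv {ε ε' : ℕ → Bool} (hu : uu ε = uu ε') (hv : vv ε = vv ε') : ε = ε' := by
  funext n
  have : n = e.symm (e n) := (e.symm_apply_apply n).symm
  rw [this]
  rcases h : e n with j | p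
  · exact congrFun hu j
  · exact congrFun hv p

lemma b2i_cases (b : Bool) : b2i b = 0 ∨ b2i b = 1 := by cases b <;> simp [b2i]

lemma b2i_inj {b b' : Bool} (h : b2i b = b2i b') : b = b' := by
  cases b <;> cases b' <;> simp_all [b2i]

lemma summable_x : Summable (fun n => |x n|) := by
  have h1 : Summable (fun i : ℕ ⊕ ℕ => |X i|) := by
    refine Summable.sum _ ?_ ?_
    · have := (summable_z (fun j => 1) (by simp)).abs
      refine this.congr fun j => ?_
      simp [X, Function.comp]
    · refine summable_y.congr fun p => ?_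
      simp [X, Function.comp, abs_of_pos (y_pos p)]
  exact (e.summable_iff (f := fun i : ℕ ⊕ ℕ => |X i|)).2 h1

lemma value (ε : ℕ → Bool) :
    ∑' n, (if ε n = true then x n else 0) = ∑' p, ((L (uu ε) p + b2i (vv ε p) : ℤ) : ℝ) * y p := by
  have h1 : ∑' n, (if ε n = true then x n else 0)
      = ∑' i : ℕ ⊕ ℕ, (if ε (e.symm i) = true then X i else 0) := by
    rw [← e.tsum_eq (fun i : ℕ ⊕ ℕ => if ε (e.symm i) = true then X i else 0)]
    refine tsum_congr fun n => ?_
    rw [e.symm_apply_apply]
    rfl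
  set w : ℕ → ℝ := fun j => (b2i (uu ε j) : ℝ) with hw
  have hwb : ∀ j, |w j| ≤ 1 := by
    intro j
    rcases b2i_cases (uu ε j) with h | h <;> simp [hw, h]
  have hl : ∀ j, (if ε (e.symm (Sum.inl j)) = true then X (Sum.inl j) else 0) = w j * z j := by
    intro j
    change (if uu ε j = true then z j else 0) = (b2i (uu ε j) : ℝ) * z j
    cases uu ε j <;> simp [b2i]
  have hr : ∀ p, (if ε (e.symm (Sum.inr p)) = true then X (Sum.inr p) else 0)
      = (b2i (vv ε p) : ℝ) * y p := by
    intro p
    change (if vv ε p = true then y p else 0) = (b2i (vv ε p) : ℝ) * y p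
    cases vv ε p <;> simp [b2i]
  have hsl : Summable fun j => w j * z j := summable_z w hwb
  have hsr : Summable fun p => (b2i (vv ε p) : ℝ) * y p := by
    refine Summable.of_norm_bounded summable_y fun p => ?_
    rcases b2i_cases (vv ε p) with h | h
    · simp [h, (y_pos p).le]
    · simp [h, abs_of_pos (y_pos p)]
  rw [h1, Summable.tsum_sum (f := fun i : ℕ ⊕ ℕ => if ε (e.symm i) = true then X i else 0)]
  · rw [tsum_congr hl, tsum_congr hr, tsum_z w hwb, ← Summable.tsum_add]
    · refine tsum_congr fun p => ?_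
      rw [← add_mul]
      congr 1
      unfold L
      split_ifs with hb
      · simp
      · simp only [hw]
        push_cast
        ring
    · refine Summable.of_norm_bounded (summable_y.mul_left 2) fun p => ?_
      rw [norm_mul, Real.norm_eq_abs, Real.norm_eq_abs, abs_of_pos (y_pos p)]
      refine mul_le_mul_of_nonneg_right ?_ (y_pos p).le
      split_ifs
      · simp
      · refine (abs_add_le _ _).trans ?_
        rw [abs_mul]
        have h5 : |((ds p : ℤ) : ℝ)| = 1 := by
          rw [← Int.cast_abs, ds_abs]; simp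
        rw [h5, one_mul]
        have := hwb (da p)
        have := hwb (db p)
        linarith
    · exact hsr
  · exact hsl.congr fun j => (hl j).symm
  · exact hsr.congr fun p => (hr p).symm

/-- equality of subsums -/
lemma eq_iff (ε ε' : ℕ → Bool) :
    ∑' n, (if ε n = true then x n else 0) = ∑' n, (if ε' n = true then x n else 0) ↔
    ∀ p, L (uu ε) p + b2i (vv ε p) = L (uu ε') p + b2i (vv ε' p) := by
  have hLb : ∀ (u : ℕ → Bool) p, -1 ≤ L u p ∧ L u p ≤ 2 := by
    intro u p
    unfold L ds
    rcases b2i_cases (u (da p)) with h | h <;> rcases b2i_cases (u (db p)) with h' | h' <;>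
      rw [h, h'] <;> split_ifs <;> norm_num
  -- improved bound for differences
  have hdiff : ∀ p, |L (uu ε) p + b2i (vv ε p) - (L (uu ε') p + b2i (vv ε' p))| ≤ 3 := by
    intro p
    unfold L ds
    rcases b2i_cases (uu ε (da p)) with h1 | h1 <;> rcases b2i_cases (uu ε (db p)) with h2 | h2 <;>
    rcases b2i_cases (uu ε' (da p)) with h3 | h3 <;> rcases b2i_cases (uu ε' (db p)) with h4 | h4 <;>
    rcases b2i_cases (vv ε p) with h5 | h5 <;> rcases b2i_cases (vv ε' p) with h6 | h6 <;>
      rw [h1, h2, h3, h4, h5, h6] <;> split_ifs <;> norm_num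
  rw [value, value]
  have hs : ∀ ε : ℕ → Bool, Summable fun p => ((L (uu ε) p + b2i (vv ε p) : ℤ) : ℝ) * y p := by
    intro ε
    refine Summable.of_norm_bounded (summable_y.mul_left 3) fun p => ?_
    rw [norm_mul, Real.norm_eq_abs, Real.norm_eq_abs, abs_of_pos (y_pos p)]
    refine mul_le_mul_of_nonneg_right ?_ (y_pos p).le
    have h1 := hLb (uu ε) p
    have h2 : |L (uu ε) p + b2i (vv ε p)| ≤ 3 := by
      rcases b2i_cases (vv ε p) with h | h <;> rw [h, abs_le] <;> constructor <;> linarith [h1.1, h1.2]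
    have h3 : ((|L (uu ε) p + b2i (vv ε p)| : ℤ) : ℝ) ≤ ((3 : ℤ) : ℝ) := Int.cast_le.2 h2
    rw [Int.cast_abs] at h3
    simpa using h3
  constructor
  · intro h p
    have h1 : ∑' p, ((L (uu ε) p + b2i (vv ε p) - (L (uu ε') p + b2i (vv ε' p)) : ℤ) : ℝ) * y p = 0 := by
      have h2 : ∀ p, ((L (uu ε) p + b2i (vv ε p) - (L (uu ε') p + b2i (vv ε' p)) : ℤ) : ℝ) * y p
          = ((L (uu ε) p + b2i (vv ε p) : ℤ) : ℝ) * y p - ((L (uu ε') p + b2i (vv ε' p) : ℤ) : ℝ) * y p := by
        intro p
        push_cast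
        ring
      rw [tsum_congr h2, Summable.tsum_sub (hs ε) (hs ε'), h, sub_self]
    have := uniq _ hdiff h1 p
    linarith
  · intro h
    exact tsum_congr fun p => by rw [h p]

/-- encoding of a pair of indices and a sign -/
lemma decode (a b : ℕ) : ∃ p q : ℕ, da p = a ∧ db p = b ∧ ds p = 1 ∧ da q = a ∧ db q = b ∧ ds q = -1 := by
  refine ⟨2 * Nat.pair a b, 2 * Nat.pair a b + 1, ?_⟩
  have h1 : 2 * Nat.pair a b / 2 = Nat.pair a b := by omega
  have h2 : (2 * Nat.pair a b + 1) / 2 = Nat.pair a b := by omega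
  have h3 : (2 * Nat.pair a b) % 2 = 0 := by omega
  have h4 : (2 * Nat.pair a b + 1) % 2 = 1 := by omega
  simp [da, db, ds, h1, h2, h3, h4]

/-- two sequences in the same fibre cannot differ in two different blocks -/
lemma one_block {ε ε' : ℕ → Bool}
    (h : ∀ p, L (uu ε) p + b2i (vv ε p) = L (uu ε') p + b2i (vv ε' p)) {a b : ℕ}
    (ha : uu ε a ≠ uu ε' a) (hb : uu ε b ≠ uu ε' b) : blk a = blk b := by
  by_contra hab
  obtain ⟨p, q, hp1, hp2, hp3, hq1, hq2, hq3⟩ := decode a b
  have e1 := h p
  have e2 := h q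
  unfold L at e1 e2
  rw [hp1, hp2, hp3, if_neg hab, if_neg hab] at e1
  rw [hq1, hq2, hq3, if_neg hab, if_neg hab] at e2
  have hA : b2i (uu ε a) ≠ b2i (uu ε' a) := fun h => ha (b2i_inj h)
  have hB : b2i (uu ε b) ≠ b2i (uu ε' b) := fun h => hb (b2i_inj h)
  rcases b2i_cases (uu ε a) with h1 | h1 <;> rcases b2i_cases (uu ε b) with h2 | h2 <;>
    rcases b2i_cases (uu ε' a) with h3 | h3 <;> rcases b2i_cases (uu ε' b) with h4 | h4 <;>
    rcases b2i_cases (vv ε p) with h5 | h5 <;> rcases b2i_cases (vv ε' p) with h6 | h6 <;>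
    rcases b2i_cases (vv ε q) with h7 | h7 <;> rcases b2i_cases (vv ε' q) with h8 | h8 <;>
    omega

/-- all fibres are finite -/
lemma fibre_finite (t : ℝ) :
    {ε : ℕ → Bool | ∑' n, (if ε n = true then x n else 0) = t}.Finite := by
  classical
  set S := {ε : ℕ → Bool | ∑' n, (if ε n = true then x n else 0) = t} with hS
  have hpair : ∀ ε ∈ S, ∀ ε' ∈ S, ∀ p, L (uu ε) p + b2i (vv ε p) = L (uu ε') p + b2i (vv ε' p) := by
    intro ε hε ε' hε'
    exact (eq_iff ε ε').1 (hε.trans hε'.symm)
  -- `uu` determines the element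
  have hinj : Set.InjOn uu S := by
    intro ε hε ε' hε' huu
    refine ext_uv huu ?_
    funext p
    have := hpair ε hε ε' hε' p
    rw [huu] at this
    exact b2i_inj (by linarith)
  refine Set.Finite.of_finite_image (f := uu) ?_ hinj
  by_cases hsub : S.Subsingleton
  · exact (hsub.image uu).finite
  · rw [Set.not_subsingleton_iff] at hsub
    obtain ⟨ε0, h0, ε1, h1, hne⟩ := hsub
    have hu : uu ε0 ≠ uu ε1 := fun h => hne (hinj h0 h1 h)
    obtain ⟨j, hj⟩ := Function.ne_iff.1 hu
    -- all others agree with `uu ε0` outside the block of `j`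
    have key : ∀ ε ∈ S, ∀ k, blk k ≠ blk j → uu ε k = uu ε0 k := by
      intro ε hε k hk
      by_contra hkne
      -- `ε` differs from `ε0` only in the block of `k`
      have hj2 : uu ε j = uu ε0 j := by
        by_contra hjne
        exact hk (one_block (hpair ε hε ε0 h0) hkne hjne)
      have hk1 : uu ε1 k = uu ε0 k := by
        by_contra hk1
        exact hk (one_block (hpair ε1 h1 ε0 h0) hk1 (Ne.symm hj))
      have := one_block (hpair ε hε ε1 h1) (a := k) (b := j) (by rw [hk1]; exact hkne)
        (by rw [hj2]; exact hj)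
      exact hk this
    -- so the image is contained in a finite set
    have hfin : (Set.range fun w : (Fin ((blk j + 1) ^ 2) → Bool) => fun k : ℕ =>
        if h : k < (blk j + 1) ^ 2 then w ⟨k, h⟩ else uu ε0 k).Finite := Set.finite_range _
    refine hfin.subset ?_
    rintro _ ⟨ε, hε, rfl⟩
    refine ⟨fun i => uu ε i, ?_⟩
    funext k
    by_cases h : k < (blk j + 1) ^ 2
    · simp [h]
    · simp only [h, dite_false]
      refine (key ε hε k ?_).symm
      intro hk
      apply h
      have := Nat.lt_succ_sqrt' k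
      unfold blk at hk ⊢
      rw [← hk]
      exact this

/-- large fibres -/
lemma fibre_large (N : ℕ) : ∃ t : ℝ, ∃ g : Fin N → (ℕ → Bool), Function.Injective g ∧
    ∀ i, ∑' n, (if g i n = true then x n else 0) = t := by
  classical
  -- the elements `j_i = N^2 + i` lie in block `N`
  have hblk : ∀ i : Fin N, blk (N ^ 2 + i) = N := by
    intro i
    unfold blk
    symm
    rw [Nat.eq_sqrt']
    have := i.2
    constructor
    · omega
    · have : (N + 1) ^ 2 = N ^ 2 + 2 * N + 1 := by ring
      omega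
  -- base value
  let v0 : ℕ → ℤ := fun p => if blk (da p) = N then 1 else if blk (db p) = N ∧ ds p = 1 then 1 else 0
  let uI : Fin N → ℕ → Bool := fun i k => decide (k = N ^ 2 + i)
  have hv : ∀ i : Fin N, ∀ p, v0 p - L (uI i) p = 0 ∨ v0 p - L (uI i) p = 1 := by
    intro i p
    have hI : ∀ k, b2i (uI i k) = if k = N ^ 2 + i then 1 else 0 := by
      intro k
      simp [b2i, uI]
    have hb := hblk i
    simp only [L, hI, v0]
    by_cases h1 : blk (da p) = blk (db p)
    · rw [if_pos h1, ← h1]
      split_ifs <;> simp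
    · rw [if_neg h1]
      by_cases h2 : blk (da p) = N
      · have h3 : db p ≠ N ^ 2 + i := by
          intro h; apply h1; rw [h2, h, hb]
        rw [if_pos h2, if_neg h3]
        split_ifs <;> simp
      · have h3 : da p ≠ N ^ 2 + i := by
          intro h; apply h2; rw [h, hb]
        rw [if_neg h2, if_neg h3]
        by_cases h4 : blk (db p) = N
        · unfold ds
          by_cases h5 : p % 2 = 0
          · simp only [h5, h4, if_true, and_self]
            split_ifs <;> simp
          · simp only [h5, h4, if_false, true_and]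
            norm_num
            split_ifs <;> simp [*]
        · have h5 : db p ≠ N ^ 2 + i := by
            intro h; apply h4; rw [h, hb]
          simp [h4, h5]
  let g : Fin N → (ℕ → Bool) := fun i n => match e n with
    | Sum.inl k => uI i k
    | Sum.inr p => decide (v0 p - L (uI i) p = 1)
  have huu : ∀ i, uu (g i) = uI i := by
    intro i
    funext k
    simp [uu, g]
  have hvv : ∀ i p, b2i (vv (g i) p) = v0 p - L (uI i) p := by
    intro i p
    have : vv (g i) p = decide (v0 p - L (uI i) p = 1) := by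
      simp [vv, g]
    rw [this]
    rcases hv i p with h | h
    · rw [h]; simp [b2i]
    · rw [h]; simp [b2i]
  rcases Nat.eq_zero_or_pos N with hN | hN
  · subst hN
    exact ⟨0, fun i => i.elim0, fun i => i.elim0, fun i => i.elim0⟩
  · refine ⟨∑' n, (if g ⟨0, hN⟩ n = true then x n else 0), g, ?_, fun i => ?_⟩
    · intro i i' h
      have h1 : uI i = uI i' := by rw [← huu, ← huu, h]
      have h2 := congrFun h1 (N ^ 2 + i)
      simp [uI] at h2
      exact Fin.ext h2
    · rw [eq_iff]
      intro p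
      rw [huu, huu, hvv, hvv]
      ring

theorem main :
    ∃ x : ℕ → ℝ, Summable (fun n => |x n|) ∧
      (∀ N : ℕ, ∃ t : ℝ, ∃ k : ℕ, N ≤ k ∧
        Cardinal.mk {ε : ℕ → Bool // ∑' n, (if ε n = true then x n else 0) = t} = (k : Cardinal)) ∧
      (∀ t : ℝ,
        Cardinal.mk {ε : ℕ → Bool // ∑' n, (if ε n = true then x n else 0) = t} ≠ Cardinal.aleph0 ∧
        Cardinal.mk {ε : ℕ → Bool // ∑' n, (if ε n = true then x n else 0) = t} ≠ Cardinal.continuum) := by
  refine ⟨x, summable_x, ?_, ?_⟩
  · intro N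
    obtain ⟨t, g, hg, hgt⟩ := fibre_large N
    have hfin := fibre_finite t
    have : Finite {ε : ℕ → Bool // ∑' n, (if ε n = true then x n else 0) = t} := hfin
    let _ : Fintype {ε : ℕ → Bool // ∑' n, (if ε n = true then x n else 0) = t} := Fintype.ofFinite _
    refine ⟨t, Fintype.card {ε : ℕ → Bool // ∑' n, (if ε n = true then x n else 0) = t}, ?_,
      Cardinal.mk_fintype _⟩
    have h1 := Fintype.card_le_of_injective
      (fun i : Fin N => (⟨g i, hgt i⟩ : {ε : ℕ → Bool // ∑' n, (if ε n = true then x n else 0) = t}))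
      (fun i i' h => hg (Subtype.mk.inj h))
    simpa using h1
  · intro t
    have hfin := fibre_finite t
    have : Finite {ε : ℕ → Bool // ∑' n, (if ε n = true then x n else 0) = t} := hfin
    have hlt : Cardinal.mk {ε : ℕ → Bool // ∑' n, (if ε n = true then x n else 0) = t} < Cardinal.aleph0 :=
      Cardinal.lt_aleph0_of_finite _
    exact ⟨hlt.ne, (hlt.trans Cardinal.aleph0_lt_continuum).ne⟩

end Pool.Agent.Helper9.Subsum
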