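import Mathlib

set_option autoImplicit false

namespace Pool.Agent.Helper9.Tied

/-- No triangle and no quadrilateral. -/
def Good (H : SimpleGraph ℕ) : Prop :=
  (∀ a b c, H.Adj a b → H.Adj b c → ¬ H.Adj a c) ∧
  (∀ a b c d, a ≠ b → H.Adj a c → H.Adj b c → H.Adj a d → H.Adj b d → c = d)

/-- the condition for adding the vertex `v` joined to `a` and `b` -/
def cnd (H : SimpleGraph ℕ) (v a b : ℕ) : Prop :=
  a < v ∧ b < v ∧ (a = b ∨ (¬ H.Adj a b ∧ ∀ c, ¬ (H.Adj a c ∧ H.Adj b c)))

def next (H : SimpleGraph ℕ) (v a b : ℕ) : SimpleGraph ℕ where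
  Adj x y := H.Adj x y ∨ (cnd H v a b ∧ ((x = v ∧ (y = a ∨ y = b)) ∨ (y = v ∧ (x = a ∨ x = b))))
  symm := ⟨by
    rintro x y (h | ⟨hc, h⟩)
    · exact Or.inl h.symm
    · exact Or.inr ⟨hc, h.symm⟩⟩
  loopless := ⟨by
    rintro x (h | ⟨⟨h1, h2, _⟩, h⟩)
    · exact H.loopless.irrefl x h
    · omega⟩

lemma next_good {H : SimpleGraph ℕ} {v a b : ℕ} (hH : Good H)
    (hlt : ∀ x y, H.Adj x y → x < v ∧ y < v) : Good (next H v a b) := by
  by_cases hc : cnd H v a b
  · obtain ⟨hT, hC⟩ := hH
    have hc' := hc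
    obtain ⟨ha, hb, hab⟩ := hc'
    have hadj : ∀ x y, (next H v a b).Adj x y ↔
        (H.Adj x y ∨ (x = v ∧ (y = a ∨ y = b)) ∨ (y = v ∧ (x = a ∨ x = b))) := by
      intro x y
      show (H.Adj x y ∨ (cnd H v a b ∧ _)) ↔ _
      simp only [hc, true_and]
    have hirr : ∀ x, ¬ H.Adj x x := fun x => H.loopless.irrefl x
    have hsym : ∀ x y, H.Adj x y → H.Adj y x := fun x y h => h.symm
    constructor
    · intro x y z hxy hyz hxz
      rw [hadj] at hxy hyz hxz
      by_cases hx : x = v
      · subst hx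
        rcases hxy with hxy | ⟨_, hy⟩ | ⟨hy, hx'⟩
        · exact absurd (hlt _ _ hxy).1 (lt_irrefl _)
        · rcases hxz with hxz | ⟨_, hz⟩ | ⟨hz, hx'⟩
          · exact absurd (hlt _ _ hxz).1 (lt_irrefl _)
          · have hyx : y < x := by rcases hy with rfl | rfl <;> assumption
            have hzx : z < x := by rcases hz with rfl | rfl <;> assumption
            rcases hyz with hyz | ⟨h, _⟩ | ⟨h, _⟩
            · rcases hab with rfl | ⟨h1, _⟩
              · rcases hy with rfl | rfl <;> rcases hz with rfl | rfl <;> exact hirr _ hyz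
              · rcases hy with rfl | rfl <;> rcases hz with rfl | rfl
                · exact hirr _ hyz
                · exact h1 hyz
                · exact h1 (hsym _ _ hyz)
                · exact hirr _ hyz
            · omega
            · omega
          · omega
        · omega
      · by_cases hy : y = v
        · subst hy
          rcases hxy with hxy | ⟨h, _⟩ | ⟨_, hx'⟩
          · exact absurd (hlt _ _ hxy).2 (lt_irrefl _)
          · omega
          · rcases hyz with hyz | ⟨_, hz⟩ | ⟨hz, hy'⟩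
            · exact absurd (hlt _ _ hyz).1 (lt_irrefl _)
            · have hxy' : x < y := by rcases hx' with rfl | rfl <;> assumption
              have hzy : z < y := by rcases hz with rfl | rfl <;> assumption
              rcases hxz with hxz | ⟨h, _⟩ | ⟨h, _⟩
              · rcases hab with rfl | ⟨h1, _⟩
                · rcases hx' with rfl | rfl <;> rcases hz with rfl | rfl <;> exact hirr _ hxz
                · rcases hx' with rfl | rfl <;> rcases hz with rfl | rfl
                  · exact hirr _ hxz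
                  · exact h1 hxz
                  · exact h1 (hsym _ _ hxz)
                  · exact hirr _ hxz
              · omega
              · omega
            · omega
        · by_cases hz : z = v
          · subst hz
            rcases hyz with hyz | ⟨h, _⟩ | ⟨_, hy'⟩
            · exact absurd (hlt _ _ hyz).2 (lt_irrefl _)
            · omega
            · rcases hxz with hxz | ⟨h, _⟩ | ⟨_, hx'⟩
              · exact absurd (hlt _ _ hxz).2 (lt_irrefl _)
              · omega
              · rcases hxy with hxy | ⟨h, _⟩ | ⟨h, _⟩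
                · rcases hab with rfl | ⟨h1, _⟩
                  · rcases hx' with rfl | rfl <;> rcases hy' with rfl | rfl <;> exact hirr _ hxy
                  · rcases hx' with rfl | rfl <;> rcases hy' with rfl | rfl
                    · exact hirr _ hxy
                    · exact h1 hxy
                    · exact h1 (hsym _ _ hxy)
                    · exact hirr _ hxy
                · omega
                · omega
          · have h1 : H.Adj x y := by rcases hxy with h | ⟨h, _⟩ | ⟨h, _⟩ <;> first | exact h | omega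
            have h2 : H.Adj y z := by rcases hyz with h | ⟨h, _⟩ | ⟨h, _⟩ <;> first | exact h | omega
            have h3 : H.Adj x z := by rcases hxz with h | ⟨h, _⟩ | ⟨h, _⟩ <;> first | exact h | omega
            exact hT _ _ _ h1 h2 h3
    · -- quadrilaterals
      have hnb : ∀ x, (next H v a b).Adj v x → x = a ∨ x = b := by
        intro x hx
        rw [hadj] at hx
        rcases hx with h | ⟨_, h⟩ | ⟨h, h'⟩
        · exact absurd (hlt _ _ h).1 (lt_irrefl _)
        · exact h
        · omega
      have hold : ∀ x y, x ≠ v → y ≠ v → (next H v a b).Adj x y → H.Adj x y := by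
        intro x y hx hy h
        rw [hadj] at h
        rcases h with h | ⟨h, _⟩ | ⟨h, _⟩
        · exact h
        · exact absurd h hx
        · exact absurd h hy
      -- if `v` has two distinct neighbours `p ≠ q` with a further common neighbour, contradiction
      have hkey : ∀ p q r, p ≠ q → (next H v a b).Adj v p → (next H v a b).Adj v q →
          (next H v a b).Adj p r → (next H v a b).Adj q r → r = v := by
        intro p q r hpq hp hq hpr hqr
        by_contra hrv
        have hp' := hnb p hp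
        have hq' := hnb q hq
        have hpv : p ≠ v := by rcases hp' with rfl | rfl <;> omega
        have hqv : q ≠ v := by rcases hq' with rfl | rfl <;> omega
        have h1 := hold _ _ hpv hrv hpr
        have h2 := hold _ _ hqv hrv hqr
        rcases hab with rfl | ⟨_, h3⟩
        · apply hpq; rcases hp' with rfl | rfl <;> rcases hq' with rfl | rfl <;> rfl
        · rcases hp' with rfl | rfl <;> rcases hq' with rfl | rfl
          · exact hpq rfl
          · exact h3 r ⟨h1, h2⟩
          · exact h3 r ⟨h2, h1⟩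
          · exact hpq rfl
      intro x y c d hxy hxc hyc hxd hyd
      by_contra hcd
      by_cases hx : x = v
      · subst hx
        exact hxy (hkey c d y hcd hxc hxd hyc.symm hyd.symm).symm
      by_cases hy : y = v
      · subst hy
        exact hxy (hkey c d x hcd hyc hyd hxc.symm hxd.symm)
      by_cases hcv : c = v
      · subst hcv
        exact hcd (hkey x y d hxy hxc.symm hyc.symm hxd hyd).symm
      by_cases hdv : d = v
      · subst hdv
        exact hcd (hkey x y c hxy hxd.symm hyd.symm hxc hyc)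
      exact hcd (hC _ _ _ _ hxy (hold _ _ hx hcv hxc) (hold _ _ hy hcv hyc) (hold _ _ hx hdv hxd)
        (hold _ _ hy hdv hyd))
  · have : next H v a b = H := by
      ext x y
      show (H.Adj x y ∨ (cnd H v a b ∧ _)) ↔ _
      simp only [hc, false_and, or_false]
    rw [this]; exact hH

/-- The sequence of graphs. -/
def seq (A : SimpleGraph ℕ) (N0 : ℕ) : ℕ → SimpleGraph ℕ
  | 0 => A
  | n + 1 => next (seq A N0 n) (N0 + n) (Nat.unpair (Nat.unpair n).1).1 (Nat.unpair (Nat.unpair n).1).2

/-- The limit graph. -/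
def lim (A : SimpleGraph ℕ) (N0 : ℕ) : SimpleGraph ℕ where
  Adj x y := ∃ n, (seq A N0 n).Adj x y
  symm := ⟨fun x y ⟨n, h⟩ => ⟨n, h.symm⟩⟩
  loopless := ⟨fun x ⟨n, h⟩ => (seq A N0 n).loopless.irrefl x h⟩

variable {A : SimpleGraph ℕ} {N0 : ℕ}

lemma seq_lt (hA : ∀ x y, A.Adj x y → x < N0 ∧ y < N0) (n : ℕ) :
    ∀ x y, (seq A N0 n).Adj x y → x < N0 + n ∧ y < N0 + n := by
  induction n with
  | zero => exact hA
  | succ n ih =>
    rintro x y (h | ⟨⟨h1, h2, _⟩, h⟩)
    · have := ih x y h; omega
    · omega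

lemma seq_good (hA : ∀ x y, A.Adj x y → x < N0 ∧ y < N0) (hG : Good A) (n : ℕ) :
    Good (seq A N0 n) := by
  induction n with
  | zero => exact hG
  | succ n ih => exact next_good ih (seq_lt hA n)

lemma seq_mono : Monotone (seq A N0) := by
  apply monotone_nat_of_le_succ
  intro n x y h
  exact Or.inl h

lemma lim_good (hA : ∀ x y, A.Adj x y → x < N0 ∧ y < N0) (hG : Good A) : Good (lim A N0) := by
  constructor
  · rintro a b c ⟨n, h1⟩ ⟨m, h2⟩ ⟨k, h3⟩
    have hn : n ≤ n + m + k := by omega
    have hm : m ≤ n + m + k := by omega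
    have hk : k ≤ n + m + k := by omega
    exact (seq_good hA hG (n + m + k)).1 a b c (seq_mono hn h1) (seq_mono hm h2) (seq_mono hk h3)
  · rintro a b c d hab ⟨n, h1⟩ ⟨m, h2⟩ ⟨k, h3⟩ ⟨l, h4⟩
    have hn : n ≤ n + m + k + l := by omega
    have hm : m ≤ n + m + k + l := by omega
    have hk : k ≤ n + m + k + l := by omega
    have hl : l ≤ n + m + k + l := by omega
    exact (seq_good hA hG (n + m + k + l)).2 a b c d hab (seq_mono hn h1) (seq_mono hm h2)
      (seq_mono hk h3) (seq_mono hl h4)

/-- distance at most two -/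
lemma lim_diam (x y : ℕ) (hxy : x ≠ y) :
    (lim A N0).Adj x y ∨ ∃ c, (lim A N0).Adj x c ∧ (lim A N0).Adj y c := by
  let n := Nat.pair (Nat.pair x y) (x + y + 1)
  have hn : x + y + 1 ≤ n := Nat.right_le_pair _ _
  have hu1 : (Nat.unpair (Nat.unpair n).1).1 = x := by simp [n]
  have hu2 : (Nat.unpair (Nat.unpair n).1).2 = y := by simp [n]
  by_cases h1 : (seq A N0 n).Adj x y
  · exact Or.inl ⟨n, h1⟩
  by_cases h2 : ∀ c, ¬ ((seq A N0 n).Adj x c ∧ (seq A N0 n).Adj y c)
  · right
    have hc : cnd (seq A N0 n) (N0 + n) x y := ⟨by omega, by omega, Or.inr ⟨h1, h2⟩⟩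
    refine ⟨N0 + n, ⟨n + 1, ?_⟩, ⟨n + 1, ?_⟩⟩
    · show (next _ _ _ _).Adj _ _
      rw [hu1, hu2]
      exact Or.inr ⟨hc, Or.inr ⟨rfl, Or.inl rfl⟩⟩
    · show (next _ _ _ _).Adj _ _
      rw [hu1, hu2]
      exact Or.inr ⟨hc, Or.inr ⟨rfl, Or.inr rfl⟩⟩
  · right
    push Not at h2
    obtain ⟨c, h2, h3⟩ := h2
    exact ⟨c, ⟨n, h2⟩, ⟨n, h3⟩⟩

lemma lim_nbr (x m : ℕ) : ∃ v, m ≤ v ∧ (lim A N0).Adj x v := by
  let n := Nat.pair (Nat.pair x x) (x + m + 1)
  have hn : x + m + 1 ≤ n := Nat.right_le_pair _ _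
  have hu1 : (Nat.unpair (Nat.unpair n).1).1 = x := by simp [n]
  have hu2 : (Nat.unpair (Nat.unpair n).1).2 = x := by simp [n]
  have hc : cnd (seq A N0 n) (N0 + n) x x := ⟨by omega, by omega, Or.inl rfl⟩
  refine ⟨N0 + n, by omega, n + 1, ?_⟩
  show (next _ _ _ _).Adj _ _
  rw [hu1, hu2]
  exact Or.inr ⟨hc, Or.inr ⟨rfl, Or.inl rfl⟩⟩

lemma lim_card (x : ℕ) : Cardinal.mk ((lim A N0).neighborSet x) = Cardinal.aleph0 := by
  have hinf : ((lim A N0).neighborSet x).Infinite := by
    rw [Set.infinite_iff_exists_gt]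
    intro m
    obtain ⟨v, hv, h⟩ := lim_nbr (A := A) (N0 := N0) x (m + 1)
    exact ⟨v, h, by omega⟩
  have : Infinite ((lim A N0).neighborSet x) := hinf.to_subtype
  exact Cardinal.mk_eq_aleph0 _

lemma lim_ediam (hA : ∀ x y, A.Adj x y → x < N0 ∧ y < N0) (hG : Good A) :
    (lim A N0).ediam = ((2 : ℕ) : ℕ∞) := by
  apply le_antisymm
  · rw [SimpleGraph.ediam_le_iff]
    intro u v
    by_cases huv : u = v
    · subst huv; simp
    rcases lim_diam (A := A) (N0 := N0) u v huv with h | ⟨c, h1, h2⟩
    · have := SimpleGraph.Walk.edist_le (SimpleGraph.Walk.cons h SimpleGraph.Walk.nil)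
      refine this.trans ?_
      simp
    · have := SimpleGraph.Walk.edist_le
        (SimpleGraph.Walk.cons h1 (SimpleGraph.Walk.cons h2.symm SimpleGraph.Walk.nil))
      refine this.trans ?_
      simp
  · by_contra hlt
    rw [not_le] at hlt
    have h1 : (lim A N0).ediam ≤ 1 := by
      have : (((2 : ℕ) : ℕ∞)) = 1 + 1 := by norm_num
      rw [this] at hlt
      exact Order.lt_add_one_iff_of_not_isMax (by simp) |>.1 hlt
    -- all pairs adjacent, contradiction with triangle freeness
    have hall : ∀ u v, u ≠ v → (lim A N0).Adj u v := by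
      intro u v huv
      have h2 : (lim A N0).edist u v ≤ 1 := SimpleGraph.edist_le_ediam.trans h1
      have h3 : (lim A N0).edist u v ≠ 0 := by
        rw [ne_eq, SimpleGraph.edist_eq_zero_iff]; exact huv
      rw [← SimpleGraph.edist_eq_one_iff_adj]
      apply le_antisymm h2
      exact Order.one_le_iff_ne_zero.2 h3
    exact (lim_good hA hG).1 0 1 2 (hall _ _ (by norm_num)) (hall _ _ (by norm_num))
      (hall _ _ (by norm_num))

lemma good_egirth {H : SimpleGraph ℕ} (hG : Good H) : ((2 * 2 : ℕ) : ℕ∞) < H.egirth := by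
  have : (5 : ℕ∞) ≤ H.egirth := by
    rw [SimpleGraph.le_egirth]
    intro a w hw
    have h3 := hw.three_le_length
    by_contra hlt
    rw [not_le] at hlt
    have hlt' : w.length < 5 := by exact_mod_cast hlt
    have h34 : w.length = 3 ∨ w.length = 4 := by omega
    have hadj : ∀ i, i < w.length → H.Adj (w.getVert i) (w.getVert (i + 1)) :=
      fun i hi => w.adj_getVert_succ hi
    have h0 : w.getVert 0 = a := w.getVert_zero
    have hl : w.getVert w.length = w.getVert 0 := w.getVert_length.trans h0.symm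
    rcases h34 with h | h
    · rw [h] at hl
      have e1 := hadj 0 (by omega)
      have e2 := hadj 1 (by omega)
      have e3 := hadj 2 (by omega)
      simp only [zero_add, Nat.reduceAdd] at e1 e2 e3
      rw [hl] at e3
      exact hG.1 _ _ _ e1 e2 e3.symm
    · rw [h] at hl
      have e1 := hadj 0 (by omega)
      have e2 := hadj 1 (by omega)
      have e3 := hadj 2 (by omega)
      have e4 := hadj 3 (by omega)
      simp only [zero_add, Nat.reduceAdd] at e1 e2 e3 e4
      rw [hl] at e4
      have hinj := hw.getVert_injOn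
      have n02 : w.getVert 2 ≠ w.getVert 0 := by
        intro he
        have he' : w.getVert 2 = w.getVert 4 := he.trans hl.symm
        have := hinj (by simp [h]) (by simp [h]) he'
        omega
      have n13 : w.getVert 1 ≠ w.getVert 3 := by
        intro he
        have := hinj (by simp [h]) (by simp [h]) he
        omega
      exact n13 (hG.2 _ _ _ _ n02.symm e1 e2.symm e4.symm e3)
  refine lt_of_lt_of_le ?_ this
  norm_num

/-! ### The two graphs -/

def petE : Fin 10 → Fin 10 → Bool := fun x y =>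
  ([(0,1),(1,2),(2,3),(3,4),(4,0),(0,5),(1,6),(2,7),(3,8),(4,9),(5,7),(7,9),(9,6),(6,8),(8,5)] :
    List (ℕ × ℕ)).any (fun p => (p.1 == x.val && p.2 == y.val) || (p.1 == y.val && p.2 == x.val))

/-- The Petersen graph on the first ten natural numbers. -/
def pet : SimpleGraph ℕ where
  Adj x y := ∃ (hx : x < 10) (hy : y < 10), petE ⟨x, hx⟩ ⟨y, hy⟩ = true
  symm := ⟨by
    rintro x y ⟨hx, hy, h⟩
    refine ⟨hy, hx, ?_⟩
    have : ∀ a b : Fin 10, petE a b = petE b a := by decide +kernel
    rw [this]; exact h⟩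
  loopless := ⟨by
    rintro x ⟨hx, _, h⟩
    have : ∀ a : Fin 10, petE a a = false := by decide +kernel
    rw [this] at h; exact absurd h (by decide)⟩

lemma pet_lt : ∀ x y, pet.Adj x y → x < 10 ∧ y < 10 := by
  rintro x y ⟨hx, hy, _⟩; exact ⟨hx, hy⟩

lemma pet_good : Good pet := by
  constructor
  · rintro a b c ⟨ha, hb, h1⟩ ⟨_, hc, h2⟩ ⟨_, _, h3⟩
    have : ∀ a b c : Fin 10, petE a b = true → petE b c = true → petE a c = true → False := by
      decide +kernel
    exact this _ _ _ h1 h2 h3
  · rintro a b c d hab ⟨ha, hc, h1⟩ ⟨hb, _, h2⟩ ⟨_, hd, h3⟩ ⟨_, _, h4⟩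
    have : ∀ a b c d : Fin 10, a ≠ b → petE a c = true → petE b c = true → petE a d = true →
        petE b d = true → c = d := by
      decide +kernel
    have h := this ⟨a, ha⟩ ⟨b, hb⟩ ⟨c, hc⟩ ⟨d, hd⟩ (by simpa using hab) h1 h2 h3 h4
    simpa using h

lemma bot_lt : ∀ x y, (⊥ : SimpleGraph ℕ).Adj x y → x < 0 ∧ y < 0 := by
  intro x y h; exact absurd h (by simp)

lemma bot_good : Good (⊥ : SimpleGraph ℕ) := by
  constructor
  · intro a b c h; exact absurd h (by simp)
  · intro a b c d _ h; exact absurd h (by simp)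

/-- a finite set all of whose elements have three neighbours inside the set -/
def Core (H : SimpleGraph ℕ) : Prop :=
  ∃ S : Finset ℕ, S.Nonempty ∧ ∀ x ∈ S, ∃ a ∈ S, ∃ b ∈ S, ∃ c ∈ S,
    a ≠ b ∧ a ≠ c ∧ b ≠ c ∧ H.Adj x a ∧ H.Adj x b ∧ H.Adj x c

lemma core_iso {H H' : SimpleGraph ℕ} (e : H ≃g H') (h : Core H) : Core H' := by
  obtain ⟨S, hS, h⟩ := h
  refine ⟨S.map e.toEquiv.toEmbedding, by simpa using hS, ?_⟩
  intro x hx
  rw [Finset.mem_map] at hx
  obtain ⟨y, hy, rfl⟩ := hx
  obtain ⟨a, ha, b, hb, c, hc, h1, h2, h3, h4, h5, h6⟩ := h y hy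
  refine ⟨e a, Finset.mem_map_of_mem _ ha, e b, Finset.mem_map_of_mem _ hb, e c,
    Finset.mem_map_of_mem _ hc, ?_, ?_, ?_, ?_, ?_, ?_⟩
  · exact fun he => h1 (e.injective he)
  · exact fun he => h2 (e.injective he)
  · exact fun he => h3 (e.injective he)
  · exact e.map_adj_iff.2 h4
  · exact e.map_adj_iff.2 h5
  · exact e.map_adj_iff.2 h6

lemma core_pet : Core (lim pet 10) := by
  refine ⟨Finset.range 10, ⟨0, by simp⟩, ?_⟩
  have key : ∀ x : Fin 10, ∃ a b c : Fin 10, a ≠ b ∧ a ≠ c ∧ b ≠ c ∧ petE x a = true ∧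
      petE x b = true ∧ petE x c = true := by decide +kernel
  intro x hx
  rw [Finset.mem_range] at hx
  obtain ⟨a, b, c, h1, h2, h3, h4, h5, h6⟩ := key ⟨x, hx⟩
  refine ⟨a, by simp, b, by simp, c, by simp, ?_, ?_, ?_, ⟨0, hx, a.2, h4⟩, ⟨0, hx, b.2, h5⟩,
    ⟨0, hx, c.2, h6⟩⟩
  · exact fun he => h1 (Fin.ext he)
  · exact fun he => h2 (Fin.ext he)
  · exact fun he => h3 (Fin.ext he)

/-- each vertex of the second graph has at most two smaller neighbours -/
lemma down_two (n : ℕ) : ∀ v, ∃ a b, ∀ w < v, (seq (⊥ : SimpleGraph ℕ) 0 n).Adj v w → w = a ∨ w = b := by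
  induction n with
  | zero => intro v; exact ⟨0, 0, fun w _ h => absurd h (by simp [seq])⟩
  | succ n ih =>
    intro v
    by_cases hv : v = 0 + n
    · refine ⟨(Nat.unpair (Nat.unpair n).1).1, (Nat.unpair (Nat.unpair n).1).2, ?_⟩
      intro w hw h
      rcases h with h | ⟨hc, h⟩
      · have := seq_lt bot_lt n _ _ h
        omega
      · rcases h with ⟨_, h⟩ | ⟨h, _⟩
        · exact h
        · omega
    · obtain ⟨a, b, hab⟩ := ih v
      refine ⟨a, b, fun w hw h => ?_⟩
      rcases h with h | ⟨⟨h1, h2, _⟩, h⟩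
      · exact hab w hw h
      · omega

lemma not_core_bot : ¬ Core (lim (⊥ : SimpleGraph ℕ) 0) := by
  rintro ⟨S, hS, h⟩
  let v := S.max' hS
  obtain ⟨a, ha, b, hb, c, hc, h1, h2, h3, ⟨i, h4⟩, ⟨j, h5⟩, ⟨k, h6⟩⟩ := h v (S.max'_mem hS)
  have hi : i ≤ i + j + k := by omega
  have hj : j ≤ i + j + k := by omega
  have hk : k ≤ i + j + k := by omega
  have h4' := seq_mono hi h4
  have h5' := seq_mono hj h5
  have h6' := seq_mono hk h6
  obtain ⟨p, q, hpq⟩ := down_two (i + j + k) v
  have hlt : ∀ w ∈ S, (seq (⊥ : SimpleGraph ℕ) 0 (i + j + k)).Adj v w → w < v := by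
    intro w hw hadj
    exact lt_of_le_of_ne (S.le_max' w hw) (fun e => (seq _ 0 (i + j + k)).loopless.irrefl v (e ▸ hadj))
  have ea := hpq a (hlt a ha h4') h4'
  have eb := hpq b (hlt b hb h5') h5'
  have ec := hpq c (hlt c hc h6') h6'
  omega

end Pool.Agent.Helper9.Tied
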